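import Pool.Agent.Flip_h28.Defs

/-! # Coordinates at smooth points -/

open scoped KaehlerDifferential

namespace Flip28

variable {k K : Type*} [Field k] [Field K] [Algebra k K] {n : ℕ}
  (b : Module.Basis (Fin n) K Ω[K⁄k]) {X : Set (Subalgebra k K)}

/-- the indices `i < d` -/
def low (n d : ℕ) : Finset (Fin n) := Finset.univ.filter (fun i => (i : ℕ) < d)

@[simp] theorem mem_low {n d : ℕ} {i : Fin n} : i ∈ low n d ↔ (i : ℕ) < d := by
  simp [low]

/-- `x₁, ..., xₙ` are coordinates at `A`: `x₁, ..., x_d` generate the maximal ideal and the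
differentials `dx₁, ..., dxₙ` generate all differentials. -/
structure IsCoord (A : Subalgebra k K) (d : ℕ) (x : Fin n → K) : Prop where
  mem : ∀ i, x i ∈ A
  ne : jac b x ≠ 0
  span : ∀ f ∈ A, ∃ a : Fin n → K, (∀ i, a i ∈ A) ∧ KaehlerDifferential.D k K f =
    ∑ i, a i • KaehlerDifferential.D k K (x i)
  nonunit : ∀ i : Fin n, (i : ℕ) < d → (x i)⁻¹ ∉ A
  gen : ∀ f ∈ A, f⁻¹ ∉ A → ∃ a : Fin n → K, (∀ i, a i ∈ A) ∧
    f = ∑ i ∈ low n d, a i * x i
  dim : ringKrullDim A = d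
  le : d ≤ n

end Flip28
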