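import Pool.Agent.Flip_h28.Loc

/-! # Comparison with Mathlib's localizations, Noetherian property, valuation rings -/

namespace Flip28

variable {k K : Type*} [Field k] [Field K] [Algebra k K]

theorem LocAlg_unit {A : Subalgebra k K} (a : A) :
    IsUnit a ↔ (a : K) ≠ 0 ∧ (a : K)⁻¹ ∈ A := by
  constructor
  · intro h
    obtain ⟨w, hw⟩ := h.exists_right_inv
    have h3 : (a : K) * (w : K) = 1 := congrArg Subtype.val hw
    have h0 : (a : K) ≠ 0 := by
      intro h
      rw [h, zero_mul] at h3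
      exact zero_ne_one h3
    refine ⟨h0, ?_⟩
    rw [inv_eq_of_mul_eq_one_right h3]
    exact w.2
  · rintro ⟨h0, h1⟩
    refine IsUnit.of_mul_eq_one ⟨(a : K)⁻¹, h1⟩ ?_
    apply Subtype.ext
    exact mul_inv_cancel₀ h0

theorem LocAlg_frac (A : Subalgebra k K)
    (h : ∀ z : K, ∃ a ∈ A, ∃ b ∈ A, b ≠ 0 ∧ z = a / b) : IsFractionRing A K := by
  show IsLocalization _ K
  rw [isLocalization_iff]
  refine ⟨?_, ?_, ?_⟩
  · rintro ⟨y, hy⟩
    refine IsUnit.mk0 _ fun h0 => nonZeroDivisors.ne_zero hy (Subtype.ext h0)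
  · intro z
    obtain ⟨a, ha, b, hb, hb0, e⟩ := h z
    refine ⟨(⟨a, ha⟩, ⟨⟨b, hb⟩, mem_nonZeroDivisors_of_ne_zero fun h0 => hb0 ?_⟩), ?_⟩
    · exact congrArg Subtype.val h0
    · show z * b = a
      rw [e, div_mul_cancel₀ a hb0]
  · intro x y hxy
    refine ⟨1, ?_⟩
    have h1 : (x : K) = (y : K) := hxy
    rw [Subtype.ext h1]

/-- `A` is a localization of `R` at a prime in Mathlib's sense -/
theorem IsLoc.isLocalization {R A : Subalgebra k K} (h : IsLoc R A) :
    letI := (Subalgebra.inclusion h.1).toRingHom.toAlgebra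
    ∃ (p : Ideal R) (hp : p.IsPrime), (∀ x : R, x ∈ p ↔ x = 0 ∨ (x : K)⁻¹ ∉ A) ∧
      IsLocalization.AtPrime A p := by
  letI := (Subalgebra.inclusion h.1).toRingHom.toAlgebra
  haveI := h.2.1
  have hmap : ∀ x : R, ((algebraMap R A x : A) : K) = (x : K) := fun x => rfl
  refine ⟨(IsLocalRing.maximalIdeal A).comap (algebraMap R A), inferInstance, fun x => ?_, ?_⟩
  · rw [Ideal.mem_comap, IsLocalRing.mem_maximalIdeal, mem_nonunits_iff, LocAlg_unit, hmap,
      not_and_or, not_not]
    constructor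
    · rintro (h1 | h1)
      · exact Or.inl (Subtype.ext h1)
      · exact Or.inr h1
    · rintro (h1 | h1)
      · exact Or.inl (by rw [h1]; rfl)
      · exact Or.inr h1
  · show IsLocalization _ A
    rw [isLocalization_iff]
    refine ⟨?_, ?_, ?_⟩
    · rintro ⟨y, hy⟩
      by_contra hu
      exact hy (Ideal.mem_comap.2 ((IsLocalRing.mem_maximalIdeal _).2 hu))
    · intro z
      obtain ⟨r, hr, s, hs, hsA, e⟩ := h.2.2 z z.2
      by_cases hs0 : s = 0
      · have hz : z = 0 := by
          apply Subtype.ext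
          rw [e, hs0, inv_zero, mul_zero]
          rfl
        refine ⟨(0, 1), ?_⟩
        rw [hz, zero_mul, map_zero]
      · refine ⟨(⟨r, hr⟩, ⟨⟨s, hs⟩, fun hmem => ?_⟩), ?_⟩
        · have hmem' := (IsLocalRing.mem_maximalIdeal _).1 (Ideal.mem_comap.1 hmem)
          rw [mem_nonunits_iff, LocAlg_unit] at hmem'
          exact hmem' ⟨hs0, hsA⟩
        · apply Subtype.ext
          show (z : K) * s = r
          rw [e, mul_assoc, inv_mul_cancel₀ hs0, mul_one]
    · intro x y hxy
      refine ⟨1, ?_⟩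
      have h1 : (x : K) = (y : K) := by
        rw [← hmap, ← hmap, hxy]
      rw [Subtype.ext h1]

theorem IsLoc.isNoetherianRing {R A : Subalgebra k K} (hR : R.FG) (h : IsLoc R A) :
    IsNoetherianRing A := by
  letI := (Subalgebra.inclusion h.1).toRingHom.toAlgebra
  obtain ⟨p, hp, -, hl⟩ := h.isLocalization
  haveI : Algebra.FiniteType k R := R.fg_iff_finiteType.1 hR
  haveI : IsNoetherianRing R := Algebra.FiniteType.isNoetherianRing k R
  exact IsLocalization.isNoetherianRing p.primeCompl A inferInstance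

theorem IsLoc.essFiniteType {R A : Subalgebra k K} (hR : R.FG) (h : IsLoc R A) :
    Algebra.EssFiniteType k A := by
  letI := (Subalgebra.inclusion h.1).toRingHom.toAlgebra
  obtain ⟨p, hp, -, hl⟩ := h.isLocalization
  haveI : Algebra.FiniteType k R := R.fg_iff_finiteType.1 hR
  haveI : Algebra.EssFiniteType R A := Algebra.EssFiniteType.of_isLocalization A p.primeCompl
  haveI : IsScalarTower k R A := IsScalarTower.of_algebraMap_eq fun _ => rfl
  exact Algebra.EssFiniteType.comp k R A

theorem isFractionRing_of_le {R A : Subalgebra k K} (hR : IsFractionRing R K) (h : R ≤ A) :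
    IsFractionRing A K := by
  refine LocAlg_frac A fun z => ?_
  obtain ⟨a, b, hb, e⟩ := IsFractionRing.div_surjective (A := R) z
  refine ⟨a, h a.2, b, h b.2, ?_, e.symm⟩
  intro h0
  exact nonZeroDivisors.ne_zero hb (Subtype.ext h0)

theorem IsLoc.isFractionRing_left {R A : Subalgebra k K} (hA : IsFractionRing A K)
    (h : IsLoc R A) : IsFractionRing R K := by
  refine LocAlg_frac R fun z => ?_
  obtain ⟨a, b, hb, e⟩ := IsFractionRing.div_surjective (A := A) z
  have hb0 : (b : K) ≠ 0 := fun h0 => nonZeroDivisors.ne_zero hb (Subtype.ext h0)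
  obtain ⟨r, hr, s, hs, hsA, ea⟩ := h.2.2 a a.2
  obtain ⟨u, hu, v, hv, hvA, eb⟩ := h.2.2 b b.2
  have hu0 : u ≠ 0 := by
    rintro rfl
    exact hb0 (by rw [eb, zero_mul])
  by_cases hs0 : s = 0
  · refine ⟨0, R.zero_mem, 1, R.one_mem, one_ne_zero, ?_⟩
    rw [← e]
    change (a : K) / (b : K) = _
    rw [ea, hs0, inv_zero, mul_zero, zero_div, zero_div]
  · refine ⟨r * v, R.mul_mem hr hv, s * u, R.mul_mem hs hu, mul_ne_zero hs0 hu0, ?_⟩
    rw [← e]
    change (a : K) / (b : K) = _
    rw [ea, eb, div_eq_mul_inv, div_eq_mul_inv, mul_inv, mul_inv, inv_inv]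
    ring

/-- existence of valuation rings dominating a local ring (Chevalley;
`LocalSubring.exists_le_valuationSubring`) -/
theorem exists_val_dom (A : Subalgebra k K) (hA : IsLocalRing A) : ∃ V, IsVal V ∧ Dom A V := by
  haveI : IsLocalRing A.toSubring := hA
  obtain ⟨B, hB⟩ := LocalSubring.exists_le_valuationSubring (LocalSubring.mk A.toSubring)
  obtain ⟨hle, hloc⟩ := hB
  have hle' : ∀ x ∈ A, x ∈ B := fun x hx => hle hx
  refine ⟨{ B.toSubring with
    algebraMap_mem' := fun c => hle' _ (A.algebraMap_mem c) }, ?_, ?_, ?_⟩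
  · intro x
    exact B.mem_or_inv_mem x
  · intro x hx
    exact hle' x hx
  · intro x hx hxB
    by_cases hx0 : x = 0
    · rw [hx0, inv_zero]
      exact A.zero_mem
    have hxB' : x⁻¹ ∈ B := hxB
    have h1 : IsUnit (Subring.inclusion hle ⟨x, hx⟩) := by
      refine IsUnit.of_mul_eq_one ⟨x⁻¹, hxB'⟩ ?_
      apply Subtype.ext
      exact mul_inv_cancel₀ hx0
    have h2 : IsUnit (⟨x, hx⟩ : A.toSubring) := hloc.map_nonunit _ h1
    obtain ⟨w, hw⟩ := h2.exists_right_inv
    have h3 : x * (w : K) = 1 := congrArg Subtype.val hw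
    have h4 : x⁻¹ = (w : K) := inv_eq_of_mul_eq_one_right h3
    rw [h4]
    exact w.2

end Flip28
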