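import Pool.Agent.Flip_h28.CoordB

/-! # Discrepancies over smooth points -/

open scoped KaehlerDifferential

namespace Flip28

variable {k K : Type*} [Field k] [Field K] [Algebra k K] {n : ℕ}
  (b : Module.Basis (Fin n) K Ω[K⁄k]) {X : Set (Subalgebra k K)}

theorem CoordC_aux1 {E : Subalgebra k K} (hE : IsPrimeDiv E) {t : K} (ht : t ≠ 0)
    (ho : ord E t = 1) (S : Finset (Fin n)) (w : Fin n → K) (hw : ∀ i, w i ∈ E) (m : Fin n → ℕ)
    (h0 : b.det (fun i => (if i ∈ S then t else 1) • KaehlerDifferential.D k K (w i) +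
      (if i ∈ S then ((m i : K) + 1) * w i else 0) • KaehlerDifferential.D k K t) ≠ 0) :
    (S.card : ℤ) - 1 - cord b E ≤
      ord E (b.det (fun i => (if i ∈ S then t else 1) • KaehlerDifferential.D k K (w i) +
      (if i ∈ S then ((m i : K) + 1) * w i else 0) • KaehlerDifferential.D k K t)) := by
  classical
  have htE : t ∈ E := (mem_iff hE.1 ht).2 (by rw [ho]; norm_num)
  have hexp : b.det (fun i => (if i ∈ S then t else 1) • KaehlerDifferential.D k K (w i) +
      (if i ∈ S then ((m i : K) + 1) * w i else 0) • KaehlerDifferential.D k K t) =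
      ∑ s : Finset (Fin n), (∏ i, (if i ∈ s then (if i ∈ S then t else 1) else
        (if i ∈ S then ((m i : K) + 1) * w i else 0))) *
        jac b (fun i => if i ∈ s then w i else t) := by
    have := b.det.toMultilinearMap.map_add_univ
      (fun i => (if i ∈ S then t else 1) • KaehlerDifferential.D k K (w i))
      (fun i => (if i ∈ S then ((m i : K) + 1) * w i else 0) • KaehlerDifferential.D k K t)
    refine this.trans (Finset.sum_congr rfl fun s _ => ?_)
    have h2 : s.piecewise
        (fun i => (if i ∈ S then t else 1) • KaehlerDifferential.D k K (w i))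
        (fun i => (if i ∈ S then ((m i : K) + 1) * w i else 0) •
          KaehlerDifferential.D k K t) =
        fun i => (if i ∈ s then (if i ∈ S then t else 1) else
          (if i ∈ S then ((m i : K) + 1) * w i else 0)) •
          KaehlerDifferential.D k K (if i ∈ s then w i else t) := by
      funext i
      by_cases hi : i ∈ s
      · simp only [Finset.piecewise_eq_of_mem _ _ _ hi, if_pos hi]
      · simp only [Finset.piecewise_eq_of_notMem _ _ _ hi, if_neg hi]
    rw [h2, MultilinearMap.map_smul_univ]
    rfl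
  rw [hexp] at h0 ⊢
  refine le_ord_sum hE.1 _ _ _ (fun s _ hs => ?_) h0
  have hprod : (∏ i, (if i ∈ s then (if i ∈ S then t else 1) else
        (if i ∈ S then ((m i : K) + 1) * w i else 0))) ≠ 0 := left_ne_zero_of_mul hs
  have hjac : jac b (fun i => if i ∈ s then w i else t) ≠ 0 := right_ne_zero_of_mul hs
  rw [ord_mul hE.1 hprod hjac, ord_prod hE.1 _ _ (fun i _ =>
    Finset.prod_ne_zero_iff.1 hprod i (Finset.mem_univ i))]
  have hc := le_cord b hE (f := fun i => if i ∈ s then w i else t) (fun i => by
    by_cases hi : i ∈ s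
    · simpa [hi] using hw i
    · simpa [hi] using htE) hjac
  have hone : (sᶜ : Finset (Fin n)).card ≤ 1 := by
    rw [Finset.card_le_one]
    intro i hi j hj
    by_contra hij
    apply hjac
    unfold jac
    refine AlternatingMap.map_eq_zero_of_eq _ _ (i := i) (j := j) ?_ hij
    rw [Finset.mem_compl] at hi hj
    simp [hi, hj]
  have hsum : (S.card : ℤ) - 1 ≤ ∑ i, ord E (if i ∈ s then (if i ∈ S then t else 1) else
        (if i ∈ S then ((m i : K) + 1) * w i else 0)) := by
    have h1 : ∀ i : Fin n, (if i ∈ s ∩ S then (1 : ℤ) else 0) ≤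
        ord E (if i ∈ s then (if i ∈ S then t else 1) else
        (if i ∈ S then ((m i : K) + 1) * w i else 0)) := by
      intro i
      have hne := Finset.prod_ne_zero_iff.1 hprod i (Finset.mem_univ i)
      by_cases hi : i ∈ s <;> by_cases hi' : i ∈ S
      · simp [hi, hi', ho]
      · simp [hi, hi', ord_one hE.1]
      · simp only [hi, hi', if_false, if_true, Finset.mem_inter, false_and] at hne ⊢
        refine (mem_iff hE.1 hne).1 (E.mul_mem (E.add_mem ?_ E.one_mem) (hw i))
        exact natCast_mem E (m i)
      · simp [hi, hi'] at hne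
    have h2 : ∑ i : Fin n, (if i ∈ s ∩ S then (1 : ℤ) else 0) = ((s ∩ S).card : ℤ) := by
      rw [Finset.sum_ite_mem, Finset.univ_inter]
      simp
    have h3 : S.card ≤ (s ∩ S).card + (sᶜ : Finset (Fin n)).card := by
      have : S ⊆ (s ∩ S) ∪ sᶜ := by
        intro i hi
        by_cases his : i ∈ s
        · exact Finset.mem_union_left _ (Finset.mem_inter.2 ⟨his, hi⟩)
        · exact Finset.mem_union_right _ (Finset.mem_compl.2 his)
      exact (Finset.card_le_card this).trans (Finset.card_union_le _ _)
    have h4 := Finset.sum_le_sum (fun i (_ : i ∈ (Finset.univ : Finset (Fin n))) => h1 i)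
    rw [h2] at h4
    omega
  omega

/-- `∑_{i < d} ord_E x_i - 1 ≤ a(E, X)`.

Proof: `t` a uniformizer of `E`, `x_i = t^{a_i} w_i` for `i < d`; then
`dx_i = t^{a_i - 1} (t dw_i + a_i w_i dt)`; expand the determinant
`jac x = t^{∑(a_i - 1)} det(.., t dw_i + a_i w_i dt, ..)`: a term containing `dt` at least twice
vanishes, the other ones are divisible by `t^{d-1}` in the sense that they are
`t^{d-1} * (element of E) * jac (elements of E)`, or `t^d * ..`. -/
theorem IsCoord.disc_ge (hX : IsCompleteNormal X) {A E : Subalgebra k K} (hA : A ∈ X) {d : ℕ}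
    {x : Fin n → K} (hx : IsCoord b A d x) (hE : IsPrimeDiv E) (hd : Dom A E) :
    ((∑ i ∈ low n d, ord E (x i) : ℤ) : ℚ) - 1 ≤ disc b X E := by
  classical
  rw [hx.disc_eq b hX hA hE hd]
  have key : (∑ i ∈ low n d, ord E (x i)) - 1 ≤ ord E (jac b x) + cord b E := by
    obtain ⟨t, ht, ho⟩ := exists_ord_one hE.1
    have hpos : ∀ i ∈ low n d, x i ≠ 0 ∧ 0 < ord E (x i) := by
      intro i hi
      have h1 := hx.nonunit i (mem_low.1 hi)
      have h0 : x i ≠ 0 := by
        intro h
        rw [h, inv_zero] at h1
        exact h1 A.zero_mem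
      exact ⟨h0, (ord_pos_iff hE.1 h0).2 fun h => h1 (hd.2 _ (hx.mem i) h)⟩
    let m : Fin n → ℕ := fun i => if i ∈ low n d then (ord E (x i) - 1).toNat else 0
    let w : Fin n → K := fun i => if i ∈ low n d then x i * (t ^ (m i + 1))⁻¹ else x i
    have hm : ∀ i ∈ low n d, ((m i : ℕ) : ℤ) = ord E (x i) - 1 := by
      intro i hi
      simp only [m, if_pos hi]
      have := (hpos i hi).2
      omega
    have hw : ∀ i, w i ∈ E := by
      intro i
      by_cases hi : i ∈ low n d
      · simp only [w, if_pos hi]
        have h0 := (hpos i hi).1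
        have ht' : t ^ (m i + 1) ≠ 0 := pow_ne_zero _ ht
        rw [mem_iff hE.1 (mul_ne_zero h0 (inv_ne_zero ht')), ord_mul hE.1 h0 (inv_ne_zero ht'),
          ord_inv hE.1, ord_pow hE.1 ht, ho]
        have := hm i hi
        push_cast
        omega
      · simp only [w, if_neg hi]
        exact hd.1 (hx.mem i)
    have hD : ∀ i, KaehlerDifferential.D k K (x i) = (t ^ m i) •
        ((if i ∈ low n d then t else 1) • KaehlerDifferential.D k K (w i) +
        (if i ∈ low n d then ((m i : K) + 1) * w i else 0) • KaehlerDifferential.D k K t) := by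
      intro i
      by_cases hi : i ∈ low n d
      · have hxi : x i = t ^ (m i + 1) * w i := by
          simp only [w, if_pos hi]
          field_simp
        simp only [if_pos hi]
        conv_lhs => rw [hxi]
        rw [Derivation.leibniz, Derivation.leibniz_pow]
        simp only [Nat.add_sub_cancel, smul_add, smul_smul, ← Nat.cast_smul_eq_nsmul K]
        rw [show w i * (((m i + 1 : ℕ) : K) * t ^ m i) = t ^ m i * (((m i : K) + 1) * w i) by
          push_cast
          ring, pow_succ]
      · have hmi : m i = 0 := by simp only [m, if_neg hi]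
        have hwi : w i = x i := by simp only [w, if_neg hi]
        simp [hi, hmi, hwi]
    have hj : jac b x = (∏ i, t ^ m i) *
        b.det (fun i => (if i ∈ low n d then t else 1) • KaehlerDifferential.D k K (w i) +
        (if i ∈ low n d then ((m i : K) + 1) * w i else 0) • KaehlerDifferential.D k K t) := by
      unfold jac
      simp_rw [hD]
      exact b.det.toMultilinearMap.map_smul_univ _ _
    have hne := hx.ne
    rw [hj] at hne ⊢
    have hn1 := left_ne_zero_of_mul hne
    have hn2 := right_ne_zero_of_mul hne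
    rw [ord_mul hE.1 hn1 hn2, ord_prod hE.1 _ _ (fun i _ => pow_ne_zero _ ht)]
    have h5 := CoordC_aux1 b hE ht ho (low n d) w hw m hn2
    have h6 : ∑ i, ord E (t ^ m i) = (∑ i ∈ low n d, ord E (x i)) - ((low n d).card : ℤ) := by
      have h7 : ∀ i, ord E (t ^ m i) = (m i : ℤ) := fun i => by
        rw [ord_pow hE.1 ht, ho, mul_one]
      simp_rw [h7]
      have h8 : ∑ i, (m i : ℤ) = ∑ i ∈ low n d, (m i : ℤ) := by
        symm
        apply Finset.sum_subset (Finset.subset_univ _)
        intro i _ hi
        simp only [m, if_neg hi, Nat.cast_zero]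
      rw [h8, Finset.sum_congr rfl hm, Finset.sum_sub_distrib]
      simp
    rw [h6]
    linarith
  have : ((∑ i ∈ low n d, ord E (x i) : ℤ) : ℚ) - 1 =
      (((∑ i ∈ low n d, ord E (x i)) - 1 : ℤ) : ℚ) := by push_cast; ring
  rw [this]
  exact_mod_cast key

theorem IsCoord.disc_ge_dim (hX : IsCompleteNormal X) {A E : Subalgebra k K} (hA : A ∈ X)
    {d : ℕ} {x : Fin n → K} (hx : IsCoord b A d x) (hE : IsPrimeDiv E) (hd : Dom A E) :
    (d : ℚ) - 1 ≤ disc b X E := by
  refine le_trans ?_ (hx.disc_ge b hX hA hE hd)
  have hcard : (low n d).card = d := by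
    have h1 : low n d = Finset.univ.filter (fun i : Fin n => (i : ℕ) < d) := rfl
    rw [h1, Fin.card_filter_val_lt]
    exact min_eq_right hx.le
  have h2 : ((low n d).card : ℤ) ≤ ∑ i ∈ low n d, ord E (x i) := by
    rw [Finset.card_eq_sum_ones]
    push_cast
    refine Finset.sum_le_sum fun i hi => ?_
    have h1 := hx.nonunit i (mem_low.1 hi)
    have h0 : x i ≠ 0 := by
      intro h
      rw [h, inv_zero] at h1
      exact h1 A.zero_mem
    have := (ord_pos_iff hE.1 h0).2 fun h => h1 (hd.2 _ (hx.mem i) h)
    omega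
  rw [hcard] at h2
  have h3 : (d : ℚ) ≤ ((∑ i ∈ low n d, ord E (x i) : ℤ) : ℚ) := by exact_mod_cast h2
  linarith

end Flip28
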