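import Pool.Agent.Flip_h28.LocAlg

/-! # Jacobian determinants -/

open scoped KaehlerDifferential

namespace Flip28

variable {k K : Type*} [Field k] [Field K] [Algebra k K] {n : ℕ}
  (b : Module.Basis (Fin n) K Ω[K⁄k])

/-- change of functions: if `dg_j = ∑ a_{ji} df_i` then `jac g = det a * jac f` -/
theorem jac_eq_det (f g : Fin n → K) (a : Matrix (Fin n) (Fin n) K)
    (h : ∀ j, KaehlerDifferential.D k K (g j) =
      ∑ i, a j i • KaehlerDifferential.D k K (f i)) : jac b g = a.det * jac b f := by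
  unfold jac
  rw [Module.Basis.det_apply, Module.Basis.det_apply]
  have h1 : b.toMatrix (fun i => KaehlerDifferential.D k K (g i)) =
      b.toMatrix (fun i => KaehlerDifferential.D k K (f i)) * a.transpose := by
    ext i j
    rw [Module.Basis.toMatrix_apply, h j, map_sum, Finsupp.finsetSum_apply, Matrix.mul_apply]
    refine Finset.sum_congr rfl fun l _ => ?_
    rw [map_smul, Finsupp.smul_apply, Module.Basis.toMatrix_apply, Matrix.transpose_apply,
      smul_eq_mul, mul_comm]
  rw [h1, Matrix.det_mul, Matrix.det_transpose, mul_comm]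

/-- the differentials with `jac ≠ 0` form a basis of `Ω[K⁄k]` -/
theorem exists_coeff {f : Fin n → K} (hf : jac b f ≠ 0) (g : K) :
    ∃! a : Fin n → K, KaehlerDifferential.D k K g =
      ∑ i, a i • KaehlerDifferential.D k K (f i) := by
  have h1 : LinearIndependent K (fun i => KaehlerDifferential.D k K (f i)) ∧
      Submodule.span K (Set.range (fun i => KaehlerDifferential.D k K (f i))) = ⊤ := by
    rw [Module.Basis.is_basis_iff_det b]
    exact isUnit_iff_ne_zero.2 hf
  have h2 : KaehlerDifferential.D k K g ∈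
      Submodule.span K (Set.range (fun i => KaehlerDifferential.D k K (f i))) := by
    rw [h1.2]
    trivial
  obtain ⟨a, ha⟩ := (Submodule.mem_span_range_iff_exists_fun K).1 h2
  refine ⟨a, ha.symm, fun c hc => ?_⟩
  have h3 : ∑ i, (c i - a i) • KaehlerDifferential.D k K (f i) = 0 := by
    simp only [sub_smul, Finset.sum_sub_distrib]
    rw [← hc, ha, sub_self]
  funext i
  exact sub_eq_zero.1 (Fintype.linearIndependent_iff.1 h1.1 _ h3 i)

/-- If `E` is a localization of `R` and all `dr`, `r ∈ G`, where `G` generates `R` as an algebra,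
are `E`-linear combinations of the `df_i`, then so are all `dg`, `g ∈ E`. -/
theorem coeff_of_isLoc {R E : Subalgebra k K} (h : IsLoc R E) (G : Set K)
    (hG : R = Algebra.adjoin k G) {ι : Type*} [Fintype ι] (f : ι → K)
    (hr : ∀ r ∈ G, ∃ a : ι → K, (∀ i, a i ∈ E) ∧
      KaehlerDifferential.D k K r = ∑ i, a i • KaehlerDifferential.D k K (f i)) :
    ∀ g ∈ E, ∃ a : ι → K, (∀ i, a i ∈ E) ∧
      KaehlerDifferential.D k K g = ∑ i, a i • KaehlerDifferential.D k K (f i) := by
  have hR : ∀ r ∈ R, ∃ a : ι → K, (∀ i, a i ∈ E) ∧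
      KaehlerDifferential.D k K r = ∑ i, a i • KaehlerDifferential.D k K (f i) := by
    intro r hrR
    have hsub : R ≤ E := h.1
    rw [hG] at hrR hsub
    induction hrR using Algebra.adjoin_induction with
    | mem x hx => exact hr x hx
    | algebraMap c =>
      refine ⟨fun _ => 0, fun i => E.zero_mem, ?_⟩
      rw [Derivation.map_algebraMap]
      simp
    | add x y hx hy ihx ihy =>
      obtain ⟨a, ha, ha'⟩ := ihx
      obtain ⟨c, hc, hc'⟩ := ihy
      refine ⟨fun i => a i + c i, fun i => E.add_mem (ha i) (hc i), ?_⟩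
      rw [map_add, ha', hc', ← Finset.sum_add_distrib]
      exact Finset.sum_congr rfl fun i _ => (add_smul _ _ _).symm
    | mul x y hx hy ihx ihy =>
      obtain ⟨a, ha, ha'⟩ := ihx
      obtain ⟨c, hc, hc'⟩ := ihy
      refine ⟨fun i => x * c i + y * a i, fun i => E.add_mem (E.mul_mem (hsub hx) (hc i))
        (E.mul_mem (hsub hy) (ha i)), ?_⟩
      rw [Derivation.leibniz, ha', hc', Finset.smul_sum, Finset.smul_sum,
        ← Finset.sum_add_distrib]
      refine Finset.sum_congr rfl fun i _ => ?_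
      rw [smul_smul, smul_smul, add_smul]
  intro g hg
  obtain ⟨r, hr1, s, hs, hsi, rfl⟩ := h.2.2 g hg
  obtain ⟨a, ha, ha'⟩ := hR r hr1
  obtain ⟨c, hc, hc'⟩ := hR s hs
  refine ⟨fun i => s⁻¹ * a i - r * s⁻¹ ^ 2 * c i, fun i => E.sub_mem (E.mul_mem hsi (ha i))
    (E.mul_mem (E.mul_mem (h.1 hr1) (E.pow_mem hsi 2)) (hc i)), ?_⟩
  rw [Derivation.leibniz, Derivation.leibniz_inv, ha', hc', Finset.smul_sum, Finset.smul_sum,
    Finset.smul_sum, ← Finset.sum_add_distrib]
  refine Finset.sum_congr rfl fun i _ => ?_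
  rw [smul_smul, smul_smul, smul_smul, ← add_smul]
  congr 1
  ring

end Flip28
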