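import Pool.Agent.Flip_h28.Ord
import Pool.Agent.Flip_h28.CordA

/-! # The order of the canonical form along a prime divisor -/

open scoped KaehlerDifferential

namespace Flip28

variable {k K : Type*} [Field k] [Field K] [Algebra k K] {n : ℕ}
  (b : Module.Basis (Fin n) K Ω[K⁄k])

theorem Cord_gen {E : Subalgebra k K} (hE : IsPrimeDiv E) :
    ∃ G : Finset K, (∀ r ∈ G, r ∈ E) ∧ ∀ g ∈ E, ∃ a : G → K, (∀ i, a i ∈ E) ∧
      KaehlerDifferential.D k K g = ∑ i, a i • KaehlerDifferential.D k K (i : K) := by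
  classical
  obtain ⟨-, R, ⟨G, hG⟩, hRE⟩ := hE
  refine ⟨G, fun r hr => hRE.1 (hG ▸ Algebra.subset_adjoin hr), ?_⟩
  refine coeff_of_isLoc hRE (G : Set K) hG.symm (fun i : G => (i : K)) ?_
  intro r hr
  refine ⟨fun i => if (i : K) = r then 1 else 0, fun i => ?_, ?_⟩
  · show (if (i : K) = r then (1 : K) else 0) ∈ E
    split_ifs
    · exact E.one_mem
    · exact E.zero_mem
  · rw [Finset.sum_eq_single (⟨r, hr⟩ : G)]
    · simp
    · intro i _ hi
      have : (i : K) ≠ r := fun h => hi (Subtype.ext h)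
      simp [this]
    · intro h
      exact absurd (Finset.mem_univ _) h

theorem Cord_expand {ι : Type*} [Fintype ι] [DecidableEq ι] (r : ι → K) (f : Fin n → K)
    (a : Fin n → ι → K)
    (h : ∀ j, KaehlerDifferential.D k K (f j) = ∑ i, a j i • KaehlerDifferential.D k K (r i)) :
    jac b f = ∑ s : Fin n → ι, (∏ j, a j (s j)) * jac b (fun j => r (s j)) := by
  unfold jac
  have h1 : (fun i => KaehlerDifferential.D k K (f i)) =
      fun j => ∑ i, a j i • KaehlerDifferential.D k K (r i) := funext h
  rw [h1, ← AlternatingMap.coe_multilinearMap, MultilinearMap.map_sum]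
  refine Finset.sum_congr rfl fun s _ => ?_
  rw [MultilinearMap.map_smul_univ, smul_eq_mul]

/-- the set in the definition of `cord` is bounded above for a prime divisor: if `E` is a
localization of `k[r₁, ..., r_N]` then `jac f` is an `E`-linear combination of the finitely many
`jac (r ∘ s)`, `s : Fin n → Fin N`, for all `f` with values in `E` -/
theorem cord_bddAbove {E : Subalgebra k K} (hE : IsPrimeDiv E) :
    BddAbove {z : ℤ | ∃ f : Fin n → K, (∀ i, f i ∈ E) ∧ jac b f ≠ 0 ∧ z = - ord E (jac b f)} := by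
  classical
  obtain ⟨G, hGE, hG⟩ := Cord_gen hE
  obtain ⟨M, hM⟩ : ∃ M : ℤ, ∀ s : Fin n → G, M ≤ ord E (jac b (fun j => (s j : K))) := by
    obtain ⟨M, hM⟩ := (Set.finite_range (fun s : Fin n → G =>
      ord E (jac b (fun j => (s j : K))))).bddBelow
    exact ⟨M, fun s => hM ⟨s, rfl⟩⟩
  refine ⟨-M, ?_⟩
  rintro z ⟨f, hf, hj, rfl⟩
  choose a ha1 ha2 using fun j => hG (f j) (hf j)
  have h1 := Cord_expand b (fun i : G => (i : K)) f a ha2
  have h2 : M ≤ ord E (jac b f) := by
    rw [h1]
    refine le_ord_sum hE.1 _ _ _ ?_ (h1 ▸ hj)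
    intro s _ hs
    have hs1 : ∏ j, a j (s j) ≠ 0 := left_ne_zero_of_mul hs
    have hs2 : jac b (fun j => (s j : K)) ≠ 0 := right_ne_zero_of_mul hs
    rw [ord_mul hE.1 hs1 hs2]
    have h3 : 0 ≤ ord E (∏ j, a j (s j)) :=
      (mem_iff hE.1 hs1).1 (Subalgebra.prod_mem _ fun j _ => ha1 j (s j))
    have h4 := hM s
    linarith
  linarith

theorem le_cord {E : Subalgebra k K} (hE : IsPrimeDiv E) {f : Fin n → K} (hf : ∀ i, f i ∈ E)
    (hj : jac b f ≠ 0) : - ord E (jac b f) ≤ cord b E :=
  le_csSup (cord_bddAbove b hE) ⟨f, hf, hj, rfl⟩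

/-- the supremum is attained (there is `f` with values in `E` and `jac f ≠ 0`, because the
differentials of the elements of `E` span `Ω[K⁄k]`) -/
theorem exists_cord_eq {E : Subalgebra k K} (hE : IsPrimeDiv E) :
    ∃ f : Fin n → K, (∀ i, f i ∈ E) ∧ jac b f ≠ 0 ∧ cord b E = - ord E (jac b f) := by
  classical
  have hne : {z : ℤ | ∃ f : Fin n → K, (∀ i, f i ∈ E) ∧ jac b f ≠ 0 ∧
      z = - ord E (jac b f)}.Nonempty := by
    -- the differentials of elements of `E` span
    have hspan : Submodule.span K (Set.range (fun x : E => KaehlerDifferential.D k K (x : K))) =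
        ⊤ := by
      rw [eq_top_iff, ← KaehlerDifferential.span_range_derivation, Submodule.span_le]
      rintro _ ⟨x, rfl⟩
      by_cases hx : x ∈ E
      · exact Submodule.subset_span ⟨⟨x, hx⟩, rfl⟩
      · have hx' : x⁻¹ ∈ E := (hE.1.isVal x).resolve_left hx
        have hx0 : x ≠ 0 := fun h => hx (h ▸ E.zero_mem)
        have h1 : KaehlerDifferential.D k K x =
            (-(x ^ 2)) • KaehlerDifferential.D k K x⁻¹ := by
          rw [Derivation.leibniz_inv, smul_smul]
          have : -(x ^ 2) * -x⁻¹ ^ 2 = 1 := by field_simp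
          rw [this, one_smul]
        rw [SetLike.mem_coe, h1]
        exact Submodule.smul_mem _ _ (Submodule.subset_span ⟨⟨x⁻¹, hx'⟩, rfl⟩)
    by_contra hcon
    rw [Set.not_nonempty_iff_eq_empty] at hcon
    have hzero : ∀ f : Fin n → E, jac b (fun i => (f i : K)) = 0 := by
      intro f
      by_contra h0
      have : - ord E (jac b (fun i => (f i : K))) ∈ {z : ℤ | ∃ f : Fin n → K,
          (∀ i, f i ∈ E) ∧ jac b f ≠ 0 ∧ z = - ord E (jac b f)} :=
        ⟨fun i => (f i : K), fun i => (f i).2, h0, rfl⟩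
      rw [hcon] at this
      exact this
    obtain ⟨v, hv1, -⟩ : ∃ v : Fin n → E, LinearIndependent K
        (fun i => KaehlerDifferential.D k K (v i : K)) ∧ True := by
      obtain ⟨κ, a, -, hspan', hli⟩ := exists_linearIndependent' K
        (fun x : E => KaehlerDifferential.D k K (x : K))
      have hb : Module.Basis κ K Ω[K⁄k] := Module.Basis.mk hli (by
        rw [hspan', hspan])
      have hcard : Nonempty (κ ≃ Fin n) := ⟨hb.indexEquiv b⟩
      obtain ⟨e⟩ := hcard
      exact ⟨a ∘ e.symm, hli.comp _ e.symm.injective, trivial⟩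
    have h2 : jac b (fun i => (v i : K)) ≠ 0 := by
      unfold jac
      have h3 := (Module.Basis.is_basis_iff_det b
        (v := fun i => KaehlerDifferential.D k K (v i : K))).1 ⟨hv1, by
          have hfin : FiniteDimensional K Ω[K⁄k] := Module.Basis.finiteDimensional_of_finite b
          refine hv1.span_eq_top_of_card_eq_finrank' ?_
          rw [Module.finrank_eq_card_basis b]⟩
      exact h3.ne_zero
    exact h2 (hzero v)
  have h1 := Int.csSup_mem hne (cord_bddAbove b hE)
  obtain ⟨f, hf, hj, hz⟩ := h1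
  exact ⟨f, hf, hj, hz⟩

theorem cord_eq_of_span {E : Subalgebra k K} (hE : IsPrimeDiv E) {f : Fin n → K}
    (hf : ∀ i, f i ∈ E) (hj : jac b f ≠ 0)
    (h : ∀ g ∈ E, ∃ a : Fin n → K, (∀ i, a i ∈ E) ∧
      KaehlerDifferential.D k K g = ∑ i, a i • KaehlerDifferential.D k K (f i)) :
    cord b E = - ord E (jac b f) := by
  refine le_antisymm ?_ (le_cord b hE hf hj)
  obtain ⟨g, hg, hgj, hc⟩ := exists_cord_eq b hE
  rw [hc]
  choose a ha1 ha2 using fun j => h (g j) (hg j)
  have h1 := jac_eq_det b f g (Matrix.of a) ha2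
  have hdet : (Matrix.of a).det ≠ 0 := by
    intro h0
    rw [h0, zero_mul] at h1
    exact hgj h1
  have hdetE : (Matrix.of a).det ∈ E := by
    rw [Matrix.det_apply]
    refine Subalgebra.sum_mem _ fun σ _ => ?_
    have h3 : ∏ i, Matrix.of a (σ i) i ∈ E := Subalgebra.prod_mem _ fun i _ => ha1 _ _
    rcases Int.units_eq_one_or (Equiv.Perm.sign σ) with h4 | h4
    · rw [h4, one_smul]
      exact h3
    · rw [h4, Units.neg_smul, one_smul]
      exact Subalgebra.neg_mem _ h3
  rw [h1, ord_mul hE.1 hdet hj]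
  have h2 := (mem_iff hE.1 hdet).1 hdetE
  linarith

/-- conversely, functions attaining the order of `ω` generate all differentials of elements
of `E` (Cramer's rule: `jac` of `f` with `f i` replaced by `g` is `a i * jac f`) -/
theorem span_of_cord_eq {E : Subalgebra k K} (hE : IsPrimeDiv E) {f : Fin n → K}
    (hf : ∀ i, f i ∈ E) (hj : jac b f ≠ 0) (h : cord b E = - ord E (jac b f)) :
    ∀ g ∈ E, ∃ a : Fin n → K, (∀ i, a i ∈ E) ∧
      KaehlerDifferential.D k K g = ∑ i, a i • KaehlerDifferential.D k K (f i) := by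
  classical
  intro g hg
  obtain ⟨a, ha, -⟩ := exists_coeff b hj g
  refine ⟨a, fun i => ?_, ha⟩
  have h1 : jac b (Function.update f i g) = a i * jac b f := by
    unfold jac
    have h2 : (fun j => KaehlerDifferential.D k K (Function.update f i g j)) =
        Function.update (fun j => KaehlerDifferential.D k K (f j)) i
          (∑ l, a l • KaehlerDifferential.D k K (f l)) := by
      funext j
      by_cases hji : j = i
      · subst hji
        simp [ha]
      · simp [Function.update_of_ne hji]
    rw [h2, AlternatingMap.map_update_sum, Finset.sum_eq_single i]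
    · rw [AlternatingMap.map_update_smul, Function.update_eq_self, smul_eq_mul]
    · intro l _ hli
      rw [AlternatingMap.map_update_smul, AlternatingMap.map_update_self _ _ (Ne.symm hli),
        smul_zero]
    · intro h3
      exact absurd (Finset.mem_univ _) h3
  by_cases h0 : a i = 0
  · rw [h0]
    exact E.zero_mem
  have hne : jac b (Function.update f i g) ≠ 0 := by
    rw [h1]
    exact mul_ne_zero h0 hj
  have hle := le_cord b hE (f := Function.update f i g) (fun j => by
    by_cases hji : j = i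
    · subst hji
      simpa using hg
    · simpa [Function.update_of_ne hji] using hf j) hne
  rw [h, h1, ord_mul hE.1 h0 hj] at hle
  rw [mem_iff hE.1 h0]
  linarith

theorem kord_add {P : Subalgebra k K} (hP : IsDVR P) (m m' : ℤ) {g g' : K} (hg : g ≠ 0)
    (hg' : g' ≠ 0) : kord b (m + m') P (g * g') = kord b m P g + kord b m' P g' := by
  unfold kord
  rw [ord_mul hP hg hg']
  ring

theorem kord_zpow {P : Subalgebra k K} (hP : IsDVR P) (m j : ℤ) {g : K} (hg : g ≠ 0) :
    kord b (j * m) P (g ^ j) = j * kord b m P g := by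
  unfold kord
  rw [ord_zpow hP hg]
  ring

theorem kord_pow {P : Subalgebra k K} (hP : IsDVR P) (m : ℤ) (j : ℕ) {g : K} (hg : g ≠ 0) :
    kord b (j * m) P (g ^ j) = j * kord b m P g := by
  unfold kord
  rw [ord_pow hP hg]
  ring

theorem kord_inv {P : Subalgebra k K} (hP : IsDVR P) (m : ℤ) (g : K) :
    kord b (-m) P g⁻¹ = - kord b m P g := by
  unfold kord
  rw [ord_inv hP]
  ring

end Flip28
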