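import Pool.Agent.Flip_h28.Defs

/-! # Elementary properties of the order function of a discrete valuation ring

Everything is elementary: `P` is a subring of the field `K`, `t` a uniformizer, every `x ≠ 0` is
`u t^n` with `u, u⁻¹ ∈ P`; `n` is unique and independent of `t`. -/

namespace Flip28

variable {k K : Type*} [Field k] [Field K] [Algebra k K]

theorem IsUnif.ne_zero {P : Subalgebra k K} {t : K} (h : IsUnif P t) : t ≠ 0 := by
  rintro rfl
  exact h.2.1 (by rw [inv_zero]; exact P.zero_mem)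

/-- `x` has exponent `n` with respect to `t` -/
def Ord_E (P : Subalgebra k K) (t x : K) (n : ℤ) : Prop :=
  x * t ^ (-n) ∈ P ∧ (x * t ^ (-n))⁻¹ ∈ P

theorem Ord_unit_zpow {P : Subalgebra k K} {u : K} (h1 : u ∈ P) (h2 : u⁻¹ ∈ P) (n : ℤ) :
    u ^ n ∈ P := by
  cases n with
  | ofNat n =>
    rw [Int.ofNat_eq_natCast, zpow_natCast]
    exact P.pow_mem h1 n
  | negSucc n =>
    rw [zpow_negSucc, ← inv_pow]
    exact P.pow_mem h2 _

theorem Ord_zpow_mem {P : Subalgebra k K} {u : K} (h1 : u ∈ P) {n : ℤ} (hn : 0 ≤ n) :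
    u ^ n ∈ P := by
  obtain ⟨m, rfl⟩ := Int.eq_ofNat_of_zero_le hn
  rw [zpow_natCast]
  exact P.pow_mem h1 m

theorem Ord_E_mul {P : Subalgebra k K} {t x y : K} (ht : t ≠ 0) {n m : ℤ}
    (hx : Ord_E P t x n) (hy : Ord_E P t y m) : Ord_E P t (x * y) (n + m) := by
  have h1 : x * y * t ^ (-(n + m)) = (x * t ^ (-n)) * (y * t ^ (-m)) := by
    rw [neg_add, zpow_add₀ ht]
    ring
  unfold Ord_E
  rw [h1, mul_inv]
  exact ⟨P.mul_mem hx.1 hy.1, P.mul_mem hx.2 hy.2⟩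

theorem Ord_E_inv {P : Subalgebra k K} {t x : K} {n : ℤ}
    (hx : Ord_E P t x n) : Ord_E P t x⁻¹ (-n) := by
  have h1 : x⁻¹ * t ^ (-(-n)) = (x * t ^ (-n))⁻¹ := by
    rw [mul_inv, zpow_neg]
  unfold Ord_E
  rw [h1, inv_inv]
  exact ⟨hx.2, hx.1⟩

theorem Ord_E_one (P : Subalgebra k K) (t : K) : Ord_E P t 1 0 := by
  unfold Ord_E
  rw [neg_zero, zpow_zero, mul_one, inv_one]
  exact ⟨P.one_mem, P.one_mem⟩

theorem Ord_E_mem {P : Subalgebra k K} {t x : K} (ht : IsUnif P t) {n : ℤ}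
    (hx : Ord_E P t x n) (hn : 0 ≤ n) : x ∈ P := by
  have h1 : x = (x * t ^ (-n)) * t ^ n := by
    rw [mul_assoc, ← zpow_add₀ ht.ne_zero, neg_add_cancel, zpow_zero, mul_one]
  rw [h1]
  exact P.mul_mem hx.1 (Ord_zpow_mem ht.1 hn)

theorem Ord_E_nonneg {P : Subalgebra k K} {t x : K} (ht : IsUnif P t) (hx0 : x ≠ 0) {n : ℤ}
    (hx : Ord_E P t x n) (hxP : x ∈ P) : 0 ≤ n := by
  by_contra hn
  apply ht.2.1
  have h1 : t⁻¹ = (x * (x * t ^ (-n))⁻¹) * t ^ (-n - 1) := by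
    rw [mul_inv, ← mul_assoc, mul_inv_cancel₀ hx0, one_mul, zpow_neg, inv_inv,
      ← zpow_add₀ ht.ne_zero]
    have h2 : n + (-n - 1) = -1 := by ring
    rw [h2, zpow_neg_one]
  rw [h1]
  exact P.mul_mem (P.mul_mem hxP hx.2) (Ord_zpow_mem ht.1 (by omega))

theorem Ord_E_uniq {P : Subalgebra k K} {t x : K} (ht : IsUnif P t) (hx0 : x ≠ 0) {n m : ℤ}
    (hn : Ord_E P t x n) (hm : Ord_E P t x m) : n = m := by
  have h1 := Ord_E_mul ht.ne_zero hn (Ord_E_inv hm)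
  have h2 := Ord_E_mul ht.ne_zero hm (Ord_E_inv hn)
  rw [mul_inv_cancel₀ hx0] at h1 h2
  have h3 := Ord_E_nonneg ht one_ne_zero h1 P.one_mem
  have h4 := Ord_E_nonneg ht one_ne_zero h2 P.one_mem
  omega

theorem Ord_E_unif {P : Subalgebra k K} {t t' : K} (ht : IsUnif P t) (ht' : IsUnif P t') :
    Ord_E P t t' 1 := by
  have key : ∀ {t t' : K}, IsUnif P t → IsUnif P t' → ∀ a, Ord_E P t t' a → 1 ≤ a := by
    intro t t' ht ht' a ha
    have h1 := Ord_E_nonneg ht ht'.ne_zero ha ht'.1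
    by_contra h2
    apply ht'.2.1
    exact Ord_E_mem ht (Ord_E_inv ha) (by omega)
  obtain ⟨a, ha⟩ := ht.2.2 t' ht'.ne_zero
  obtain ⟨b, hb⟩ := ht'.2.2 t ht.ne_zero
  have h1 := key ht ht' a ha
  have h2 := key ht' ht b hb
  have h3 : Ord_E P t t (b * a) := by
    have h4 : t * t ^ (-(b * a)) = (t * t' ^ (-b)) * (t' * t ^ (-a)) ^ b := by
      rw [mul_zpow, ← zpow_mul, mul_assoc, ← mul_assoc (t' ^ (-b)), ← zpow_add₀ ht'.ne_zero,
        neg_add_cancel, zpow_zero, one_mul]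
      congr 2
      ring
    have h5 : (t * t ^ (-(b * a)))⁻¹ = (t * t' ^ (-b))⁻¹ * ((t' * t ^ (-a))⁻¹) ^ b := by
      rw [h4, mul_inv, inv_zpow]
    unfold Ord_E
    rw [h5, h4]
    refine ⟨P.mul_mem hb.1 (Ord_unit_zpow ha.1 ha.2 b), P.mul_mem hb.2 (Ord_unit_zpow ha.2 ?_ b)⟩
    rw [inv_inv]
    exact ha.1
  have h4 : Ord_E P t t 1 := by
    unfold Ord_E
    rw [zpow_neg_one, mul_inv_cancel₀ ht.ne_zero, inv_one]
    exact ⟨P.one_mem, P.one_mem⟩
  have h5 := Ord_E_uniq ht ht.ne_zero h3 h4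
  have h6 : a ≤ b * a := by nlinarith
  have h7 : a = 1 := by omega
  rw [← h7]
  exact ha

theorem Ord_E_change {P : Subalgebra k K} {t t' x : K} (ht : IsUnif P t) (ht' : IsUnif P t')
    {n : ℤ} (hx : Ord_E P t' x n) : Ord_E P t x n := by
  obtain ⟨h1, h2⟩ := Ord_E_unif ht ht'
  have h4 : x * t ^ (-n) = (x * t' ^ (-n)) * (t' * t ^ (-1 : ℤ)) ^ n := by
    rw [mul_zpow, ← zpow_mul, mul_assoc, ← mul_assoc (t' ^ (-n)), ← zpow_add₀ ht'.ne_zero,
      neg_add_cancel, zpow_zero, one_mul, neg_one_mul]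
  have h5 : (x * t ^ (-n))⁻¹ = (x * t' ^ (-n))⁻¹ * ((t' * t ^ (-1 : ℤ))⁻¹) ^ n := by
    rw [h4, mul_inv, inv_zpow]
  unfold Ord_E
  rw [h5, h4]
  refine ⟨P.mul_mem hx.1 (Ord_unit_zpow h1 h2 n), P.mul_mem hx.2 (Ord_unit_zpow h2 ?_ n)⟩
  rw [inv_inv]
  exact h1

/-- uniqueness of the exponent (also for two different uniformizers) -/
theorem ord_eq {P : Subalgebra k K} {t x : K} (ht : IsUnif P t) (hx : x ≠ 0) {n : ℤ}
    (h1 : x * t ^ (-n) ∈ P) (h2 : (x * t ^ (-n))⁻¹ ∈ P) : ord P x = n := by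
  have h : ∃ n : ℤ, x ≠ 0 ∧ ∃ t, IsUnif P t ∧ x * t ^ (-n) ∈ P ∧ (x * t ^ (-n))⁻¹ ∈ P :=
    ⟨n, hx, t, ht, h1, h2⟩
  unfold ord
  rw [dif_pos h]
  obtain ⟨-, t', ht', h3, h4⟩ := h.choose_spec
  exact Ord_E_uniq ht hx (Ord_E_change ht ht' ⟨h3, h4⟩) ⟨h1, h2⟩

theorem ord_spec {P : Subalgebra k K} {t x : K} (ht : IsUnif P t) (hx : x ≠ 0) :
    x * t ^ (-(ord P x)) ∈ P ∧ (x * t ^ (-(ord P x)))⁻¹ ∈ P := by
  obtain ⟨n, h1, h2⟩ := ht.2.2 x hx
  rw [ord_eq ht hx h1 h2]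
  exact ⟨h1, h2⟩

theorem ord_mul {P : Subalgebra k K} (hP : IsDVR P) {x y : K} (hx : x ≠ 0) (hy : y ≠ 0) :
    ord P (x * y) = ord P x + ord P y := by
  obtain ⟨t, ht⟩ := hP
  obtain ⟨h1, h2⟩ := Ord_E_mul ht.ne_zero (ord_spec ht hx) (ord_spec ht hy)
  exact ord_eq ht (mul_ne_zero hx hy) h1 h2

theorem ord_one {P : Subalgebra k K} (hP : IsDVR P) : ord P 1 = 0 := by
  obtain ⟨t, ht⟩ := hP
  obtain ⟨h1, h2⟩ := Ord_E_one P t
  exact ord_eq ht one_ne_zero h1 h2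

theorem ord_inv {P : Subalgebra k K} (hP : IsDVR P) (x : K) : ord P x⁻¹ = - ord P x := by
  by_cases hx : x = 0
  · rw [hx, inv_zero]
    have h0 : ord P (0 : K) = 0 := by
      unfold ord
      rw [dif_neg]
      rintro ⟨n, h, -⟩
      exact h rfl
    rw [h0, neg_zero]
  · have h1 := ord_mul hP hx (inv_ne_zero hx)
    rw [mul_inv_cancel₀ hx, ord_one hP] at h1
    omega

theorem ord_zpow {P : Subalgebra k K} (hP : IsDVR P) {x : K} (hx : x ≠ 0) (n : ℤ) :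
    ord P (x ^ n) = n * ord P x := by
  obtain ⟨t, ht⟩ := hP
  obtain ⟨h1, h2⟩ := ord_spec ht hx
  have h3 : x ^ n * t ^ (-(n * ord P x)) = (x * t ^ (-(ord P x))) ^ n := by
    rw [mul_zpow, ← zpow_mul]
    congr 2
    ring
  apply ord_eq ht (zpow_ne_zero n hx)
  · rw [h3]
    exact Ord_unit_zpow h1 h2 n
  · rw [h3, ← inv_zpow]
    refine Ord_unit_zpow h2 ?_ n
    rw [inv_inv]
    exact h1

theorem ord_pow {P : Subalgebra k K} (hP : IsDVR P) {x : K} (hx : x ≠ 0) (n : ℕ) :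
    ord P (x ^ n) = n * ord P x := by
  rw [← zpow_natCast, ord_zpow hP hx]

theorem ord_prod {P : Subalgebra k K} (hP : IsDVR P) {ι : Type*} (s : Finset ι) (f : ι → K)
    (hf : ∀ i ∈ s, f i ≠ 0) : ord P (∏ i ∈ s, f i) = ∑ i ∈ s, ord P (f i) := by
  classical
  induction s using Finset.induction_on with
  | empty => rw [Finset.prod_empty, Finset.sum_empty, ord_one hP]
  | insert a s ha ih =>
    rw [Finset.prod_insert ha, Finset.sum_insert ha, ord_mul hP (hf a (Finset.mem_insert_self a s))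
      (Finset.prod_ne_zero_iff.2 fun i hi => hf i (Finset.mem_insert_of_mem hi)),
      ih fun i hi => hf i (Finset.mem_insert_of_mem hi)]

theorem mem_iff {P : Subalgebra k K} (hP : IsDVR P) {x : K} (hx : x ≠ 0) :
    x ∈ P ↔ 0 ≤ ord P x := by
  obtain ⟨t, ht⟩ := hP
  exact ⟨fun h => Ord_E_nonneg ht hx (ord_spec ht hx) h, fun h => Ord_E_mem ht (ord_spec ht hx) h⟩

theorem ord_eq_zero_iff {P : Subalgebra k K} (hP : IsDVR P) {x : K} (hx : x ≠ 0) :
    ord P x = 0 ↔ x ∈ P ∧ x⁻¹ ∈ P := by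
  rw [mem_iff hP hx, mem_iff hP (inv_ne_zero hx), ord_inv hP]
  omega

theorem ord_pos_iff {P : Subalgebra k K} (hP : IsDVR P) {x : K} (hx : x ≠ 0) :
    0 < ord P x ↔ x⁻¹ ∉ P := by
  rw [mem_iff hP (inv_ne_zero hx), ord_inv hP]
  omega

theorem Ord_exists_one {P : Subalgebra k K} (hP : IsDVR P) : ∃ t, t ≠ 0 ∧ ord P t = 1 := by
  obtain ⟨t, ht⟩ := hP
  obtain ⟨h1, h2⟩ := Ord_E_unif ht ht
  exact ⟨t, ht.ne_zero, ord_eq ht ht.ne_zero h1 h2⟩

theorem ord_add {P : Subalgebra k K} (hP : IsDVR P) {x y : K} (hx : x ≠ 0) (hy : y ≠ 0)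
    (hxy : x + y ≠ 0) : min (ord P x) (ord P y) ≤ ord P (x + y) := by
  have h := Ord_exists_one hP
  obtain ⟨t, ht, ht1⟩ := h
  obtain ⟨m, hm⟩ : ∃ m, m = min (ord P x) (ord P y) := ⟨_, rfl⟩
  have hz : ∀ z : K, z ≠ 0 → m ≤ ord P z → z * t ^ (-m) ∈ P := by
    intro z hz h1
    rw [mem_iff hP (mul_ne_zero hz (zpow_ne_zero _ ht)), ord_mul hP hz (zpow_ne_zero _ ht),
      ord_zpow hP ht, ht1]
    omega
  have h1 := P.add_mem (hz x hx (by omega)) (hz y hy (by omega))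
  rw [← add_mul, mem_iff hP (mul_ne_zero hxy (zpow_ne_zero _ ht)),
    ord_mul hP hxy (zpow_ne_zero _ ht), ord_zpow hP ht, ht1] at h1
  omega

theorem le_ord_sum {P : Subalgebra k K} (hP : IsDVR P) {ι : Type*} (s : Finset ι) (f : ι → K)
    (N : ℤ) (hf : ∀ i ∈ s, f i ≠ 0 → N ≤ ord P (f i)) (h0 : ∑ i ∈ s, f i ≠ 0) :
    N ≤ ord P (∑ i ∈ s, f i) := by
  obtain ⟨t, ht, ht1⟩ := Ord_exists_one hP
  have h1 : (∑ i ∈ s, f i) * t ^ (-N) ∈ P := by
    rw [Finset.sum_mul]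
    refine P.sum_mem fun i hi => ?_
    by_cases h : f i = 0
    · rw [h, zero_mul]
      exact P.zero_mem
    · rw [mem_iff hP (mul_ne_zero h (zpow_ne_zero _ ht)), ord_mul hP h (zpow_ne_zero _ ht),
        ord_zpow hP ht, ht1]
      have := hf i hi h
      omega
  rw [mem_iff hP (mul_ne_zero h0 (zpow_ne_zero _ ht)), ord_mul hP h0 (zpow_ne_zero _ ht),
    ord_zpow hP ht, ht1] at h1
  omega

theorem isUnif_iff {P : Subalgebra k K} (hP : IsDVR P) {t : K} :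
    IsUnif P t ↔ t ≠ 0 ∧ ord P t = 1 := by
  constructor
  · intro ht
    obtain ⟨h1, h2⟩ := Ord_E_unif ht ht
    exact ⟨ht.ne_zero, ord_eq ht ht.ne_zero h1 h2⟩
  · rintro ⟨ht, ht1⟩
    refine ⟨(mem_iff hP ht).2 (by omega), (ord_pos_iff hP ht).1 (by omega), fun x hx => ?_⟩
    refine ⟨ord P x, ?_⟩
    rw [← ord_eq_zero_iff hP (mul_ne_zero hx (zpow_ne_zero _ ht)),
      ord_mul hP hx (zpow_ne_zero _ ht), ord_zpow hP ht, ht1]
    omega

theorem exists_ord_one {P : Subalgebra k K} (hP : IsDVR P) : ∃ t, t ≠ 0 ∧ ord P t = 1 := by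
  exact Ord_exists_one hP

theorem IsDVR.isVal {P : Subalgebra k K} (hP : IsDVR P) : IsVal P := by
  intro x
  by_cases hx : x = 0
  · left
    rw [hx]
    exact P.zero_mem
  · rw [mem_iff hP hx, mem_iff hP (inv_ne_zero hx), ord_inv hP]
    omega

theorem IsDVR.ne_top {P : Subalgebra k K} (hP : IsDVR P) : P ≠ ⊤ := by
  rintro rfl
  obtain ⟨t, ht⟩ := hP
  exact ht.2.1 Algebra.mem_top

/-- a discrete valuation ring is a maximal subring of `K` -/
theorem IsDVR.eq_of_le {P Q : Subalgebra k K} (hP : IsDVR P) (hPQ : P ≤ Q) (hQ : Q ≠ ⊤) :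
    Q = P := by
  by_contra hne
  apply hQ
  obtain ⟨x, hxQ, hxP⟩ : ∃ x ∈ Q, x ∉ P := by
    by_contra h
    push Not at h
    exact hne (le_antisymm h hPQ)
  have hx0 : x ≠ 0 := by
    rintro rfl
    exact hxP P.zero_mem
  have hx1 : ord P x < 0 := by
    rw [mem_iff hP hx0] at hxP
    omega
  rw [eq_top_iff]
  intro y _
  by_cases hy : y = 0
  · rw [hy]
    exact Q.zero_mem
  obtain ⟨m, hm⟩ : ∃ m : ℕ, m = (-ord P y).toNat := ⟨_, rfl⟩
  have h1 : y * (x ^ m)⁻¹ ∈ P := by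
    rw [mem_iff hP (mul_ne_zero hy (inv_ne_zero (pow_ne_zero m hx0))),
      ord_mul hP hy (inv_ne_zero (pow_ne_zero m hx0)), ord_inv hP, ord_pow hP hx0]
    have h2 : (m : ℤ) * ord P x ≤ (m : ℤ) * (-1) :=
      mul_le_mul_of_nonneg_left (by omega) (by omega)
    omega
  have h2 : y = (y * (x ^ m)⁻¹) * x ^ m := by
    rw [mul_assoc, inv_mul_cancel₀ (pow_ne_zero m hx0), mul_one]
  rw [h2]
  exact Q.mul_mem (hPQ h1) (Q.pow_mem hxQ m)

theorem Ord_isUnit_iff {V : Subalgebra k K} (a : V) : IsUnit a ↔ (a : K) ≠ 0 ∧ (a : K)⁻¹ ∈ V := by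
  constructor
  · intro h
    obtain ⟨b, hb⟩ := h.exists_right_inv
    have h1 : (a : K) * b = 1 := by
      have := congrArg (fun z : V => (z : K)) hb
      simpa using this
    refine ⟨left_ne_zero_of_mul_eq_one h1, ?_⟩
    rw [inv_eq_of_mul_eq_one_right h1]
    exact b.2
  · rintro ⟨h0, h⟩
    refine IsUnit.of_mul_eq_one (⟨(a : K)⁻¹, h⟩ : V) ?_
    apply Subtype.ext
    exact mul_inv_cancel₀ h0

theorem IsVal.isLocalRing {V : Subalgebra k K} (hV : IsVal V) : IsLocalRing V := by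
  refine IsLocalRing.of_isUnit_or_isUnit_one_sub_self fun a => ?_
  rw [Ord_isUnit_iff, Ord_isUnit_iff]
  have h1 : ((1 - a : V) : K) = 1 - (a : K) := rfl
  rw [h1]
  by_cases ha : (a : K) = 0
  · right
    rw [ha, sub_zero, inv_one]
    exact ⟨one_ne_zero, V.one_mem⟩
  by_cases ha1 : 1 - (a : K) = 0
  · left
    have h2 : (a : K) = 1 := (sub_eq_zero.1 ha1).symm
    rw [h2, inv_one]
    exact ⟨one_ne_zero, V.one_mem⟩
  rcases hV ((a : K) * (1 - (a : K))⁻¹) with h | h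
  · right
    refine ⟨ha1, ?_⟩
    have h2 : (1 - (a : K))⁻¹ = 1 + (a : K) * (1 - (a : K))⁻¹ := by
      field_simp
      ring
    rw [h2]
    exact V.add_mem V.one_mem h
  · left
    refine ⟨ha, ?_⟩
    have h2 : (a : K)⁻¹ = 1 + ((a : K) * (1 - (a : K))⁻¹)⁻¹ := by
      rw [mul_inv, inv_inv]
      field_simp
      ring
    rw [h2]
    exact V.add_mem V.one_mem h

theorem IsDVR.ext_ord {P Q : Subalgebra k K} (hP : IsDVR P) (hQ : IsDVR Q) (B : Set K)
    (hB : ∀ x : K, ∃ r ∈ B, ∃ s ∈ B, s ≠ 0 ∧ x = r * s⁻¹)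
    (h : ∀ x ∈ B, x ≠ 0 → ord P x = ord Q x) : P = Q := by
  ext x
  by_cases hx : x = 0
  · rw [hx]
    exact ⟨fun _ => Q.zero_mem, fun _ => P.zero_mem⟩
  rw [mem_iff hP hx, mem_iff hQ hx]
  obtain ⟨r, hr, s, hs, hs0, rfl⟩ := hB x
  have hr0 : r ≠ 0 := left_ne_zero_of_mul hx
  rw [ord_mul hP hr0 (inv_ne_zero hs0), ord_mul hQ hr0 (inv_ne_zero hs0), ord_inv hP, ord_inv hQ,
    h r hr hr0, h s hs hs0]

/-- comparison with Mathlib's discrete valuation rings -/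
theorem isDVR_iff {P : Subalgebra k K} :
    IsDVR P ↔ IsDiscreteValuationRing P ∧ IsFractionRing P K := by
  constructor
  · intro hP
    constructor
    · obtain ⟨t, ht, ht1⟩ := Ord_exists_one hP
      have htP : t ∈ P := (mem_iff hP ht).2 (by omega)
      have hunit : ∀ a : P, IsUnit a ↔ (a : K) ≠ 0 ∧ ord P (a : K) = 0 := by
        intro a
        rw [Ord_isUnit_iff]
        constructor
        · rintro ⟨h1, h2⟩
          exact ⟨h1, (ord_eq_zero_iff hP h1).2 ⟨a.2, h2⟩⟩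
        · rintro ⟨h1, h2⟩
          exact ⟨h1, ((ord_eq_zero_iff hP h1).1 h2).2⟩
      apply IsDiscreteValuationRing.ofHasUnitMulPowIrreducibleFactorization
      refine ⟨⟨t, htP⟩, ?_, ?_⟩
      · constructor
        · rw [hunit]
          rintro ⟨-, h⟩
          change ord P t = 0 at h
          omega
        · intro a b hab
          have h1 : t = (a : K) * b := congrArg (fun z : P => (z : K)) hab
          have ha : (a : K) ≠ 0 := by
            rintro h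
            rw [h, zero_mul] at h1
            exact ht h1
          have hb : (b : K) ≠ 0 := by
            rintro h
            rw [h, mul_zero] at h1
            exact ht h1
          have h2 := ord_mul hP ha hb
          rw [← h1, ht1] at h2
          have h3 := (mem_iff hP ha).1 a.2
          have h4 := (mem_iff hP hb).1 b.2
          rw [hunit, hunit]
          by_cases h5 : ord P (a : K) = 0
          · exact Or.inl ⟨ha, h5⟩
          · exact Or.inr ⟨hb, by omega⟩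
      · intro x hx
        have hx0 : (x : K) ≠ 0 := fun h => hx (Subtype.ext h)
        have hx1 := (mem_iff hP hx0).1 x.2
        obtain ⟨n, hn⟩ := Int.eq_ofNat_of_zero_le hx1
        refine ⟨n, ?_⟩
        have h1 : (x : K) * (t ^ n)⁻¹ ≠ 0 := mul_ne_zero hx0 (inv_ne_zero (pow_ne_zero n ht))
        have h2 : ord P ((x : K) * (t ^ n)⁻¹) = 0 := by
          rw [ord_mul hP hx0 (inv_ne_zero (pow_ne_zero n ht)), ord_inv hP, ord_pow hP ht, ht1, hn]
          ring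
        have h3 := (mem_iff hP h1).2 (by omega)
        have h4 : IsUnit (⟨(x : K) * (t ^ n)⁻¹, h3⟩ : P) := (hunit _).2 ⟨h1, h2⟩
        refine ⟨h4.unit, ?_⟩
        apply Subtype.ext
        show t ^ n * ((x : K) * (t ^ n)⁻¹) = x
        rw [mul_comm, mul_assoc, inv_mul_cancel₀ (pow_ne_zero n ht), mul_one]
    · apply IsFractionRing.of_field
      intro z
      rcases hP.isVal z with h | h
      · refine ⟨⟨z, h⟩, 1, ?_⟩
        rw [map_one, div_one]
        rfl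
      · refine ⟨1, ⟨z⁻¹, h⟩, ?_⟩
        rw [map_one, one_div]
        exact (inv_inv z).symm
  · rintro ⟨hD, hF⟩
    obtain ⟨ϖ, hϖ⟩ := IsDiscreteValuationRing.exists_irreducible P
    have h0 : (ϖ : K) ≠ 0 := fun h => hϖ.ne_zero (Subtype.ext h)
    refine ⟨(ϖ : K), ϖ.2, fun h => hϖ.not_isUnit ((Ord_isUnit_iff ϖ).2 ⟨h0, h⟩), fun x hx => ?_⟩
    obtain ⟨a, b, hb, hab⟩ := IsFractionRing.div_surjective (A := P) x
    have hb0 : b ≠ 0 := nonZeroDivisors.ne_zero hb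
    have ha0 : a ≠ 0 := by
      rintro rfl
      rw [map_zero, zero_div] at hab
      exact hx hab.symm
    obtain ⟨n, u, hu⟩ := IsDiscreteValuationRing.eq_unit_mul_pow_irreducible ha0 hϖ
    obtain ⟨m, v, hv⟩ := IsDiscreteValuationRing.eq_unit_mul_pow_irreducible hb0 hϖ
    have hu' : (a : K) = ((u : P) : K) * (ϖ : K) ^ n := congrArg (fun z : P => (z : K)) hu
    have hv' : (b : K) = ((v : P) : K) * (ϖ : K) ^ m := congrArg (fun z : P => (z : K)) hv
    have hu1 := (Ord_isUnit_iff (u : P)).1 u.isUnit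
    have hv1 := (Ord_isUnit_iff (v : P)).1 v.isUnit
    have h1 : x * (ϖ : K) ^ (-((n : ℤ) - m)) = ((u : P) : K) * ((v : P) : K)⁻¹ := by
      have h2 : x = (a : K) / (b : K) := hab.symm
      rw [h2, hu', hv', neg_sub, zpow_sub₀ h0, zpow_natCast, zpow_natCast]
      have h3 := pow_ne_zero n h0
      have h4 := pow_ne_zero m h0
      have h5 := hv1.1
      field_simp
    refine ⟨(n : ℤ) - m, ?_⟩
    rw [h1, mul_inv, inv_inv]
    exact ⟨P.mul_mem (u : P).2 hv1.2, P.mul_mem hu1.2 (v : P).2⟩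

end Flip28
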