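import Pool.Agent.Flip_h28.AlgDefs
import Pool.Agent.Flip_h28.LocAlg
import Pool.Agent.Flip_h28.Ord

/-! # The fundamental identity for extensions of a discrete valuation ring -/

namespace Flip28

section Val

open IsDedekindDomain HeightOneSpectrum WithZero

variable {k F S : Type*} [Field k] [Field F] [Algebra k F] [CommRing S] [IsDedekindDomain S]
  [Algebra S F] [IsFractionRing S F]

/-- the valuation ring of `w` -/
noncomputable def DegA_V (hk : ∀ c : k, ∃ s : S, algebraMap S F s = algebraMap k F c)
    (w : HeightOneSpectrum S) : Subalgebra k F where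
  carrier := {x | w.valuation F x ≤ 1}
  mul_mem' := by
    intro x y hx hy
    change w.valuation F (x * y) ≤ 1
    rw [map_mul]
    exact mul_le_one' hx hy
  add_mem' := by
    intro x y hx hy
    exact (w.valuation F).map_add_le hx hy
  algebraMap_mem' := by
    intro c
    obtain ⟨s, hs⟩ := hk c
    change w.valuation F _ ≤ 1
    rw [← hs]
    exact w.valuation_le_one s

theorem DegA_mem_V (hk : ∀ c : k, ∃ s : S, algebraMap S F s = algebraMap k F c)
    (w : HeightOneSpectrum S) (x : F) : x ∈ DegA_V hk w ↔ w.valuation F x ≤ 1 := Iff.rfl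

theorem DegA_unif_of (hk : ∀ c : k, ∃ s : S, algebraMap S F s = algebraMap k F c)
    (w : HeightOneSpectrum S) {π : F} (hπ : w.valuation F π = exp (-1 : ℤ)) :
    IsUnif (DegA_V hk w) π := by
  refine ⟨?_, ?_, ?_⟩
  · rw [DegA_mem_V, hπ, ← exp_zero, exp_le_exp]
    norm_num
  · rw [DegA_mem_V, map_inv₀, hπ, ← exp_neg, ← exp_zero, exp_le_exp]
    norm_num
  · intro x hx
    have hx' : w.valuation F x ≠ 0 := (Valuation.ne_zero_iff _).2 hx
    have h1 : w.valuation F (x * π ^ (-(-log (w.valuation F x)))) = 1 := by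
      rw [map_mul, map_zpow₀, hπ, neg_neg, ← exp_zsmul, smul_eq_mul, mul_neg, mul_one]
      nth_rewrite 1 [← exp_log hx']
      rw [← exp_add, add_neg_cancel, exp_zero]
    refine ⟨-log (w.valuation F x), ?_, ?_⟩
    · rw [DegA_mem_V, h1]
    · rw [DegA_mem_V, map_inv₀, h1, inv_one]

theorem DegA_isDVR (hk : ∀ c : k, ∃ s : S, algebraMap S F s = algebraMap k F c)
    (w : HeightOneSpectrum S) : IsDVR (DegA_V hk w) := by
  obtain ⟨π, hπ⟩ := w.valuation_exists_uniformizer F
  exact ⟨π, DegA_unif_of hk w hπ⟩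

theorem DegA_ord (hk : ∀ c : k, ∃ s : S, algebraMap S F s = algebraMap k F c)
    (w : HeightOneSpectrum S) {x : F} (hx : x ≠ 0) :
    ord (DegA_V hk w) x = -log (w.valuation F x) := by
  obtain ⟨π, hπ⟩ := w.valuation_exists_uniformizer F
  have hx' : w.valuation F x ≠ 0 := (Valuation.ne_zero_iff _).2 hx
  have h1 : w.valuation F (x * π ^ (-(-log (w.valuation F x)))) = 1 := by
    rw [map_mul, map_zpow₀, hπ, neg_neg, ← exp_zsmul, smul_eq_mul, mul_neg, mul_one]
    nth_rewrite 1 [← exp_log hx']
    rw [← exp_add, add_neg_cancel, exp_zero]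
  refine ord_eq (DegA_unif_of hk w hπ) hx ?_ ?_
  · rw [DegA_mem_V, h1]
  · rw [DegA_mem_V, map_inv₀, h1, inv_one]

theorem DegA_unif (hk : ∀ c : k, ∃ s : S, algebraMap S F s = algebraMap k F c)
    (w : HeightOneSpectrum S) {π : F} (h : IsUnif (DegA_V hk w) π) :
    w.valuation F π = exp (-1 : ℤ) := by
  have h1 := (isUnif_iff (DegA_isDVR hk w)).1 h
  rw [DegA_ord hk w h1.1] at h1
  have h2 : w.valuation F π ≠ 0 := (Valuation.ne_zero_iff _).2 h1.1
  rw [← exp_log h2]
  congr 1
  omega

theorem DegA_eq_of_le (hk : ∀ c : k, ∃ s : S, algebraMap S F s = algebraMap k F c)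
    (w : HeightOneSpectrum S) {u : Subalgebra k F} (hu : IsDVR u)
    (h1 : ∀ s : S, algebraMap S F s ∈ u)
    (h2 : ∀ s : S, s ∉ w.asIdeal → (algebraMap S F s)⁻¹ ∈ u) : DegA_V hk w = u := by
  refine (IsDVR.eq_of_le (DegA_isDVR hk w) ?_ hu.ne_top).symm
  intro x hx
  obtain ⟨n, d, hnd⟩ := w.exists_primeCompl_mul_eq_of_integer x hx
  have hd0 : algebraMap S F d ≠ 0 := by
    intro h
    have h3 : (d : S) = 0 := (IsFractionRing.injective S F) (by rw [h, map_zero])
    exact d.2 (by rw [h3]; exact w.asIdeal.zero_mem)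
  have h3 : x = algebraMap S F n * (algebraMap S F d)⁻¹ := by
    rw [← hnd, mul_inv_cancel_right₀ hd0]
  rw [h3]
  exact u.mul_mem (h1 n) (h2 d d.2)

/-- `S` maps to the residue field of the valuation ring -/
noncomputable def DegA_inc (hk : ∀ c : k, ∃ s : S, algebraMap S F s = algebraMap k F c)
    (w : HeightOneSpectrum S) : S →+* DegA_V hk w :=
  (algebraMap S F).codRestrict (DegA_V hk w) fun s => w.valuation_le_one s

theorem DegA_inc_val (hk : ∀ c : k, ∃ s : S, algebraMap S F s = algebraMap k F c)
    (w : HeightOneSpectrum S) (s : S) : (DegA_inc hk w s : F) = algebraMap S F s := rfl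

theorem DegA_residue_zero (hk : ∀ c : k, ∃ s : S, algebraMap S F s = algebraMap k F c)
    (w : HeightOneSpectrum S) [IsLocalRing (DegA_V hk w)] (x : DegA_V hk w) :
    IsLocalRing.residue (DegA_V hk w) x = 0 ↔ w.valuation F x < 1 := by
  rw [IsLocalRing.residue_eq_zero_iff, IsLocalRing.mem_maximalIdeal, mem_nonunits_iff,
    LocAlg_unit]
  have hx : w.valuation F x ≤ 1 := x.2
  constructor
  · intro h
    rcases hx.lt_or_eq with h1 | h1
    · exact h1
    · exfalso
      apply h
      have h2 : (x : F) ≠ 0 := by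
        intro h0
        rw [h0, map_zero] at h1
        exact zero_ne_one h1
      refine ⟨h2, ?_⟩
      rw [DegA_mem_V, map_inv₀, h1, inv_one]
  · rintro h ⟨h1, h2⟩
    rw [DegA_mem_V, map_inv₀] at h2
    have h3 : w.valuation F x ≠ 0 := (Valuation.ne_zero_iff _).2 h1
    have h4 : (1 : ℤᵐ⁰) ≤ w.valuation F x := by
      have h5 := mul_le_mul_right h2 (w.valuation F x)
      rw [mul_inv_cancel₀ h3, mul_one] at h5
      exact h5
    exact absurd h (not_lt.2 h4)

theorem DegA_inc_zero (hk : ∀ c : k, ∃ s : S, algebraMap S F s = algebraMap k F c)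
    (w : HeightOneSpectrum S) [IsLocalRing (DegA_V hk w)] (s : S) :
    IsLocalRing.residue (DegA_V hk w) (DegA_inc hk w s) = 0 ↔ s ∈ w.asIdeal := by
  rw [DegA_residue_zero, DegA_inc_val, valuation_lt_one_iff_mem]

theorem DegA_inc_surj (hk : ∀ c : k, ∃ s : S, algebraMap S F s = algebraMap k F c)
    (w : HeightOneSpectrum S) [IsLocalRing (DegA_V hk w)] :
    Function.Surjective ((IsLocalRing.residue (DegA_V hk w)).comp (DegA_inc hk w)) := by
  intro y
  obtain ⟨x, rfl⟩ := IsLocalRing.residue_surjective y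
  obtain ⟨n, d, hnd⟩ := w.exists_primeCompl_mul_eq_of_integer (x : F) x.2
  have hmax : w.asIdeal.IsMaximal := w.isMaximal
  obtain ⟨d', hd'⟩ := hmax.exists_inv d.2
  obtain ⟨r, hr, hd'⟩ := hd'
  refine ⟨n * d', ?_⟩
  rw [RingHom.comp_apply, ← sub_eq_zero, ← map_sub, DegA_residue_zero]
  have h1 : ((DegA_inc hk w (n * d') - x : DegA_V hk w) : F) =
      -((x : F) * algebraMap S F r) := by
    have h2 : ((DegA_inc hk w (n * d') - x : DegA_V hk w) : F) =
      algebraMap S F n * algebraMap S F d' - x := by
      rw [← map_mul]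
      rfl
    have h3 : algebraMap S F d' * algebraMap S F d + algebraMap S F r = 1 := by
      rw [← map_mul, ← map_add, hd', map_one]
    rw [h2, ← hnd]
    linear_combination (x : F) * h3
  rw [h1, Valuation.map_neg, map_mul]
  exact mul_lt_one_of_nonneg_of_lt_one_right x.2 zero_le ((w.valuation_lt_one_iff_mem r).2 hr)

theorem DegA_resDeg (hk : ∀ c : k, ∃ s : S, algebraMap S F s = algebraMap k F c)
    (w : HeightOneSpectrum S) {R : Type*} [CommRing R] [Algebra R S] [Algebra k R]
    [Algebra R F] [IsScalarTower R S F] [IsScalarTower k R F] (p : Ideal R) [hp : p.IsMaximal]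
    [w.asIdeal.LiesOver p] (Y : Set F) (hY : ∀ y, y ∈ Y ↔ ∃ r : R, algebraMap R F r = y) :
    resDeg (DegA_V hk w) Y = p.inertiaDeg' w.asIdeal := by
  have hloc : IsLocalRing (DegA_V hk w) := (DegA_isDVR hk w).isVal.isLocalRing
  unfold resDeg
  rw [dif_pos hloc, Ideal.inertiaDeg'_algebraMap]
  symm
  set κ := IsLocalRing.ResidueField (DegA_V hk w) with hκ
  set K' : IntermediateField k κ := IntermediateField.adjoin k
      {y : IsLocalRing.ResidueField (DegA_V hk w) | ∃ a : DegA_V hk w, (a : F) ∈ Y ∧
        y = IsLocalRing.residue (DegA_V hk w) a} with hK'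
  have hmax : w.asIdeal.IsMaximal := w.isMaximal
  -- the map on `S`
  set ρ : S →+* κ := (IsLocalRing.residue (DegA_V hk w)).comp (DegA_inc hk w) with hρ
  have hρ0 : ∀ s, ρ s = 0 ↔ s ∈ w.asIdeal := fun s => DegA_inc_zero hk w s
  have hρs : Function.Surjective ρ := DegA_inc_surj hk w
  have hmem : ∀ r : R, ρ (algebraMap R S r) ∈ K' := by
    intro r
    refine IntermediateField.subset_adjoin _ _ ⟨DegA_inc hk w (algebraMap R S r), ?_, rfl⟩
    rw [DegA_inc_val, hY]
    exact ⟨r, IsScalarTower.algebraMap_apply R S F r⟩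
  have hpw : ∀ r : R, algebraMap R S r ∈ w.asIdeal ↔ r ∈ p := by
    intro r
    rw [Ideal.over_def w.asIdeal p]
    rfl
  have hadj : ∀ y ∈ K', ∃ r : R, ρ (algebraMap R S r) = y := by
    intro y hy
    rw [hK'] at hy
    induction hy using IntermediateField.adjoin_induction with
    | mem x hx =>
      obtain ⟨a, haY, rfl⟩ := hx
      obtain ⟨r, hr⟩ := (hY _).1 haY
      refine ⟨r, ?_⟩
      rw [hρ, RingHom.comp_apply]
      congr 1
      apply Subtype.ext
      rw [DegA_inc_val, ← hr, ← IsScalarTower.algebraMap_apply]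
    | algebraMap c =>
      refine ⟨algebraMap k R c, ?_⟩
      rw [hρ, RingHom.comp_apply]
      have h1 : DegA_inc hk w (algebraMap R S (algebraMap k R c)) =
          algebraMap k (DegA_V hk w) c := by
        apply Subtype.ext
        rw [DegA_inc_val, ← IsScalarTower.algebraMap_apply R S F,
          ← IsScalarTower.algebraMap_apply k R F]
        rfl
      rw [h1]
      rfl
    | add x y hx hy ihx ihy =>
      obtain ⟨a, rfl⟩ := ihx
      obtain ⟨b, rfl⟩ := ihy
      exact ⟨a + b, by rw [map_add, map_add]⟩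
    | inv x hx ih =>
      obtain ⟨a, rfl⟩ := ih
      by_cases ha : a ∈ p
      · refine ⟨0, ?_⟩
        rw [(hρ0 _).2 ((hpw a).2 ha), map_zero, map_zero, inv_zero]
      · obtain ⟨a', r, hr, har⟩ := hp.exists_inv ha
        refine ⟨a', ?_⟩
        have h1 := congrArg (fun z => ρ (algebraMap R S z)) har
        simp only [map_add, map_mul, map_one] at h1
        rw [(hρ0 _).2 ((hpw r).2 hr), add_zero] at h1
        exact eq_inv_of_mul_eq_one_left h1
    | mul x y hx hy ihx ihy =>
      obtain ⟨a, rfl⟩ := ihx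
      obtain ⟨b, rfl⟩ := ihy
      exact ⟨a * b, by rw [map_mul, map_mul]⟩
  -- the two isomorphisms
  let j0 : S ⧸ w.asIdeal →+* κ := Ideal.Quotient.lift w.asIdeal ρ fun a ha => (hρ0 a).2 ha
  have hj0 : Function.Bijective j0 := by
    constructor
    · rw [injective_iff_map_eq_zero]
      intro a ha
      obtain ⟨a, rfl⟩ := Ideal.Quotient.mk_surjective a
      rw [Ideal.Quotient.eq_zero_iff_mem, ← hρ0]
      exact ha
    · intro y
      obtain ⟨s, rfl⟩ := hρs y
      exact ⟨Ideal.Quotient.mk _ s, rfl⟩
  let ι : R →+* K' := (ρ.comp (algebraMap R S)).codRestrict K' hmem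
  have hι : ∀ r, ((ι r : K') : κ) = ρ (algebraMap R S r) := fun r => rfl
  let i0 : R ⧸ p →+* K' := Ideal.Quotient.lift p ι fun a ha => by
    apply Subtype.ext
    rw [hι, (hρ0 _).2 ((hpw a).2 ha)]
    rfl
  have hi0 : Function.Bijective i0 := by
    constructor
    · rw [injective_iff_map_eq_zero]
      intro a ha
      obtain ⟨a, rfl⟩ := Ideal.Quotient.mk_surjective a
      rw [Ideal.Quotient.eq_zero_iff_mem, ← hpw, ← hρ0]
      exact congrArg Subtype.val ha
    · rintro ⟨y, hy⟩
      obtain ⟨r, hr⟩ := hadj y hy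
      exact ⟨Ideal.Quotient.mk _ r, Subtype.ext hr⟩
  refine Algebra.finrank_eq_of_equiv_equiv (RingEquiv.ofBijective i0 hi0)
    (RingEquiv.ofBijective j0 hj0) ?_
  ext r
  rfl

end Val

/-- the discrete valuation rings of `F` over the discrete valuation ring `t` of `T` -/
def Ext {k T F : Type*} [Field k] [Field T] [Field F] [Algebra k T] [Algebra k F] [Algebra T F]
    (t : Subalgebra k T) : Set (Subalgebra k F) :=
  {v | IsDVR v ∧ ∀ x : T, x ∈ t ↔ algebraMap T F x ∈ v}

section Core

open IsDedekindDomain HeightOneSpectrum WithZero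

variable {k T F : Type*} [Field k] [Field T] [Field F] [Algebra k T] [Algebra k F]
  [Algebra T F] [IsScalarTower k T F]

omit [IsScalarTower k T F] in
/-- integral elements lie in the extensions -/
theorem DegA_integral_mem {t : Subalgebra k T} {u : Subalgebra k F} (hu : u ∈ Ext (F := F) t)
    {x : F} (hx : IsIntegral t x) : x ∈ u := by
  obtain ⟨h1, h2⟩ := isDVR_iff.1 hu.1
  let _ : Algebra t u := ((algebraMap T F).comp (algebraMap t T)).codRestrict u
    (fun a => (hu.2 a).1 a.2) |>.toAlgebra
  have : IsScalarTower t u F := IsScalarTower.of_algebraMap_eq fun _ => rfl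
  have h3 : IsIntegral u x := hx.tower_top
  obtain ⟨y, rfl⟩ := IsIntegrallyClosed.isIntegral_iff.1 h3
  exact y.2

theorem DegA_hk0 (t : Subalgebra k T) (c : k) :
    ∃ s : t, algebraMap t T s = algebraMap k T c := ⟨algebraMap k t c, rfl⟩

variable (t : Subalgebra k T) {S : Type*} [CommRing S] [Algebra t S] [Algebra S F]
  [IsScalarTower t S F]

include t in
theorem DegA_hk (c : k) : ∃ s : S, algebraMap S F s = algebraMap k F c := by
  refine ⟨algebraMap t S (algebraMap k t c), ?_⟩
  rw [← IsScalarTower.algebraMap_apply t S F]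
  exact (IsScalarTower.algebraMap_apply k T F c).symm

variable [IsDiscreteValuationRing t] [IsFractionRing t T]

/-- the maximal ideal as a point of the spectrum -/
noncomputable def DegA_v0 : HeightOneSpectrum t :=
  ⟨IsLocalRing.maximalIdeal t, inferInstance, IsDiscreteValuationRing.not_a_field t⟩

theorem DegA_v0_eq (ht : IsDVR t) : DegA_V (DegA_hk0 t) (DegA_v0 t) = t := by
  refine DegA_eq_of_le _ _ ht (fun s => s.2) fun s hs => ?_
  have h1 : IsUnit s := by
    by_contra h
    exact hs ((IsLocalRing.mem_maximalIdeal s).2 h)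
  exact ((LocAlg_unit s).1 h1).2

variable [IsDedekindDomain S] [IsFractionRing S F] [Module.Finite t S]
  [Module.IsTorsionFree t S]

omit [IsFractionRing t T] [Module.IsTorsionFree t S] in
theorem DegA_over (w : HeightOneSpectrum S) : w.asIdeal.LiesOver (DegA_v0 t).asIdeal := by
  refine ⟨?_⟩
  change IsLocalRing.maximalIdeal t = w.asIdeal.under t
  have h1 : w.asIdeal.under t ≠ ⊥ := fun h => w.ne_bot (Ideal.eq_bot_of_comap_eq_bot h)
  have h2 : (w.asIdeal.under t).IsPrime := inferInstance
  exact (IsLocalRing.eq_maximalIdeal (h2.isMaximal h1)).symm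

omit [Algebra k F] [IsScalarTower k T F] in
theorem DegA_val (w : HeightOneSpectrum S) (x : T) :
    (DegA_v0 t).valuation T x ^ (DegA_v0 t).asIdeal.ramificationIdx' w.asIdeal =
      w.valuation F (algebraMap T F x) := by
  have := DegA_over t w
  exact valuation_liesOver F (DegA_v0 t) w x

omit [IsFractionRing t T] in
theorem DegA_e_ne_zero (w : HeightOneSpectrum S) :
    (DegA_v0 t).asIdeal.ramificationIdx' w.asIdeal ≠ 0 := by
  have := DegA_over t w
  exact Ideal.IsDedekindDomain.ramificationIdx'_ne_zero_of_liesOver w.asIdeal (DegA_v0 t).ne_bot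

theorem DegA_mem_Ext (ht : IsDVR t) (w : HeightOneSpectrum S) :
    DegA_V (DegA_hk t (S := S) (F := F)) w ∈ Ext (F := F) t := by
  refine ⟨DegA_isDVR _ w, fun x => ?_⟩
  rw [DegA_mem_V, ← DegA_val t w x]
  have h1 : x ∈ t ↔ (DegA_v0 t).valuation T x ≤ 1 := by
    conv_lhs => rw [← DegA_v0_eq t ht]
    exact DegA_mem_V _ _ _
  rw [h1, pow_le_one_iff (DegA_e_ne_zero t w)]

theorem DegA_ram (ht : IsDVR t) (w : HeightOneSpectrum S) :
    ram t (DegA_V (DegA_hk t (S := S) (F := F)) w) =
      (DegA_v0 t).asIdeal.ramificationIdx' w.asIdeal := by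
  unfold ram
  have ht' : ∃ τ, IsUnif t τ := ht
  rw [dif_pos ht']
  have hτ := ht'.choose_spec
  set τ := ht'.choose
  have h1 : (DegA_v0 t).valuation T τ = exp (-1 : ℤ) := by
    refine DegA_unif (DegA_hk0 t) (DegA_v0 t) ?_
    rw [DegA_v0_eq t ht]
    exact hτ
  have h2 : algebraMap T F τ ≠ 0 := (map_ne_zero _).2 hτ.ne_zero
  rw [DegA_ord _ w h2, ← DegA_val t w τ, h1, ← exp_nsmul, log_exp]
  simp

theorem DegA_inj (t : Subalgebra k T) [Algebra t S] [IsScalarTower t S F] {w w' : HeightOneSpectrum S}
    (h : DegA_V (DegA_hk t (S := S) (F := F)) w = DegA_V (DegA_hk t (S := S) (F := F)) w') :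
    w = w' := by
  have h1 : ∀ x : F, w.valuation F x ≤ 1 ↔ w'.valuation F x ≤ 1 := fun x => by
    rw [← DegA_mem_V (DegA_hk t (S := S) (F := F)), ← DegA_mem_V (DegA_hk t (S := S) (F := F)), h]
  exact eq_of_valuation_isEquiv_valuation ((Valuation.isEquiv_iff_val_le_one).2 (h1 _))

theorem DegA_bij (ht : IsDVR t) :
    Set.BijOn (DegA_V (DegA_hk t (S := S) (F := F))) Set.univ (Ext (F := F) t) := by
  refine ⟨fun w _ => DegA_mem_Ext t ht w, fun w _ w' _ h => DegA_inj t h, ?_⟩
  intro u hu
  have hS : ∀ s : S, algebraMap S F s ∈ u := fun s =>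
    DegA_integral_mem hu ((IsIntegral.of_finite t s).algebraMap)
  obtain ⟨h1, h2⟩ := isDVR_iff.1 hu.1
  have hloc : IsLocalRing u := hu.1.isVal.isLocalRing
  let φ : S →+* u := (algebraMap S F).codRestrict u hS
  have hφ : ∀ s, ((φ s : u) : F) = algebraMap S F s := fun _ => rfl
  have hq : ∀ s, s ∈ (IsLocalRing.maximalIdeal u).comap φ ↔
      ¬ (algebraMap S F s ≠ 0 ∧ (algebraMap S F s)⁻¹ ∈ u) := by
    intro s
    rw [Ideal.mem_comap, IsLocalRing.mem_maximalIdeal, mem_nonunits_iff, LocAlg_unit, hφ]
  have hne : (IsLocalRing.maximalIdeal u).comap φ ≠ ⊥ := by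
    obtain ⟨τ, hτ⟩ := ht
    intro h
    have h3 : algebraMap t S ⟨τ, hτ.1⟩ ∈ (IsLocalRing.maximalIdeal u).comap φ := by
      rw [hq, ← IsScalarTower.algebraMap_apply t S F]
      rintro ⟨-, h4⟩
      have h5 : algebraMap T F τ⁻¹ ∈ u := by
        rw [map_inv₀]
        exact h4
      exact hτ.2.1 ((hu.2 _).2 h5)
    rw [h, Ideal.mem_bot] at h3
    have h6 : algebraMap T F τ = 0 := by
      have h7 := congrArg (algebraMap S F) h3
      rw [← IsScalarTower.algebraMap_apply t S F, map_zero] at h7
      exact h7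
    exact hτ.ne_zero ((map_eq_zero _).1 h6)
  refine ⟨⟨(IsLocalRing.maximalIdeal u).comap φ, inferInstance, hne⟩, Set.mem_univ _, ?_⟩
  refine DegA_eq_of_le _ _ hu.1 hS fun s hs => ?_
  have h3 := (not_congr (hq s)).1 hs
  rw [not_not] at h3
  exact h3.2

omit [IsFractionRing t T] in
theorem DegA_bij2 : Set.BijOn (fun w : HeightOneSpectrum S => w.asIdeal) Set.univ
    (IsDedekindDomain.primesOverFinset (DegA_v0 t).asIdeal S : Set (Ideal S)) := by
  rw [IsDedekindDomain.coe_primesOverFinset (DegA_v0 t).ne_bot]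
  refine ⟨fun w _ => ⟨w.isPrime, DegA_over t w⟩, fun w _ w' _ h => HeightOneSpectrum.ext h, ?_⟩
  rintro P ⟨hP1, hP2⟩
  refine ⟨⟨P, hP1, ?_⟩, Set.mem_univ _, rfl⟩
  rintro rfl
  have h1 := hP2.over
  rw [Ideal.under_bot] at h1
  exact (DegA_v0 t).ne_bot h1

end Core

/-- The identity `∑ e f = [F : T]`.  Proof: let `S` be the integral closure of `t` in `F`, a
Dedekind domain, finite over `t` because `F/T` is separable; the discrete valuation rings of `F`
over `t` are the localizations of `S` at the maximal ideals over the maximal ideal of `t`;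
`ram` and `resDeg` are the ramification index and the inertia degree, so the claim is
`Ideal.sum_ramification_inertia`.  (Here `resDeg v (image of t) = [κ(v) : κ(t)]`.) -/
theorem sum_ext {k T F : Type*} [Field k] [CharZero k] [Field T] [Field F] [Algebra k T]
    [Algebra k F] [Algebra T F] [IsScalarTower k T F] [FiniteDimensional T F]
    (t : Subalgebra k T) (ht : IsDVR t) :
    (Ext (F := F) t).Finite ∧
    ∑ᶠ v ∈ Ext (F := F) t, (ram t v : ℚ) * resDeg v (algebraMap T F '' (t : Set T)) =
      Module.finrank T F := by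
  obtain ⟨h1, h2⟩ := isDVR_iff.1 ht
  have : CharZero T := charZero_of_injective_algebraMap (algebraMap k T).injective
  have h3 : IsDedekindDomain (integralClosure t F) := integralClosure.isDedekindDomain t T F
  have h4 : IsFractionRing (integralClosure t F) F :=
    integralClosure.isFractionRing_of_finite_extension T F
  have h5 : Module.Finite t (integralClosure t F) :=
    IsIntegralClosure.finite t T F (integralClosure t F)
  have h6 : Module.IsTorsionFree t (integralClosure t F) := inferInstance
  have hb1 := DegA_bij (F := F) t (S := integralClosure t F) ht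
  have hb2 := DegA_bij2 t (S := integralClosure t F)
  have hmax : (DegA_v0 t).asIdeal.IsMaximal := (DegA_v0 t).isMaximal
  constructor
  · rw [← hb1.image_eq]
    refine Set.Finite.image _ ?_
    refine Set.Finite.of_finite_image (f := fun w => w.asIdeal) ?_ hb2.injOn
    rw [hb2.image_eq]
    exact Finset.finite_toSet _
  · have e1 : ∑ᶠ w ∈ (Set.univ : Set (IsDedekindDomain.HeightOneSpectrum (integralClosure t F))),
        (((DegA_v0 t).asIdeal.ramificationIdx' w.asIdeal *
          (DegA_v0 t).asIdeal.inertiaDeg' w.asIdeal : ℕ) : ℚ) =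
        ∑ᶠ v ∈ Ext (F := F) t, (ram t v : ℚ) * resDeg v (algebraMap T F '' (t : Set T)) := by
      refine finsum_mem_eq_of_bijOn _ hb1 fun w _ => ?_
      have := DegA_over t w
      rw [DegA_ram t ht w, DegA_resDeg _ w (R := t) (DegA_v0 t).asIdeal]
      · push_cast
        ring
      · intro y
        constructor
        · rintro ⟨x, hx, rfl⟩
          exact ⟨⟨x, hx⟩, rfl⟩
        · rintro ⟨r, rfl⟩
          exact ⟨r, r.2, rfl⟩
    have e2 : ∑ᶠ w ∈ (Set.univ : Set (IsDedekindDomain.HeightOneSpectrum (integralClosure t F))),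
        (((DegA_v0 t).asIdeal.ramificationIdx' w.asIdeal *
          (DegA_v0 t).asIdeal.inertiaDeg' w.asIdeal : ℕ) : ℚ) =
        ∑ᶠ P ∈ (IsDedekindDomain.primesOverFinset (DegA_v0 t).asIdeal (integralClosure t F) :
          Set (Ideal (integralClosure t F))), (((DegA_v0 t).asIdeal.ramificationIdx' P *
          (DegA_v0 t).asIdeal.inertiaDeg' P : ℕ) : ℚ) :=
      finsum_mem_eq_of_bijOn _ hb2 fun w _ => rfl
    rw [← e1, e2, finsum_mem_coe_finset, ← Nat.cast_sum,
      Ideal.sum_ramification_inertia (integralClosure t F) T F (DegA_v0 t).ne_bot]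

/-- the integral closure of a finitely generated subalgebra `R` of `T` with fraction field `T`
in a finite extension `F` of `T` is finitely generated -/
theorem DegA_closure_fg {k T F : Type*} [Field k] [CharZero k] [Field T] [Field F] [Algebra k T]
    [Algebra k F] [Algebra T F] [IsScalarTower k T F] [FiniteDimensional T F]
    (R : Subalgebra k T) (hR : R.FG) (hRT : IsFractionRing R T) :
    ∃ B : Subalgebra k F, B.FG ∧ ∀ x : F, x ∈ B ↔ IsIntegral R x := by
  have hRf : Algebra.FiniteType k R := R.fg_iff_finiteType.1 hR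
  obtain ⟨s, g, hg, hgf⟩ := exists_finite_inj_algHom_of_fg k R
  let _ : Algebra (MvPolynomial (Fin s) k) R := g.toRingHom.toAlgebra
  have hPR : IsScalarTower k (MvPolynomial (Fin s) k) R :=
    IsScalarTower.of_algebraMap_eq fun c => (g.commutes c).symm
  let _ : Algebra (MvPolynomial (Fin s) k) F := ((algebraMap R F).comp g.toRingHom).toAlgebra
  have hPRF : IsScalarTower (MvPolynomial (Fin s) k) R F :=
    IsScalarTower.of_algebraMap_eq fun c => rfl
  have hkPF : IsScalarTower k (MvPolynomial (Fin s) k) F :=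
    IsScalarTower.of_algebraMap_eq fun c => by
      rw [IsScalarTower.algebraMap_apply (MvPolynomial (Fin s) k) R F,
        ← IsScalarTower.algebraMap_apply k (MvPolynomial (Fin s) k) R]
      exact IsScalarTower.algebraMap_apply k T F c
  have hfin : Module.Finite (MvPolynomial (Fin s) k) R := hgf
  have hinj : Function.Injective (algebraMap (MvPolynomial (Fin s) k) F) := by
    have h1 : Function.Injective (algebraMap R F) :=
      (algebraMap T F).injective.comp Subtype.val_injective
    exact h1.comp hg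
  have hfaith : FaithfulSMul (MvPolynomial (Fin s) k) F :=
    (faithfulSMul_iff_algebraMap_injective _ _).2 hinj
  let _ := FractionRing.liftAlgebra (MvPolynomial (Fin s) k) F
  have hRTe : Algebra.EssFiniteType R T :=
    Algebra.EssFiniteType.of_isLocalization T (nonZeroDivisors R)
  have hRFe : Algebra.EssFiniteType R F := Algebra.EssFiniteType.comp R T F
  have hPFe : Algebra.EssFiniteType (MvPolynomial (Fin s) k) F :=
    Algebra.EssFiniteType.comp (MvPolynomial (Fin s) k) R F
  have hKe : Algebra.EssFiniteType (FractionRing (MvPolynomial (Fin s) k)) F :=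
    Algebra.EssFiniteType.of_comp (MvPolynomial (Fin s) k) _ F
  have hRFa : Algebra.IsAlgebraic R F :=
    IsFractionRing.comap_isAlgebraic_iff (K := T) |>.2 inferInstance
  have hPRi : Algebra.IsIntegral (MvPolynomial (Fin s) k) R := inferInstance
  have hPFa : Algebra.IsAlgebraic (MvPolynomial (Fin s) k) F :=
    Algebra.IsIntegral.trans_isAlgebraic (MvPolynomial (Fin s) k) R F
  have hKa : Algebra.IsAlgebraic (FractionRing (MvPolynomial (Fin s) k)) F :=
    IsFractionRing.comap_isAlgebraic_iff.1 hPFa
  have hKf : Module.Finite (FractionRing (MvPolynomial (Fin s) k)) F :=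
    Algebra.finite_of_essFiniteType_of_isAlgebraic
  have hchar : CharZero (FractionRing (MvPolynomial (Fin s) k)) :=
    charZero_of_injective_algebraMap
      (algebraMap k (FractionRing (MvPolynomial (Fin s) k))).injective
  have hB : Module.Finite (MvPolynomial (Fin s) k)
      (integralClosure (MvPolynomial (Fin s) k) F) :=
    IsIntegralClosure.finite (MvPolynomial (Fin s) k) (FractionRing (MvPolynomial (Fin s) k)) F _
  have hB1 : Algebra.FiniteType k (integralClosure (MvPolynomial (Fin s) k) F) :=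
    Algebra.FiniteType.trans (S := MvPolynomial (Fin s) k) inferInstance inferInstance
  refine ⟨(integralClosure (MvPolynomial (Fin s) k) F).restrictScalars k, ?_, fun x => ?_⟩
  · exact (Subalgebra.fg_iff_finiteType _).2 hB1
  · rw [Subalgebra.mem_restrictScalars, mem_integralClosure_iff]
    constructor
    · intro h
      exact h.tower_top
    · intro h
      exact isIntegral_trans x h

/-- extensions of prime divisors in finite extensions are prime divisors (the integral closure of
a finitely generated domain in a finite separable extension is finite) -/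
theorem isPrimeDiv_ext {k T F : Type*} [Field k] [CharZero k] [Field T] [Field F] [Algebra k T]
    [Algebra k F] [Algebra T F] [IsScalarTower k T F] [FiniteDimensional T F]
    (t : Subalgebra k T) (ht : IsPrimeDiv t) (v : Subalgebra k F) (hv : v ∈ Ext (F := F) t) :
    IsPrimeDiv v := by
  obtain ⟨h1, h2⟩ := isDVR_iff.1 ht.1
  have : CharZero T := charZero_of_injective_algebraMap (algebraMap k T).injective
  have h3 : IsDedekindDomain (integralClosure t F) := integralClosure.isDedekindDomain t T F
  have h4 : IsFractionRing (integralClosure t F) F :=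
    integralClosure.isFractionRing_of_finite_extension T F
  have h5 : Module.Finite t (integralClosure t F) :=
    IsIntegralClosure.finite t T F (integralClosure t F)
  have h6 : Module.IsTorsionFree t (integralClosure t F) := inferInstance
  obtain ⟨R, hR, hRt⟩ := ht.2
  have hRT : IsFractionRing R T := hRt.isFractionRing_left h2
  obtain ⟨B, hBf, hB⟩ := DegA_closure_fg (F := F) R hR hRT
  let _ : Algebra R t := (Subalgebra.inclusion hRt.1).toRingHom.toAlgebra
  have hRtF : IsScalarTower R t F := IsScalarTower.of_algebraMap_eq fun _ => rfl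
  obtain ⟨p, hp, hpx, hloc⟩ := hRt.isLocalization
  have hRB : ∀ r : R, algebraMap R F r ∈ B := fun r => (hB _).2 isIntegral_algebraMap
  refine ⟨hv.1, B, hBf, ?_, hv.1.isVal.isLocalRing, ?_⟩
  · intro x hx
    have h7 : IsIntegral t x := ((hB x).1 hx).tower_top
    exact DegA_integral_mem hv h7
  · intro x hx
    obtain ⟨w, -, hw⟩ := (DegA_bij (F := F) t (S := integralClosure t F) ht.1).surjOn hv
    have hx' := hx
    rw [← hw, DegA_mem_V] at hx'
    obtain ⟨n, d, hnd⟩ := w.exists_primeCompl_mul_eq_of_integer x hx'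
    have hdv : (algebraMap (integralClosure t F) F d)⁻¹ ∈ v := by
      rw [← hw, DegA_mem_V, map_inv₀]
      have h8 : w.valuation F (algebraMap (integralClosure t F) F d) = 1 := by
        refine le_antisymm (w.valuation_le_one _) (not_lt.1 fun h => d.2 ?_)
        exact (w.valuation_lt_one_iff_mem _).1 h
      rw [h8, inv_one]
    have hd0 : algebraMap (integralClosure t F) F d ≠ 0 := by
      intro h
      have h9 : (d : integralClosure t F) = 0 :=
        (IsFractionRing.injective (integralClosure t F) F) (by rw [h, map_zero])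
      exact d.2 (by rw [h9]; exact w.asIdeal.zero_mem)
    have key : ∀ y : integralClosure t F, ∃ m : R, (m : T) ≠ 0 ∧ (m : T)⁻¹ ∈ t ∧
        algebraMap R F m * (y : F) ∈ B := by
      intro y
      obtain ⟨m, hm⟩ := IsIntegral.exists_multiple_integral_of_isLocalization p.primeCompl (y : F)
        ((mem_integralClosure_iff t F).1 y.2)
      have hm1 := (not_congr (hpx m)).1 m.2
      rw [not_or, not_not] at hm1
      refine ⟨m, fun h => hm1.1 (Subtype.ext h), hm1.2, (hB _).2 ?_⟩
      rw [Submonoid.smul_def, Algebra.smul_def] at hm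
      exact hm
    obtain ⟨m1, hm10, hm1, hm1B⟩ := key n
    obtain ⟨m2, hm20, hm2, hm2B⟩ := key d
    have e1 : algebraMap R F m1 ≠ 0 := fun h => hm10 ((map_eq_zero (algebraMap T F)).1 h)
    have e2 : algebraMap R F m2 ≠ 0 := fun h => hm20 ((map_eq_zero (algebraMap T F)).1 h)
    have i1 : (algebraMap R F m1)⁻¹ ∈ v := by
      have h10 : (algebraMap R F m1)⁻¹ = algebraMap T F ((m1 : T)⁻¹) := by
        rw [map_inv₀]
        rfl
      rw [h10]
      exact (hv.2 _).1 hm1
    have i2 : (algebraMap R F m2)⁻¹ ∈ v := by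
      have h10 : (algebraMap R F m2)⁻¹ = algebraMap T F ((m2 : T)⁻¹) := by
        rw [map_inv₀]
        rfl
      rw [h10]
      exact (hv.2 _).1 hm2
    refine ⟨algebraMap R F m2 * (algebraMap R F m1 * (n : F)), B.mul_mem (hRB m2) hm1B,
      algebraMap R F m1 * (algebraMap R F m2 * ((d : integralClosure t F) : F)),
      B.mul_mem (hRB m1) hm2B, ?_, ?_⟩
    · rw [mul_inv, mul_inv]
      exact v.mul_mem i1 (v.mul_mem i2 hdv)
    · have hd0' : ((d : integralClosure t F) : F) ≠ 0 := hd0
      have h11 : (n : F) = x * ((d : integralClosure t F) : F) := hnd.symm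
      rw [h11]
      field_simp

end Flip28
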