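import Pool.Agent.Flip_h28.ModelN
import Pool.Agent.Flip_h28.Cord

/-! # Generators of `m K_X`, sections, discrepancies -/

open scoped KaehlerDifferential

namespace Flip28

variable {k K : Type*} [Field k] [Field K] [Algebra k K] {n : ℕ}
  (b : Module.Basis (Fin n) K Ω[K⁄k]) {X Y : Set (Subalgebra k K)}

theorem Disc_kord_zero (P : Subalgebra k K) (g : K) : kord b 0 P g = ord P g := by
  unfold kord
  rw [zero_mul, add_zero]

theorem Disc_isLocalRing {E : Subalgebra k K} (hE : IsPrimeDiv E) : IsLocalRing E := by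
  obtain ⟨-, R, -, h⟩ := hE
  exact h.2.1

theorem Disc_ord_unit {E : Subalgebra k K} (hE : IsDVR E) {u : K} (h0 : u ≠ 0) (h1 : u ∈ E)
    (h2 : u⁻¹ ∈ E) : ord E u = 0 := by
  have h3 := (mem_iff hE h0).1 h1
  have h4 := (mem_iff hE (inv_ne_zero h0)).1 h2
  rw [ord_inv hE] at h4
  omega

theorem IsGen.inv {A : Subalgebra k K} {m : ℤ} {g : K} (h : IsGen b X m A g) :
    IsGen b X (-m) A g⁻¹ := by
  refine ⟨inv_ne_zero h.1, fun P hP hd hA => ?_⟩
  rw [kord_inv b hd, h.2 P hP hd hA, neg_zero]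

theorem IsGen.mul {A : Subalgebra k K} {m m' : ℤ} {g g' : K} (h : IsGen b X m A g)
    (h' : IsGen b X m' A g') : IsGen b X (m + m') A (g * g') := by
  refine ⟨mul_ne_zero h.1 h'.1, fun P hP hd hA => ?_⟩
  rw [kord_add b hd m m' h.1 h'.1, h.2 P hP hd hA, h'.2 P hP hd hA, add_zero]

theorem IsGen.pow {A : Subalgebra k K} {m : ℤ} {g : K} (h : IsGen b X m A g) (j : ℕ) :
    IsGen b X (j * m) A (g ^ j) := by
  refine ⟨pow_ne_zero j h.1, fun P hP hd hA => ?_⟩
  rw [kord_pow b hd m j h.1, h.2 P hP hd hA, mul_zero]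

theorem IsGen.mono {A B : Subalgebra k K} {m : ℤ} {g : K} (h : IsGen b X m A g) (hAB : A ≤ B) :
    IsGen b X m B g := ⟨h.1, fun P hP hd hB => h.2 P hP hd (hAB.trans hB)⟩

/-- a generator of `0 K_X` at the point `A` is a unit of `A` -/
theorem IsGen.unit (hX : IsCompleteNormal X) {A : Subalgebra k K} (hA : A ∈ X) {g : K}
    (h : IsGen b X 0 A g) : g ∈ A ∧ g⁻¹ ∈ A := by
  refine ⟨hX.mem_of_ord hA h.1 fun P hP hd hAP => ?_,
    hX.mem_of_ord hA (inv_ne_zero h.1) fun P hP hd hAP => ?_⟩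
  · have h1 := h.2 P hP hd hAP
    rw [Disc_kord_zero] at h1
    exact h1.ge
  · have h1 := h.2 P hP hd hAP
    rw [Disc_kord_zero] at h1
    rw [ord_inv hd, h1, neg_zero]

/-- a section divided by a generator is regular -/
theorem Sec.mul_inv_mem (hX : IsCompleteNormal X) {A y : Subalgebra k K} (hA : A ∈ X)
    (hy : y ≤ A) {m : ℤ} {g h : K} (hg : g ∈ Sec b X m y) (hh : IsGen b X m A h) :
    g * h⁻¹ ∈ A := by
  by_cases hg0 : g = 0
  · rw [hg0, zero_mul]
    exact A.zero_mem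
  refine hX.mem_of_ord hA (mul_ne_zero hg0 (inv_ne_zero hh.1)) fun P hP hd hAP => ?_
  have h1 := hg hg0 P hP hd (hy.trans hAP)
  have h2 := hh.2 P hP hd hAP
  have h3 := kord_add b hd m (-m) hg0 (inv_ne_zero hh.1)
  rw [add_neg_cancel, Disc_kord_zero, kord_inv b hd, h2, neg_zero, add_zero] at h3
  rw [h3]
  exact h1

/-- `a` is the value of the discrepancy, computed with any generator at the centre: for two
generators `g`, `g'` of `m K_X`, `m' K_X` at `A` the quotient `g^m' / g'^m` is a unit of `A`,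
hence has order `0` along `E`. -/
theorem disc_eq (hX : IsCompleteNormal X) {A E : Subalgebra k K} (hE : IsPrimeDiv E)
    (hA : A ∈ X) (hd : Dom A E) {m : ℤ} (hm : 0 < m) {g : K} (hg : IsGen b X m A g) :
    disc b X E = (kord b m E g : ℚ) / m := by
  have h : ∃ a : ℚ, ∃ A ∈ X, Dom A E ∧ ∃ m : ℤ, 0 < m ∧ ∃ g, IsGen b X m A g ∧
      a = (kord b m E g : ℚ) / m := ⟨_, A, hA, hd, m, hm, g, hg, rfl⟩
  unfold disc
  rw [dif_pos h]
  obtain ⟨A', hA', hd', m', hm', g', hg', ha⟩ := h.choose_spec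
  rw [ha]
  have hAA : A' = A := hX.unique hA' hA (Disc_isLocalRing hE) hd' hd
  subst hAA
  obtain ⟨j, rfl⟩ := Int.eq_ofNat_of_zero_le hm.le
  obtain ⟨i, rfl⟩ := Int.eq_ofNat_of_zero_le hm'.le
  have h1 := hg.pow b i
  have h2 := (hg'.pow b j).inv b
  have h3 := h1.mul b h2
  have h4 : (i : ℤ) * (j : ℤ) + -((j : ℤ) * (i : ℤ)) = 0 := by ring
  rw [h4] at h3
  obtain ⟨h5, h6⟩ := h3.unit b hX hA'
  have h7 := Disc_ord_unit hE.1 h3.1 (hd'.1 h5) (hd'.1 h6)
  rw [ord_mul hE.1 (pow_ne_zero i hg.1) (inv_ne_zero (pow_ne_zero j hg'.1)), ord_inv hE.1,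
    ord_pow hE.1 hg.1, ord_pow hE.1 hg'.1] at h7
  have h8 : (i : ℤ) * kord b (j : ℤ) E g = (j : ℤ) * kord b (i : ℤ) E g' := by
    unfold kord
    linear_combination h7
  have h9 : (i : ℚ) * (kord b (j : ℤ) E g : ℚ) = (j : ℚ) * (kord b (i : ℤ) E g' : ℚ) := by
    exact_mod_cast h8
  have hj : (j : ℚ) ≠ 0 := by
    have : (0 : ℚ) < (j : ℚ) := by exact_mod_cast hm
    exact this.ne'
  have hi : (i : ℚ) ≠ 0 := by
    have : (0 : ℚ) < (i : ℚ) := by exact_mod_cast hm'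
    exact this.ne'
  rw [Int.cast_natCast, Int.cast_natCast, div_eq_div_iff hi hj]
  linear_combination -h9

/-- the sections over the whole of `X` are sections everywhere -/
theorem Sec.mono {m : ℤ} {y y' : Subalgebra k K} (h : y ≤ y') : Sec b X m y ⊆ Sec b X m y' :=
  fun _ hg h0 P hP hd hy => hg h0 P hP hd (h.trans hy)

theorem Sec.mul {m m' : ℤ} {y : Subalgebra k K} {g g' : K} (h : g ∈ Sec b X m y)
    (h' : g' ∈ Sec b X m' y) : g * g' ∈ Sec b X (m + m') y := by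
  intro h0 P hP hd hy
  have hg : g ≠ 0 := left_ne_zero_of_mul h0
  have hg' : g' ≠ 0 := right_ne_zero_of_mul h0
  rw [kord_add b hd m m' hg hg']
  exact add_nonneg (h hg P hP hd hy) (h' hg' P hP hd hy)

theorem Sec.pow {m : ℤ} {y : Subalgebra k K} {g : K} (h : g ∈ Sec b X m y) (j : ℕ) :
    g ^ j ∈ Sec b X (j * m) y := by
  intro h0 P hP hd hy
  rcases Nat.eq_zero_or_pos j with rfl | hj
  · rw [pow_zero, Nat.cast_zero, zero_mul, Disc_kord_zero, ord_one hd]
  have hg : g ≠ 0 := by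
    rintro rfl
    exact h0 (zero_pow hj.ne')
  rw [kord_pow b hd m j hg]
  exact mul_nonneg (Int.natCast_nonneg j) (h hg P hP hd hy)

/-- regular functions of `y` are the sections of `0 K_Y` -/
theorem mem_of_sec_zero (hX : IsCompleteNormal X) {A : Subalgebra k K} (hA : A ∈ X) {g : K}
    (h : g ∈ Sec b X 0 A) : g ∈ A := by
  by_cases hg0 : g = 0
  · rw [hg0]
    exact A.zero_mem
  refine hX.mem_of_ord hA hg0 fun P hP hd hAP => ?_
  have h1 := h hg0 P hP hd hAP
  rw [Disc_kord_zero] at h1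
  exact h1

/-- If the discrete valuation rings of `X'` above `y` are points of `X`, sections on `X` are
sections on `X'`. -/
theorem Sec.of_dvr {X' : Set (Subalgebra k K)} {m : ℤ} {y : Subalgebra k K}
    (h : ∀ P ∈ X', IsDVR P → y ≤ P → P ∈ X) : Sec b X m y ⊆ Sec b X' m y :=
  fun _ hg h0 P hP hd hy => hg h0 P (h P hP hd hy) hd hy

end Flip28
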