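import Pool.Agent.Flip_h28.Ord
import Pool.Agent.Flip_h28.LocAlg

/-! # Points of a complete normal variety -/

namespace Flip28

variable {k K : Type*} [Field k] [Field K] [Algebra k K] {X Y : Set (Subalgebra k K)}

/-- every point is a localization of a finitely generated algebra with quotient field `K` -/
theorem IsCompleteNormal.exists_chart (hX : IsCompleteNormal X) {A : Subalgebra k K}
    (hA : A ∈ X) : ∃ R : Subalgebra k K, R.FG ∧ IsFractionRing R K ∧ IsLoc R A ∧
      ∀ B, IsLoc R B → B ∈ X := by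
  obtain ⟨C, _, hC, hmem⟩ := hX.charts
  obtain ⟨R, hR, hRA⟩ := (hmem A).1 hA
  exact ⟨R, (hC R hR).1, (hC R hR).2, hRA, fun B hB => (hmem B).2 ⟨R, hR, hB⟩⟩

theorem IsCompleteNormal.isLocalRing (hX : IsCompleteNormal X) {A : Subalgebra k K}
    (hA : A ∈ X) : IsLocalRing A := by
  obtain ⟨R, _, _, hRA, _⟩ := hX.exists_chart hA
  exact hRA.2.1

/-- generizations of points are points -/
theorem IsCompleteNormal.loc (hX : IsCompleteNormal X) {A B : Subalgebra k K} (hA : A ∈ X)
    (h : IsLoc A B) : B ∈ X := by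
  obtain ⟨R, _, _, hRA, hall⟩ := hX.exists_chart hA
  exact hall B (hRA.trans h)

/-- a local ring `V` dominates at most one point -/
theorem IsCompleteNormal.unique (hX : IsCompleteNormal X) {A B V : Subalgebra k K}
    (hA : A ∈ X) (hB : B ∈ X) (hV : IsLocalRing V) (h : Dom A V) (h' : Dom B V) : A = B := by
  obtain ⟨V', hv, hd⟩ := exists_val_dom V hV
  exact (hX.centre V' hv).unique ⟨hA, h.trans hd⟩ ⟨hB, h'.trans hd⟩

/-- If `A ≤ V`, `A` a point, `B` the point dominated by `V`, then `B` is a generization of `A`. -/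
theorem IsCompleteNormal.isLoc_centre (hX : IsCompleteNormal X) {A B V : Subalgebra k K}
    (hA : A ∈ X) (hB : B ∈ X) (hV : IsLocalRing V) (h : A ≤ V) (h' : Dom B V) :
    IsLoc A B := by
  obtain ⟨A', h1, h2⟩ := exists_cen A V h hV
  have h3 : A' = B := hX.unique (hX.loc hA h1) hB hV h2 h'
  rw [← h3]
  exact h1

/-- if `A ≤ B` are points then `B` is a localization of `A` -/
theorem IsCompleteNormal.isLoc_of_le (hX : IsCompleteNormal X) {A B : Subalgebra k K}
    (hA : A ∈ X) (hB : B ∈ X) (h : A ≤ B) : IsLoc A B := by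
  exact hX.isLoc_centre hA hB (hX.isLocalRing hB) h (Dom.refl B)

/-- the centre of a valuation ring -/
theorem IsCompleteNormal.exists_centre (hX : IsCompleteNormal X) {V : Subalgebra k K}
    (hV : IsVal V) : ∃ A ∈ X, Dom A V := by
  obtain ⟨A, hA, _⟩ := hX.centre V hV
  exact ⟨A, hA.1, hA.2⟩

/-- the discrete valuation rings among the points are prime divisors -/
theorem IsCompleteNormal.isPrimeDiv (hX : IsCompleteNormal X) {P : Subalgebra k K}
    (hP : P ∈ X) (h : IsDVR P) : IsPrimeDiv P := by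
  obtain ⟨R, hR, _, hRP, _⟩ := hX.exists_chart hP
  exact ⟨h, R, hR, hRP⟩

/-- The discrete valuation rings which are points of `Y` are points of every `X` above `Y`. -/
theorem dvr_up (hX : IsCompleteNormal X) (hY : IsCompleteNormal Y)
    (down : ∀ A ∈ X, ∃ y ∈ Y, Dom y A) {P : Subalgebra k K} (hP : P ∈ Y) (hd : IsDVR P) :
    P ∈ X := by
  obtain ⟨A, hA, hAP⟩ := hX.exists_centre hd.isVal
  obtain ⟨y, hy, hyA⟩ := down A hA
  have h1 : y = P := hY.unique hy hP (hY.isLocalRing hP) (hyA.trans hAP) (Dom.refl P)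
  have h2 : P ≤ A := by
    rw [← h1]
    exact hyA.1
  rw [le_antisymm h2 hAP.1]
  exact hA

/-- the image point is unique, and `Dom` can be tested on a local ring `V` dominating `A` -/
theorem down_eq (hX : IsCompleteNormal X) (hY : IsCompleteNormal Y)
    (down : ∀ A ∈ X, ∃ y ∈ Y, Dom y A) {A y V : Subalgebra k K} (hA : A ∈ X) (hy : y ∈ Y)
    (hV : IsLocalRing V) (h : Dom A V) (h' : Dom y V) : Dom y A := by
  obtain ⟨y', hy', h1⟩ := down A hA
  have h2 : y' = y := hY.unique hy' hy hV (h1.trans h) h'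
  rw [← h2]
  exact h1

theorem IsCompleteNormal.top_mem (hX : IsCompleteNormal X) : (⊤ : Subalgebra k K) ∈ X := by
  have hv : IsVal (⊤ : Subalgebra k K) := fun x => Or.inl Algebra.mem_top
  obtain ⟨A, hA, hAV⟩ := hX.exists_centre hv
  obtain ⟨R, _, hF, hRA, _⟩ := hX.exists_chart hA
  have h1 : A = ⊤ := by
    rw [eq_top_iff]
    intro x _
    obtain ⟨a, b, _, hab⟩ := IsFractionRing.div_surjective (A := R) x
    rw [← hab, div_eq_mul_inv]
    exact A.mul_mem (hRA.1 a.2) (hAV.2 _ (hRA.1 b.2) Algebra.mem_top)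
  rw [← h1]
  exact hA

end Flip28
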