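import Pool.Agent.Flip_h28.Finite

/-! # The points of one model not on another one form a closed set -/

namespace Flip28

variable {k K : Type*} [Field k] [Field K] [Algebra k K] {X X' : Set (Subalgebra k K)}

theorem OpenPts_aux_pow {R' : Subalgebra k K} {T : Set K} {d : K} (hd : d ∈ R')
    (hT : ∀ t ∈ T, d * t ∈ R') {x : K} (hx : x ∈ Algebra.adjoin k T) :
    ∃ m : ℕ, d ^ m * x ∈ R' := by
  induction hx using Algebra.adjoin_induction with
  | mem t ht => exact ⟨1, by rw [pow_one]; exact hT t ht⟩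
  | algebraMap c => exact ⟨0, by rw [pow_zero, one_mul]; exact R'.algebraMap_mem c⟩
  | add x y _ _ hx hy =>
    obtain ⟨m, hm⟩ := hx
    obtain ⟨m', hm'⟩ := hy
    refine ⟨m + m', ?_⟩
    have e : d ^ (m + m') * (x + y) = d ^ m' * (d ^ m * x) + d ^ m * (d ^ m' * y) := by ring
    rw [e]
    exact R'.add_mem (R'.mul_mem (R'.pow_mem hd _) hm) (R'.mul_mem (R'.pow_mem hd _) hm')
  | mul x y _ _ hx hy =>
    obtain ⟨m, hm⟩ := hx
    obtain ⟨m', hm'⟩ := hy
    refine ⟨m + m', ?_⟩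
    have e : d ^ (m + m') * (x * y) = (d ^ m * x) * (d ^ m' * y) := by ring
    rw [e]
    exact R'.mul_mem hm hm'

/-- The points of the chart `R` which are points of `X'` form an open set. -/
theorem OpenPts_aux_open {R A : Subalgebra k K} (hR : R.FG) (hA : IsLoc R A)
    (hX' : IsCompleteNormal X') (hAX : A ∈ X') :
    ∃ r ∈ R, r ≠ 0 ∧ r⁻¹ ∈ A ∧ ∀ B, IsLoc R B → r⁻¹ ∈ B → B ∈ X' := by
  obtain ⟨R', hR', -, hA', hall⟩ := hX'.exists_chart hAX
  obtain ⟨T, hT⟩ := hR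
  obtain ⟨T', hT'⟩ := hR'
  have hTR : ∀ t ∈ (T : Set K), t ∈ R := fun t ht => by
    rw [← hT]
    exact Algebra.subset_adjoin ht
  have hTR' : ∀ t ∈ (T' : Set K), t ∈ R' := fun t ht => by
    rw [← hT']
    exact Algebra.subset_adjoin ht
  obtain ⟨d, hd, hd0, hdA, hdT⟩ := Finite_aux_denom hA 1 T'.finite_toSet
    (fun t ht => by rw [inv_one, mul_one]; exact hA'.1 (hTR' t ht))
  obtain ⟨d', hd', hd'0, hd'A, hd'T⟩ := Finite_aux_denom hA' 1 T.finite_toSet
    (fun t ht => by rw [inv_one, mul_one]; exact hA.1 (hTR t ht))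
  simp only [inv_one, mul_one] at hdT hd'T
  obtain ⟨a, ha, s, hs, hsA, e⟩ := hA.2.2 _ hd'A
  have hs0 : s ≠ 0 := by
    rintro rfl
    rw [inv_zero, mul_zero] at e
    exact inv_ne_zero hd'0 e
  refine ⟨d * s, R.mul_mem hd hs, mul_ne_zero hd0 hs0, ?_, fun B hB hrB => hall B ?_⟩
  · rw [mul_inv]
    exact A.mul_mem hdA hsA
  have hdB : d⁻¹ ∈ B := by
    have e1 : d⁻¹ = s * (d * s)⁻¹ := by
      field_simp
    rw [e1]
    exact B.mul_mem (hB.1 hs) hrB
  have hsB : s⁻¹ ∈ B := by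
    have e1 : s⁻¹ = d * (d * s)⁻¹ := by
      field_simp
    rw [e1]
    exact B.mul_mem (hB.1 hd) hrB
  have hd'B : d'⁻¹ ∈ B := by
    rw [e]
    exact B.mul_mem (hB.1 ha) hsB
  refine ⟨?_, hB.2.1, ?_⟩
  · rw [← hT', Algebra.adjoin_le_iff]
    intro t ht
    have e1 : t = (d * t) * d⁻¹ := by
      field_simp
    show t ∈ B
    rw [e1]
    exact B.mul_mem (hB.1 (hdT t ht)) hdB
  · intro x hx
    obtain ⟨r1, hr1, s1, hs1, hs1B, rfl⟩ := hB.2.2 x hx
    by_cases hs10 : s1 = 0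
    · exact ⟨0, R'.zero_mem, 1, R'.one_mem, by rw [inv_one]; exact B.one_mem, by simp [hs10]⟩
    obtain ⟨m, hm⟩ := OpenPts_aux_pow hd' hd'T (hT.symm ▸ hr1)
    obtain ⟨m', hm'⟩ := OpenPts_aux_pow hd' hd'T (hT.symm ▸ hs1)
    refine ⟨d' ^ m' * (d' ^ m * r1), R'.mul_mem (R'.pow_mem hd' _) hm,
      d' ^ m * (d' ^ m' * s1), R'.mul_mem (R'.pow_mem hd' _) hm', ?_, ?_⟩
    · rw [mul_inv, mul_inv, ← inv_pow, ← inv_pow]
      exact B.mul_mem (B.pow_mem hd'B _) (B.mul_mem (B.pow_mem hd'B _) hs1B)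
    · field_simp

theorem OpenPts_aux_chart {R : Subalgebra k K} (hR : R.FG) (hK : IsFractionRing R K)
    (hX' : IsCompleteNormal X') (c : ℕ)
    (hc : ∀ A, IsLoc R A → A ∉ X' → (c : WithBot ℕ∞) ≤ ringKrullDim A) :
    {A | IsLoc R A ∧ A ∉ X' ∧ ringKrullDim A = c}.Finite := by
  haveI : IsNoetherianRing R := by
    haveI : Algebra.FiniteType k R := R.fg_iff_finiteType.1 hR
    exact Algebra.FiniteType.isNoetherianRing k R
  set J : Ideal R := Ideal.span {r : R | r ≠ 0 ∧ ∀ B, IsLoc R B → (r : K)⁻¹ ∈ B → B ∈ X'}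
    with hJ
  have hfin : ((fun p : Ideal R => (p : Set R)) '' J.minimalPrimes).Finite :=
    (J.finite_minimalPrimes_of_isNoetherianRing).image _
  refine Set.Finite.of_finite_image (f := Finite_aux_pr R) (hfin.subset ?_)
    ((Finite_aux_inj R).mono (fun A hA => hA.1))
  rintro _ ⟨A, ⟨hA, hcond, hdim⟩, rfl⟩
  obtain ⟨p, hp, hpm, _⟩ := hA.isLocalization
  have hpA : Finite_aux_pr R A = (p : Set R) := by
    ext x
    exact (hpm x).symm
  refine ⟨p, ?_, hpA.symm⟩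
  have hJp : J ≤ p := by
    rw [hJ, Ideal.span_le]
    rintro r ⟨hr0, hr⟩
    by_contra hrp
    have hrp' : ¬ (r = 0 ∨ (r : K)⁻¹ ∉ A) := fun h => hrp ((hpm r).2 h)
    push Not at hrp'
    exact hcond (hr A hA hrp'.2)
  refine ⟨⟨hp, hJp⟩, ?_⟩
  rintro q ⟨hq, hJq⟩ hqp
  obtain ⟨B, hB, hB1, hB2⟩ := exists_isLoc_of_prime R q
  have hqB : Finite_aux_pr R B = (q : Set R) := by
    ext x
    constructor
    · rintro (h | h)
      · rw [h]
        exact q.zero_mem
      · by_contra hx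
        exact h (hB2 x hx)
    · intro hx
      by_cases hx0 : x = 0
      · exact Or.inl hx0
      · right
        intro hxB
        exact hB1 x hxB hx0 hx
  have hAB : A ≤ B := Finite_aux_le hA hB (by rw [hqB, hpA]; exact hqp)
  have hBcond : B ∉ X' := by
    intro hBX
    obtain ⟨r, hr, hr0, hrB, hall⟩ := OpenPts_aux_open hR hB hX' hBX
    have h1 : (⟨r, hr⟩ : R) ∈ J :=
      Ideal.subset_span ⟨fun h => hr0 (congrArg Subtype.val h), hall⟩
    exact hB1 ⟨r, hr⟩ hrB (fun h => hr0 (congrArg Subtype.val h)) (hJq h1)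
  by_cases hEq : A = B
  · have : (p : Set R) = (q : Set R) := by rw [← hpA, ← hqB, hEq]
    exact (SetLike.coe_injective this).le
  · exfalso
    have h1 := dim_lt_of_lt hR hK hA hB (lt_of_le_of_ne hAB hEq)
    have h2 := hc B hB hBcond
    rw [hdim] at h1
    exact absurd h2 (not_le_of_gt h1)

/-- Proof: let `R` be a chart of `X` (there are finitely many).  The set of primes `p` of `R` with
`R_p ∈ X'` is open: if `R_p = R'_q`, `R'` a chart of `X'`, then `R' ⊆ R[1/s]` for some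
`s ∉ p` and `R ⊆ R'[1/s']` for some `s' ∉ q`; `s'` is a unit of `R[1/r]` for some `r ∉ p`
divisible by `s`; for all primes `p'` of `R` with `r ∉ p'` the ring `R_{p'}` contains
`R'[1/s']`, which contains `R`, so it is a localization of `R'`, hence a point of `X'`.
The complement is closed, and its points of codimension `c` are minimal in it. -/
theorem finite_removed (hX : IsCompleteNormal X) (hX' : IsCompleteNormal X') {c : ℕ}
    (hc : ∀ A ∈ X, A ∉ X' → (c : WithBot ℕ∞) ≤ ringKrullDim A) :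
    {A | A ∈ X ∧ A ∉ X' ∧ ringKrullDim A = c}.Finite := by
  obtain ⟨C, hC, hC2, hX2⟩ := hX.charts
  have h1 : (⋃ R ∈ C, {A | IsLoc R A ∧ A ∉ X' ∧ ringKrullDim A = c}).Finite := by
    refine hC.biUnion fun R hR => OpenPts_aux_chart (hC2 R hR).1 (hC2 R hR).2 hX' c ?_
    intro A hA hcond
    exact hc A ((hX2 A).2 ⟨R, hR, hA⟩) hcond
  refine h1.subset ?_
  rintro A ⟨hA, hcond, hdim⟩
  obtain ⟨R, hR, hRA⟩ := (hX2 A).1 hA
  exact Set.mem_biUnion hR ⟨hRA, hcond, hdim⟩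

end Flip28
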