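import Pool.Agent.Flip_h28.LocAlg

/-! # The dimension formula -/

open scoped KaehlerDifferential

namespace Flip28

variable {k K : Type*} [Field k] [Field K] [Algebra k K]

theorem DimB_height_le_one {D : Type*} [CommRing D] [IsDomain D] [IsNoetherianRing D]
    (Q : Ideal (Polynomial D)) [Q.IsPrime] (h : Q.comap Polynomial.C = ⊥) : Q.height ≤ 1 := by
  let F := FractionRing D
  let _ : Algebra (Polynomial D) (Polynomial F) := Polynomial.algebra D F
  have hloc : IsLocalization ((nonZeroDivisors D).map (Polynomial.C : D →+* Polynomial D))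
      (Polynomial F) := Polynomial.isLocalization (nonZeroDivisors D) F
  have disj : Disjoint (((nonZeroDivisors D).map (Polynomial.C : D →+* Polynomial D) :
      Submonoid (Polynomial D)) : Set (Polynomial D)) (Q : Set (Polynomial D)) := by
    refine Set.disjoint_left.2 ?_
    rintro _ ⟨d, hd, rfl⟩ hQ
    have : d ∈ Q.comap Polynomial.C := hQ
    rw [h, Ideal.mem_bot] at this
    exact nonZeroDivisors.ne_zero hd this
  have h1 := IsLocalization.height_map_of_disjoint (S := Polynomial F)
    ((nonZeroDivisors D).map (Polynomial.C : D →+* Polynomial D)) Q disj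
  have hp : (Q.map (algebraMap (Polynomial D) (Polynomial F))).IsPrime :=
    IsLocalization.isPrime_of_isPrime_disjoint
      ((nonZeroDivisors D).map (Polynomial.C : D →+* Polynomial D)) (Polynomial F) Q ‹_› disj
  have h2 := Ideal.height_le_ringKrullDim_of_ne_top hp.ne_top
  rw [h1, Polynomial.ringKrullDim_of_isNoetherianRing, ringKrullDim_eq_zero_of_field] at h2
  have h3 : ((Q.height : ℕ∞) : WithBot ℕ∞) ≤ ((1 : ℕ∞) : WithBot ℕ∞) := by
    simpa using h2
  exact WithBot.coe_le_coe.1 h3

theorem DimB_poly {F : Type*} [Field F] {R : Type*} [CommRing R] [Algebra F R]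
    [IsNoetherianRing R] (P : Ideal (Polynomial R)) [P.IsPrime] (d e : ℕ)
    (h1 : (P.under R).height = d) (h2 : Algebra.trdeg F (R ⧸ P.under R) = e) :
    ∃ d' e' : ℕ, P.height = d' ∧ Algebra.trdeg F (Polynomial R ⧸ P) = e' ∧
      d' + e' = d + e + 1 := by
  set p := P.under R with hp
  have hpp : p.IsPrime := by rw [hp]; infer_instance
  let φ : Polynomial (R ⧸ p) →ₐ[R ⧸ p] (Polynomial R ⧸ P) :=
    Polynomial.aeval (Ideal.Quotient.mk P Polynomial.X)
  have hφ : ∀ f : Polynomial R, φ (f.map (Ideal.Quotient.mk p)) = Ideal.Quotient.mk P f := by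
    intro f
    induction f using Polynomial.induction_on' with
    | add f g hf hg => rw [Polynomial.map_add, map_add, map_add, hf, hg]
    | monomial n a =>
      rw [Polynomial.map_monomial, Polynomial.aeval_monomial, ← Polynomial.C_mul_X_pow_eq_monomial,
        map_mul, map_pow]
      rfl
  have hφs : Function.Surjective φ := by
    intro b
    obtain ⟨f, rfl⟩ := Ideal.Quotient.mk_surjective b
    exact ⟨_, hφ f⟩
  set Q : Ideal (Polynomial (R ⧸ p)) := RingHom.ker φ with hQ
  have hQp : Q.IsPrime := RingHom.ker_isPrime _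
  have hQC : Q.comap Polynomial.C = ⊥ := by
    rw [eq_bot_iff]
    intro x hx
    have hx' : φ (Polynomial.C x) = 0 := hx
    rw [Polynomial.aeval_C] at hx'
    exact (FaithfulSMul.algebraMap_injective (R ⧸ p) (Polynomial R ⧸ P)) (by rw [hx', map_zero])
  let ε := (Ideal.polynomialQuotientEquivQuotientPolynomial p).symm
  have hQ2 : P.map (Ideal.Quotient.mk (p.map (algebraMap R (Polynomial R)))) =
      Q.comap (ε : (Polynomial R ⧸ p.map (algebraMap R (Polynomial R))) ≃+* Polynomial (R ⧸ p)) := by
    ext z
    obtain ⟨f, rfl⟩ := Ideal.Quotient.mk_surjective z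
    have e1 : ε (Ideal.Quotient.mk (p.map (algebraMap R (Polynomial R))) f) =
        f.map (Ideal.Quotient.mk p) := by
      rw [RingEquiv.symm_apply_eq]
      exact (Ideal.polynomialQuotientEquivQuotientPolynomial_map_mk p f).symm
    have hle : p.map (algebraMap R (Polynomial R)) ≤ P := by
      rw [Ideal.map_le_iff_le_comap]
    rw [Ideal.mem_comap]
    constructor
    · intro h
      have h3 : f ∈ P := by
        have := (Ideal.mem_map_iff_of_surjective _ Ideal.Quotient.mk_surjective).1 h
        obtain ⟨g, hg, hgf⟩ := this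
        have h4 : g - f ∈ P := hle (Ideal.Quotient.eq.1 hgf)
        have := P.sub_mem hg h4
        simpa using this
      change φ (ε _) = 0
      erw [e1]
      rw [hφ]
      exact Ideal.Quotient.eq_zero_iff_mem.2 h3
    · intro h
      change φ (ε _) = 0 at h
      erw [e1] at h
      rw [hφ] at h
      exact Ideal.mem_map_of_mem _ (Ideal.Quotient.eq_zero_iff_mem.1 h)
  have hht : P.height = p.height + Q.height := by
    rw [Ideal.height_eq_height_add_of_liesOver_of_hasGoingDown p P, hQ2]
    congr 1
    exact RingEquiv.height_comap ε Q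
  have htr : ∀ a : ℕ, Algebra.trdeg (R ⧸ p) (Polynomial R ⧸ P) = a →
      Algebra.trdeg F (Polynomial R ⧸ P) = ((e + a : ℕ) : Cardinal) := by
    intro a ha
    have := trdeg_add_eq F (R ⧸ p) (A := Polynomial R ⧸ P)
    rw [← this, h2, ha]
    push_cast
    rfl
  by_cases hQ0 : Q = ⊥
  · refine ⟨d, e + 1, ?_, htr 1 ?_, by omega⟩
    · rw [hht, h1, hQ0, Ideal.height_bot, add_zero]
    · have hinj : Function.Injective φ := (RingHom.injective_iff_ker_eq_bot _).2 hQ0
      have := (AlgEquiv.ofBijective φ ⟨hinj, hφs⟩).trdeg_eq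
      rw [← this, Polynomial.trdeg_of_isDomain]
      simp
  · refine ⟨d + 1, e, ?_, ?_, by omega⟩
    · have h3 : Q.height = 1 := by
        refine le_antisymm (DimB_height_le_one Q hQC) ?_
        rw [Order.one_le_iff_ne_zero, Ne, Ideal.height_eq_zero_iff_eq_bot]
        exact hQ0
      rw [hht, h1, h3]
      push_cast
      rfl
    · have := htr 0 ?_
      · simpa using this
      · obtain ⟨f, hf, hf0⟩ := Submodule.exists_mem_ne_zero_of_ne_bot hQ0
        have halg : IsAlgebraic (R ⧸ p) (Ideal.Quotient.mk P Polynomial.X) := ⟨f, hf0, hf⟩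
        have h4 := Algebra.isAlgebraic_adjoin_singleton_iff.2 halg
        have h5 : Algebra.IsAlgebraic (R ⧸ p) (Polynomial R ⧸ P) := by
          constructor
          intro b
          apply h4
          obtain ⟨g, rfl⟩ := hφs b
          exact Polynomial.aeval_mem_adjoin_singleton _ _
        rw [trdeg_eq_zero]
        simp

theorem DimB_mv {F : Type*} [Field F] (n : ℕ) (P : Ideal (MvPolynomial (Fin n) F)) (hP : P.IsPrime) :
    ∃ d e : ℕ, P.height = d ∧ Algebra.trdeg F (MvPolynomial (Fin n) F ⧸ P) = e ∧ d + e = n := by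
  induction n with
  | zero =>
    refine ⟨0, 0, ?_, ?_, rfl⟩
    · have h2 := Ideal.height_le_ringKrullDim_of_ne_top hP.ne_top
      rw [MvPolynomial.ringKrullDim_of_isNoetherianRing, ringKrullDim_eq_zero_of_field] at h2
      have h3 : ((P.height : ℕ∞) : WithBot ℕ∞) ≤ ((0 : ℕ∞) : WithBot ℕ∞) := by
        simpa using h2
      have h4 := WithBot.coe_le_coe.1 h3
      simpa using h4
    · have h := trdeg_le_of_surjective (Ideal.Quotient.mkₐ F P) (Ideal.Quotient.mkₐ_surjective F P)
      rw [MvPolynomial.trdeg_of_isDomain] at h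
      simpa using h
  | succ n ih =>
    let E := MvPolynomial.finSuccEquiv F n
    set P' : Ideal (Polynomial (MvPolynomial (Fin n) F)) := P.map (E : _ →+* _) with hP'
    have hP'p : P'.IsPrime := Ideal.map_isPrime_of_equiv E.toRingEquiv
    obtain ⟨d, e, h1, h2, h3⟩ := ih (P'.under (MvPolynomial (Fin n) F)) inferInstance
    obtain ⟨d', e', h1', h2', h3'⟩ := DimB_poly (F := F) P' d e h1 h2
    refine ⟨d', e', ?_, ?_, by omega⟩
    · rw [← h1']
      exact (RingEquiv.height_map E.toRingEquiv P).symm
    · rw [← h2']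
      exact (Ideal.quotientEquivAlg P P' E hP').trdeg_eq

theorem DimB_fg {F : Type*} [Field F] {R : Type*} [CommRing R] [IsDomain R] [Algebra F R]
    [Algebra.FiniteType F R] (P : Ideal R) [P.IsPrime] :
    ∃ d e : ℕ, P.height = d ∧ Algebra.trdeg F (R ⧸ P) = e ∧
      Algebra.trdeg F R = ((d + e : ℕ) : Cardinal) := by
  obtain ⟨s, g, hg, hint⟩ := exists_integral_inj_algHom_of_fg F R
  let _ : Algebra (MvPolynomial (Fin s) F) R := g.toRingHom.toAlgebra
  have hst : IsScalarTower F (MvPolynomial (Fin s) F) R :=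
    IsScalarTower.of_algebraMap_eq fun x => (g.commutes x).symm
  have hI : Algebra.IsIntegral (MvPolynomial (Fin s) F) R := ⟨hint⟩
  have hF : FaithfulSMul (MvPolynomial (Fin s) F) R :=
    (faithfulSMul_iff_algebraMap_injective _ _).2 hg
  have hN : IsNoetherianRing R := Algebra.FiniteType.isNoetherianRing F R
  set p0 := P.under (MvPolynomial (Fin s) F) with hp0
  obtain ⟨d, e, h1, h2, h3⟩ := DimB_mv s p0 inferInstance
  refine ⟨d, e, ?_, ?_, ?_⟩
  · rw [← h1]
    apply le_antisymm
    · let x : PrimeSpectrum R := ⟨P, ‹_›⟩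
      have hsm : StrictMono (PrimeSpectrum.comap (algebraMap (MvPolynomial (Fin s) F) R)) := by
        intro a b hab
        have hab' : a.asIdeal < b.asIdeal := hab
        have := a.isPrime
        exact Ideal.IsIntegral.comap_lt_comap hab'
      have h4 := Order.height_le_height_apply_of_strictMono _ hsm x
      rw [← PrimeSpectrum.height_eq_orderHeight, ← PrimeSpectrum.height_eq_orderHeight] at h4
      exact h4
    · rw [Ideal.height_eq_height_add_of_liesOver_of_hasGoingDown p0 P]
      exact le_self_add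
  · have h5 := lift_trdeg_add_eq F (MvPolynomial (Fin s) F ⧸ p0) (R ⧸ P)
    have h6 : Algebra.trdeg (MvPolynomial (Fin s) F ⧸ p0) (R ⧸ P) = 0 := trdeg_eq_zero
    rw [h6, h2] at h5
    apply Cardinal.lift_injective
    rw [← h5]
    simp
  · have h5 := lift_trdeg_add_eq F (MvPolynomial (Fin s) F) R
    have h6 : Algebra.trdeg (MvPolynomial (Fin s) F) R = 0 := trdeg_eq_zero
    rw [h6, MvPolynomial.trdeg_of_isDomain] at h5
    apply Cardinal.lift_injective
    rw [← h5, h3]
    simp

/-- the local ring of a finitely generated domain: dimension formula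
`dim R_p + trdeg κ(p) = trdeg K` -/
theorem dim_formula {R A : Subalgebra k K} (hR : R.FG) (hK : IsFractionRing R K)
    (h : IsLoc R A) :
    haveI := h.2.1
    ∃ d e : ℕ, ringKrullDim A = d ∧ Algebra.trdeg k (IsLocalRing.ResidueField A) = e ∧
      Algebra.trdeg k K = ((d + e : ℕ) : Cardinal) := by
  obtain ⟨hRA, hloc, hq⟩ := id h
  haveI : IsLocalRing A := hloc
  obtain ⟨p, hp, hpm, hAP⟩ := h.isLocalization
  letI : Algebra R A := (Subalgebra.inclusion h.1).toRingHom.toAlgebra
  have hAP' : IsLocalization.AtPrime A p := hAP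
  have hfin : Algebra.FiniteType k R := R.fg_iff_finiteType.1 hR
  obtain ⟨d, e, h1, h2, h3⟩ := DimB_fg (F := k) p
  refine ⟨d, e, ?_, ?_, ?_⟩
  · rw [IsLocalization.AtPrime.ringKrullDim_eq_height p A, h1]
    rfl
  · -- the residue field is algebraic over `R / p`
    let ψ : R →ₐ[k] IsLocalRing.ResidueField A :=
      (IsScalarTower.toAlgHom k A (IsLocalRing.ResidueField A)).comp (Subalgebra.inclusion h.1)
    have hψ : ∀ x : R, ψ x = IsLocalRing.residue A (Subalgebra.inclusion h.1 x) := fun x => rfl
    have hunit : ∀ z : A, IsUnit z ↔ (z : K) ≠ 0 ∧ (z : K)⁻¹ ∈ A := by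
      intro z
      constructor
      · rintro ⟨u, rfl⟩
        have hu : ((u : A) : K) * ((u⁻¹ : Aˣ) : A) = 1 := congrArg (Subtype.val) (u.mul_inv)
        have h0 : ((u : A) : K) ≠ 0 := by
          intro h
          rw [h, zero_mul] at hu
          exact zero_ne_one hu
        refine ⟨h0, ?_⟩
        have : ((u : A) : K)⁻¹ = ((u⁻¹ : Aˣ) : A) := inv_eq_of_mul_eq_one_right hu
        rw [this]
        exact Subtype.mem _
      · rintro ⟨h0, h1⟩
        refine IsUnit.of_mul_eq_one ⟨(z : K)⁻¹, h1⟩ ?_
        ext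
        simp [h0]
    have hker : ∀ x : R, ψ x = 0 ↔ x ∈ p := by
      intro x
      rw [hψ, IsLocalRing.residue_eq_zero_iff, IsLocalRing.mem_maximalIdeal, mem_nonunits_iff,
        hunit, hpm]
      constructor
      · intro h
        by_cases hx : x = 0
        · exact Or.inl hx
        · right
          intro h'
          exact h ⟨fun h0 => hx (Subtype.ext h0), h'⟩
      · rintro (h | h) ⟨h0, h'⟩
        · exact h0 (by rw [h]; rfl)
        · exact h h'
    let ψ' : (R ⧸ p) →ₐ[k] IsLocalRing.ResidueField A :=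
      Ideal.Quotient.liftₐ p ψ fun x hx => (hker x).2 hx
    have hψ' : ∀ x : R, ψ' (Ideal.Quotient.mk p x) = ψ x := fun x => rfl
    letI : Algebra (R ⧸ p) (IsLocalRing.ResidueField A) := ψ'.toRingHom.toAlgebra
    have hst : IsScalarTower k (R ⧸ p) (IsLocalRing.ResidueField A) :=
      IsScalarTower.of_algebraMap_eq fun x => (ψ'.commutes x).symm
    have hinj : Function.Injective ψ' := by
      rw [injective_iff_map_eq_zero]
      intro z hz
      obtain ⟨x, rfl⟩ := Ideal.Quotient.mk_surjective z
      rw [hψ', hker] at hz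
      exact Ideal.Quotient.eq_zero_iff_mem.2 hz
    have hF : FaithfulSMul (R ⧸ p) (IsLocalRing.ResidueField A) :=
      (faithfulSMul_iff_algebraMap_injective _ _).2 hinj
    have halg : Algebra.IsAlgebraic (R ⧸ p) (IsLocalRing.ResidueField A) := by
      constructor
      intro y
      obtain ⟨a, rfl⟩ := IsLocalRing.residue_surjective y
      obtain ⟨r, hr, s, hs, hsA, e⟩ := hq a a.2
      by_cases hs0 : s = 0
      · have : a = 0 := Subtype.ext (by rw [e, hs0]; simp)
        rw [this, map_zero]
        exact isAlgebraic_zero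
      · refine ⟨Polynomial.C (Ideal.Quotient.mk p ⟨s, hs⟩) * Polynomial.X -
          Polynomial.C (Ideal.Quotient.mk p ⟨r, hr⟩), ?_, ?_⟩
        · intro h0
          have h5 := congrArg (fun q => Polynomial.coeff q 1) h0
          simp only [Polynomial.coeff_sub, Polynomial.coeff_C_mul, Polynomial.coeff_X_one, mul_one,
            Polynomial.coeff_C_succ, sub_zero, Polynomial.coeff_zero] at h5
          have h6 := (hpm ⟨s, hs⟩).1 (Ideal.Quotient.eq_zero_iff_mem.1 h5)
          rcases h6 with h6 | h6
          · exact hs0 (congrArg Subtype.val h6)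
          · exact h6 hsA
        · rw [map_sub, map_mul, Polynomial.aeval_C, Polynomial.aeval_X, Polynomial.aeval_C]
          change ψ ⟨s, hs⟩ * _ - ψ ⟨r, hr⟩ = 0
          rw [hψ, hψ, ← map_mul, sub_eq_zero]
          congr 1
          ext
          change s * (a : K) = r
          rw [e]
          field_simp
    have h5 := trdeg_add_eq k (R ⧸ p) (A := IsLocalRing.ResidueField A)
    rw [trdeg_eq_zero (R := R ⧸ p), h2, add_zero] at h5
    exact h5.symm
  · have halg : Algebra.IsAlgebraic R K := IsLocalization.isAlgebraic K (nonZeroDivisors R)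
    have h5 := trdeg_add_eq k R (A := K)
    rw [trdeg_eq_zero (R := R), h3, add_zero] at h5
    exact h5.symm

end Flip28
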