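import Pool.Agent.Flip_h28.LocAlg
import Pool.Agent.Flip_h28.DimB

/-! # Dimension bounds for subalgebras of function fields -/

namespace Flip28

/-- A subalgebra of essentially finite type of a field of transcendence degree `e` has dimension
at most `e`: it is a localization of a finitely generated subalgebra `S₀`
(`Algebra.essFiniteType_iff_exists_subalgebra`), the dimension of a finitely generated domain is
its transcendence degree (for instance by Noether normalization and
`MvPolynomial.ringKrullDim_of_isNoetherianRing`, `dim_le` for integral extensions), and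
localization does not increase the dimension. -/
theorem ringKrullDim_le_of_trdeg {k F : Type*} [Field k] [Field F] [Algebra k F]
    (S : Subalgebra k F) (hS : Algebra.EssFiniteType k S) {e : ℕ}
    (he : Algebra.trdeg k F = e) : ringKrullDim S ≤ e := by
  obtain ⟨S₀, M, h1, h2⟩ := (Algebra.essFiniteType_iff_exists_subalgebra (R := k) (S := S)).1 hS
  rw [ringKrullDim_le_iff_height_le]
  intro Q hQ
  have h3 : (Q.under S₀).IsPrime := inferInstance
  obtain ⟨d, e', h4, -, h5⟩ := DimB_fg (F := k) (Q.under S₀)
  have h6 : Algebra.trdeg k S₀ ≤ Algebra.trdeg k F :=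
    trdeg_le_of_injective (S.val.comp S₀.val)
      (Subtype.val_injective.comp Subtype.val_injective)
  rw [h5, he] at h6
  have h7 : d + e' ≤ e := by exact_mod_cast h6
  rw [← IsLocalization.height_under M Q, h4]
  have h8 : d ≤ e := by omega
  exact_mod_cast h8

/-- modulo a non-zero element the dimension drops (also if it is a unit) -/
theorem ringKrullDim_quot_le {k F : Type*} [Field k] [Field F] [Algebra k F]
    (S : Subalgebra k F) (hS : Algebra.EssFiniteType k S) {e : ℕ}
    (he : Algebra.trdeg k F = (e + 1 : ℕ)) (x : S) (hx : x ≠ 0) :
    ringKrullDim (S ⧸ Ideal.span {x}) ≤ e := by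
  have h1 := ringKrullDim_le_of_trdeg S hS he
  have h2 := ringKrullDim_quotient_succ_le_of_nonZeroDivisor (mem_nonZeroDivisors_of_ne_zero hx)
  have h3 := h2.trans h1
  rw [Nat.cast_add, Nat.cast_one] at h3
  exact ENat.WithBot.add_le_add_one_right_iff.1 h3

/-- an algebra generated by an algebra of essentially finite type and finitely many elements -/
theorem essFiniteType_adjoin {k F : Type*} [Field k] [Field F] [Algebra k F]
    (D : Subalgebra k F) (hD : Algebra.EssFiniteType k D) (G : Set F) (hG : G.Finite) :
    Algebra.EssFiniteType k (Algebra.adjoin k ((D : Set F) ∪ G)) := by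
  have h1 : Algebra.FiniteType D (Algebra.adjoin D G) := by
    rw [← Subalgebra.fg_iff_finiteType]
    exact ⟨hG.toFinset, by rw [hG.coe_toFinset]⟩
  have h2 : Algebra.EssFiniteType D (Algebra.adjoin D G) := inferInstance
  have h3 : Algebra.EssFiniteType k (Algebra.adjoin D G) :=
    Algebra.EssFiniteType.comp k D (Algebra.adjoin D G)
  have h4 : Algebra.adjoin k ((D : Set F) ∪ G) = (Algebra.adjoin D G).restrictScalars k := by
    rw [Algebra.restrictScalars_adjoin]
  rw [h4]
  exact h3

end Flip28
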