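import Pool.Agent.Flip_h28.Gen1
import Pool.Agent.Flip_h28.Gen2

/-! # Generic linear forms and valuations -/

universe u

namespace Flip28

theorem Gen3_isLocalRing {k K : Type*} [Field k] [Field K] [Algebra k K] {U : Subalgebra k K}
    (hU : IsVal U) : IsLocalRing U := by
  refine IsLocalRing.of_nonunits_add ?_
  intro a b ha hb hab
  rw [mem_nonunits_iff, LocAlg_unit, not_and_or, not_not] at ha hb
  rw [LocAlg_unit] at hab
  obtain ⟨h0, h1⟩ := hab
  have h0' : (a : K) + (b : K) ≠ 0 := h0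
  have h1' : ((a : K) + (b : K))⁻¹ ∈ U := h1
  rcases ha with ha | ha
  · rw [ha, zero_add] at h0' h1'
    rcases hb with hb | hb
    · exact h0' hb
    · exact hb h1'
  rcases hb with hb | hb
  · rw [hb, add_zero] at h0' h1'
    exact ha h1'
  have ha0 : (a : K) ≠ 0 := by
    intro h
    apply ha
    rw [h, inv_zero]
    exact U.zero_mem
  have hb0 : (b : K) ≠ 0 := by
    intro h
    apply hb
    rw [h, inv_zero]
    exact U.zero_mem
  rcases hU ((a : K) * (b : K)⁻¹) with h | h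
  · apply hb
    have e : (b : K)⁻¹ = ((a : K) + (b : K))⁻¹ * ((a : K) * (b : K)⁻¹ + 1) := by
      field_simp
    rw [e]
    exact U.mul_mem h1' (U.add_mem h U.one_mem)
  · apply ha
    rw [mul_inv, inv_inv] at h
    have e : (a : K)⁻¹ = ((a : K) + (b : K))⁻¹ * ((a : K)⁻¹ * (b : K) + 1) := by
      field_simp
      ring
    rw [e]
    exact U.mul_mem h1' (U.add_mem h U.one_mem)

theorem Gen3_min {k K : Type*} [Field k] [Field K] [Algebra k K] {U : Subalgebra k K}
    (hU : IsVal U) {ι : Type*} (x : ι → K) {s : Finset ι} (hs : s.Nonempty) :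
    (∀ i ∈ s, x i ≠ 0) → ∃ r ∈ s, ∀ i ∈ s, x i * (x r)⁻¹ ∈ U := by
  induction hs using Finset.Nonempty.cons_induction with
  | singleton a =>
    intro h
    refine ⟨a, Finset.mem_singleton_self a, fun i hi => ?_⟩
    rw [Finset.mem_singleton] at hi
    rw [hi, mul_inv_cancel₀ (h a (Finset.mem_singleton_self a))]
    exact U.one_mem
  | cons a s ha hs ih =>
    intro h
    obtain ⟨r, hr, hr1⟩ := ih fun i hi => h i (Finset.mem_cons_of_mem hi)
    have ha0 := h a (Finset.mem_cons_self a s)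
    have hr0 := h r (Finset.mem_cons_of_mem hr)
    rcases hU (x a * (x r)⁻¹) with h1 | h1
    · refine ⟨r, Finset.mem_cons_of_mem hr, fun i hi => ?_⟩
      rw [Finset.mem_cons] at hi
      rcases hi with rfl | hi
      · exact h1
      · exact hr1 i hi
    · refine ⟨a, Finset.mem_cons_self a s, fun i hi => ?_⟩
      rw [Finset.mem_cons] at hi
      rcases hi with rfl | hi
      · rw [mul_inv_cancel₀ ha0]
        exact U.one_mem
      · rw [mul_inv, inv_inv] at h1
        have e : x i * (x a)⁻¹ = (x i * (x r)⁻¹) * ((x a)⁻¹ * x r) := by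
          field_simp
        rw [e]
        exact U.mul_mem (hr1 i hi) h1

/-- the algebra generated by `D` and the `ψ(e_i) / u` -/
abbrev Gen3_A {k F V : Type*} [Field k] [Field F] [Algebra k F] [AddCommGroup V] [Module k V]
    (D : Subalgebra k F) (ψ : V →ₗ[k] F) (u : F) {s : ℕ} (e : Module.Basis (Fin s) k V) :
    Subalgebra k F :=
  Algebra.adjoin k ((D : Set F) ∪ Set.range (fun i => ψ (e i) * u⁻¹))

theorem Gen3_D_le {k F V : Type*} [Field k] [Field F] [Algebra k F] [AddCommGroup V] [Module k V]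
    (D : Subalgebra k F) (ψ : V →ₗ[k] F) (u : F) {s : ℕ} (e : Module.Basis (Fin s) k V) :
    D ≤ Gen3_A D ψ u e := fun _ hx => Algebra.subset_adjoin (Or.inl hx)

theorem Gen3_mem {k F V : Type*} [Field k] [Field F] [Algebra k F] [AddCommGroup V] [Module k V]
    (D : Subalgebra k F) (ψ : V →ₗ[k] F) (u : F) {s : ℕ} (e : Module.Basis (Fin s) k V) (v : V) :
    ψ v * u⁻¹ ∈ Gen3_A D ψ u e := by
  have h : ψ v * u⁻¹ = ∑ i, (e.repr v i) • (ψ (e i) * u⁻¹) := by
    conv_lhs => rw [← e.sum_repr v]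
    rw [map_sum, Finset.sum_mul]
    refine Finset.sum_congr rfl fun i _ => ?_
    rw [map_smul, smul_mul_assoc]
  rw [h]
  refine Subalgebra.sum_mem _ fun i _ => Subalgebra.smul_mem _ ?_ _
  exact Algebra.subset_adjoin (Or.inr ⟨i, rfl⟩)

/-- its quotient modulo `τ` -/
abbrev Gen3_Q {k F V : Type*} [Field k] [Field F] [Algebra k F] [AddCommGroup V] [Module k V]
    (D : Subalgebra k F) (ψ : V →ₗ[k] F) (u : F) {s : ℕ} (e : Module.Basis (Fin s) k V)
    {τ : F} (hτ : τ ∈ D) : Type _ :=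
  Gen3_A D ψ u e ⧸ Ideal.span {(⟨τ, Gen3_D_le D ψ u e hτ⟩ : Gen3_A D ψ u e)}

/-- the map `v ↦ ψ(v) / u` -/
noncomputable def Gen3_phi {k F V : Type*} [Field k] [Field F] [Algebra k F] [AddCommGroup V]
    [Module k V] (D : Subalgebra k F) (ψ : V →ₗ[k] F) (u : F) {s : ℕ}
    (e : Module.Basis (Fin s) k V) {τ : F} (hτ : τ ∈ D) : V →ₗ[k] Gen3_Q D ψ u e hτ where
  toFun v := Ideal.Quotient.mk _ ⟨ψ v * u⁻¹, Gen3_mem D ψ u e v⟩
  map_add' v w := by
    rw [← map_add]
    congr 1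
    apply Subtype.ext
    show ψ (v + w) * u⁻¹ = ψ v * u⁻¹ + ψ w * u⁻¹
    rw [map_add, add_mul]
  map_smul' c v := by
    show Ideal.Quotient.mk _ _ = c • Ideal.Quotient.mk _ _
    have h : ∀ (I : Ideal (Gen3_A D ψ u e)) (a : Gen3_A D ψ u e),
        c • Ideal.Quotient.mk I a = Ideal.Quotient.mk I (c • a) := fun I a => rfl
    rw [h]
    congr 1
    apply Subtype.ext
    show ψ (c • v) * u⁻¹ = c • (ψ v * u⁻¹)
    rw [map_smul, smul_mul_assoc]

theorem Gen3_val {k F V : Type*} [Field k] [Field F] [Algebra k F] [AddCommGroup V]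
    [Module k V] (D : Subalgebra k F) (ψ : V →ₗ[k] F) (u : F) (hu : u ≠ 0) {s : ℕ}
    (e : Module.Basis (Fin s) k V) {τ : F} (hτ : τ ∈ D) {d : ℕ} (l : Fin (d + 1) → V)
    (hl : Ideal.span (Set.range (fun i => Gen3_phi D ψ u e hτ (l i))) = ⊤)
    (U : Subalgebra k F) (hU : IsVal U) (hD : D ≤ U) (hτU : τ⁻¹ ∉ U ∨ τ = 0)
    (he : ∀ i, ψ (e i) * u⁻¹ ∈ U) :
    ∃ i, ψ (l i) ≠ 0 ∧ ∀ v, ψ v * (ψ (l i))⁻¹ ∈ U := by
  haveI := Gen3_isLocalRing hU
  have hAU : Gen3_A D ψ u e ≤ U := by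
    refine Algebra.adjoin_le ?_
    rintro x (hx | ⟨i, rfl⟩)
    · exact hD hx
    · exact he i
  let f : Gen3_A D ψ u e →+* IsLocalRing.ResidueField U :=
    (IsLocalRing.residue U).comp (Subalgebra.inclusion hAU).toRingHom
  have hf : ∀ a : Gen3_A D ψ u e, f a = 0 ↔ ((a : F) = 0 ∨ (a : F)⁻¹ ∉ U) := by
    intro a
    show IsLocalRing.residue U (Subalgebra.inclusion hAU a) = 0 ↔ _
    rw [IsLocalRing.residue_eq_zero_iff, IsLocalRing.mem_maximalIdeal, mem_nonunits_iff,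
      LocAlg_unit, not_and_or, not_not]
    rfl
  have hker : Ideal.span {(⟨τ, Gen3_D_le D ψ u e hτ⟩ : Gen3_A D ψ u e)} ≤ RingHom.ker f := by
    rw [Ideal.span_singleton_le_iff_mem, RingHom.mem_ker, hf]
    exact hτU.symm
  let g : Gen3_Q D ψ u e hτ →+* IsLocalRing.ResidueField U :=
    Ideal.Quotient.lift _ f fun a ha => hker ha
  have hg : ∀ v, g (Gen3_phi D ψ u e hτ v) = f ⟨ψ v * u⁻¹, Gen3_mem D ψ u e v⟩ := by
    intro v
    exact Ideal.Quotient.lift_mk _ _ _
  obtain ⟨i, hi⟩ : ∃ i, g (Gen3_phi D ψ u e hτ (l i)) ≠ 0 := by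
    by_contra hcon
    push Not at hcon
    have h1 : Ideal.span (Set.range (fun i => Gen3_phi D ψ u e hτ (l i))) ≤ RingHom.ker g := by
      rw [Ideal.span_le]
      rintro x ⟨i, rfl⟩
      exact hcon i
    rw [hl] at h1
    have h2 : (1 : Gen3_Q D ψ u e hτ) ∈ RingHom.ker g := h1 Submodule.mem_top
    rw [RingHom.mem_ker, map_one] at h2
    exact one_ne_zero h2
  rw [hg, Ne, hf, not_or, not_not] at hi
  obtain ⟨h0, h1⟩ := hi
  have h0' : ψ (l i) * u⁻¹ ≠ 0 := h0
  have h1' : (ψ (l i) * u⁻¹)⁻¹ ∈ U := h1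
  have hl0 : ψ (l i) ≠ 0 := left_ne_zero_of_mul h0'
  refine ⟨i, hl0, fun v => ?_⟩
  have e1 : ψ v * (ψ (l i))⁻¹ = (ψ v * u⁻¹) * (ψ (l i) * u⁻¹)⁻¹ := by
    field_simp
  rw [e1]
  exact U.mul_mem (hAU (Gen3_mem D ψ u e v)) h1'

/-- Let `V` be a finite dimensional space over the infinite field `k`, and let finitely many
fields `F_j` with non-zero linear maps `ψ_j : V → F_j` be given, with a subalgebra `D_j` of
essentially finite type and an element `τ_j ∈ D_j`, where either `F_j` has transcendence degree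
`d` and `τ_j = 0` or it has transcendence degree `d + 1` and `τ_j ≠ 0`.  Then there are
`l₀, ..., l_d ∈ V` such that for every valuation ring `U` of `F_j` containing `D_j` in which `τ_j`
is not invertible the minimal value on `ψ_j(V)` is attained by some `ψ_j(l_i)`.

Proof: let `e₁, ..., e_s` be a basis of `V`.  For `u = ψ_j(e_r) ≠ 0` let
`B = D_j[ψ_j(V) / u]`, a Noetherian ring, and apply `exists_generic` to the rings
`B / τ_j B`, of dimension at most `d` by `Gen2`.  For `U` choose `r` such that `u = ψ_j(e_r)` has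
minimal value; then `B ⊆ U`, and the prime ideal of the elements of `B` not invertible in `U`
contains `τ_j`, so it does not contain all `ψ_j(l_i) / u`. -/
theorem exists_forms {k : Type u} [Field k] [Infinite k] {V : Type u} [AddCommGroup V]
    [Module k V] [Module.Finite k V] {J : Type*} [Finite J] (F : J → Type u)
    [∀ j, Field (F j)] [∀ j, Algebra k (F j)] (ψ : ∀ j, V →ₗ[k] F j) (hψ : ∀ j, ψ j ≠ 0)
    (D : ∀ j, Subalgebra k (F j)) (hD : ∀ j, Algebra.EssFiniteType k (D j))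
    (τ : ∀ j, F j) (hτ : ∀ j, τ j ∈ D j) (d : ℕ)
    (hdim : ∀ j, (Algebra.trdeg k (F j) = d ∧ τ j = 0) ∨
      (Algebra.trdeg k (F j) = (d + 1 : ℕ) ∧ τ j ≠ 0)) :
    ∃ l : Fin (d + 1) → V, ∀ j, ∀ U : Subalgebra k (F j), IsVal U → D j ≤ U →
      ((τ j)⁻¹ ∉ U ∨ τ j = 0) →
      ∃ i, ψ j (l i) ≠ 0 ∧ ∀ v, ψ j v * (ψ j (l i))⁻¹ ∈ U := by
  classical
  let s := Module.finrank k V
  let e : Module.Basis (Fin s) k V := Module.finBasis k V
  let J' := {p : J × Fin s // ψ p.1 (e p.2) ≠ 0}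
  haveI : Finite J' := inferInstance
  have hfin : ∀ p : J', Algebra.EssFiniteType k
      (Gen3_A (D p.1.1) (ψ p.1.1) (ψ p.1.1 (e p.1.2)) e) := fun p =>
    essFiniteType_adjoin (D p.1.1) (hD p.1.1) _ (Set.finite_range _)
  haveI hN0 : ∀ p : J', IsNoetherianRing
      (Gen3_A (D p.1.1) (ψ p.1.1) (ψ p.1.1 (e p.1.2)) e) := fun p => by
    haveI := hfin p
    exact Algebra.EssFiniteType.isNoetherianRing k _
  haveI hN : ∀ p : J', IsNoetherianRing
      (Gen3_Q (D p.1.1) (ψ p.1.1) (ψ p.1.1 (e p.1.2)) e (hτ p.1.1)) := fun p => by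
    haveI := hN0 p
    infer_instance
  obtain ⟨l, hl⟩ := exists_generic (k := k) (V := V) (J := J')
    (fun p => Gen3_Q (D p.1.1) (ψ p.1.1) (ψ p.1.1 (e p.1.2)) e (hτ p.1.1))
    (fun p => Gen3_phi (D p.1.1) (ψ p.1.1) (ψ p.1.1 (e p.1.2)) e (hτ p.1.1))
    (fun p => by
      refine ⟨e p.1.2, ?_⟩
      show Ideal.Quotient.mk _ _ = 1
      rw [← map_one (Ideal.Quotient.mk _)]
      congr 1
      apply Subtype.ext
      exact mul_inv_cancel₀ p.2) d
    (fun p => by
      rcases hdim p.1.1 with ⟨h1, h2⟩ | ⟨h1, h2⟩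
      · exact (ringKrullDim_quotient_le _).trans (ringKrullDim_le_of_trdeg _ (hfin p) h1)
      · refine ringKrullDim_quot_le _ (hfin p) h1 _ ?_
        intro h0
        exact h2 (congrArg Subtype.val h0))
  refine ⟨l, fun j U hU hDU hτU => ?_⟩
  have hne : (Finset.univ.filter (fun i => ψ j (e i) ≠ 0)).Nonempty := by
    by_contra hcon
    rw [Finset.not_nonempty_iff_eq_empty, Finset.filter_eq_empty_iff] at hcon
    apply hψ j
    refine e.ext fun i => ?_
    have := hcon (Finset.mem_univ i)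
    rw [not_not] at this
    rw [this]
    rfl
  obtain ⟨r, hr, hr1⟩ := Gen3_min hU (fun i => ψ j (e i)) hne
    (fun i hi => (Finset.mem_filter.1 hi).2)
  have hr0 : ψ j (e r) ≠ 0 := (Finset.mem_filter.1 hr).2
  refine Gen3_val (D j) (ψ j) (ψ j (e r)) hr0 e (hτ j) l (hl ⟨(j, r), hr0⟩) U hU hDU hτU ?_
  intro i
  by_cases hi : ψ j (e i) = 0
  · rw [hi, zero_mul]
    exact U.zero_mem
  · exact hr1 i (Finset.mem_filter.2 ⟨Finset.mem_univ i, hi⟩)

end Flip28
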