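import Pool.Agent.Flip_h28.DegC
import Pool.Agent.Flip_h28.Gen3
import Pool.Agent.Flip_h28.Model

/-! # The degree of points with respect to generic linear forms -/

universe u

namespace Flip28

variable {k K : Type u} [Field k] [Field K] [Algebra k K]

/-- `V` defines the projective model `X` -/
def Defines (X : Set (Subalgebra k K)) (V : Submodule k K) : Prop :=
  V.FG ∧ ∀ A, A ∈ X ↔ ∃ u ∈ V, u ≠ 0 ∧ IsLoc (Algebra.adjoin k {x | ∃ v ∈ V, x = v * u⁻¹}) A

/-- `u ∈ V` is a generator at `w` -/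
def GenAt (V : Submodule k K) (w : Subalgebra k K) (u : K) : Prop :=
  u ∈ V ∧ u ≠ 0 ∧ ∀ v ∈ V, v * u⁻¹ ∈ w

theorem Defines.exists_genAt {X : Set (Subalgebra k K)} {V : Submodule k K} (hV : Defines X V)
    {w : Subalgebra k K} (hw : w ∈ X) : ∃ u, GenAt V w u := by
  obtain ⟨u, hu, hu0, hl⟩ := (hV.2 w).1 hw
  exact ⟨u, hu, hu0, fun v hv => hl.1 (Algebra.subset_adjoin ⟨v, hv, rfl⟩)⟩

/-- the linear map `v ↦ ρ (v / u)` -/
noncomputable def psi (V : Submodule k K) {w : Subalgebra k K} {u : K} (hu : GenAt V w u)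
    {F : Type u} [Field F] [Algebra k F] (ρ : w →ₐ[k] F) : V →ₗ[k] F where
  toFun v := ρ ⟨(v : K) * u⁻¹, hu.2.2 v v.2⟩
  map_add' v v' := by
    rw [← map_add]
    congr 1
    exact Subtype.ext (by simp [add_mul])
  map_smul' c v := by
    rw [RingHom.id_apply, ← map_smul]
    congr 1
    exact Subtype.ext (by simp)

/-- the forms `l` are generic with respect to `ψ`, `D`, `τ` (see `exists_forms`) -/
def GenForms {V : Submodule k K} {F : Type u} [Field F] [Algebra k F] (ψ : V →ₗ[k] F)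
    (D : Subalgebra k F) (τ : F) {d : ℕ} (l : Fin (d + 1) → V) : Prop :=
  ∀ U : Subalgebra k F, IsVal U → D ≤ U → (τ⁻¹ ∉ U ∨ τ = 0) →
    ∃ i, ψ (l i) ≠ 0 ∧ ∀ v, ψ v * (ψ (l i))⁻¹ ∈ U

/-- the affine coordinates `l_{i+1} / l_0` -/
noncomputable def aff {V : Submodule k K} {d : ℕ} (l : Fin (d + 1) → V) : Fin d → K :=
  fun i => (l i.succ : K) * (l 0 : K)⁻¹

/-- `l₀` is a generator at `Z` and the residues of the `l_{i+1} / l₀` are algebraically
independent -/
def GoodPt (V : Submodule k K) {d : ℕ} (l : Fin (d + 1) → V) (Z : Subalgebra k K) : Prop :=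
  GenAt V Z (l 0) ∧ ResIndep Z (aff l)

open Classical in
/-- the degree of the point `Z` over the projective space -/
noncomputable def degPt (V : Submodule k K) {d : ℕ} (l : Fin (d + 1) → V) (Z : Subalgebra k K) :
    ℕ := if GoodPt V l Z then resDeg Z (Set.range (aff l)) else 0

/-- an element in all valuation rings containing `B` is algebraic over `B` -/
theorem DegD_alg {k F : Type*} [Field k] [Field F] [Algebra k F] (B : Subalgebra k F) {x : F}
    (h : ∀ U : Subalgebra k F, IsVal U → B ≤ U → x ∈ U) : IsAlgebraic B x := by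
  by_cases hx : x = 0
  · rw [hx]
    exact isAlgebraic_zero
  obtain ⟨R, hR⟩ : ∃ R : Subalgebra k F, R = (Algebra.adjoin B {x⁻¹}).restrictScalars k := ⟨_, rfl⟩
  have hmem : ∀ z, z ∈ R ↔ z ∈ Algebra.adjoin B {x⁻¹} := by
    intro z
    rw [hR]
    exact Subalgebra.mem_restrictScalars k
  have hxR : x⁻¹ ∈ R := (hmem _).2 (Algebra.subset_adjoin (Set.mem_singleton _))
  have hBR : B ≤ R := by
    intro b hb
    rw [hmem]
    exact (Algebra.adjoin B {x⁻¹}).algebraMap_mem ⟨b, hb⟩
  by_cases htop : Ideal.span {(⟨x⁻¹, hxR⟩ : R)} = ⊤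
  · rw [Ideal.span_singleton_eq_top] at htop
    obtain ⟨r, hr⟩ := htop.exists_right_inv
    have hr' : x⁻¹ * (r : F) = 1 := congrArg Subtype.val hr
    have hr2 : (r : F) ∈ Algebra.adjoin B {x⁻¹} := (hmem _).1 r.2
    rw [Algebra.adjoin_singleton_eq_range_aeval, AlgHom.mem_range] at hr2
    obtain ⟨q, hq⟩ := hr2
    refine IsAlgebraic.inv_iff.1 ⟨Polynomial.X * q - 1, ?_, ?_⟩
    · intro h0
      have h1 : Polynomial.coeff (Polynomial.X * q - 1) 0 = 0 := by rw [h0, Polynomial.coeff_zero]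
      rw [Polynomial.coeff_sub, Polynomial.coeff_X_mul_zero, Polynomial.coeff_one_zero,
        zero_sub, neg_eq_zero] at h1
      exact one_ne_zero h1
    · rw [map_sub, map_mul, Polynomial.aeval_X, map_one, hq, hr', sub_self]
  · exfalso
    obtain ⟨m, hm, hle⟩ := Ideal.exists_le_maximal _ htop
    have := hm.isPrime
    obtain ⟨A, hA, h1, h2⟩ := exists_isLoc_of_prime R m
    obtain ⟨V, hV, hd⟩ := exists_val_dom A hA.2.1
    have hxV : x ∈ V := h V hV (hBR.trans (hA.1.trans hd.1))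
    have h3 := hd.2 x⁻¹ (hA.1 hxR) (by rw [inv_inv]; exact hxV)
    refine h1 ⟨x⁻¹, hxR⟩ h3 ?_ (hle (Ideal.subset_span (Set.mem_singleton _)))
    intro h0
    exact hx (inv_eq_zero.1 (congrArg Subtype.val h0))

/-- the field `F` is algebraic over `k[S]` if all `y_i / y_j` are in `k[S]` -/
theorem DegD_field {X : Set (Subalgebra k K)}
    {V : Submodule k K} (hV : Defines X V) {L : Subalgebra k K} (hL : L ∈ X) {d : ℕ}
    {F : Type u} [Field F] [Algebra k F] (ρ : L →ₐ[k] F) (hρ : Function.Surjective ρ)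
    {u : K} (hu : GenAt V L u) {l : Fin (d + 1) → V}
    (hg : GenForms (psi V hu ρ) ⊥ 0 l) (j : Fin (d + 1)) (hj : psi V hu ρ (l j) ≠ 0)
    (S : Set F) (hS : ∀ i, psi V hu ρ (l i) * (psi V hu ρ (l j))⁻¹ ∈ Algebra.adjoin k S) :
    Algebra.IsAlgebraic (Algebra.adjoin k S) F := by
  set B := Algebra.adjoin k S with hB
  have hψ : ∀ v : V, IsAlgebraic B (psi V hu ρ v * (psi V hu ρ (l j))⁻¹) := by
    intro v
    refine DegD_alg B fun U hU hBU => ?_
    obtain ⟨i, hi, hv⟩ := hg U hU bot_le (Or.inr rfl)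
    have e : psi V hu ρ v * (psi V hu ρ (l j))⁻¹ = (psi V hu ρ v * (psi V hu ρ (l i))⁻¹) *
        (psi V hu ρ (l i) * (psi V hu ρ (l j))⁻¹) := by
      field_simp
    rw [e]
    exact U.mul_mem (hv v) (hBU (hS i))
  obtain ⟨u', hu'V, hu'0, hloc⟩ := (hV.2 L).1 hL
  have hmem : ∀ v ∈ V, v * u'⁻¹ ∈ L := fun v hv => hloc.1 (Algebra.subset_adjoin ⟨v, hv, rfl⟩)
  have hgen : ∀ v (hv : v ∈ V), ρ ⟨v * u'⁻¹, hmem v hv⟩ * psi V hu ρ ⟨u', hu'V⟩ =
      psi V hu ρ ⟨v, hv⟩ := by
    intro v hv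
    show ρ ⟨v * u'⁻¹, hmem v hv⟩ * ρ ⟨u' * u⁻¹, _⟩ = ρ ⟨v * u⁻¹, _⟩
    rw [← map_mul]
    congr 1
    apply Subtype.ext
    show v * u'⁻¹ * (u' * u⁻¹) = v * u⁻¹
    rw [mul_assoc, inv_mul_cancel_left₀ hu'0]
  have hu'ne : psi V hu ρ ⟨u', hu'V⟩ ≠ 0 := by
    intro h0
    have h1 := hgen u hu.1
    rw [h0, mul_zero] at h1
    have h2 : psi V hu ρ ⟨u, hu.1⟩ = 1 := by
      show ρ ⟨u * u⁻¹, _⟩ = 1
      rw [← map_one ρ]
      congr 1
      apply Subtype.ext
      exact mul_inv_cancel₀ hu.2.1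
    rw [h2] at h1
    exact zero_ne_one h1
  have hgenalg : ∀ v (hv : v ∈ V), IsAlgebraic B (ρ ⟨v * u'⁻¹, hmem v hv⟩) := by
    intro v hv
    have e : ρ ⟨v * u'⁻¹, hmem v hv⟩ = (psi V hu ρ ⟨v, hv⟩ * (psi V hu ρ (l j))⁻¹) *
        (psi V hu ρ ⟨u', hu'V⟩ * (psi V hu ρ (l j))⁻¹)⁻¹ := by
      rw [← hgen v hv]
      field_simp
    rw [e]
    exact (hψ _).mul (hψ _).inv
  have hadj : ∀ r (hr : r ∈ Algebra.adjoin k {x | ∃ v ∈ V, x = v * u'⁻¹}),
      IsAlgebraic B (ρ ⟨r, hloc.1 hr⟩) := by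
    intro r hr
    induction hr using Algebra.adjoin_induction with
    | mem x hx =>
      obtain ⟨v, hv, rfl⟩ := hx
      exact hgenalg v hv
    | algebraMap c =>
      have : ρ ⟨algebraMap k K c, hloc.1 (Subalgebra.algebraMap_mem _ c)⟩ =
          algebraMap B F (algebraMap k B c) := by
        rw [← IsScalarTower.algebraMap_apply k B F]
        exact ρ.commutes c
      rw [this]
      exact isAlgebraic_algebraMap _
    | add x y hx hy h1 h2 =>
      have : ρ ⟨x + y, hloc.1 (Subalgebra.add_mem _ hx hy)⟩ = ρ ⟨x, hloc.1 hx⟩ +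
          ρ ⟨y, hloc.1 hy⟩ := by
        rw [← map_add]; rfl
      rw [this]
      exact h1.add h2
    | mul x y hx hy h1 h2 =>
      have : ρ ⟨x * y, hloc.1 (Subalgebra.mul_mem _ hx hy)⟩ = ρ ⟨x, hloc.1 hx⟩ *
          ρ ⟨y, hloc.1 hy⟩ := by
        rw [← map_mul]; rfl
      rw [this]
      exact h1.mul h2
  refine ⟨fun z => ?_⟩
  obtain ⟨a, rfl⟩ := hρ z
  obtain ⟨r, hr, s, hs, hsL, e⟩ := hloc.2.2 a a.2
  by_cases hs0 : s = 0
  · have : a = 0 := by
      apply Subtype.ext
      rw [e, hs0, inv_zero, mul_zero]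
      rfl
    rw [this, map_zero]
    exact isAlgebraic_zero
  have h1 : ρ a * ρ ⟨s, hloc.1 hs⟩ = ρ ⟨r, hloc.1 hr⟩ := by
    rw [← map_mul]
    congr 1
    apply Subtype.ext
    show (a : K) * s = r
    rw [e, inv_mul_cancel_right₀ hs0]
  have h2 : ρ ⟨s, hloc.1 hs⟩ ≠ 0 := by
    intro h0
    have h3 : ρ ⟨s, hloc.1 hs⟩ * ρ ⟨s⁻¹, hsL⟩ = 1 := by
      rw [← map_mul, ← map_one ρ]
      congr 1
      apply Subtype.ext
      exact mul_inv_cancel₀ hs0
    rw [h0, zero_mul] at h3
    exact zero_ne_one h3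
  have h4 : ρ a = ρ ⟨r, hloc.1 hr⟩ * (ρ ⟨s, hloc.1 hs⟩)⁻¹ := by
    rw [← h1, mul_inv_cancel_right₀ h2]
  rw [h4]
  exact (hadj r hr).mul (hadj s hs).inv

/-- A point `L` of dimension `d` (its residue field, here `F` with the residue map `ρ`, has
transcendence degree `d`) has positive degree with respect to generic forms.

Proof: let `y_i = ψ (l_i)`.  First `y_0 ≠ 0`, and `F` is algebraic over `k(y_i / y_0)`: every
valuation ring of `F` containing all `y_i / y_0` contains all `ψ(v) / y_0`, so these are integral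
over `k[y_i / y_0]` (an element in all valuation rings containing a subring is integral over it),
and they generate `F` as `L` is a localization of `k[V / u]`.  (If `y_0 = 0`, argue with another
`y_j ≠ 0` and get `trdeg F ≤ d - 1`, a contradiction.)  So the `y_i / y_0` are algebraically
independent; `l₀ / u` is a unit of `L`, so `l₀` is a generator at `L`; the degree is finite
because `F` is finitely generated and algebraic over `k(y_i / y_0)`. -/
theorem degPt_pos {X : Set (Subalgebra k K)} (hX : IsCompleteNormal X)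
    {V : Submodule k K} (hV : Defines X V) {L : Subalgebra k K} (hL : L ∈ X) {d : ℕ}
    {F : Type u} [Field F] [Algebra k F] (ρ : L →ₐ[k] F) (hρ : Function.Surjective ρ)
    (hρ0 : ∀ a : L, (a : K)⁻¹ ∉ L → ρ a = 0) (hd : Algebra.trdeg k F = d)
    {u : K} (hu : GenAt V L u) {l : Fin (d + 1) → V}
    (hg : GenForms (psi V hu ρ) ⊥ 0 l) : 0 < degPt V l L := by
  classical
  have hlocL := hX.isLocalRing hL
  -- some `y_j` is non-zero
  have hex : ∃ j, psi V hu ρ (l j) ≠ 0 := by
    obtain ⟨i, hi, _⟩ := hg ⊤ (fun x => Or.inl Algebra.mem_top) bot_le (Or.inr rfl)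
    exact ⟨i, hi⟩
  have h0 : psi V hu ρ (l 0) ≠ 0 := by
    intro hz
    obtain ⟨j, hj⟩ := hex
    have hj0 : j ≠ 0 := by
      rintro rfl
      exact hj hz
    have h4 : 0 < (j : ℕ) := Nat.pos_of_ne_zero fun h => hj0 (Fin.ext h)
    have h5 := j.2
    set T : Finset F := ((Finset.univ.erase (0 : Fin (d + 1))).erase j).image (fun i =>
      psi V hu ρ (l i) * (psi V hu ρ (l j))⁻¹) with hT
    have hS : ∀ i, psi V hu ρ (l i) * (psi V hu ρ (l j))⁻¹ ∈ Algebra.adjoin k (T : Set F) := by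
      intro i
      by_cases hi0 : i = 0
      · rw [hi0, hz, zero_mul]
        exact Subalgebra.zero_mem _
      by_cases hij : i = j
      · rw [hij, mul_inv_cancel₀ hj]
        exact Subalgebra.one_mem _
      refine Algebra.subset_adjoin ?_
      rw [hT, Finset.coe_image]
      exact ⟨i, by simp [hi0, hij], rfl⟩
    have := DegD_field hV hL ρ hρ hu hg j hj (T : Set F) hS
    have h1 := Algebra.IsAlgebraic.trdeg_le_cardinalMk k (T : Set F)
    have h2 : Cardinal.mk (T : Set F) ≤ ((d - 1 : ℕ) : Cardinal) := by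
      rw [Finset.coe_sort_coe, Cardinal.mk_coe_finset, Nat.cast_le]
      refine Finset.card_image_le.trans ?_
      rw [Finset.card_erase_of_mem (by simp [hj0]), Finset.card_erase_of_mem (Finset.mem_univ _),
        Finset.card_univ, Fintype.card_fin]
      omega
    rw [hd] at h1
    have h3 : d ≤ d - 1 := by exact_mod_cast h1.trans h2
    omega
  set a0 : L := ⟨(l 0 : K) * u⁻¹, hu.2.2 _ (l 0).2⟩ with ha0
  have hρa0 : ρ a0 = psi V hu ρ (l 0) := rfl
  have ha0inv : (a0 : K)⁻¹ ∈ L := by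
    by_contra h
    exact h0 (hρ0 a0 h)
  have hl0ne : (l 0 : K) ≠ 0 := by
    intro h
    apply h0
    have h1 : l 0 = 0 := Subtype.ext h
    rw [h1, map_zero]
  have hl0 : GenAt V L (l 0 : K) := by
    refine ⟨(l 0).2, hl0ne, fun v hv => ?_⟩
    have e : v * (l 0 : K)⁻¹ = (v * u⁻¹) * (a0 : K)⁻¹ := by
      show v * (l 0 : K)⁻¹ = (v * u⁻¹) * ((l 0 : K) * u⁻¹)⁻¹
      have := hu.2.1
      field_simp
    rw [e]
    exact L.mul_mem (hu.2.2 v hv) ha0inv
  have haff : ∀ i, aff l i ∈ L := fun i => hl0.2.2 _ (l i.succ).2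
  set x : Fin d → F := fun i => psi V hu ρ (l i.succ) * (psi V hu ρ (l 0))⁻¹ with hx
  have hρaff : ∀ i, ρ ⟨aff l i, haff i⟩ = x i := by
    intro i
    have e : ρ ⟨aff l i, haff i⟩ * psi V hu ρ (l 0) = psi V hu ρ (l i.succ) := by
      rw [← hρa0, ← map_mul]
      show ρ _ = ρ ⟨(l i.succ : K) * u⁻¹, _⟩
      congr 1
      apply Subtype.ext
      show (l i.succ : K) * (l 0 : K)⁻¹ * ((l 0 : K) * u⁻¹) = (l i.succ : K) * u⁻¹
      field_simp
    rw [hx]
    show _ = psi V hu ρ (l i.succ) * (psi V hu ρ (l 0))⁻¹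
    rw [← e, mul_inv_cancel_right₀ h0]
  have := DegD_field hV hL ρ hρ hu hg 0 h0 (Set.range x) (by
    intro i
    refine Fin.cases ?_ (fun i => ?_) i
    · rw [mul_inv_cancel₀ h0]
      exact Subalgebra.one_mem _
    · exact Algebra.subset_adjoin ⟨i, rfl⟩)
  have hbas : IsTranscendenceBasis k x :=
    Algebra.IsAlgebraic.isTranscendenceBasis_of_lift_le_trdeg_of_finite k x (by simp [hd])
  have hgood : GoodPt V l L := by
    refine ⟨hl0, haff, fun P hP => ?_⟩
    set a : L := MvPolynomial.aeval (fun i => (⟨aff l i, haff i⟩ : L)) P with ha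
    have h1 : (a : K) = MvPolynomial.aeval (aff l) P := by
      have := MvPolynomial.comp_aeval_apply (fun i => (⟨aff l i, haff i⟩ : L)) L.val P
      exact this
    have h2 : ρ a = MvPolynomial.aeval x P := by
      rw [ha, MvPolynomial.comp_aeval_apply]
      congr 2
      funext i
      exact hρaff i
    have h3 : ρ a ≠ 0 := by
      rw [h2]
      intro h
      exact hP ((injective_iff_map_eq_zero _).1 hbas.1 P h)
    have h4 : (a : K) ≠ 0 := by
      intro h
      apply h3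
      have : a = 0 := Subtype.ext h
      rw [this, map_zero]
    refine ⟨h1 ▸ h4, ?_⟩
    rw [← h1]
    by_contra h
    exact h3 (hρ0 a h)
  -- the residue field
  have hker : RingHom.ker ρ = IsLocalRing.maximalIdeal L := by
    ext a
    rw [RingHom.mem_ker, IsLocalRing.mem_maximalIdeal, mem_nonunits_iff, LocAlg_unit, not_and_or,
      not_not]
    constructor
    · intro h
      by_contra hc
      rw [not_or, not_not] at hc
      have h1 : ρ a * ρ ⟨(a : K)⁻¹, hc.2⟩ = 1 := by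
        rw [← map_mul, ← map_one ρ]
        congr 1
        apply Subtype.ext
        exact mul_inv_cancel₀ hc.1
      rw [h, zero_mul] at h1
      exact zero_ne_one h1
    · rintro (h | h)
      · have : a = 0 := Subtype.ext h
        rw [this, map_zero]
      · exact hρ0 a h
  obtain ⟨e, he⟩ : ∃ e : F ≃ₐ[k] IsLocalRing.ResidueField L, ∀ a, e (ρ a) =
      IsLocalRing.residue L a := by
    refine ⟨(Ideal.quotientKerAlgEquivOfSurjective hρ).symm.trans
      (Ideal.quotientEquivAlgOfEq k hker), fun a => ?_⟩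
    have h1 : (Ideal.quotientKerAlgEquivOfSurjective hρ).symm (ρ a) =
        Ideal.Quotient.mk (RingHom.ker ρ) a := by
      rw [AlgEquiv.symm_apply_eq]
      rfl
    show Ideal.quotientEquivAlgOfEq k hker ((Ideal.quotientKerAlgEquivOfSurjective hρ).symm (ρ a))
      = _
    rw [h1]
    rfl
  have hset : {y : IsLocalRing.ResidueField L | ∃ a : L, (a : K) ∈ Set.range (aff l) ∧
      y = IsLocalRing.residue L a} = Set.range (e ∘ x) := by
    ext y
    constructor
    · rintro ⟨a, ⟨i, hi⟩, rfl⟩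
      refine ⟨i, ?_⟩
      show e (x i) = _
      rw [← hρaff i, he]
      congr 1
      exact Subtype.ext hi
    · rintro ⟨i, rfl⟩
      refine ⟨⟨aff l i, haff i⟩, ⟨i, rfl⟩, ?_⟩
      show e (x i) = _
      rw [← hρaff i, he]
  unfold degPt
  rw [if_pos hgood]
  unfold resDeg
  rw [dif_pos hlocL]
  show 0 < Module.finrank (IntermediateField.adjoin k
      {y : IsLocalRing.ResidueField L | ∃ a : L, (a : K) ∈ Set.range (aff l) ∧
      y = IsLocalRing.residue L a}) (IsLocalRing.ResidueField L)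
  rw [hset]
  have hbas' : IsTranscendenceBasis k (e ∘ x) := e.isTranscendenceBasis hbas
  have h1 : Algebra.IsAlgebraic (IntermediateField.adjoin k (Set.range (e ∘ x)))
    (IsLocalRing.ResidueField L) := hbas'.isAlgebraic_field
  obtain ⟨R, hR, -, hRL, -⟩ := hX.exists_chart hL
  have h2 : Algebra.EssFiniteType k L := hRL.essFiniteType hR
  have h3 : Algebra.EssFiniteType k F := Algebra.EssFiniteType.of_surjective ρ hρ
  have h4 : Algebra.EssFiniteType k (IsLocalRing.ResidueField L) :=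
    Algebra.EssFiniteType.of_surjective e.toAlgHom e.surjective
  have h5 : Algebra.EssFiniteType (IntermediateField.adjoin k (Set.range (e ∘ x)))
    (IsLocalRing.ResidueField L) := Algebra.EssFiniteType.of_comp k _ _
  have h6 : Module.Finite (IntermediateField.adjoin k (Set.range (e ∘ x)))
    (IsLocalRing.ResidueField L) := Algebra.finite_of_essFiniteType_of_isAlgebraic
  exact Module.finrank_pos

end Flip28
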