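import Pool.Agent.Flip_h28.LocAlg

/-! # Krull's principal ideal theorem -/

open scoped KaehlerDifferential

namespace Flip28

variable {k K : Type*} [Field k] [Field K] [Algebra k K]

/-- dimension of a localization is the height of the prime ideal -/
theorem DimD_aux_height {R A : Subalgebra k K} (hA : IsLoc R A) :
    ∃ (p : Ideal R) (_ : p.IsPrime), (∀ x : R, x ∈ p ↔ x = 0 ∨ (x : K)⁻¹ ∉ A) ∧
      ringKrullDim A = p.height := by
  obtain ⟨p, hp, hx, hl⟩ := hA.isLocalization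
  refine ⟨p, hp, hx, ?_⟩
  letI := (Subalgebra.inclusion hA.1).toRingHom.toAlgebra
  haveI := hp
  haveI : IsLocalization.AtPrime A p := hl
  exact IsLocalization.AtPrime.ringKrullDim_eq_height p A

/-- Krull's principal ideal theorem in the form needed: `V` a local ring containing the
finitely generated algebra `B`, `g ≠ 0` an element of a localization of `B` (more generally a
quotient `r / s` with `r, s ∈ B`, `s⁻¹ ∈ V`) which is not a unit of `V`: there is a localization
`P` of `B`, of dimension one, such that `g` is a non-unit of `P`, and the elements of `B`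
invertible in `V` are invertible in `P`. -/
theorem exists_height_one {B V : Subalgebra k K} (hB : B.FG) (hK : IsFractionRing B K)
    (hV : IsLocalRing V) (hBV : B ≤ V) {r s g : K} (hr : r ∈ B) (hs : s ∈ B) (hsV : s⁻¹ ∈ V)
    (hg : g = r * s⁻¹) (hg0 : g ≠ 0) (hgV : g⁻¹ ∉ V) :
    ∃ P, IsLoc B P ∧ ringKrullDim P = 1 ∧ g ∈ P ∧ g⁻¹ ∉ P ∧
      ∀ x ∈ B, x⁻¹ ∈ V → x⁻¹ ∈ P := by
  have hr0 : r ≠ 0 := by
    rintro rfl
    exact hg0 (by rw [hg, zero_mul])
  have hs0 : s ≠ 0 := by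
    rintro rfl
    exact hg0 (by rw [hg, inv_zero, mul_zero])
  have hsm : s ∈ V := hBV hs
  obtain ⟨A, hA, hAV⟩ := exists_cen B V hBV hV
  obtain ⟨q, hq, hqx, -⟩ := DimD_aux_height hA
  have hqV : ∀ x : B, x ∉ q ↔ x ≠ 0 ∧ (x : K)⁻¹ ∈ V := by
    intro x
    rw [hqx, not_or, not_not]
    refine and_congr_right fun _ => ⟨fun h => hAV.1 h, fun h => hAV.2 _ (hA.1 x.2) h⟩
  have hrq : (⟨r, hr⟩ : B) ∈ q := by
    by_contra hcon
    have := ((hqV _).1 hcon).2
    apply hgV
    have e : g⁻¹ = s * r⁻¹ := by rw [hg, mul_inv, inv_inv, mul_comm]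
    rw [e]
    exact V.mul_mem hsm this
  have hle : Ideal.span {(⟨r, hr⟩ : B)} ≤ q := by
    rw [Ideal.span_singleton_le_iff_mem]
    exact hrq
  haveI : IsNoetherianRing B := isNoetherianRing_of_fg hB
  obtain ⟨p, hpm, hpq⟩ := Ideal.exists_minimalPrimes_le hle
  haveI hp : p.IsPrime := hpm.1.1
  have hrp : (⟨r, hr⟩ : B) ∈ p := hpm.1.2 (Ideal.mem_span_singleton_self _)
  have h1 : p.height ≤ 1 := Ideal.height_le_one_of_isPrincipal_of_mem_minimalPrimes _ p hpm
  have h2 : p.height ≠ 0 := by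
    rw [Ne, Ideal.height_eq_zero_iff_eq_bot]
    intro hb
    rw [hb, Ideal.mem_bot] at hrp
    exact hr0 (congrArg Subtype.val hrp)
  have h3 : p.height = 1 := le_antisymm h1 (ENat.one_le_iff_ne_zero.2 h2)
  obtain ⟨P, hP, hP1, hP2⟩ := exists_isLoc_of_prime B p
  obtain ⟨p', hp', hx', hdim⟩ := DimD_aux_height hP
  have hpp : p' = p := by
    ext x
    rw [hx']
    constructor
    · rintro (rfl | h)
      · exact p.zero_mem
      · by_contra hcon
        exact h (hP2 x hcon)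
    · intro h
      by_cases hx0 : x = 0
      · exact Or.inl hx0
      · exact Or.inr fun hxA => hP1 x hxA hx0 h
  have hBP : ∀ x ∈ B, x⁻¹ ∈ V → x⁻¹ ∈ P := by
    intro x hx hxV
    by_cases hx0 : x = 0
    · rw [hx0, inv_zero]; exact P.zero_mem
    · refine hP2 ⟨x, hx⟩ fun hxp => ?_
      exact (hqV ⟨x, hx⟩).2 ⟨fun h => hx0 (congrArg Subtype.val h), hxV⟩ (hpq hxp)
  refine ⟨P, hP, ?_, ?_, ?_, hBP⟩
  · rw [hdim, hpp, h3]
    rfl
  · rw [hg]
    exact P.mul_mem (hP.1 hr) (hBP s hs hsV)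
  · intro hgP
    have e : r⁻¹ = g⁻¹ * s⁻¹ := by
      rw [hg, mul_inv, inv_inv, mul_assoc, mul_inv_cancel₀ hs0, mul_one]
    have hrP : r⁻¹ ∈ P := by
      rw [e]
      exact P.mul_mem hgP (hBP s hs hsV)
    exact hP1 ⟨r, hr⟩ hrP (fun h => hr0 (congrArg Subtype.val h)) hrp

/-- a localization of `R` contained in another one has larger dimension -/
theorem dim_lt_of_lt {R A B : Subalgebra k K} (hR : R.FG) (hK : IsFractionRing R K)
    (hA : IsLoc R A) (hB : IsLoc R B) (h : A < B) : ringKrullDim B < ringKrullDim A := by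
  obtain ⟨p, hp, hpx, hdA⟩ := DimD_aux_height hA
  obtain ⟨q, hq, hqx, hdB⟩ := DimD_aux_height hB
  haveI : IsNoetherianRing R := isNoetherianRing_of_fg hR
  haveI := hp
  haveI := hq
  have hle : q ≤ p := by
    intro x hx
    rw [hpx]
    rcases (hqx x).1 hx with h0 | h0
    · exact Or.inl h0
    · exact Or.inr fun hxA => h0 (h.le hxA)
  have hlt : q < p := by
    refine lt_of_le_of_ne hle ?_
    rintro rfl
    obtain ⟨x, hxB, hxA⟩ := SetLike.exists_of_lt h
    obtain ⟨r, hr, s, hs, hsB, rfl⟩ := hB.2.2 x hxB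
    have hs0 : s ≠ 0 := by
      rintro rfl
      exact hxA (by rw [inv_zero, mul_zero]; exact A.zero_mem)
    have hsA : s⁻¹ ∉ A := fun hcon => hxA (A.mul_mem (hA.1 hr) hcon)
    have h1 : (⟨s, hs⟩ : R) ∈ q := (hpx _).2 (Or.inr hsA)
    rcases (hqx _).1 h1 with h2 | h2
    · exact hs0 (congrArg Subtype.val h2)
    · exact h2 hsB
  rw [hdA, hdB]
  have := Ideal.height_strict_mono_of_isPrime_of_isPrime hlt
  exact_mod_cast this

end Flip28
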