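import Pool.Agent.Flip_h28.Model

/-! # Points of codimension one of a normal variety -/

namespace Flip28

variable {k K : Type*} [Field k] [Field K] [Algebra k K] {X Y : Set (Subalgebra k K)}

/-- the ideal of the denominators of `y` -/
def ModelN_den (A : Subalgebra k K) (y : K) : Ideal A where
  carrier := {r | (r : K) * y ∈ A}
  zero_mem' := by
    show ((0 : A) : K) * y ∈ A
    rw [ZeroMemClass.coe_zero, zero_mul]
    exact A.zero_mem
  add_mem' := by
    intro a b ha hb
    show ((a + b : A) : K) * y ∈ A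
    rw [AddMemClass.coe_add, add_mul]
    exact A.add_mem ha hb
  smul_mem' := by
    intro c a ha
    show ((c • a : A) : K) * y ∈ A
    rw [smul_eq_mul, MulMemClass.coe_mul, mul_assoc]
    exact A.mul_mem c.2 ha

theorem ModelN_mem_den {A : Subalgebra k K} {y : K} {r : A} :
    r ∈ ModelN_den A y ↔ (r : K) * y ∈ A := Iff.rfl

/-- a local Noetherian normal ring `P` with `m z ⊆ P`, `z ∉ P`, is a discrete valuation ring -/
theorem ModelN_dvr (P : Subalgebra k K) (hloc : IsLocalRing P) (hno : IsNoetherianRing P)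
    (hnorm : IsIntegrallyClosed P) (hfr : IsFractionRing P K) {z : K} (hz : z ∉ P)
    (hm : ∀ m : P, m ∈ IsLocalRing.maximalIdeal P → (m : K) * z ∈ P) :
    IsDiscreteValuationRing P := by
  have hnf : ¬ IsField P := by
    intro hf
    apply hz
    obtain ⟨a, b, hb, hab⟩ := IsFractionRing.div_surjective (A := P) z
    have hb0 : b ≠ 0 := nonZeroDivisors.ne_zero hb
    obtain ⟨c, hc⟩ := hf.mul_inv_cancel hb0
    have hbK : ((b : P) : K) ≠ 0 := by
      intro h
      exact hb0 (Subtype.ext h)
    have hcK : ((b : P) : K) * (c : K) = 1 := by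
      rw [← MulMemClass.coe_mul, hc]; rfl
    have : z = (a : K) * (c : K) := by
      rw [← hab]
      show (a : K) / (b : K) = _
      rw [div_eq_iff hbK, mul_assoc, mul_comm (c : K), hcK, mul_one]
    rw [this]
    exact P.mul_mem a.2 c.2
  have key : ∃ m : P, m ∈ IsLocalRing.maximalIdeal P ∧
      ∃ u : P, IsUnit u ∧ (m : K) * z = u := by
    by_contra hcon
    push Not at hcon
    have hsm : ∀ m : P, m ∈ IsLocalRing.maximalIdeal P →
        ∃ m' : P, m' ∈ IsLocalRing.maximalIdeal P ∧ (m : K) * z = m' := by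
      intro m hmm
      refine ⟨⟨_, hm m hmm⟩, ?_, rfl⟩
      rw [IsLocalRing.mem_maximalIdeal]
      intro hu
      exact hcon m hmm ⟨_, hm m hmm⟩ hu rfl
    let M : Submodule P K := Submodule.map (Algebra.linearMap P K) (IsLocalRing.maximalIdeal P)
    have hx : ∀ y ∈ M, z • y ∈ M := by
      rintro y ⟨m, hmm, rfl⟩
      obtain ⟨m', hm', e⟩ := hsm m hmm
      refine ⟨m', hm', ?_⟩
      show (m' : K) = z * (m : K)
      rw [← e, mul_comm]
    have hint : IsIntegral P z := by
      refine isIntegral_of_smul_mem_submodule M ?_ ?_ z hx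
      · rw [Submodule.ne_bot_iff]
        obtain ⟨x, hx1, hx2⟩ := Submodule.exists_mem_ne_zero_of_ne_bot
          (IsLocalRing.isField_iff_maximalIdeal_eq.not.mp hnf)
        refine ⟨(x : K), ⟨x, hx1, rfl⟩, ?_⟩
        intro h
        exact hx2 (Subtype.ext h)
      · exact Submodule.FG.map _ (IsNoetherian.noetherian _)
    obtain ⟨y, hy⟩ := IsIntegrallyClosed.algebraMap_eq_of_integral hint
    apply hz
    rw [← hy]
    exact y.2
  obtain ⟨m, hmm, u, hu, e⟩ := key
  have hpr : (IsLocalRing.maximalIdeal P).IsPrincipal := by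
    refine ⟨⟨m, ?_⟩⟩
    apply le_antisymm
    · intro m' hm'
      rw [Ideal.submodule_span_eq, Ideal.mem_span_singleton']
      obtain ⟨v, hv⟩ := hu.exists_left_inv
      refine ⟨v * ⟨_, hm m' hm'⟩, ?_⟩
      apply Subtype.ext
      have hvK : (v : K) * (u : K) = 1 := by
        rw [← MulMemClass.coe_mul, hv]; rfl
      show (v : K) * ((m' : K) * z) * (m : K) = (m' : K)
      calc (v : K) * ((m' : K) * z) * (m : K) = (v : K) * ((m : K) * z) * (m' : K) := by ring
        _ = (m' : K) := by rw [e, hvK, one_mul]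
    · rw [Ideal.submodule_span_eq, Ideal.span_le, Set.singleton_subset_iff]
      exact hmm
  exact ((IsDiscreteValuationRing.TFAE P hnf).out 4 0).mp hpr

/-- A normal Noetherian domain is the intersection of its localizations at the primes of height
one, which are discrete valuation rings. -/
theorem IsCompleteNormal.mem_of_ord (hX : IsCompleteNormal X) {A : Subalgebra k K}
    (hA : A ∈ X) {x : K} (hx : x ≠ 0) (h : ∀ P ∈ X, IsDVR P → A ≤ P → 0 ≤ ord P x) :
    x ∈ A := by
  by_contra hxA
  obtain ⟨R, hRfg, hRfr, hRA, -⟩ := hX.exists_chart hA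
  haveI hno : IsNoetherianRing A := hRA.isNoetherianRing hRfg
  haveI hfrA : IsFractionRing A K := isFractionRing_of_le hRfr hRA.le
  -- a maximal ideal of denominators
  let S : Set (Ideal A) := {I | ∃ c : A, (c : K) * x ∉ A ∧ I = ModelN_den A ((c : K) * x)}
  have hS : S.Nonempty := ⟨_, 1, by simpa using hxA, rfl⟩
  obtain ⟨p, ⟨c, hc, rfl⟩, hmax⟩ := set_has_maximal_iff_noetherian.mpr hno S hS
  generalize hz : (c : K) * x = z at hc hmax
  have hp : (ModelN_den A z).IsPrime := by
    constructor
    · intro h1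
      have : (1 : A) ∈ ModelN_den A z := by rw [h1]; exact Submodule.mem_top
      rw [ModelN_mem_den] at this
      apply hc
      simpa using this
    · intro r s hrs
      by_contra hcon
      push Not at hcon
      obtain ⟨hr, hs⟩ := hcon
      rw [ModelN_mem_den] at hs
      have hle : ModelN_den A z ≤ ModelN_den A ((s : K) * z) := by
        intro a ha
        rw [ModelN_mem_den] at ha ⊢
        have : (a : K) * ((s : K) * z) = (s : K) * ((a : K) * z) := by ring
        rw [this]
        exact A.mul_mem s.2 ha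
      have hmem : ModelN_den A ((s : K) * z) ∈ S := by
        refine ⟨s * c, ?_, ?_⟩
        · have : ((s * c : A) : K) * x = (s : K) * z := by
            rw [MulMemClass.coe_mul, mul_assoc, hz]
          rw [this]
          exact hs
        · rw [MulMemClass.coe_mul, mul_assoc, hz]
      have heq : ¬ (ModelN_den A z < ModelN_den A ((s : K) * z)) := hmax _ hmem
      apply hr
      have h2 : ModelN_den A ((s : K) * z) ≤ ModelN_den A z := by
        by_contra h3
        exact heq (lt_of_le_not_ge hle h3)
      apply h2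
      rw [ModelN_mem_den]
      rw [ModelN_mem_den, MulMemClass.coe_mul, mul_assoc] at hrs
      exact hrs
  obtain ⟨P, hAP, hP1, hP2⟩ := exists_isLoc_of_prime A (ModelN_den A z)
  have hPX : P ∈ X := hX.loc hA hAP
  have hRP : IsLoc R P := hRA.trans hAP
  have hloc : IsLocalRing P := hAP.2.1
  have hnoP : IsNoetherianRing P := hRP.isNoetherianRing hRfg
  have hfrP : IsFractionRing P K := isFractionRing_of_le hRfr hRP.le
  have hAleP : A ≤ P := hAP.le
  -- elements with denominators in the prime are not in `P`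
  have hnot : ∀ w : K, w ∉ A → ModelN_den A w ≤ ModelN_den A z → w ∉ P := by
    intro w hw hle hwP
    obtain ⟨r, hr, s, hs, hsP, e⟩ := hAP.2.2 w hwP
    have hs0 : s ≠ 0 := by
      rintro rfl
      apply hw
      rw [e, inv_zero, mul_zero]
      exact A.zero_mem
    have h1 : (⟨s, hs⟩ : A) ∈ ModelN_den A w := by
      rw [ModelN_mem_den]
      show s * w ∈ A
      have : s * w = r := by
        rw [e]; field_simp
      rw [this]
      exact hr
    exact hP1 ⟨s, hs⟩ hsP (fun h0 => hs0 (congrArg Subtype.val h0)) (hle h1)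
  have hzP : z ∉ P := hnot z hc le_rfl
  have hxP : x ∉ P := by
    apply hnot x hxA
    intro a ha
    rw [ModelN_mem_den] at ha ⊢
    rw [← hz]
    have : (a : K) * ((c : K) * x) = (c : K) * ((a : K) * x) := by ring
    rw [this]
    exact A.mul_mem c.2 ha
  have hmz : ∀ m : P, m ∈ IsLocalRing.maximalIdeal P → (m : K) * z ∈ P := by
    intro m hmm
    obtain ⟨r, hr, s, hs, hsP, e⟩ := hAP.2.2 m m.2
    rcases eq_or_ne (m : K) 0 with hm0 | hm0
    · rw [hm0, zero_mul]
      exact P.zero_mem
    have hr0 : r ≠ 0 := by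
      rintro rfl
      exact hm0 (by rw [e, zero_mul])
    have hs0 : s ≠ 0 := by
      rintro rfl
      exact hm0 (by rw [e, inv_zero, mul_zero])
    have hr1 : (⟨r, hr⟩ : A) ∈ ModelN_den A z := by
      by_contra hr2
      have hrP : r⁻¹ ∈ P := hP2 ⟨r, hr⟩ hr2
      rw [IsLocalRing.mem_maximalIdeal] at hmm
      apply hmm
      refine IsUnit.of_mul_eq_one ⟨s * r⁻¹, P.mul_mem (hAleP hs) hrP⟩ ?_
      apply Subtype.ext
      show (m : K) * (s * r⁻¹) = 1
      rw [e]
      field_simp
    rw [ModelN_mem_den] at hr1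
    have : (m : K) * z = (r * z) * s⁻¹ := by rw [e]; ring
    rw [this]
    exact P.mul_mem (hAleP hr1) hsP
  have hdvr : IsDVR P := isDVR_iff.mpr
    ⟨ModelN_dvr P hloc hnoP (hX.normal P hPX) hfrP hzP hmz, hfrP⟩
  exact hxP ((mem_iff hdvr hx).mpr (h P hPX hdvr hAleP))

/-- a point of dimension one of a normal variety is a discrete valuation ring and conversely -/
theorem IsCompleteNormal.isDVR_iff (hX : IsCompleteNormal X) {P : Subalgebra k K}
    (hP : P ∈ X) : IsDVR P ↔ ringKrullDim P = 1 := by
  obtain ⟨R, hRfg, hRfr, hRA, -⟩ := hX.exists_chart hP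
  haveI hno : IsNoetherianRing P := hRA.isNoetherianRing hRfg
  haveI hfr : IsFractionRing P K := isFractionRing_of_le hRfr hRA.le
  haveI hloc : IsLocalRing P := hRA.2.1
  rw [Flip28.isDVR_iff]
  constructor
  · rintro ⟨h, -⟩
    exact IsDiscreteValuationRing.ringKrullDim_eq_one P
  · intro h
    refine ⟨?_, hfr⟩
    have hnf : ¬ IsField P := (ringKrullDim_eq_one_iff_of_isLocalRing_isDomain.mp h).1
    haveI hdim : Ring.DimensionLEOne P := by
      have : Ring.KrullDimLE 1 P := Ring.krullDimLE_iff.mpr (by simp [h])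
      constructor
      intro p hp hpp
      exact Ring.krullDimLE_one_iff_of_noZeroDivisors.mp this p hp hpp
    haveI : IsIntegrallyClosed P := hX.normal P hP
    haveI hd : IsDedekindDomain P := { }
    exact ((IsDiscreteValuationRing.TFAE P hnf).out 2 0).mp hd

/-- the only point of dimension `0` is the generic point `K` -/
theorem IsCompleteNormal.eq_top_iff (hX : IsCompleteNormal X) {P : Subalgebra k K}
    (hP : P ∈ X) : P = ⊤ ↔ ringKrullDim P = 0 := by
  obtain ⟨R, hRfg, hRfr, hRA, -⟩ := hX.exists_chart hP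
  haveI hfr : IsFractionRing P K := isFractionRing_of_le hRfr hRA.le
  constructor
  · rintro rfl
    apply ringKrullDim_eq_zero_of_isField
    exact (Subalgebra.topEquiv (R := k) (A := K)).toMulEquiv.isField (Field.toIsField K)
  · intro h
    have h0 : Ring.KrullDimLE 0 P := ringKrullDimZero_iff_ringKrullDim_eq_zero.mpr h
    have hf : IsField P := Ring.KrullDimLE.isField_of_isDomain
    refine le_antisymm le_top (fun z _ => ?_)
    obtain ⟨a, b, hb, hab⟩ := IsFractionRing.div_surjective (A := P) z
    have hb0 : b ≠ 0 := nonZeroDivisors.ne_zero hb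
    obtain ⟨c, hc⟩ := hf.mul_inv_cancel hb0
    have hbK : ((b : P) : K) ≠ 0 := by
      intro h
      exact hb0 (Subtype.ext h)
    have hcK : ((b : P) : K) * (c : K) = 1 := by
      rw [← MulMemClass.coe_mul, hc]; rfl
    have : z = (a : K) * (c : K) := by
      rw [← hab]
      show (a : K) / (b : K) = _
      rw [div_eq_iff hbK, mul_assoc, mul_comm (c : K), hcK, mul_one]
    rw [this]
    exact P.mul_mem a.2 c.2

end Flip28
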