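import Pool.Agent.Flip_h28.AlgDefs
import Pool.Agent.Flip_h28.Model

/-! # Cycles modulo algebraic equivalence on two birational models

`fibCoeff π t Z` does not depend on the model.  If `w ∈ X`, `Z ∈ X`, `Z ∈ X'` and
`FibDiv π t Z` is not empty then `Z ≤ w`, so `w` is a localization of `Z` (`isLoc_of_le`) and
`w ∈ X'` (`loc`).  So a generator of `AlgEq X p` restricts, on the points common to `X` and
`X'`, to (the restriction of) a generator of `AlgEq X' p` or to zero. -/

universe u

namespace Flip28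

variable {k K : Type u} [Field k] [Field K] [Algebra k K] {X X' : Set (Subalgebra k K)}

open Classical in
/-- Restriction of cycles to the common points. -/
noncomputable def AlgLin_res (X X' : Set (Subalgebra k K)) (p : ℕ) :
    (Pt X p →₀ ℚ) →ₗ[ℚ] (Pt X' p →₀ ℚ) :=
  Finsupp.linearCombination ℚ (fun A : Pt X p =>
    if h : (A : Subalgebra k K) ∈ X' then Finsupp.single (⟨A, h, A.2.2⟩ : Pt X' p) (1 : ℚ) else 0)

open Classical in
theorem AlgLin_res_apply (X X' : Set (Subalgebra k K)) (p : ℕ) (z : Pt X p →₀ ℚ) (A : Pt X' p) :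
    AlgLin_res X X' p z A =
      if h : (A : Subalgebra k K) ∈ X then z ⟨A, h, A.2.2⟩ else 0 := by
  induction z using Finsupp.induction_linear with
  | zero => simp
  | add f g hf hg =>
    rw [map_add, Finsupp.add_apply, hf, hg]
    by_cases h : (A : Subalgebra k K) ∈ X
    · simp [h]
    · simp [h]
  | single B b =>
    unfold AlgLin_res
    rw [Finsupp.linearCombination_single]
    by_cases h' : (B : Subalgebra k K) ∈ X'
    · rw [dif_pos h']
      by_cases h : (A : Subalgebra k K) ∈ X
      · rw [dif_pos h]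
        by_cases e : (B : Subalgebra k K) = A
        · have e1 : (⟨B, h', B.2.2⟩ : Pt X' p) = A := Subtype.ext e
          have e2 : (⟨A, h, A.2.2⟩ : Pt X p) = B := Subtype.ext e.symm
          rw [e1, e2]
          simp
        · have e1 : (⟨B, h', B.2.2⟩ : Pt X' p) ≠ A := fun h => e (congrArg Subtype.val h)
          have e2 : B ≠ (⟨A, h, A.2.2⟩ : Pt X p) := fun h => e (congrArg Subtype.val h)
          rw [Finsupp.smul_apply, Finsupp.single_eq_of_ne e1.symm, Finsupp.single_eq_of_ne e2.symm,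
            smul_zero]
      · rw [dif_neg h]
        have e1 : (⟨B, h', B.2.2⟩ : Pt X' p) ≠ A := by
          intro e
          exact h (congrArg Subtype.val e ▸ B.2.1)
        rw [Finsupp.smul_apply, Finsupp.single_eq_of_ne e1.symm, smul_zero]
    · rw [dif_neg h', smul_zero]
      by_cases h : (A : Subalgebra k K) ∈ X
      · rw [dif_pos h]
        have e2 : B ≠ (⟨A, h, A.2.2⟩ : Pt X p) := by
          intro e
          exact h' ((congrArg Subtype.val e).symm ▸ A.2.1)
        rw [Finsupp.single_eq_of_ne e2.symm]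
        rfl
      · rw [dif_neg h]
        rfl

/-- The span of the new points. -/
noncomputable def AlgLin_new (X X' : Set (Subalgebra k K)) (p : ℕ) :
    Submodule ℚ (Pt X' p →₀ ℚ) :=
  Submodule.span ℚ {z | ∃ A : Pt X' p, (A : Subalgebra k K) ∉ X ∧ z = Finsupp.single A 1}

theorem AlgLin_new_mem {p : ℕ} (z : Pt X' p →₀ ℚ)
    (h : ∀ A : Pt X' p, (A : Subalgebra k K) ∈ X → z A = 0) : z ∈ AlgLin_new X X' p := by
  rw [← Finsupp.sum_single z]
  refine Submodule.sum_mem _ fun A hA => ?_
  have h1 : (A : Subalgebra k K) ∉ X := fun h' => (Finsupp.mem_support_iff.1 hA) (h A h')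
  have h2 : Finsupp.single A (z A) = z A • Finsupp.single A (1 : ℚ) := by
    rw [Finsupp.smul_single, smul_eq_mul, mul_one]
  show Finsupp.single A (z A) ∈ _
  rw [h2]
  exact Submodule.smul_mem _ _ (Submodule.subset_span ⟨A, h1, rfl⟩)

theorem AlgLin_surj (p : ℕ) (z' : Pt X' p →₀ ℚ) :
    ∃ z : Pt X p →₀ ℚ, z' - AlgLin_res X X' p z ∈ AlgLin_new X X' p := by
  classical
  refine ⟨AlgLin_res X' X p z', AlgLin_new_mem _ fun A hA => ?_⟩
  rw [Finsupp.sub_apply, AlgLin_res_apply, dif_pos hA, AlgLin_res_apply]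
  rw [dif_pos A.2.1]
  exact sub_self _

theorem AlgLin_fib_zero (hX : IsCompleteNormal X) (hX' : IsCompleteNormal X')
    {w : Subalgebra k K} {T F : Type u} [Field T] [Field F] [Algebra k T] [Algebra k F]
    [Algebra T F] (π : w →ₐ[k] F) (t : Subalgebra k T) (Z : Subalgebra k K) (hw : w ∈ X)
    (hw' : w ∉ X') (hZ : Z ∈ X) (hZ' : Z ∈ X') : fibCoeff π t Z = 0 := by
  have h : FibDiv π t Z = ∅ := by
    rw [Set.eq_empty_iff_forall_notMem]
    rintro v ⟨-, -, hle, -⟩
    exact hw' (hX'.loc hZ' (hX.isLoc_of_le hZ hw hle))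
  unfold fibCoeff
  rw [h, finsum_mem_empty]

theorem AlgLin_gen (hX : IsCompleteNormal X) (hX' : IsCompleteNormal X') {p : ℕ}
    (hnew : {A | A ∈ Pt X' p ∧ A ∉ X}.Finite) (z : Pt X p →₀ ℚ) (hz : z ∈ AlgEq X p) :
    AlgLin_res X X' p z ∈ AlgEq X' p ⊔ AlgLin_new X X' p := by
  classical
  have hmap : AlgEq X p ≤ (AlgEq X' p ⊔ AlgLin_new X X' p).comap (AlgLin_res X X' p) := by
    unfold AlgEq
    rw [Submodule.span_le]
    rintro z ⟨w, T, F, i1, i2, i3, i4, i5, π, t₁, t₂, hfam, ht1, ht2, hdeg, hzc⟩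
    rw [SetLike.mem_coe, Submodule.mem_comap]
    by_cases hw' : w ∈ X'
    · set f : Pt X' p → ℚ := fun Z => fibCoeff π t₁ (Z : Subalgebra k K) -
        fibCoeff π t₂ (Z : Subalgebra k K) with hf
      have hfin : (Function.support f).Finite := by
        have h1 : Function.support f ⊆
            (Subtype.val ⁻¹' ((Subtype.val '' (z.support : Set (Pt X p))) ∪
              {A | A ∈ Pt X' p ∧ A ∉ X}) : Set (Pt X' p)) := by
          intro A hA
          by_cases h : (A : Subalgebra k K) ∈ X
          · left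
            refine ⟨⟨A, h, A.2.2⟩, ?_, rfl⟩
            rw [Finset.mem_coe, Finsupp.mem_support_iff, hzc]
            exact hA
          · right
            exact ⟨A.2, h⟩
        refine Set.Finite.subset (Set.Finite.preimage Subtype.val_injective.injOn ?_) h1
        exact (z.support.finite_toSet.image _).union hnew
      set z' : Pt X' p →₀ ℚ := Finsupp.ofSupportFinite f hfin with hz'
      have h2 : z' ∈ AlgEq X' p := by
        refine Submodule.subset_span ⟨w, T, F, i1, i2, i3, i4, i5, π, t₁, t₂, ?_, ht1, ht2, hdeg, ?_⟩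
        · exact ⟨hw', hfam.ker, hfam.fgF, hfam.fgT, hfam.tower, hfam.trT, hfam.trF⟩
        · intro Z
          rw [hz', Finsupp.ofSupportFinite_coe]
      have h3 : AlgLin_res X X' p z - z' ∈ AlgLin_new X X' p := by
        refine AlgLin_new_mem _ fun A hA => ?_
        rw [Finsupp.sub_apply, AlgLin_res_apply, dif_pos hA, hzc, hz',
          Finsupp.ofSupportFinite_coe, hf]
        exact sub_self _
      have h4 : AlgLin_res X X' p z = z' + (AlgLin_res X X' p z - z') := by abel
      rw [h4]
      exact Submodule.add_mem_sup h2 h3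
    · have h0 : AlgLin_res X X' p z = 0 := by
        ext A
        rw [AlgLin_res_apply]
        by_cases hA : (A : Subalgebra k K) ∈ X
        · rw [dif_pos hA, hzc, AlgLin_fib_zero hX hX' π t₁ A hfam.mem hw' hA A.2.1,
            AlgLin_fib_zero hX hX' π t₂ A hfam.mem hw' hA A.2.1]
          simp
        · rw [dif_neg hA]
          rfl
      rw [h0]
      exact Submodule.zero_mem _
  exact hmap hz

theorem AlgLin_new_bot {p : ℕ} (hsub : Pt X' p ⊆ Pt X p) : AlgLin_new X X' p = ⊥ := by
  unfold AlgLin_new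
  rw [Submodule.span_eq_bot]
  rintro z ⟨A, hA, rfl⟩
  exact absurd (hsub A.2).1 hA

/-- The map induced on classes. -/
theorem AlgLin_map (hX : IsCompleteNormal X) (hX' : IsCompleteNormal X') {p : ℕ}
    (hsub : Pt X' p ⊆ Pt X p) : ∃ φ : CycAlg X p →ₗ[ℚ] CycAlg X' p, Function.Surjective φ ∧
      ∀ z, φ (Submodule.Quotient.mk z) = Submodule.Quotient.mk (AlgLin_res X X' p z) := by
  have hnew : {A | A ∈ Pt X' p ∧ A ∉ X}.Finite := by
    have : {A | A ∈ Pt X' p ∧ A ∉ X} = ∅ := by
      rw [Set.eq_empty_iff_forall_notMem]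
      rintro A ⟨h1, h2⟩
      exact h2 (hsub h1).1
    rw [this]
    exact Set.finite_empty
  have hle : AlgEq X p ≤ (AlgEq X' p).comap (AlgLin_res X X' p) := by
    intro z hz
    have h1 := AlgLin_gen hX hX' hnew z hz
    rw [AlgLin_new_bot hsub, sup_bot_eq] at h1
    exact h1
  refine ⟨Submodule.mapQ _ _ (AlgLin_res X X' p) hle, ?_, fun z => rfl⟩
  intro y
  obtain ⟨z', rfl⟩ := Submodule.Quotient.mk_surjective _ y
  obtain ⟨z, hz⟩ := AlgLin_surj (X := X) p z'
  rw [AlgLin_new_bot hsub, Submodule.mem_bot, sub_eq_zero] at hz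
  refine ⟨Submodule.Quotient.mk z, ?_⟩
  rw [hz]
  rfl

/-- If all points of codimension `p` of `X'` are points of `X`, the restriction map
`CycAlg X p → CycAlg X' p` is defined and surjective. -/
theorem cycAlg_le (hX : IsCompleteNormal X) (hX' : IsCompleteNormal X') {p : ℕ}
    (hsub : Pt X' p ⊆ Pt X p) (hfin : FiniteDimensional ℚ (CycAlg X p)) :
    FiniteDimensional ℚ (CycAlg X' p) ∧
      Module.finrank ℚ (CycAlg X' p) ≤ Module.finrank ℚ (CycAlg X p) := by
  obtain ⟨φ, hφ, -⟩ := AlgLin_map hX hX' hsub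
  exact ⟨Module.Finite.of_surjective φ hφ, LinearMap.finrank_le_finrank_of_surjective hφ⟩

/-- If moreover some point `L` of codimension `p` of `X` is not in `X'` and its class is not zero,
the dimension drops. -/
theorem cycAlg_lt (hX : IsCompleteNormal X) (hX' : IsCompleteNormal X') {p : ℕ}
    (hsub : Pt X' p ⊆ Pt X p) (hfin : FiniteDimensional ℚ (CycAlg X p)) (L : Pt X p)
    (hL : (L : Subalgebra k K) ∉ X') (h0 : Finsupp.single L (1 : ℚ) ∉ AlgEq X p) :
    Module.finrank ℚ (CycAlg X' p) < Module.finrank ℚ (CycAlg X p) := by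
  classical
  obtain ⟨φ, hφ, hφ'⟩ := AlgLin_map hX hX' hsub
  have h1 := LinearMap.finrank_range_add_finrank_ker φ
  rw [LinearMap.range_eq_top.2 hφ, finrank_top] at h1
  have h2 : (Submodule.Quotient.mk (Finsupp.single L (1 : ℚ)) : CycAlg X p) ∈
      LinearMap.ker φ := by
    rw [LinearMap.mem_ker, hφ', Submodule.Quotient.mk_eq_zero]
    have h3 : AlgLin_res X X' p (Finsupp.single L (1 : ℚ)) = 0 := by
      unfold AlgLin_res
      rw [Finsupp.linearCombination_single, dif_neg hL, smul_zero]
    rw [h3]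
    exact Submodule.zero_mem _
  have h3 : LinearMap.ker φ ≠ ⊥ := by
    intro h
    rw [h, Submodule.mem_bot, Submodule.Quotient.mk_eq_zero] at h2
    exact h0 h2
  have h4 : 0 < Module.finrank ℚ (LinearMap.ker φ) := by
    rw [Nat.pos_iff_ne_zero]
    intro h
    exact h3 (Submodule.finrank_eq_zero.1 h)
  omega

/-- Finite dimensionality is preserved if `X'` has only finitely many points of codimension `p`
which are not in `X`: the quotient of `CycAlg X' p` by the classes of these points is a quotient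
of `CycAlg X p`. -/
theorem cycAlg_finite (hX : IsCompleteNormal X) (hX' : IsCompleteNormal X') {p : ℕ}
    (hnew : {A | A ∈ Pt X' p ∧ A ∉ X}.Finite) (hfin : FiniteDimensional ℚ (CycAlg X p)) :
    FiniteDimensional ℚ (CycAlg X' p) := by
  classical
  set N' : Submodule ℚ (CycAlg X' p) := (AlgLin_new X X' p).map (AlgEq X' p).mkQ with hN'
  have hNfin : Module.Finite ℚ (AlgLin_new X X' p) := by
    unfold AlgLin_new
    refine Module.Finite.span_of_finite ℚ ?_
    have h1 : {z | ∃ A : Pt X' p, (A : Subalgebra k K) ∉ X ∧ z = Finsupp.single A (1 : ℚ)} =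
        (fun A : Pt X' p => Finsupp.single A (1 : ℚ)) ''
          (Subtype.val ⁻¹' {A | A ∈ Pt X' p ∧ A ∉ X}) := by
      ext z
      constructor
      · rintro ⟨A, hA, rfl⟩
        exact ⟨A, ⟨A.2, hA⟩, rfl⟩
      · rintro ⟨A, ⟨-, hA⟩, rfl⟩
        exact ⟨A, hA, rfl⟩
    rw [h1]
    exact (hnew.preimage Subtype.val_injective.injOn).image _
  have hN'fin : Module.Finite ℚ N' := Module.Finite.map _ _
  have hle : AlgEq X p ≤ LinearMap.ker (N'.mkQ ∘ₗ (AlgEq X' p).mkQ ∘ₗ AlgLin_res X X' p) := by
    intro z hz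
    have h1 := AlgLin_gen hX hX' hnew z hz
    obtain ⟨a, ha, c, hc, hac⟩ := Submodule.mem_sup.1 h1
    have h2 : (AlgEq X' p).mkQ a = 0 := (Submodule.Quotient.mk_eq_zero _).2 ha
    rw [LinearMap.mem_ker, LinearMap.comp_apply, LinearMap.comp_apply, ← hac, map_add,
      h2, zero_add]
    exact (Submodule.Quotient.mk_eq_zero _).2 (Submodule.mem_map_of_mem hc)
  have hsurj : Function.Surjective ((AlgEq X p).liftQ _ hle) := by
    intro y
    obtain ⟨y', rfl⟩ := Submodule.Quotient.mk_surjective _ y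
    obtain ⟨z', rfl⟩ := Submodule.Quotient.mk_surjective _ y'
    obtain ⟨z, hz⟩ := AlgLin_surj (X := X) p z'
    refine ⟨Submodule.Quotient.mk z, ?_⟩
    rw [Submodule.liftQ_apply, LinearMap.comp_apply, LinearMap.comp_apply]
    refine (Submodule.Quotient.eq N').2 ?_
    rw [Submodule.mkQ_apply, ← Submodule.Quotient.mk_sub, ← neg_mem_iff,
      ← Submodule.Quotient.mk_neg, neg_sub]
    exact Submodule.mem_map_of_mem hz
  have hq : Module.Finite ℚ (CycAlg X' p ⧸ N') := Module.Finite.of_surjective _ hsurj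
  exact Module.Finite.of_submodule_quotient N'

end Flip28
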