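import Pool.Agent.Flip_h28.DegE

/-! # Effective cycles are not algebraically equivalent to zero -/

universe u

namespace Flip28

variable {k K : Type u} [Field k] [Field K] [Algebra k K]

theorem DegF_trF {X : Set (Subalgebra k K)} {p d : ℕ}
    (hn : Algebra.trdeg k K = (p + d : ℕ))
    {w : Subalgebra k K} {T F : Type u} [Field T] [Field F] [Algebra k T] [Algebra k F]
    [Algebra T F] {π : w →ₐ[k] F} (hfam : IsFam X p T π) :
    Algebra.trdeg k F = (d + 1 : ℕ) := by
  have h := hfam.trF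
  rw [hn] at h
  have hlt : Algebra.trdeg k F < Cardinal.aleph0 := by
    refine lt_of_le_of_lt (self_le_add_right (Algebra.trdeg k F) (p : Cardinal)) ?_
    rw [h]
    exact Cardinal.add_lt_aleph0 (Cardinal.natCast_lt_aleph0) Cardinal.one_lt_aleph0
  obtain ⟨m, hm⟩ := Cardinal.lt_aleph0.1 hlt
  rw [hm] at h ⊢
  have h2 : ((m + p : ℕ) : Cardinal.{u}) = ((p + d + 1 : ℕ) : Cardinal.{u}) := by
    push_cast at h ⊢
    exact h
  have h3 : m + p = p + d + 1 := by exact_mod_cast h2
  have h4 : m = d + 1 := by omega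
  rw [h4]

/-- The degree of the direct image of the fibre over `t`, for generic forms. -/
theorem sum_fibCoeff [CharZero k] [Algebra.EssFiniteType k K]
    {X : Set (Subalgebra k K)} (hX : IsCompleteNormal X) {V : Submodule k K}
    (hV : Defines X V) {p d : ℕ} (hn : Algebra.trdeg k K = (p + d : ℕ))
    {w : Subalgebra k K} {T F : Type u} [Field T] [Field F] [Algebra k T] [Algebra k F]
    [Algebra T F] {π : w →ₐ[k] F} (hfam : IsFam X p T π) {u : K} (hu : GenAt V w u)
    {t : Subalgebra k T} (ht : IsDVR t) {l : Fin (d + 1) → V} {D : Subalgebra k F} {τ : T}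
    (hτ : IsUnif t τ) (hD : ∀ x ∈ D, ∃ y ∈ t, x = algebraMap T F y)
    (hg : GenForms (psi V hu π) D (algebraMap T F τ) l) :
    {Z : Pt X p | degPt V l (Z : Subalgebra k K) ≠ 0 ∧
      fibCoeff π t (Z : Subalgebra k K) ≠ 0}.Finite ∧
    ∑ᶠ Z : Pt X p, (degPt V l (Z : Subalgebra k K) : ℚ) * fibCoeff π t (Z : Subalgebra k K) =
      ∑ᶠ v ∈ GoodOver t (fun i : Fin d => psi V hu π (l i.succ) * (psi V hu π (l 0))⁻¹),
        (ram t v : ℚ) * resDeg v (Set.range
          (fun i : Fin d => psi V hu π (l i.succ) * (psi V hu π (l 0))⁻¹)) := by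
  classical
  have := hfam.tower
  have := hfam.fgF
  have := hfam.fgT
  set s : Fin d → F := fun i => psi V hu π (l i.succ) * (psi V hu π (l 0))⁻¹ with hs
  obtain ⟨D', hD'⟩ := degree_formula (k := k) (T := T) (F := F) hfam.trT
    (DegF_trF hn hfam) s
  obtain ⟨hfin, -⟩ := hD' t ht
  have : Fintype (GoodOver t s) := hfin.fintype
  have hc' : ∀ v : GoodOver t s, ∃ Z : Pt X p, GoodPt V l (Z : Subalgebra k K) ∧
      (v : Subalgebra k F) ∈ FibDiv π t (Z : Subalgebra k K) := by
    intro v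
    obtain ⟨Z, hZ, h1, h2⟩ := exists_centre_good hX hV hn hfam hu ht hτ hD hg v.2
    exact ⟨⟨Z, hZ⟩, h1, h2⟩
  choose c hc using hc'
  have hcv : ∀ (Z : Pt X p) (v : Subalgebra k F) (hv : v ∈ GoodOver t s),
      v ∈ FibDiv π t (Z : Subalgebra k K) → c ⟨v, hv⟩ = Z := by
    intro Z v hv hvZ
    exact Subtype.ext (fibDiv_unique hX hfam (c ⟨v, hv⟩).2.1 Z.2.1 (hc ⟨v, hv⟩).2 hvZ)
  have hfib : ∀ Z : Pt X p, GoodPt V l (Z : Subalgebra k K) →
      FibDiv π t (Z : Subalgebra k K) = Subtype.val ''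
        ((Finset.univ.filter fun v : GoodOver t s => c v = Z : Finset (GoodOver t s)) :
          Set (GoodOver t s)) := by
    intro Z hZ
    ext v
    constructor
    · intro hv
      have hv' : v ∈ GoodOver t s := goodOver_of_fibDiv hX hfam hu Z.2.1 hZ hv
      refine ⟨⟨v, hv'⟩, ?_, rfl⟩
      simp only [Finset.coe_filter, Finset.mem_univ, true_and, Set.mem_ofPred_eq]
      exact hcv Z v hv' hv
    · rintro ⟨v, hv, rfl⟩
      simp only [Finset.coe_filter, Finset.mem_univ, true_and, Set.mem_ofPred_eq] at hv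
      rw [← hv]
      exact (hc v).2
  have hval : ∀ Z : Pt X p, (degPt V l (Z : Subalgebra k K) : ℚ) *
      fibCoeff π t (Z : Subalgebra k K) =
        ∑ v ∈ Finset.univ.filter (fun v : GoodOver t s => c v = Z),
          (ram t (v : Subalgebra k F) : ℚ) * resDeg (v : Subalgebra k F) (Set.range s) := by
    intro Z
    by_cases hZ : GoodPt V l (Z : Subalgebra k K)
    · unfold fibCoeff
      rw [hfib Z hZ, finsum_mem_image Subtype.val_injective.injOn, finsum_mem_coe_finset,
        Finset.mul_sum]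
      refine Finset.sum_congr rfl fun v hv => ?_
      have hcv' : c v = Z := (Finset.mem_filter.1 hv).2
      have hvZ : (v : Subalgebra k F) ∈ FibDiv π t (Z : Subalgebra k K) := by
        rw [← hcv']
        exact (hc v).2
      have h1 := resDeg_mul_degPt hX hfam hu Z.2.1 hZ hvZ
      rw [← hs] at h1
      rw [← h1]
      push_cast
      ring
    · have h0 : degPt V l (Z : Subalgebra k K) = 0 := by
        unfold degPt
        rw [if_neg hZ]
      rw [h0, Nat.cast_zero, zero_mul]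
      symm
      apply Finset.sum_eq_zero
      intro v hv
      have hcv' : c v = Z := (Finset.mem_filter.1 hv).2
      rw [← hcv'] at hZ
      exact absurd (hc v).1 hZ
  have hsupp : ∀ Z : Pt X p, (degPt V l (Z : Subalgebra k K) : ℚ) *
      fibCoeff π t (Z : Subalgebra k K) ≠ 0 → Z ∈ (Finset.univ.image c : Finset (Pt X p)) := by
    intro Z hZ
    rw [hval Z] at hZ
    obtain ⟨v, hv, -⟩ := Finset.exists_ne_zero_of_sum_ne_zero hZ
    exact Finset.mem_image.2 ⟨v, Finset.mem_univ _, (Finset.mem_filter.1 hv).2⟩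
  constructor
  · refine (Finset.finite_toSet (Finset.univ.image c : Finset (Pt X p))).subset ?_
    rintro Z ⟨h1, h2⟩
    exact hsupp Z (mul_ne_zero (by exact_mod_cast h1) h2)
  · rw [finsum_eq_sum_of_support_subset (s := (Finset.univ.image c : Finset (Pt X p))) _
      (fun Z hZ => hsupp Z hZ)]
    rw [Finset.sum_congr rfl fun Z _ => hval Z]
    rw [Finset.sum_fiberwise_of_maps_to (s := (Finset.univ : Finset (GoodOver t s)))
      (t := (Finset.univ.image c : Finset (Pt X p))) (g := c)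
      (fun v hv => Finset.mem_image_of_mem c hv)]
    rw [← finsum_set_coe_eq_finsum_mem (GoodOver t s), finsum_eq_sum_of_fintype]

/-- The data to which `exists_forms` is applied. -/
structure DegF_Dat (k : Type u) [Field k] (V : Type u) [AddCommGroup V] [Module k V]
    (d : ℕ) where
  F : Type u
  fld : Field F
  alg : Algebra k F
  ψ : V →ₗ[k] F
  D : Subalgebra k F
  τ : F
  hψ : ψ ≠ 0
  hD : Algebra.EssFiniteType k D
  hτ : τ ∈ D
  hdim : (Algebra.trdeg k F = d ∧ τ = 0) ∨ (Algebra.trdeg k F = (d + 1 : ℕ) ∧ τ ≠ 0)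

attribute [instance] DegF_Dat.fld DegF_Dat.alg

/-- the forms `l` are generic with respect to the data -/
def DegF_Dat.Gen {V : Submodule k K} {d : ℕ} (dat : DegF_Dat k V d) (l : Fin (d + 1) → V) :
    Prop := GenForms dat.ψ dat.D dat.τ l

theorem DegF_exists [Infinite k] {V : Submodule k K} [Module.Finite k V] {d : ℕ} {J : Type*}
    [Finite J] (dat : J → DegF_Dat k V d) : ∃ l : Fin (d + 1) → V, ∀ j, (dat j).Gen l :=
  exists_forms (fun j => (dat j).F) (fun j => (dat j).ψ) (fun j => (dat j).hψ)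
    (fun j => (dat j).D) (fun j => (dat j).hD) (fun j => (dat j).τ) (fun j => (dat j).hτ) d
    (fun j => (dat j).hdim)

theorem DegF_psi_ne {V : Submodule k K} {w : Subalgebra k K} {u : K} (hu : GenAt V w u)
    {F : Type u} [Field F] [Algebra k F] (ρ : w →ₐ[k] F) : psi V hu ρ ≠ 0 := by
  intro h
  have h1 : psi V hu ρ ⟨u, hu.1⟩ = 0 := by
    rw [h]
    rfl
  have h2 : psi V hu ρ ⟨u, hu.1⟩ = 1 := by
    have e : (⟨u * u⁻¹, hu.2.2 u hu.1⟩ : w) = 1 := Subtype.ext (mul_inv_cancel₀ hu.2.1)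
    show ρ ⟨u * u⁻¹, hu.2.2 u hu.1⟩ = 1
    rw [e, map_one]
  rw [h2] at h1
  exact one_ne_zero h1

/-- the data for the point `L` -/
theorem DegF_point {X : Set (Subalgebra k K)} (hX : IsCompleteNormal X) {V : Submodule k K}
    (hV : Defines X V) {p : ℕ} (L : Pt X p) :
    ∃ d : ℕ, Algebra.trdeg k K = (p + d : ℕ) ∧ ∃ dat : DegF_Dat k V d,
      ∀ l : Fin (d + 1) → V, dat.Gen l → 0 < degPt V l (L : Subalgebra k K) := by
  obtain ⟨C, -, hC1, hC2⟩ := hX.charts
  obtain ⟨R, hRC, hRL⟩ := (hC2 L).1 L.2.1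
  obtain ⟨hRfg, hRfr⟩ := hC1 R hRC
  have hloc : IsLocalRing (L : Subalgebra k K) := hRL.2.1
  obtain ⟨d₀, e, h1, h2, h3⟩ := dim_formula hRfg hRfr hRL
  have h4 : d₀ = p := by
    have h5 := L.2.2
    rw [h1] at h5
    exact_mod_cast h5
  subst h4
  obtain ⟨u, hu⟩ := hV.exists_genAt L.2.1
  have hsurj : Function.Surjective (IsScalarTower.toAlgHom k (L : Subalgebra k K)
      (IsLocalRing.ResidueField (L : Subalgebra k K))) :=
    IsLocalRing.residue_surjective
  have hzero : ∀ a : (L : Subalgebra k K), (a : K)⁻¹ ∉ (L : Subalgebra k K) →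
      IsScalarTower.toAlgHom k (L : Subalgebra k K)
        (IsLocalRing.ResidueField (L : Subalgebra k K)) a = 0 := by
    intro a ha
    have h6 : IsLocalRing.residue (L : Subalgebra k K) a = 0 := by
      rw [IsLocalRing.residue_eq_zero_iff, IsLocalRing.mem_maximalIdeal, mem_nonunits_iff,
        LocAlg_unit]
      exact fun h => ha h.2
    exact h6
  have hbot : Algebra.EssFiniteType k
      (⊥ : Subalgebra k (IsLocalRing.ResidueField (L : Subalgebra k K))) := by
    have : Algebra.FiniteType k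
        (⊥ : Subalgebra k (IsLocalRing.ResidueField (L : Subalgebra k K))) :=
      (Subalgebra.fg_iff_finiteType _).1 Subalgebra.fg_bot
    infer_instance
  refine ⟨e, h3, ⟨IsLocalRing.ResidueField (L : Subalgebra k K), inferInstance, inferInstance,
    psi V hu (IsScalarTower.toAlgHom k (L : Subalgebra k K)
      (IsLocalRing.ResidueField (L : Subalgebra k K))), ⊥, 0, DegF_psi_ne hu _, hbot,
      Subalgebra.zero_mem _, Or.inl ⟨h2, rfl⟩⟩, fun l hl => ?_⟩
  exact degPt_pos hX hV L.2.1 _ hsurj hzero h2 hu hl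

/-- the data for a family and a point of the curve -/
theorem DegF_famDat [CharZero k] {X : Set (Subalgebra k K)} {V : Submodule k K}
    {p d : ℕ} (hn : Algebra.trdeg k K = (p + d : ℕ))
    {w : Subalgebra k K} {T F : Type u} [Field T] [Field F] [Algebra k T] [Algebra k F]
    [Algebra T F] {π : w →ₐ[k] F} (hfam : IsFam X p T π) {u : K} (hu : GenAt V w u)
    {t : Subalgebra k T} (ht : IsDVR t) :
    ∃ dat : DegF_Dat k V d, ∀ l : Fin (d + 1) → V, dat.Gen l →
      ∃ (D : Subalgebra k F) (τ : T), IsUnif t τ ∧ (∀ x ∈ D, ∃ y ∈ t, x = algebraMap T F y) ∧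
        GenForms (psi V hu π) D (algebraMap T F τ) l := by
  have := hfam.tower
  have := hfam.fgF
  have := hfam.fgT
  obtain ⟨τ, hτ⟩ := id ht
  obtain ⟨⟨-, R, hR, hRt⟩, -⟩ := isPrimeDiv_of_trdeg_one hfam.trT t ht
  have hess : Algebra.EssFiniteType k t := hRt.essFiniteType hR
  set D : Subalgebra k F := t.map (IsScalarTower.toAlgHom k T F) with hD
  have hDess : Algebra.EssFiniteType k D := by
    have hmem : ∀ x : t, IsScalarTower.toAlgHom k T F x ∈ D := fun x => ⟨x, x.2, rfl⟩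
    refine Algebra.EssFiniteType.of_surjective
      (((IsScalarTower.toAlgHom k T F).comp t.val).codRestrict D hmem) ?_
    rintro ⟨x, y, hy, hxy⟩
    exact ⟨⟨y, hy⟩, Subtype.ext hxy⟩
  have hτ0 : algebraMap T F τ ≠ 0 := by
    intro h
    have h1 : τ = 0 := (map_eq_zero_iff _ (algebraMap T F).injective).1 h
    apply hτ.2.1
    rw [h1, inv_zero]
    exact t.zero_mem
  refine ⟨⟨F, inferInstance, inferInstance, psi V hu π, D, algebraMap T F τ,
    DegF_psi_ne hu _, hDess, ⟨τ, hτ.1, rfl⟩, Or.inr ⟨DegF_trF hn hfam, hτ0⟩⟩,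
    fun l hl => ⟨D, τ, hτ, ?_, hl⟩⟩
  rintro x ⟨y, hy, rfl⟩
  exact ⟨y, hy, rfl⟩

/-- the functional vanishes on the generators -/
theorem DegF_gen [CharZero k] [Algebra.EssFiniteType k K]
    {X : Set (Subalgebra k K)} (hX : IsCompleteNormal X) {V : Submodule k K}
    (hV : Defines X V) {p d : ℕ} (hn : Algebra.trdeg k K = (p + d : ℕ))
    {w : Subalgebra k K} {T F : Type u} [Field T] [Field F] [Algebra k T] [Algebra k F]
    [Algebra T F] {π : w →ₐ[k] F} (hfam : IsFam X p T π)
    {t₁ t₂ : Subalgebra k T} (ht₁ : IsDVR t₁) (ht₂ : IsDVR t₂)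
    (hres : resDeg t₁ ∅ = resDeg t₂ ∅) {z : Pt X p →₀ ℚ}
    (hz : ∀ Z : Pt X p, z Z = fibCoeff π t₁ (Z : Subalgebra k K) -
      fibCoeff π t₂ (Z : Subalgebra k K)) :
    ∃ dat₁ dat₂ : DegF_Dat k V d, ∀ l : Fin (d + 1) → V, dat₁.Gen l →
      dat₂.Gen l → Finsupp.linearCombination ℚ
        (fun Z : Pt X p => (degPt V l (Z : Subalgebra k K) : ℚ)) z = 0 := by
  have := hfam.tower
  have := hfam.fgF
  have := hfam.fgT
  obtain ⟨u, hu⟩ := hV.exists_genAt hfam.mem
  obtain ⟨dat₁, hd₁⟩ := DegF_famDat hn hfam hu ht₁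
  obtain ⟨dat₂, hd₂⟩ := DegF_famDat hn hfam hu ht₂
  refine ⟨dat₁, dat₂, fun l hl₁ hl₂ => ?_⟩
  obtain ⟨D₁, τ₁, hτ₁, hD₁, hg₁⟩ := hd₁ l hl₁
  obtain ⟨D₂, τ₂, hτ₂, hD₂, hg₂⟩ := hd₂ l hl₂
  obtain ⟨hf₁, hs₁⟩ := sum_fibCoeff hX hV hn hfam hu ht₁ hτ₁ hD₁ hg₁
  obtain ⟨hf₂, hs₂⟩ := sum_fibCoeff hX hV hn hfam hu ht₂ hτ₂ hD₂ hg₂
  obtain ⟨D', hD'⟩ := degree_formula (k := k) (T := T) (F := F) hfam.trT
    (DegF_trF hn hfam) (fun i : Fin d => psi V hu π (l i.succ) * (psi V hu π (l 0))⁻¹)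
  rw [(hD' t₁ ht₁).2] at hs₁
  rw [(hD' t₂ ht₂).2] at hs₂
  have hfin : ∀ t : Subalgebra k T, {Z : Pt X p | degPt V l (Z : Subalgebra k K) ≠ 0 ∧
      fibCoeff π t (Z : Subalgebra k K) ≠ 0}.Finite →
      (Function.support fun Z : Pt X p => (degPt V l (Z : Subalgebra k K) : ℚ) *
        fibCoeff π t (Z : Subalgebra k K)).Finite := by
    intro t h
    refine h.subset fun Z hZ => ?_
    have h1 : (degPt V l (Z : Subalgebra k K) : ℚ) * fibCoeff π t (Z : Subalgebra k K) ≠ 0 := hZ
    exact ⟨fun h0 => h1 (by rw [h0, Nat.cast_zero, zero_mul]), right_ne_zero_of_mul h1⟩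
  have hlin : Finsupp.linearCombination ℚ
      (fun Z : Pt X p => (degPt V l (Z : Subalgebra k K) : ℚ)) z =
        ∑ᶠ Z : Pt X p, ((degPt V l (Z : Subalgebra k K) : ℚ) *
          fibCoeff π t₁ (Z : Subalgebra k K) - (degPt V l (Z : Subalgebra k K) : ℚ) *
          fibCoeff π t₂ (Z : Subalgebra k K)) := by
    have e : ∀ Z : Pt X p, ((degPt V l (Z : Subalgebra k K) : ℚ) *
          fibCoeff π t₁ (Z : Subalgebra k K) - (degPt V l (Z : Subalgebra k K) : ℚ) *
          fibCoeff π t₂ (Z : Subalgebra k K)) =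
          z Z * (degPt V l (Z : Subalgebra k K) : ℚ) := by
      intro Z
      rw [hz Z]
      ring
    rw [finsum_congr e, Finsupp.linearCombination_apply, Finsupp.sum]
    rw [finsum_eq_sum_of_support_subset (s := z.support)]
    · rfl
    · intro Z hZ
      have h1 : z Z * (degPt V l (Z : Subalgebra k K) : ℚ) ≠ 0 := hZ
      exact Finset.mem_coe.2 (Finsupp.mem_support_iff.2 (left_ne_zero_of_mul h1))
  rw [hlin, finsum_sub_distrib (hfin t₁ hf₁) (hfin t₂ hf₂), hs₁, hs₂, hres, sub_self]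

/-- On a projective variety the class of a point (an irreducible subvariety) is not
algebraically equivalent to zero.

Proof: suppose `single L 1` is a finite linear combination of generators, given by families
`j = 1, ..., r`; choose by `exists_forms` forms `l` generic with respect to `L` (with
`F = κ(L)`, `D = ⊥`, `τ = 0`) and to the `(F_j, t₁)`, `(F_j, t₂)` (with `D` the image of `t`,
which is of essentially finite type by `isPrimeDiv_of_trdeg_one`, `τ` the image of a
uniformizer).  By `sum_fibCoeff` and `degree_formula` the linear functional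
`z ↦ ∑ z(Z) degPt Z` vanishes on the generators, but it is positive on `single L 1` by
`degPt_pos`. -/
theorem single_not_mem_algEq [CharZero k] [Algebra.EssFiniteType k K]
    {X : Set (Subalgebra k K)} (hX : IsCompleteNormal X) (hP : IsProj X) {p n : ℕ}
    (hn : Algebra.trdeg k K = n) (L : Pt X p) : Finsupp.single L (1 : ℚ) ∉ AlgEq X p := by
  classical
  obtain ⟨V, hV⟩ : ∃ V : Submodule k K, Defines X V := hP
  have : Module.Finite k V := Module.Finite.iff_fg.2 hV.1
  have : Infinite k := CharZero.infinite k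
  obtain ⟨d, hnd, datL, hdatL⟩ := DegF_point hX hV L
  intro hmem
  obtain ⟨S, hS, hmem'⟩ := Submodule.mem_span_finite_of_mem_span hmem
  have hS' : ∀ z : S, ∃ dat₁ dat₂ : DegF_Dat k V d, ∀ l : Fin (d + 1) → V, dat₁.Gen l →
      dat₂.Gen l → Finsupp.linearCombination ℚ
        (fun Z : Pt X p => (degPt V l (Z : Subalgebra k K) : ℚ)) (z : Pt X p →₀ ℚ) = 0 := by
    intro z
    obtain ⟨w, T, F, _, _, _, _, _, π, t₁, t₂, hfam, ht₁, ht₂, hres, hz⟩ := hS z.2
    exact DegF_gen hX hV hnd hfam ht₁ ht₂ hres hz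
  choose dat₁ dat₂ hdat using hS'
  obtain ⟨l, hl⟩ := DegF_exists (J := Option (S ⊕ S))
    (fun j => j.elim datL (fun j => j.elim dat₁ dat₂))
  have h1 : Submodule.span ℚ (S : Set (Pt X p →₀ ℚ)) ≤ LinearMap.ker
      (Finsupp.linearCombination ℚ
        (fun Z : Pt X p => (degPt V l (Z : Subalgebra k K) : ℚ))) := by
    rw [Submodule.span_le]
    intro z hz
    exact hdat ⟨z, hz⟩ l (hl (some (Sum.inl ⟨z, hz⟩))) (hl (some (Sum.inr ⟨z, hz⟩)))
  have h2 := h1 hmem'
  rw [LinearMap.mem_ker, Finsupp.linearCombination_single, one_smul] at h2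
  have h3 := hdatL l (hl none)
  have h4 : degPt V l (L : Subalgebra k K) = 0 := by exact_mod_cast h2
  omega

end Flip28
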