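import Pool.Agent.Flip_h28.Main
import Pool.Agent.Flip_h28.DegF
import Pool.Agent.Flip_h28.AlgLin
import Pool.Agent.Flip_h28.OpenPts

/-! # Termination of flips when cycles modulo algebraic equivalence are finite dimensional -/

open scoped KaehlerDifferential

set_option linter.unusedSectionVars false

universe u

namespace Flip28

variable {k K : Type u} [Field k] [Field K] [Algebra k K] [CharZero k]
  [Algebra.EssFiniteType k K] {n : ℕ} (b : Module.Basis (Fin n) K Ω[K⁄k])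

/-- the standing assumptions -/
structure Setup2 (c : ℕ) (X Y : ℕ → Set (Subalgebra k K)) : Prop where
  hc : 2 ≤ c
  hX : IsCompleteNormal (X 0)
  hP : ∀ i, IsProj (X i)
  hf : ∀ i, IsFlip b (X i) (Y i) (X (i + 1))
  hper : ∀ i, ∀ A ∈ X i, ringKrullDim A < c → A ∈ X (i + 1)
  h1 : ∀ E, IsPrimeDiv E → ∀ A ∈ X 0, (c : WithBot ℕ∞) ≤ ringKrullDim A → Dom A E →
    ¬ Algebra.FormallySmooth k A → (c : ℚ) - 1 ≤ disc b (X 0) E
  h2 : {E | IsPrimeDiv E ∧ (∃ A ∈ X 0, (c : WithBot ℕ∞) ≤ ringKrullDim A ∧ Dom A E ∧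
    ¬ Algebra.FormallySmooth k A) ∧ disc b (X 0) E < c}.Finite
  h3 : ∀ i, ∀ F ∈ X (i + 1), F ∉ X i → ringKrullDim F ≤ (c : WithBot ℕ∞) + 1 →
    Algebra.FormallySmooth k F
  h4 : FiniteDimensional ℚ (CycAlg (X 0) c)

variable {b}
variable {c : ℕ} {X Y : ℕ → Set (Subalgebra k K)}

theorem Setup2.cn (h : Setup2 b c X Y) (i : ℕ) : IsCompleteNormal (X i) := by
  rcases i with _ | i
  · exact h.hX
  · exact (h.hf i).mX'

theorem Setup2.dim_nat (h : Setup2 b c X Y) {i : ℕ} {A : Subalgebra k K}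
    (hA : A ∈ X i) : ∃ d : ℕ, ringKrullDim A = d := by
  obtain ⟨R, hR, hK, hRA, -⟩ := (h.cn i).exists_chart hA
  obtain ⟨d, e, hd, -, -⟩ := dim_formula hR hK hRA
  exact ⟨d, hd⟩

theorem Setup2.small (h : Setup2 b c X Y) (i : ℕ) : ∀ P ∈ X i, IsDVR P → P ∈ Y i := by
  intro P hP hd
  apply (h.hf i).small' P _ hd
  apply h.hper i P hP
  rw [((h.cn i).isDVR_iff hP).1 hd]
  have := h.hc
  exact_mod_cast (by omega : 1 < c)

theorem Setup2.persist (h : Setup2 b c X Y) {A : Subalgebra k K} {i : ℕ} (hA : A ∈ X i)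
    (hd : ringKrullDim A < c) : ∀ j, i ≤ j → A ∈ X j := by
  intro j hij
  induction j, hij using Nat.le_induction with
  | base => exact hA
  | succ j hij ih => exact h.hper j A ih hd

theorem Setup2.disc_mono (h : Setup2 b c X Y) {E : Subalgebra k K} (hE : IsPrimeDiv E)
    {i : ℕ} : ∀ j, i ≤ j → disc b (X i) E ≤ disc b (X j) E := by
  intro j hij
  induction j, hij using Nat.le_induction with
  | base => exact le_rfl
  | succ j hij ih => exact ih.trans (disc_le b (h.cn j) (h.hf j) hE)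

theorem Setup2.blow (h : Setup2 b c X Y) {i : ℕ} {F : Subalgebra k K}
    (hF : F ∈ X (i + 1)) (hF' : F ∉ X i) {d : ℕ} (hd : ringKrullDim F = d) (hdc : d ≤ c + 1) :
    ∃ E, IsPrimeDiv E ∧ Dom F E ∧
      (∃ A ∈ X 0, Dom A E ∧ (c : WithBot ℕ∞) ≤ ringKrullDim A) ∧
      disc b (X (i + 1)) E = (d : ℚ) - 1 ∧ disc b (X i) E < (d : ℚ) - 1 := by
  have hcn' := h.cn (i + 1)
  have hcn := h.cn i
  have hsm : Algebra.FormallySmooth k F := by
    apply h.h3 i F hF hF'
    rw [hd]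
    exact_mod_cast hdc
  obtain ⟨R, hR, hK, hRF, -⟩ := hcn'.exists_chart hF
  obtain ⟨d', x, hx⟩ := exists_coord b hR hK hRF hsm
  have hdd : d' = d := by
    have h1 := hx.dim
    rw [hd] at h1
    exact_mod_cast h1.symm
  subst hdd
  have hd0 : 0 < d' := by
    rcases Nat.eq_zero_or_pos d' with h0 | h0
    · exfalso
      subst h0
      have h1 : F = ⊤ := (hcn'.eq_top_iff hF).2 (by simpa using hd)
      exact hF' (h1 ▸ hcn.top_mem)
    · exact h0
  obtain ⟨E, hE, hFE, hdisc⟩ := hx.exists_blow b hcn' hF hd0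
  have hEval : IsVal E := hE.1.isVal
  have hEloc := hEval.isLocalRing
  obtain ⟨A1, hA1, hA1E⟩ := hcn.exists_centre hEval
  have hlt : disc b (X i) E < disc b (X (i + 1)) E :=
    disc_lt b hcn (h.hf i) hE hA1 hF hA1E hFE (fun he => hF' (he ▸ hA1))
  obtain ⟨A0, hA0, hA0E⟩ := h.hX.exists_centre hEval
  refine ⟨E, hE, hFE, ⟨A0, hA0, hA0E, ?_⟩, hdisc, by rw [← hdisc]; exact hlt⟩
  by_contra hcon
  rw [not_le] at hcon
  have h1 := h.persist (i := 0) hA0 hcon (i + 1) (by omega)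
  have h2 := h.persist (i := 0) hA0 hcon i (by omega)
  have h3 : A0 = F := hcn'.unique h1 hF hEloc hA0E hFE
  exact hF' (h3 ▸ h2)

/-- the discrepancy of a prime divisor over a point of `X 0` of codimension `≥ c` -/
theorem Setup2.disc_ge (h : Setup2 b c X Y) {E A : Subalgebra k K} (hE : IsPrimeDiv E)
    (hA : A ∈ X 0) (hAE : Dom A E) (hcA : (c : WithBot ℕ∞) ≤ ringKrullDim A) :
    (c : ℚ) - 1 ≤ disc b (X 0) E := by
  by_cases hs : Algebra.FormallySmooth k A
  · obtain ⟨R, hR, hK, hRA, -⟩ := h.hX.exists_chart hA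
    obtain ⟨d, x, hx⟩ := exists_coord b hR hK hRA hs
    rw [hx.dim] at hcA
    have h1 : c ≤ d := by exact_mod_cast hcA
    have h2 := hx.disc_ge_dim b h.hX hA hE hAE
    have h3 : (c : ℚ) ≤ d := by exact_mod_cast h1
    linarith
  · exact h.h1 E hE A hA hcA hAE hs

theorem Setup2.flipped_dim (h : Setup2 b c X Y) {i : ℕ} {F : Subalgebra k K}
    (hF : F ∈ X (i + 1)) (hF' : F ∉ X i) {d : ℕ} (hd : ringKrullDim F = d) : c + 1 ≤ d := by
  by_contra hcon
  push Not at hcon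
  obtain ⟨E, hE, -, ⟨A, hA, hAE, hcA⟩, h2, h3⟩ := h.blow hF hF' hd hcon.le
  have h4 := h.disc_ge hE hA hAE hcA
  have h5 := h.disc_mono hE (i := 0) i (Nat.zero_le _)
  have h6 : (d : ℚ) ≤ c := by exact_mod_cast (by omega : d ≤ c)
  linarith

theorem Setup2.mem_of_le (h : Setup2 b c X Y) {L : Subalgebra k K} {d : ℕ}
    (hd : ringKrullDim L = d) (hdc : d ≤ c) {i : ℕ} : ∀ j, i ≤ j → L ∈ X j → L ∈ X i := by
  intro j hij
  induction j, hij using Nat.le_induction with
  | base => intro hL; exact hL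
  | succ j hij ih =>
    intro hL
    apply ih
    by_contra hcon
    have := h.flipped_dim hL hcon hd
    omega

/-- an antitone sequence of natural numbers decreases strictly only finitely often -/
theorem finite_strict_drops (f : ℕ → ℕ) (hf : ∀ i, f (i + 1) ≤ f i) :
    {i | f (i + 1) < f i}.Finite := by
  have hanti : Antitone f := antitone_nat_of_succ_le hf
  refine Set.Finite.of_finite_image (f := f)
    ((Set.finite_Iic (f 0)).subset ?_) ?_
  · rintro _ ⟨i, -, rfl⟩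
    exact hanti (Nat.zero_le i)
  · intro i hi j hj he
    rcases lt_trichotomy i j with hlt | heq | hgt
    · exfalso
      have h1 : f j ≤ f (i + 1) := hanti hlt
      have h2 : f (i + 1) < f i := hi
      omega
    · exact heq
    · exfalso
      have h1 : f i ≤ f (j + 1) := hanti hgt
      have h2 : f (j + 1) < f j := hj
      omega

/-- the flips removing a point of codimension `c` -/
def TI (c : ℕ) (X : ℕ → Set (Subalgebra k K)) : Set ℕ :=
  {i | ∃ L ∈ X i, L ∉ X (i + 1) ∧ ringKrullDim L = c}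

/-- the flips creating a point of codimension `c + 1` -/
def TII (c : ℕ) (X : ℕ → Set (Subalgebra k K)) : Set ℕ :=
  {i | ∃ F ∈ X (i + 1), F ∉ X i ∧ ringKrullDim F = ((c + 1 : ℕ) : WithBot ℕ∞)}

theorem Setup2.trdeg (_h : Setup2 b c X Y) : Algebra.trdeg k K = n := by
  rw [trdeg_eq_finrank, Module.finrank_eq_card_basis b, Fintype.card_fin]

theorem Setup2.sub_c (h : Setup2 b c X Y) (i : ℕ) : Pt (X (i + 1)) c ⊆ Pt (X i) c := by
  rintro A ⟨hA, hd⟩
  refine ⟨?_, hd⟩
  by_contra hcon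
  have := h.flipped_dim hA hcon hd
  omega

theorem Setup2.fin_c (h : Setup2 b c X Y) (i : ℕ) : FiniteDimensional ℚ (CycAlg (X i) c) := by
  induction i with
  | zero => exact h.h4
  | succ i ih => exact (cycAlg_le (h.cn i) (h.cn (i + 1)) (h.sub_c i) ih).1

theorem Setup2.finite_TI (h : Setup2 b c X Y) : (TI c X).Finite := by
  refine (finite_strict_drops (fun i => Module.finrank ℚ (CycAlg (X i) c)) ?_).subset ?_
  · intro i
    exact (cycAlg_le (h.cn i) (h.cn (i + 1)) (h.sub_c i) (h.fin_c i)).2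
  · rintro i ⟨L, hL, hL', hd⟩
    exact cycAlg_lt (h.cn i) (h.cn (i + 1)) (h.sub_c i) (h.fin_c i) ⟨L, hL, hd⟩ hL'
      (single_not_mem_algEq (h.cn i) (h.hP i) h.trdeg _)

/-- the points of codimension `c` removed at some time -/
def Rem (c : ℕ) (X : ℕ → Set (Subalgebra k K)) : Set (Subalgebra k K) :=
  {L | ringKrullDim L = c ∧ ∃ i, L ∈ X i ∧ L ∉ X (i + 1)}

theorem Setup2.finite_Rem (h : Setup2 b c X Y) : (Rem c X).Finite := by
  have h1 : Rem c X ⊆ ⋃ i ∈ TI c X, {A | A ∈ X i ∧ A ∉ X (i + 1) ∧ ringKrullDim A = c} := by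
    rintro L ⟨hd, i, hL, hL'⟩
    exact Set.mem_biUnion (show i ∈ TI c X from ⟨L, hL, hL', hd⟩) ⟨hL, hL', hd⟩
  refine (Set.Finite.biUnion h.finite_TI fun i _ => ?_).subset h1
  refine finite_removed (h.cn i) (h.cn (i + 1)) fun A hA hA' => ?_
  by_contra hcon
  rw [not_le] at hcon
  exact hA' (h.hper i A hA hcon)

theorem Setup2.finite_TII (h : Setup2 b c X Y) : (TII c X).Finite := by
  classical
  set SN := {E | IsPrimeDiv E ∧ (∃ A ∈ X 0, (c : WithBot ℕ∞) ≤ ringKrullDim A ∧ Dom A E ∧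
    ¬ Algebra.FormallySmooth k A) ∧ disc b (X 0) E < c} with hSN
  let SM : Set (Subalgebra k K) := {E | IsPrimeDiv E ∧ (∃ A ∈ X 0, A ∈ Rem c X ∧ Dom A E ∧
    Algebra.FormallySmooth k A) ∧ disc b (X 0) E < c}
  have hcoord : ∀ A ∈ X 0, Algebra.FormallySmooth k A →
      ∃ (d : ℕ) (x : Fin n → K), IsCoord b A d x := by
    intro A hA hs
    obtain ⟨R, hR, hK, hRA, -⟩ := h.hX.exists_chart hA
    exact exists_coord b hR hK hRA hs
  have hSM : SM.Finite := by
    have hch : ∀ E ∈ SM, ∃ A ∈ X 0, A ∈ Rem c X ∧ Dom A E ∧ Algebra.FormallySmooth k A :=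
      fun E hE => hE.2.1
    choose! f hf1 hf2 hf3 hf4 using hch
    refine Set.Finite.of_injOn (f := f) (t := Rem c X) (fun E hE => hf2 E hE) ?_ h.finite_Rem
    intro E hE E' hE' he
    obtain ⟨d, x, hx⟩ := hcoord (f E) (hf1 E hE) (hf4 E hE)
    have hd : d = c := by
      have h1 := hx.dim
      rw [(hf2 E hE).1] at h1
      exact_mod_cast h1.symm
    subst hd
    exact hx.unique b h.hX (hf1 E hE) hE.1 (hf3 E hE) hE.2.2 hE'.1 (he ▸ hf3 E' hE') hE'.2.2
  have hch : ∀ i ∈ TII c X, ∃ E, IsPrimeDiv E ∧ E ∈ SM ∪ SN ∧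
      disc b (X (i + 1)) E = c ∧ disc b (X i) E < c := by
    rintro i ⟨F, hF, hF', hd⟩
    obtain ⟨E, hE, hFE, ⟨A, hA, hAE, hcA⟩, h1, h2⟩ := h.blow hF hF' hd le_rfl
    have hcc : (((c + 1 : ℕ) : ℚ)) - 1 = c := by push_cast; ring
    rw [hcc] at h1 h2
    have h3 : disc b (X 0) E < c := lt_of_le_of_lt (h.disc_mono hE (i := 0) i (Nat.zero_le _)) h2
    refine ⟨E, hE, ?_, h1, h2⟩
    by_cases hs : Algebra.FormallySmooth k A
    · left
      obtain ⟨d, x, hx⟩ := hcoord A hA hs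
      have h4 := hx.disc_ge_dim b h.hX hA hE hAE
      have h5 : (d : ℚ) < c + 1 := by linarith
      have h6 : d < c + 1 := by exact_mod_cast h5
      have h7 : c ≤ d := by
        rw [hx.dim] at hcA
        exact_mod_cast hcA
      have h8 : d = c := by omega
      subst h8
      refine ⟨hE, ⟨A, hA, ⟨hx.dim, ?_⟩, hAE, hs⟩, h3⟩
      by_contra hcon
      push Not at hcon
      have hall : ∀ j, A ∈ X j := by
        intro j
        induction j with
        | zero => exact hA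
        | succ j ih => exact hcon j ih
      have hAF : A = F := (h.cn (i + 1)).unique (hall (i + 1)) hF hE.1.isVal.isLocalRing hAE hFE
      exact hF' (hAF ▸ hall i)
    · right
      exact ⟨hE, ⟨A, hA, hcA, hAE, hs⟩, h3⟩
  choose! f hf1 hf2 hf3 hf4 using hch
  refine Set.Finite.of_injOn (f := f) (t := SM ∪ SN) (fun i hi => hf2 i hi) ?_ (hSM.union h.h2)
  have key : ∀ i ∈ TII c X, ∀ j ∈ TII c X, i < j → f i ≠ f j := by
    intro i hi j hj hij he
    have h3 := h.disc_mono (hf1 i hi) (i := i + 1) j (by omega)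
    rw [hf3 i hi, he] at h3
    exact absurd (hf4 j hj) (not_lt.2 h3)
  intro i hi j hj he
  rcases lt_trichotomy i j with hlt | heq | hgt
  · exact absurd he (key i hi j hj hlt)
  · exact heq
  · exact absurd he.symm (key j hj i hi hgt)

theorem Setup2.false_of (h : Setup2 b c X Y) (hn : n ≤ 2 * c + 2)
    (h5 : n = 2 * c + 2 → FiniteDimensional ℚ (CycAlg (X 0) (c + 1))) : False := by
  classical
  obtain ⟨i1, hi1⟩ : ∃ i1, ∀ i, i1 ≤ i → i ∉ TI c X ∧ i ∉ TII c X := by
    obtain ⟨M, hM⟩ := (h.finite_TI.union h.finite_TII).bddAbove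
    refine ⟨M + 1, fun i hi => ?_⟩
    constructor
    · intro h1
      have := hM (Or.inl h1)
      omega
    · intro h1
      have := hM (Or.inr h1)
      omega
  have hstep : ∀ i, i1 ≤ i → n = 2 * c + 2 ∧ ∃ A ∈ X i, A ∉ X (i + 1) ∧
      ringKrullDim A = ((c + 1 : ℕ) : WithBot ℕ∞) := by
    intro i hi
    obtain ⟨A, hA, A', hA', hAX, hAX', hdim⟩ :=
      exists_big b (h.cn i) (h.hf i) (h.small i) h.trdeg
    obtain ⟨d, hd⟩ := h.dim_nat hA
    obtain ⟨d', hd'⟩ := h.dim_nat hA'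
    have hdge : c ≤ d := by
      by_contra hcon
      push Not at hcon
      apply hAX
      apply h.hper i A hA
      rw [hd]
      exact_mod_cast hcon
    have hdne : d ≠ c := fun he => (hi1 i hi).1 ⟨A, hA, hAX, by rw [hd, he]⟩
    have hd'ge : c + 1 ≤ d' := h.flipped_dim hA' hAX' hd'
    have hd'ne : d' ≠ c + 1 := fun he => (hi1 i hi).2 ⟨A', hA', hAX', by rw [hd', he]⟩
    rw [hd, hd'] at hdim
    have hsum : d + d' ≤ n + 1 := by exact_mod_cast hdim
    refine ⟨by omega, A, hA, hAX, ?_⟩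
    have h6 : d = c + 1 := by omega
    rw [hd, h6]
  obtain ⟨hn2, -⟩ := hstep i1 le_rfl
  have hfin : ∀ i, FiniteDimensional ℚ (CycAlg (X i) (c + 1)) := by
    intro i
    induction i with
    | zero => exact h5 hn2
    | succ i ih =>
      refine cycAlg_finite (h.cn i) (h.cn (i + 1)) ?_ ih
      refine (finite_removed (h.cn (i + 1)) (h.cn i) (c := c + 1) fun A hA hA' => ?_).subset ?_
      · obtain ⟨d, hd⟩ := h.dim_nat hA
        have h6 := h.flipped_dim hA hA' hd
        rw [hd]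
        exact_mod_cast h6
      · rintro A ⟨⟨hA, hd⟩, hA'⟩
        exact ⟨hA, hA', hd⟩
  have hsub : ∀ i, i1 ≤ i → Pt (X (i + 1)) (c + 1) ⊆ Pt (X i) (c + 1) := by
    rintro i hi A ⟨hA, hd⟩
    refine ⟨?_, hd⟩
    by_contra hcon
    exact (hi1 i hi).2 ⟨A, hA, hcon, hd⟩
  have hdrop : ∀ i, i1 ≤ i → Module.finrank ℚ (CycAlg (X (i + 1)) (c + 1)) <
      Module.finrank ℚ (CycAlg (X i) (c + 1)) := by
    intro i hi
    obtain ⟨-, A, hA, hAX, hd⟩ := hstep i hi
    exact cycAlg_lt (h.cn i) (h.cn (i + 1)) (hsub i hi) (hfin i) ⟨A, hA, hd⟩ hAX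
      (single_not_mem_algEq (h.cn i) (h.hP i) h.trdeg _)
  have hall := finite_strict_drops
    (fun j => Module.finrank ℚ (CycAlg (X (i1 + j)) (c + 1)))
    (fun j => (hdrop (i1 + j) (by omega)).le)
  have huniv : {j | Module.finrank ℚ (CycAlg (X (i1 + (j + 1))) (c + 1)) <
      Module.finrank ℚ (CycAlg (X (i1 + j)) (c + 1))} = Set.univ := by
    ext j
    simp only [Set.mem_ofPred_eq, Set.mem_univ, iff_true]
    exact hdrop (i1 + j) (by omega)
  rw [huniv] at hall
  exact Set.infinite_univ hall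

end Flip28
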