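import Pool.Agent.Flip_h28.DimB

/-! # Sum of dimensions -/

open scoped KaehlerDifferential

namespace Flip28

variable {k K : Type*} [Field k] [Field K] [Algebra k K]

/-- the transcendence degree of a compositum -/
theorem DimC_trdeg.{u, v} {k : Type v} {F1 F2 F : Type u} [Field k] [Field F1] [Field F2]
    [Field F] [Algebra k F1] [Algebra k F2] [Algebra k F] (f1 : F1 →ₐ[k] F) (f2 : F2 →ₐ[k] F)
    {e1 e2 e : ℕ} (h1 : Algebra.trdeg k F1 = e1) (h2 : Algebra.trdeg k F2 = e2)
    (h : Algebra.trdeg k F = e)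
    (hgen : ∀ L : IntermediateField k F, (∀ x, f1 x ∈ L) → (∀ x, f2 x ∈ L) → ∀ z, z ∈ L) :
    e ≤ e1 + e2 := by
  obtain ⟨s1, hs1⟩ := exists_isTranscendenceBasis k F1
  obtain ⟨s2, hs2⟩ := exists_isTranscendenceBasis k F2
  have c1 := hs1.cardinalMk_eq_trdeg
  have c2 := hs2.cardinalMk_eq_trdeg
  rw [h1] at c1
  rw [h2] at c2
  obtain ⟨T, hT⟩ : ∃ T : Set F, T = f1 '' s1 ∪ f2 '' s2 := ⟨_, rfl⟩
  have hmk : Cardinal.mk T ≤ ((e1 + e2 : ℕ) : Cardinal) := by
    rw [hT]
    refine (Cardinal.mk_union_le _ _).trans ?_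
    have a1 := Cardinal.mk_image_le (f := f1) (s := s1)
    have a2 := Cardinal.mk_image_le (f := f2) (s := s2)
    rw [c1] at a1
    rw [c2] at a2
    push_cast
    exact add_le_add a1 a2
  let L : IntermediateField k F :=
    { carrier := {z | IsAlgebraic (Algebra.adjoin k T) z}
      mul_mem' := fun ha hb => IsAlgebraic.mul ha hb
      add_mem' := fun ha hb => IsAlgebraic.add ha hb
      algebraMap_mem' := fun c => isAlgebraic_algebraMap (algebraMap k (Algebra.adjoin k T) c)
      inv_mem' := fun x hx => IsAlgebraic.inv hx }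
  have key : ∀ (F' : Type u) [Field F'] [Algebra k F'] (f : F' →ₐ[k] F) (s : Set F')
      (hs : Algebra.IsAlgebraic (Algebra.adjoin k s) F') (hsub : f '' s ⊆ T) (x : F'),
      IsAlgebraic (Algebra.adjoin k T) (f x) := by
    intro F' _ _ f s hs hsub x
    have hle : ∀ y : Algebra.adjoin k s, f (y : F') ∈ Algebra.adjoin k T := by
      intro y
      have h3 : f (y : F') ∈ (Algebra.adjoin k s).map f := ⟨y, y.2, rfl⟩
      rw [AlgHom.map_adjoin] at h3
      exact Algebra.adjoin_mono hsub h3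
    refine (Algebra.IsAlgebraic.isAlgebraic (R := Algebra.adjoin k s) x).ringHom_of_comp_eq
      ((f.comp (Algebra.adjoin k s).val).codRestrict (Algebra.adjoin k T) hle) f ?_ ?_
    · intro a b hab
      have h4 := congrArg (fun z : Algebra.adjoin k T => (z : F)) hab
      exact Subtype.ext (f.injective h4)
    · ext y
      rfl
  have a1 : ∀ x, f1 x ∈ L := by
    intro x
    have h3 := hs1.isAlgebraic
    rw [Subtype.range_coe] at h3
    exact key F1 f1 s1 h3 (by rw [hT]; exact Set.subset_union_left) x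
  have a2 : ∀ x, f2 x ∈ L := by
    intro x
    have h3 := hs2.isAlgebraic
    rw [Subtype.range_coe] at h3
    exact key F2 f2 s2 h3 (by rw [hT]; exact Set.subset_union_right) x
  have h3 := hgen L a1 a2
  have : Algebra.IsAlgebraic (Algebra.adjoin k T) F := ⟨fun z => h3 z⟩
  have h4 := Algebra.IsAlgebraic.trdeg_le_cardinalMk k T
  rw [h] at h4
  exact_mod_cast h4.trans hmk

/-- the map of residue fields -/
theorem DimC_map {A P : Subalgebra k K} [IsLocalRing A] [IsLocalRing P] (hd : Dom A P) :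
    ∃ f : IsLocalRing.ResidueField A →ₐ[k] IsLocalRing.ResidueField P,
      ∀ x : A, f (IsLocalRing.residue A x) =
        IsLocalRing.residue P (Subalgebra.inclusion hd.1 x) := by
  have : IsLocalHom (Subalgebra.inclusion hd.1).toRingHom := by
    refine ⟨fun a ha => ?_⟩
    obtain ⟨b, hb⟩ := ha.exists_right_inv
    have h1 : (a : K) * (b : K) = 1 := congrArg (fun z : P => (z : K)) hb
    have h2 : (a : K)⁻¹ = b := inv_eq_of_mul_eq_one_right h1
    have h3 : (a : K)⁻¹ ∈ P := by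
      rw [h2]
      exact b.2
    have h4 := hd.2 a a.2 h3
    refine IsUnit.of_mul_eq_one ⟨(a : K)⁻¹, h4⟩ ?_
    ext
    change (a : K) * (a : K)⁻¹ = 1
    rw [h2]
    exact h1
  refine ⟨{ IsLocalRing.ResidueField.map (Subalgebra.inclusion hd.1).toRingHom with
    commutes' := fun c => rfl }, fun x => rfl⟩

/-- the residue field of `P` is generated by those of `A` and `A'` -/
theorem DimC_gen {R R' A A' P : Subalgebra k K} [IsLocalRing A] [IsLocalRing A']
    [IsLocalRing P] (hP : IsLoc (R ⊔ R') P) (hA : R ≤ A) (hA' : R' ≤ A') (hd : Dom A P)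
    (hd' : Dom A' P) (f : IsLocalRing.ResidueField A →ₐ[k] IsLocalRing.ResidueField P)
    (f' : IsLocalRing.ResidueField A' →ₐ[k] IsLocalRing.ResidueField P)
    (hf : ∀ x : A, f (IsLocalRing.residue A x) =
        IsLocalRing.residue P (Subalgebra.inclusion hd.1 x))
    (hf' : ∀ x : A', f' (IsLocalRing.residue A' x) =
        IsLocalRing.residue P (Subalgebra.inclusion hd'.1 x))
    (L : IntermediateField k (IsLocalRing.ResidueField P)) (h1 : ∀ x, f x ∈ L)
    (h2 : ∀ x, f' x ∈ L) (z : IsLocalRing.ResidueField P) : z ∈ L := by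
  let W : Subalgebra k K :=
    { carrier := {x | ∃ hx : x ∈ P, IsLocalRing.residue P ⟨x, hx⟩ ∈ L}
      mul_mem' := by
        rintro a b ⟨ha, ha'⟩ ⟨hb, hb'⟩
        exact ⟨P.mul_mem ha hb, by
          have := L.mul_mem ha' hb'
          rw [← map_mul] at this
          exact this⟩
      add_mem' := by
        rintro a b ⟨ha, ha'⟩ ⟨hb, hb'⟩
        exact ⟨P.add_mem ha hb, by
          have := L.add_mem ha' hb'
          rw [← map_add] at this
          exact this⟩
      algebraMap_mem' := fun c => ⟨P.algebraMap_mem c, L.algebraMap_mem c⟩ }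
  have hRW : R ≤ W := by
    intro x hx
    refine ⟨hd.1 (hA hx), ?_⟩
    have h3 := h1 (IsLocalRing.residue A ⟨x, hA hx⟩)
    rw [hf] at h3
    exact h3
  have hRW' : R' ≤ W := by
    intro x hx
    refine ⟨hd'.1 (hA' hx), ?_⟩
    have h3 := h2 (IsLocalRing.residue A' ⟨x, hA' hx⟩)
    rw [hf'] at h3
    exact h3
  have hW : R ⊔ R' ≤ W := sup_le hRW hRW'
  obtain ⟨⟨x, hx⟩, rfl⟩ := IsLocalRing.residue_surjective z
  obtain ⟨r, hr, s, hs, hsP, hxe⟩ := hP.2.2 x hx
  obtain ⟨hrP, hrL⟩ := hW hr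
  obtain ⟨hsP', hsL⟩ := hW hs
  have h3 : (⟨x, hx⟩ : P) = ⟨r, hrP⟩ * ⟨s⁻¹, hsP⟩ := Subtype.ext hxe
  rw [h3, map_mul]
  refine L.mul_mem hrL ?_
  by_cases hs0 : s = 0
  · have h4 : (⟨s⁻¹, hsP⟩ : P) = 0 := by
      apply Subtype.ext
      change s⁻¹ = 0
      rw [hs0, inv_zero]
    rw [h4, map_zero]
    exact L.zero_mem
  · have h4 : IsLocalRing.residue P ⟨s, hsP'⟩ * IsLocalRing.residue P ⟨s⁻¹, hsP⟩ = 1 := by
      rw [← map_mul, ← map_one (IsLocalRing.residue P)]
      congr 1
      apply Subtype.ext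
      exact mul_inv_cancel₀ hs0
    rw [← inv_eq_of_mul_eq_one_right h4]
    exact L.inv_mem hsL

/-- If `P` is the localization at a prime of height one of the algebra generated by `R` and `R'`
and dominates `A`, `A'`, localizations of `R`, `R'`, then
`trdeg κ(A) + trdeg κ(A') ≥ trdeg κ(P) = n - 1`, i.e. `dim A + dim A' ≤ n + 1`: the field `κ(P)`
is generated by `κ(A)` and `κ(A')`. -/
theorem dim_add_dim_le {R R' A A' P : Subalgebra k K} (hR : R.FG) (hR' : R'.FG)
    (hK : IsFractionRing R K) (hK' : IsFractionRing R' K) (hP : IsLoc (R ⊔ R') P)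
    (h1 : ringKrullDim P = 1) (hA : IsLoc R A) (hA' : IsLoc R' A') (hd : Dom A P)
    (hd' : Dom A' P) {n : ℕ} (hn : Algebra.trdeg k K = n) :
    ringKrullDim A + ringKrullDim A' ≤ (n : WithBot ℕ∞) + 1 := by
  have i1 : IsLocalRing A := hA.2.1
  have i2 : IsLocalRing A' := hA'.2.1
  have i3 : IsLocalRing P := hP.2.1
  obtain ⟨d, e, h2, h3, h4⟩ := dim_formula hR hK hA
  obtain ⟨d', e', h2', h3', h4'⟩ := dim_formula hR' hK' hA'
  obtain ⟨dP, eP, h5, h6, h7⟩ := dim_formula (hR.sup hR') (isFractionRing_of_le hK le_sup_left) hP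
  obtain ⟨f, hf⟩ := DimC_map hd
  obtain ⟨f', hf'⟩ := DimC_map hd'
  have h8 := DimC_trdeg f f' h3 h3' h6
    (fun L a b z => DimC_gen hP hA.1 hA'.1 hd hd' f f' hf hf' L a b z)
  rw [hn] at h4 h4' h7
  have g1 : n = d + e := by exact_mod_cast h4
  have g2 : n = d' + e' := by exact_mod_cast h4'
  have g3 : n = dP + eP := by exact_mod_cast h7
  rw [h1] at h5
  have g4 : 1 = dP := by exact_mod_cast h5
  rw [h2, h2']
  have g5 : d + d' ≤ n + 1 := by omega
  exact_mod_cast g5

end Flip28
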