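import Pool.Agent.Flip_h28.DimA
import Pool.Agent.Flip_h28.DimB
import Pool.Agent.Flip_h28.DimC
import Pool.Agent.Flip_h28.DimD
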