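import Pool.Agent.Flip_h28.Disc
import Pool.Agent.Flip_h28.Dim

/-! # Finiteness of the number of components of the base locus -/

open scoped KaehlerDifferential

namespace Flip28

variable {k K : Type*} [Field k] [Field K] [Algebra k K] {n : ℕ}
  (b : Module.Basis (Fin n) K Ω[K⁄k]) {X : Set (Subalgebra k K)}

/-- The points of `X` where none of the sections `s ω^m`, `s ∈ S`, generates `O_X(m K_X)`. -/
def Bs (X : Set (Subalgebra k K)) (m : ℤ) (S : Set K) : Set (Subalgebra k K) :=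
  {A | A ∈ X ∧ ∀ s ∈ S, ¬ IsGen b X m A s}

theorem Finite_aux_denom {R B : Subalgebra k K} (hB : IsLoc R B) (s : K) {T : Set K}
    (hT : T.Finite) : (∀ t ∈ T, t * s⁻¹ ∈ B) →
    ∃ d ∈ R, d ≠ 0 ∧ d⁻¹ ∈ B ∧ ∀ t ∈ T, d * (t * s⁻¹) ∈ R := by
  refine Set.Finite.induction_on _ hT ?_ ?_
  · intro _
    exact ⟨1, R.one_mem, one_ne_zero, by rw [inv_one]; exact B.one_mem, fun t ht => absurd ht
      (Set.notMem_empty t)⟩
  · intro a T _ _ ih h
    obtain ⟨d, hd, hd0, hdB, hdT⟩ := ih (fun t ht => h t (Set.mem_insert_of_mem _ ht))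
    obtain ⟨r, hr, c, hc, hcB, e⟩ := hB.2.2 _ (h a (Set.mem_insert _ _))
    by_cases hc0 : c = 0
    · refine ⟨d, hd, hd0, hdB, fun t ht => ?_⟩
      rcases Set.mem_insert_iff.1 ht with rfl | ht
      · rw [e, hc0, inv_zero, mul_zero, mul_zero]
        exact R.zero_mem
      · exact hdT t ht
    · refine ⟨d * c, R.mul_mem hd hc, mul_ne_zero hd0 hc0, ?_, fun t ht => ?_⟩
      · rw [mul_inv]
        exact B.mul_mem hdB hcB
      · rcases Set.mem_insert_iff.1 ht with rfl | ht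
        · have e2 : d * c * (t * s⁻¹) = d * r := by
            rw [e]
            field_simp
          rw [e2]
          exact R.mul_mem hd hr
        · have e2 : d * c * (t * s⁻¹) = c * (d * (t * s⁻¹)) := by ring
          rw [e2]
          exact R.mul_mem hc (hdT t ht)

/-- the prime of `R` belonging to the localization `A`, as a set -/
def Finite_aux_pr (R A : Subalgebra k K) : Set R := {x : R | x = 0 ∨ (x : K)⁻¹ ∉ A}

theorem Finite_aux_le {R A B : Subalgebra k K} (hA : IsLoc R A) (hB : IsLoc R B)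
    (h : Finite_aux_pr R B ⊆ Finite_aux_pr R A) : A ≤ B := by
  intro x hx
  obtain ⟨r, hr, s, hs, hsA, rfl⟩ := hA.2.2 x hx
  by_cases hs0 : s = 0
  · rw [hs0, inv_zero, mul_zero]
    exact B.zero_mem
  refine B.mul_mem (hB.1 hr) ?_
  by_contra hsB
  have h1 : (⟨s, hs⟩ : R) ∈ Finite_aux_pr R B := Or.inr hsB
  rcases h h1 with h2 | h2
  · exact hs0 (congrArg Subtype.val h2)
  · exact h2 hsA

theorem Finite_aux_inj (R : Subalgebra k K) :
    Set.InjOn (Finite_aux_pr R) {A | IsLoc R A} := by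
  intro A hA B hB h
  exact le_antisymm (Finite_aux_le hA hB h.ge) (Finite_aux_le hB hA h.le)

theorem Finite_aux_chart {R : Subalgebra k K} (hR : R.FG) (hK : IsFractionRing R K)
    {S : Set K} (hS : S.Finite) (c : ℕ)
    (hc : ∀ A, IsLoc R A → (∀ s ∈ S, s ≠ 0 → ∃ t ∈ S, t * s⁻¹ ∉ A) →
      (c : WithBot ℕ∞) ≤ ringKrullDim A) :
    {A | IsLoc R A ∧ (∀ s ∈ S, s ≠ 0 → ∃ t ∈ S, t * s⁻¹ ∉ A) ∧ ringKrullDim A = c}.Finite := by
  haveI : IsNoetherianRing R := by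
    haveI : Algebra.FiniteType k R := R.fg_iff_finiteType.1 hR
    exact Algebra.FiniteType.isNoetherianRing k R
  set J : Ideal R := Ideal.span {r : R | ∃ s ∈ S, s ≠ 0 ∧ ∀ t ∈ S, (r : K) * (t * s⁻¹) ∈ R}
    with hJ
  have hfin : ((fun p : Ideal R => (p : Set R)) '' J.minimalPrimes).Finite :=
    (J.finite_minimalPrimes_of_isNoetherianRing).image _
  refine Set.Finite.of_finite_image (f := Finite_aux_pr R) (hfin.subset ?_)
    ((Finite_aux_inj R).mono (fun A hA => hA.1))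
  rintro _ ⟨A, ⟨hA, hcond, hdim⟩, rfl⟩
  obtain ⟨p, hp, hpm, _⟩ := hA.isLocalization
  have hpA : Finite_aux_pr R A = (p : Set R) := by
    ext x
    exact (hpm x).symm
  refine ⟨p, ?_, hpA.symm⟩
  have hJp : J ≤ p := by
    rw [hJ, Ideal.span_le]
    rintro r ⟨s, hs, hs0, hr⟩
    by_contra hrp
    have hrp' : ¬ (r = 0 ∨ (r : K)⁻¹ ∉ A) := fun h => hrp ((hpm r).2 h)
    push Not at hrp'
    obtain ⟨t, ht, htA⟩ := hcond s hs hs0
    apply htA
    have hr0 : (r : K) ≠ 0 := fun h => hrp'.1 (Subtype.ext h)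
    have e : t * s⁻¹ = ((r : K) * (t * s⁻¹)) * (r : K)⁻¹ := by
      field_simp
    rw [e]
    exact A.mul_mem (hA.1 (hr t ht)) hrp'.2
  refine ⟨⟨hp, hJp⟩, ?_⟩
  rintro q ⟨hq, hJq⟩ hqp
  obtain ⟨B, hB, hB1, hB2⟩ := exists_isLoc_of_prime R q
  have hqB : Finite_aux_pr R B = (q : Set R) := by
    ext x
    constructor
    · rintro (h | h)
      · rw [h]
        exact q.zero_mem
      · by_contra hx
        exact h (hB2 x hx)
    · intro hx
      by_cases hx0 : x = 0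
      · exact Or.inl hx0
      · right
        intro hxB
        exact hB1 x hxB hx0 hx
  have hAB : A ≤ B := Finite_aux_le hA hB (by rw [hqB, hpA]; exact hqp)
  have hBcond : ∀ s ∈ S, s ≠ 0 → ∃ t ∈ S, t * s⁻¹ ∉ B := by
    intro s hs hs0
    by_contra hcon
    push Not at hcon
    obtain ⟨d, hd, hd0, hdB, hdT⟩ := Finite_aux_denom hB s hS hcon
    have h1 : (⟨d, hd⟩ : R) ∈ J := Ideal.subset_span ⟨s, hs, hs0, hdT⟩
    exact hB1 ⟨d, hd⟩ hdB (fun h => hd0 (congrArg Subtype.val h)) (hJq h1)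
  by_cases hEq : A = B
  · have : (p : Set R) = (q : Set R) := by rw [← hpA, ← hqB, hEq]
    exact (SetLike.coe_injective this).le
  · exfalso
    have h1 := dim_lt_of_lt hR hK hA hB (lt_of_le_of_ne hAB hEq)
    have h2 := hc B hB hBcond
    rw [hdim] at h1
    exact absurd h2 (not_le_of_gt h1)

/-- The points of indeterminacy of the rational map given by the finite set `S`.  In the chart
`R` they are the primes containing the ideal `J = ∑_s {r | r t/s ∈ R for all t ∈ S}`; those of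
dimension `c` are minimal over `J`, so they are finite in number. -/
theorem finite_indeterminacy (hX : IsCompleteNormal X) {S : Set K} (hS : S.Finite) (c : ℕ)
    (hc : ∀ A ∈ X, (∀ s ∈ S, s ≠ 0 → ∃ t ∈ S, t * s⁻¹ ∉ A) → (c : WithBot ℕ∞) ≤ ringKrullDim A) :
    {A | A ∈ X ∧ (∀ s ∈ S, s ≠ 0 → ∃ t ∈ S, t * s⁻¹ ∉ A) ∧ ringKrullDim A = c}.Finite := by
  obtain ⟨C, hC, hC2, hX2⟩ := hX.charts
  have h1 : (⋃ R ∈ C, {A | IsLoc R A ∧ (∀ s ∈ S, s ≠ 0 → ∃ t ∈ S, t * s⁻¹ ∉ A) ∧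
      ringKrullDim A = c}).Finite := by
    refine hC.biUnion fun R hR => Finite_aux_chart (hC2 R hR).1 (hC2 R hR).2 hS c ?_
    intro A hA hcond
    exact hc A ((hX2 A).2 ⟨R, hR, hA⟩) hcond
  refine h1.subset ?_
  rintro A ⟨hA, hcond, hdim⟩
  obtain ⟨R, hR, hRA⟩ := (hX2 A).1 hA
  exact Set.mem_biUnion hR ⟨hRA, hcond, hdim⟩

/-- If there is no fixed component, the base points are the points of indeterminacy. -/
theorem mem_Bs_iff (hX : IsCompleteNormal X) {m : ℤ} {S : Set K} (hsec : S ⊆ Sec b X m ⊥)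
    (hfix : ∀ P ∈ X, IsDVR P → ∃ s ∈ S, IsGen b X m P s) {A : Subalgebra k K} (hA : A ∈ X) :
    A ∈ Bs b X m S ↔ ∀ s ∈ S, s ≠ 0 → ∃ t ∈ S, t * s⁻¹ ∉ A := by
  constructor
  · rintro ⟨_, hBs⟩ s hs hs0
    by_contra hcon
    push Not at hcon
    refine hBs s hs ⟨hs0, fun P hP hd hAP => ?_⟩
    obtain ⟨t, ht, htg⟩ := hfix P hP hd
    have h1 : kord b m P t = 0 := htg.2 P hP hd le_rfl
    have h2 : 0 ≤ kord b m P s := hsec hs hs0 P hP hd bot_le
    have h3 : 0 ≤ ord P (t * s⁻¹) :=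
      (mem_iff hd (mul_ne_zero htg.1 (inv_ne_zero hs0))).1 (hAP (hcon t ht))
    rw [ord_mul hd htg.1 (inv_ne_zero hs0), ord_inv hd] at h3
    unfold kord at h1 h2 ⊢
    omega
  · intro h
    refine ⟨hA, fun s hs hg => ?_⟩
    obtain ⟨t, ht, htA⟩ := h s hs hg.1
    exact htA (Sec.mul_inv_mem b hX hA bot_le (hsec ht) hg)

theorem finite_Bs (hX : IsCompleteNormal X) {m : ℤ} {S : Set K} (hS : S.Finite)
    (hsec : S ⊆ Sec b X m ⊥) {c : ℕ} (hc : 2 ≤ c)
    (hBs : ∀ A ∈ Bs b X m S, (c : WithBot ℕ∞) ≤ ringKrullDim A) :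
    {A | A ∈ Bs b X m S ∧ ringKrullDim A = c}.Finite := by
  have hfix : ∀ P ∈ X, IsDVR P → ∃ s ∈ S, IsGen b X m P s := by
    intro P hP hd
    by_contra hcon
    push Not at hcon
    have h1 := hBs P ⟨hP, hcon⟩
    rw [(hX.isDVR_iff hP).1 hd] at h1
    have h2 : ((c : ℕ∞) : WithBot ℕ∞) ≤ ((1 : ℕ∞) : WithBot ℕ∞) := by simpa using h1
    have h3 : (c : ℕ∞) ≤ 1 := WithBot.coe_le_coe.1 h2
    have h4 : c ≤ 1 := by exact_mod_cast h3
    omega
  refine (finite_indeterminacy hX hS c ?_).subset ?_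
  · intro A hA hcond
    exact hBs A ((mem_Bs_iff b hX hsec hfix hA).2 hcond)
  · rintro A ⟨hA, hdim⟩
    exact ⟨hA.1, (mem_Bs_iff b hX hsec hfix hA.1).1 hA, hdim⟩

end Flip28
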