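import Pool.Agent.Flip_h28.Defs

/-! # Projective varieties and cycles modulo algebraic equivalence, in Zariski's language -/

open scoped KaehlerDifferential

universe u

namespace Flip28

/-- The normal variety `X` is projective: its local rings are those of the closed image of the
generic point in the projective space defined by the finite dimensional space `V ⊆ K`, i.e. the
localizations of the algebras `k[V / u]`, `u ∈ V`, `u ≠ 0`. -/
def IsProj {k K : Type*} [Field k] [Field K] [Algebra k K] (X : Set (Subalgebra k K)) : Prop :=
  ∃ V : Submodule k K, V.FG ∧ ∀ A, A ∈ X ↔ ∃ u ∈ V, u ≠ 0 ∧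
    IsLoc (Algebra.adjoin k {x | ∃ v ∈ V, x = v * u⁻¹}) A

/-- The points of codimension `p`. -/
def Pt {k K : Type*} [Field k] [Field K] [Algebra k K] (X : Set (Subalgebra k K)) (p : ℕ) :
    Set (Subalgebra k K) := {A | A ∈ X ∧ ringKrullDim A = p}

open Classical in
/-- For a local ring `v` of a field `F`: the degree of the residue field of `v` over the field
generated by the residues of the elements of `S ∩ v` (zero if it is infinite). -/
noncomputable def resDeg {k F : Type*} [Field k] [Field F] [Algebra k F] (v : Subalgebra k F)
    (S : Set F) : ℕ :=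
  if h : IsLocalRing v then
    letI := h
    Module.finrank (IntermediateField.adjoin k
      {y : IsLocalRing.ResidueField v | ∃ a : v, (a : F) ∈ S ∧ y = IsLocalRing.residue v a})
      (IsLocalRing.ResidueField v)
  else 0

open Classical in
/-- The ramification index of `v` over the discrete valuation ring `t`: the order along `v` of a
uniformizer of `t`. -/
noncomputable def ram {k T F : Type*} [Field k] [Field T] [Field F] [Algebra k T] [Algebra k F]
    [Algebra T F] (t : Subalgebra k T) (v : Subalgebra k F) : ℤ :=
  if h : ∃ τ, IsUnif t τ then ord v (algebraMap T F h.choose) else 0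

section

variable {k K : Type u} [Field k] [Field K] [Algebra k K]

/-- Let `F` be the function field of a normal projective variety `W` with morphisms
`W → X` and `W → C`, `C` a curve with function field `T`, where the generic point of `W` is
mapped to the point `w` of `X` (`π : w → F` induces an embedding of the residue field).  For a
point `t` of `C` and a point `Z` of `X`: the set of the prime divisors `v` of `F/k` lying over `t`
whose centre on `X` is `Z`. -/
def FibDiv {w : Subalgebra k K} {T F : Type u} [Field T] [Field F] [Algebra k T] [Algebra k F]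
    [Algebra T F] (π : w →ₐ[k] F) (t : Subalgebra k T) (Z : Subalgebra k K) :
    Set (Subalgebra k F) :=
  {v | IsPrimeDiv v ∧ (∀ x : T, x ∈ t ↔ algebraMap T F x ∈ v) ∧
    ∃ h : Z ≤ w, ∀ a : Z, π (Subalgebra.inclusion h a) ∈ v ∧
      (π (Subalgebra.inclusion h a) ≠ 0 → (π (Subalgebra.inclusion h a))⁻¹ ∈ v →
        (a : K)⁻¹ ∈ Z)}

/-- The coefficient of `Z` in the direct image on `X` of the fibre of `W → C` over `t`:
the sum of the numbers `e(v/t) [κ(v) : κ(Z)]`. -/
noncomputable def fibCoeff {w : Subalgebra k K} {T F : Type u} [Field T] [Field F] [Algebra k T]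
    [Algebra k F] [Algebra T F] (π : w →ₐ[k] F) (t : Subalgebra k T) (Z : Subalgebra k K) : ℚ :=
  ∑ᶠ v ∈ FibDiv π t Z, (ram t v : ℚ) *
    resDeg v {x : F | ∃ a : w, (a : K) ∈ Z ∧ x = π a}

/-- The conditions on the family `W → X`, `W → C`: `w` is a point of `X`, `π` is zero on the
maximal ideal of `w`, `F` and `T` are finitely generated over `k`, `C` is a curve and the
dimension of `W` is `n - p + 1`. -/
structure IsFam (X : Set (Subalgebra k K)) (p : ℕ) {w : Subalgebra k K} (T : Type u) {F : Type u}
    [Field T] [Field F] [Algebra k T] [Algebra k F] [Algebra T F] (π : w →ₐ[k] F) : Prop where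
  mem : w ∈ X
  ker : ∀ a : w, (a : K)⁻¹ ∉ w → π a = 0
  fgF : Algebra.EssFiniteType k F
  fgT : Algebra.EssFiniteType k T
  tower : IsScalarTower k T F
  trT : Algebra.trdeg k T = 1
  trF : Algebra.trdeg k F + p = Algebra.trdeg k K + 1

/-- The cycles of codimension `p` on `X` with rational coefficients which are algebraically
equivalent to zero: the span of the differences of the direct images of the fibres over two
points of the same degree of the curve `C`, for all families. -/
noncomputable def AlgEq (X : Set (Subalgebra k K)) (p : ℕ) : Submodule ℚ (Pt X p →₀ ℚ) :=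
  Submodule.span ℚ {z | ∃ (w : Subalgebra k K) (T F : Type u) (_ : Field T) (_ : Field F)
    (_ : Algebra k T) (_ : Algebra k F) (_ : Algebra T F) (π : w →ₐ[k] F)
    (t₁ t₂ : Subalgebra k T), IsFam X p T π ∧ IsDVR t₁ ∧ IsDVR t₂ ∧
    resDeg t₁ ∅ = resDeg t₂ ∅ ∧
    ∀ Z : Pt X p, z Z = fibCoeff π t₁ (Z : Subalgebra k K) - fibCoeff π t₂ (Z : Subalgebra k K)}

/-- The `ℚ`-vector space of cycles of codimension `p` modulo algebraic equivalence. -/
abbrev CycAlg (X : Set (Subalgebra k K)) (p : ℕ) : Type u := (Pt X p →₀ ℚ) ⧸ AlgEq X p

end

end Flip28
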