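import Pool.Agent.Flip_h28.CoordB

/-! # Quasi-regularity of coordinates -/

open scoped KaehlerDifferential

namespace Flip28

variable {k K : Type*} [Field k] [Field K] [Algebra k K] {n : ℕ}
  (b : Module.Basis (Fin n) K Ω[K⁄k]) {X : Set (Subalgebra k K)}

/-- `F` is a polynomial over `A` in the variables `i < d` -/
def PolyOver (A : Subalgebra k K) (d : ℕ) (F : MvPolynomial (Fin n) K) : Prop :=
  (∀ s, F.coeff s ∈ A) ∧ ∀ i ∈ F.vars, (i : ℕ) < d

/-- `mpow A d x r` is the `r`-th power of the ideal of `A` generated by `x₀, ..., x_{d-1}` -/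
def mpow (A : Subalgebra k K) (d : ℕ) (x : Fin n → K) (r : ℕ) : Set K :=
  {f | ∃ F : MvPolynomial (Fin n) K, PolyOver A d F ∧ (∀ s ∈ F.support, r ≤ s.degree) ∧
    f = MvPolynomial.aeval x F}

/-- apply a derivation to the coefficients -/
noncomputable def BlowA_cD (D : Derivation k K K) (F : MvPolynomial (Fin n) K) :
    MvPolynomial (Fin n) K :=
  ∑ s ∈ F.support, MvPolynomial.monomial s (D (F.coeff s))

theorem BlowA_coeff_cD (D : Derivation k K K) (F : MvPolynomial (Fin n) K) (m : Fin n →₀ ℕ) :
    (BlowA_cD D F).coeff m = D (F.coeff m) := by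
  classical
  unfold BlowA_cD
  rw [MvPolynomial.coeff_sum]
  simp only [MvPolynomial.coeff_monomial]
  rw [Finset.sum_ite_eq']
  by_cases h : m ∈ F.support
  · rw [if_pos h]
  · rw [if_neg h, MvPolynomial.notMem_support_iff.1 h, map_zero]

theorem BlowA_deriv (D : Derivation k K K) (x : Fin n → K) (F : MvPolynomial (Fin n) K) :
    D (MvPolynomial.aeval x F) = MvPolynomial.aeval x (BlowA_cD D F) +
      ∑ j, MvPolynomial.aeval x (MvPolynomial.pderiv j F) * D (x j) := by
  classical
  induction F using MvPolynomial.induction_on with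
  | C a =>
    have h : BlowA_cD D (MvPolynomial.C a : MvPolynomial (Fin n) K) =
        MvPolynomial.C (D a) := by
      ext m
      rw [BlowA_coeff_cD, MvPolynomial.coeff_C, MvPolynomial.coeff_C]
      split_ifs with h
      · rfl
      · exact map_zero D
    rw [h]
    simp
  | add p q hp hq =>
    have h : BlowA_cD D (p + q) = BlowA_cD D p + BlowA_cD D q := by
      ext m
      simp only [MvPolynomial.coeff_add, BlowA_coeff_cD, map_add]
    rw [h, map_add, map_add, map_add, hp, hq]
    simp only [map_add, add_mul, Finset.sum_add_distrib]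
    ring
  | mul_X p i hp =>
    have h : BlowA_cD D (p * MvPolynomial.X i) = BlowA_cD D p * MvPolynomial.X i := by
      ext m
      rw [BlowA_coeff_cD, MvPolynomial.coeff_mul_X', MvPolynomial.coeff_mul_X']
      split_ifs with h
      · rw [BlowA_coeff_cD]
      · exact map_zero D
    rw [h, map_mul (MvPolynomial.aeval x), map_mul (MvPolynomial.aeval x), MvPolynomial.aeval_X,
      Derivation.leibniz, hp]
    have h2 : ∀ j, MvPolynomial.aeval x (MvPolynomial.pderiv j (p * MvPolynomial.X i)) * D (x j)
        = MvPolynomial.aeval x (MvPolynomial.pderiv j p) * D (x j) * x i +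
          (if i = j then MvPolynomial.aeval x p * D (x i) else 0) := by
      intro j
      rw [MvPolynomial.pderiv_mul, map_add, map_mul, map_mul, MvPolynomial.aeval_X,
        MvPolynomial.pderiv_X]
      by_cases hij : i = j
      · subst hij
        simp
        ring
      · rw [Pi.single_eq_of_ne hij]
        simp [hij]
        ring
    simp_rw [h2]
    rw [Finset.sum_add_distrib, Finset.sum_ite_eq, if_pos (Finset.mem_univ _),
      ← Finset.sum_mul]
    simp only [smul_eq_mul]
    ring

theorem BlowA_polyOver_iff {A : Subalgebra k K} {d : ℕ} {F : MvPolynomial (Fin n) K} :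
    PolyOver A d F ↔ (∀ s, F.coeff s ∈ A) ∧ ∀ s ∈ F.support, ∀ i ∈ s.support, (i : ℕ) < d := by
  unfold PolyOver
  refine and_congr_right fun _ => ⟨fun h s hs i hi => h i ?_, fun h i hi => ?_⟩
  · exact (MvPolynomial.mem_vars_iff_mem_support i).2 ⟨s, hs, hi⟩
  · obtain ⟨s, hs, hi'⟩ := (MvPolynomial.mem_vars_iff_mem_support i).1 hi
    exact h s hs i hi'

theorem BlowA_cD_good {A : Subalgebra k K} {d r : ℕ} {F : MvPolynomial (Fin n) K}
    (hF : PolyOver A d F) (hr : ∀ s ∈ F.support, r ≤ s.degree) (D : Derivation k K K)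
    (hD : ∀ f ∈ A, D f ∈ A) : PolyOver A d (BlowA_cD D F) ∧
      ∀ s ∈ (BlowA_cD D F).support, r ≤ s.degree := by
  rw [BlowA_polyOver_iff] at hF ⊢
  have hsub : ∀ s ∈ (BlowA_cD D F).support, s ∈ F.support := by
    intro s hs
    rw [MvPolynomial.mem_support_iff, BlowA_coeff_cD] at hs
    rw [MvPolynomial.mem_support_iff]
    intro h
    exact hs (by rw [h, map_zero])
  refine ⟨⟨fun s => ?_, fun s hs => hF.2 s (hsub s hs)⟩, fun s hs => hr s (hsub s hs)⟩
  rw [BlowA_coeff_cD]
  exact hD _ (hF.1 s)

theorem BlowA_pderiv_support {F : MvPolynomial (Fin n) K} {i : Fin n} {s : Fin n →₀ ℕ}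
    (hs : s ∈ (MvPolynomial.pderiv i F).support) : s + Finsupp.single i 1 ∈ F.support := by
  rw [MvPolynomial.mem_support_iff, MvPolynomial.coeff_pderiv] at hs
  rw [MvPolynomial.mem_support_iff]
  intro h
  exact hs (by rw [h]; simp)

theorem BlowA_pderiv_good {A : Subalgebra k K} {d r : ℕ} {F : MvPolynomial (Fin n) K}
    (hF : PolyOver A d F) (hr : ∀ s ∈ F.support, r + 1 ≤ s.degree) (i : Fin n) :
    PolyOver A d (MvPolynomial.pderiv i F) ∧
      ∀ s ∈ (MvPolynomial.pderiv i F).support, r ≤ s.degree := by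
  rw [BlowA_polyOver_iff] at hF ⊢
  refine ⟨⟨fun s => ?_, fun s hs j hj => ?_⟩, fun s hs => ?_⟩
  · rw [MvPolynomial.coeff_pderiv]
    refine A.mul_mem (hF.1 _) ?_
    refine A.add_mem ?_ A.one_mem
    exact natCast_mem A _
  · refine hF.2 _ (BlowA_pderiv_support hs) j ?_
    rw [Finsupp.mem_support_iff] at hj ⊢
    rw [Finsupp.add_apply]
    omega
  · have := hr _ (BlowA_pderiv_support hs)
    rw [map_add, Finsupp.degree_single] at this
    omega

theorem BlowA_nonunit {A : Subalgebra k K} {d : ℕ} {x : Fin n → K}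
    (hmem : ∀ i, x i ∈ A) (hnon : ∀ i : Fin n, (i : ℕ) < d → (x i)⁻¹ ∉ A)
    (hloc : IsLocalRing A) {f : K} (hf : f ∈ mpow A d x 1) (h0 : f ≠ 0) : f⁻¹ ∉ A := by
  classical
  obtain ⟨F, hF, hr, rfl⟩ := hf
  rw [BlowA_polyOver_iff] at hF
  have hx : ∀ i : Fin n, (i : ℕ) < d → (⟨x i, hmem i⟩ : A) ∈ IsLocalRing.maximalIdeal A := by
    intro i hi
    rw [IsLocalRing.mem_maximalIdeal, mem_nonunits_iff]
    intro hu
    obtain ⟨y, hy⟩ := hu.exists_right_inv
    have hy' : x i * (y : K) = 1 := by
      have := congrArg (fun z : A => (z : K)) hy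
      simpa using this
    apply hnon i hi
    rw [inv_eq_of_mul_eq_one_right hy']
    exact y.2
  have key : ∃ g : A, g ∈ IsLocalRing.maximalIdeal A ∧ (g : K) = MvPolynomial.aeval x F := by
    rw [MvPolynomial.aeval_def, MvPolynomial.eval₂_eq]
    refine Finset.sum_induction _ (fun z : K => ∃ g : A, g ∈ IsLocalRing.maximalIdeal A ∧
      (g : K) = z) ?_ ⟨0, Ideal.zero_mem _, rfl⟩ ?_
    · rintro a c ⟨g, hg, rfl⟩ ⟨g', hg', rfl⟩
      exact ⟨g + g', Ideal.add_mem _ hg hg', rfl⟩
    · intro s hs
      have hdeg := hr s hs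
      obtain ⟨i, hi⟩ : s.support.Nonempty := by
        rw [Finset.nonempty_iff_ne_empty]
        intro h
        rw [Finsupp.support_eq_empty.1 h] at hdeg
        simp at hdeg
      have hid := hF.2 s hs i hi
      refine ⟨(⟨F.coeff s, hF.1 s⟩ : A) * ((⟨x i, hmem i⟩ : A) *
        ((⟨x i, hmem i⟩ : A) ^ (s i - 1) * ∏ j ∈ s.support.erase i, (⟨x j, hmem j⟩ : A) ^ s j)),
        Ideal.mul_mem_left _ _ (Ideal.mul_mem_right _ _ (hx i hid)), ?_⟩
      have hsi : s i - 1 + 1 = s i := by
        have := Finsupp.mem_support_iff.1 hi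
        omega
      rw [← Finset.mul_prod_erase s.support _ hi]
      conv_rhs => rw [← hsi, pow_succ]
      simp only [Subalgebra.coe_mul, Subalgebra.coe_pow, Algebra.algebraMap_self,
        RingHom.id_apply]
      have : ((∏ j ∈ s.support.erase i, (⟨x j, hmem j⟩ : A) ^ s j : A) : K) =
          ∏ j ∈ s.support.erase i, x j ^ s j := by
        rw [← Subalgebra.coe_val, map_prod]
        simp
      rw [this]
      ring
  obtain ⟨g, hg, hgf⟩ := key
  rw [← hgf] at h0 ⊢
  intro h
  rw [IsLocalRing.mem_maximalIdeal, mem_nonunits_iff] at hg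
  apply hg
  refine IsUnit.of_mul_eq_one (⟨(g : K)⁻¹, h⟩ : A) ?_
  apply Subtype.ext
  simp [mul_inv_cancel₀ h0]

theorem BlowA_main [CharZero k] {A : Subalgebra k K} {d : ℕ} {x : Fin n → K}
    (hmem : ∀ i, x i ∈ A) (hnon : ∀ i : Fin n, (i : ℕ) < d → (x i)⁻¹ ∉ A)
    (hloc : IsLocalRing A) (D : Fin n → Derivation k K K) (hD : ∀ i, ∀ f ∈ A, D i f ∈ A)
    (hDx : ∀ i j, D i (x j) = if i = j then 1 else 0) (r : ℕ) :
    ∀ F : MvPolynomial (Fin n) K,
    PolyOver A d F → F.IsHomogeneous r → MvPolynomial.aeval x F ∈ mpow A d x (r + 1) →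
    ∀ s ∈ F.support, (F.coeff s)⁻¹ ∉ A := by
  classical
  have hderiv : ∀ i (F : MvPolynomial (Fin n) K), D i (MvPolynomial.aeval x F) =
      MvPolynomial.aeval x (BlowA_cD (D i) F) +
        MvPolynomial.aeval x (MvPolynomial.pderiv i F) := by
    intro i F
    rw [BlowA_deriv]
    congr 1
    simp [hDx]
  induction r with
  | zero =>
    intro F hF hh hm s hs
    have hs0 : s = 0 := by
      have h' : s.degree = 0 := by
        rw [Finsupp.degree_eq_weight_one]
        exact hh (MvPolynomial.mem_support_iff.1 hs)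
      exact (Finsupp.degree_eq_zero_iff s).1 h'
    have hFC : F = MvPolynomial.C (F.coeff 0) := by
      have h1 : F.totalDegree = 0 := by
        have := hh.totalDegree_le
        omega
      exact MvPolynomial.totalDegree_eq_zero_iff_eq_C.1 h1
    have hev : MvPolynomial.aeval x F = F.coeff 0 := by
      rw [hFC]
      simp
    rw [hev] at hm
    subst hs0
    exact BlowA_nonunit hmem hnon hloc hm (MvPolynomial.mem_support_iff.1 hs)
  | succ r ih =>
    intro F hF hh hm s hs
    have hdegF : ∀ s ∈ F.support, s.degree = r + 1 := by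
      intro s hs
      rw [Finsupp.degree_eq_weight_one]
      exact hh (MvPolynomial.mem_support_iff.1 hs)
    obtain ⟨i, hi⟩ : s.support.Nonempty := by
      rw [Finset.nonempty_iff_ne_empty]
      intro h
      have := hdegF s hs
      rw [Finsupp.support_eq_empty.1 h] at this
      simp at this
    have hsi : s i ≠ 0 := Finsupp.mem_support_iff.1 hi
    have h1 : MvPolynomial.aeval x (MvPolynomial.pderiv i F) ∈ mpow A d x (r + 1) := by
      obtain ⟨G, hG, hGr, e⟩ := hm
      have e2 := hderiv i F
      rw [e, hderiv i G] at e2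
      have hG1 := BlowA_cD_good hG hGr (D i) (hD i)
      have hG2 := BlowA_pderiv_good hG hGr i
      have hF1 := BlowA_cD_good hF (fun s hs => (hdegF s hs).ge) (D i) (hD i)
      refine ⟨BlowA_cD (D i) G + MvPolynomial.pderiv i G - BlowA_cD (D i) F, ?_, ?_, ?_⟩
      · have hG1' := BlowA_polyOver_iff.1 hG1.1
        have hG2' := BlowA_polyOver_iff.1 hG2.1
        have hF1' := BlowA_polyOver_iff.1 hF1.1
        rw [BlowA_polyOver_iff]
        refine ⟨fun s => ?_, fun s hs => ?_⟩
        · rw [MvPolynomial.coeff_sub, MvPolynomial.coeff_add]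
          exact A.sub_mem (A.add_mem (hG1'.1 s) (hG2'.1 s)) (hF1'.1 s)
        · have := MvPolynomial.support_sub _ _ _ hs
          rcases Finset.mem_union.1 this with h | h
          · rcases Finset.mem_union.1 (MvPolynomial.support_add h) with h | h
            · exact hG1'.2 s h
            · exact hG2'.2 s h
          · exact hF1'.2 s h
      · intro s hs
        have := MvPolynomial.support_sub _ _ _ hs
        rcases Finset.mem_union.1 this with h | h
        · rcases Finset.mem_union.1 (MvPolynomial.support_add h) with h | h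
          · have := hG1.2 s h
            omega
          · exact hG2.2 s h
        · exact hF1.2 s h
      · rw [map_sub, map_add, e2]
        ring
    have h2 : s - Finsupp.single i 1 + Finsupp.single i 1 = s := by
      ext j
      by_cases hj : i = j
      · subst hj
        simp
        omega
      · simp [Finsupp.single_eq_of_ne' hj]
    have hsi2 : ((s - Finsupp.single i 1 : Fin n →₀ ℕ) i + 1 : ℕ) = s i := by
      have := congrArg (fun f => f i) h2
      simpa using this
    have hc : (MvPolynomial.pderiv i F).coeff (s - Finsupp.single i 1) =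
        F.coeff s * (s i : K) := by
      rw [MvPolynomial.coeff_pderiv, h2]
      congr 1
      rw [← hsi2]
      push_cast
      rfl
    have hchar : (s i : K) = algebraMap k K (s i : k) := by simp
    have hk : (s i : k) ≠ 0 := Nat.cast_ne_zero.2 hsi
    have hK : (s i : K) ≠ 0 := by
      rw [hchar]
      exact (map_ne_zero _).2 hk
    have hmemsup : s - Finsupp.single i 1 ∈ (MvPolynomial.pderiv i F).support := by
      rw [MvPolynomial.mem_support_iff, hc]
      exact mul_ne_zero (MvPolynomial.mem_support_iff.1 hs) hK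
    have h3 := ih (MvPolynomial.pderiv i F)
      (BlowA_pderiv_good hF (fun s hs => (hdegF s hs).ge) i).1 (by simpa using hh.pderiv) h1 _
      hmemsup
    intro h
    apply h3
    rw [hc, mul_inv]
    refine A.mul_mem h ?_
    rw [hchar, ← map_inv₀]
    exact A.algebraMap_mem _

/-- A homogeneous form of degree `r` in `x₀, ..., x_{d-1}` with coefficients in `A` whose value
lies in `m^(r+1)` has all its coefficients in the maximal ideal: apply the product of the dual
derivations `∂^α`, `|α| = r` (`exists_deriv`): `∂_i` maps `m^(s+1)` to `m^s` and `A` to `A`, so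
`∂^α (m^(r+1)) ⊆ m`, and `∂^α (F(x)) ≡ α! F_α` modulo `m`.  (Induction on `r` with one derivation
at a time: `∂_i F(x) ≡ (∂F/∂X_i)(x)` modulo `m^r`.) -/
theorem IsCoord.quasi_regular [CharZero k] {A : Subalgebra k K} {d : ℕ} {x : Fin n → K}
    (hx : IsCoord b A d x) (hloc : IsLocalRing A) {r : ℕ} (F : MvPolynomial (Fin n) K)
    (hF : PolyOver A d F) (hh : F.IsHomogeneous r)
    (hm : MvPolynomial.aeval x F ∈ mpow A d x (r + 1)) :
    ∀ s ∈ F.support, (F.coeff s)⁻¹ ∉ A := by
  obtain ⟨D, hD, hDx⟩ := hx.exists_deriv b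
  exact BlowA_main hx.mem hx.nonunit hloc D hD hDx r F hF hh hm

end Flip28
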