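import Pool.Agent.Flip_h28.CoordC

/-! # The divisor of smallest discrepancy over a smooth point is unique -/

open scoped KaehlerDifferential

namespace Flip28

variable {k K : Type*} [Field k] [Field K] [Algebra k K] {n : ℕ}
  (b : Module.Basis (Fin n) K Ω[K⁄k]) {X : Set (Subalgebra k K)}

theorem UniqA_card_low {n d : ℕ} (h : d ≤ n) : (low n d).card = d := by
  have h1 : low n d = (Finset.univ : Finset (Fin d)).map (Fin.castLEEmb h) := by
    ext i
    rw [mem_low, Finset.mem_map]
    constructor
    · intro hi
      exact ⟨⟨i, hi⟩, Finset.mem_univ _, rfl⟩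
    · rintro ⟨j, -, rfl⟩
      exact j.isLt
  rw [h1, Finset.card_map, Finset.card_univ, Fintype.card_fin]

/-- If `a(E, X) < d` then all `ord_E x_i = 1`, `i < d` (from `disc_ge`, the orders are at least
`1` because `E` dominates `A`). -/
theorem IsCoord.ord_eq_one (hX : IsCompleteNormal X) {A E : Subalgebra k K} (hA : A ∈ X)
    {d : ℕ} {x : Fin n → K} (hx : IsCoord b A d x) (hE : IsPrimeDiv E) (hd : Dom A E)
    (hlt : disc b X E < d) : ∀ i : Fin n, (i : ℕ) < d → ord E (x i) = 1 := by
  have h1 : ∀ i ∈ low n d, 1 ≤ ord E (x i) := by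
    intro i hi
    have hi' := mem_low.1 hi
    have h2 := hx.nonunit i hi'
    have h3 : x i ≠ 0 := by
      intro h0
      rw [h0, inv_zero] at h2
      exact h2 A.zero_mem
    have h4 : (x i)⁻¹ ∉ E := fun h5 => h2 (hd.2 _ (hx.mem i) h5)
    have := (ord_pos_iff hE.1 h3).2 h4
    omega
  have h2 := hx.disc_ge b hX hA hE hd
  have h3 : (∑ i ∈ low n d, ord E (x i)) ≤ d := by
    have h4 : ((∑ i ∈ low n d, ord E (x i) : ℤ) : ℚ) < ((d + 1 : ℤ) : ℚ) := by
      push_cast
      push_cast at h2
      linarith
    have h5 := Int.cast_lt.1 h4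
    omega
  have h4 : ∑ i ∈ low n d, (ord E (x i) - 1) ≤ 0 := by
    rw [Finset.sum_sub_distrib, Finset.sum_const, UniqA_card_low hx.le]
    simp only [nsmul_eq_mul, mul_one]
    linarith
  have h5 : ∀ i ∈ low n d, 0 ≤ ord E (x i) - 1 := fun i hi => by
    have := h1 i hi
    omega
  intro i hi
  have h6 := (Finset.sum_eq_zero_iff_of_nonneg h5).1 (le_antisymm h4 (Finset.sum_nonneg h5)) i
    (mem_low.2 hi)
  omega

/-- the functions `x₀, x_i / x₀ (0 < i < d), x_i (i ≥ d)` -/
noncomputable def blow (d : ℕ) (x : Fin n → K) (i0 : Fin n) : Fin n → K := fun i =>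
  if i = i0 then x i0 else if (i : ℕ) < d then x i * (x i0)⁻¹ else x i

/-- `jac x = x₀^(d-1) jac (blow x)` -/
theorem jac_blow {d : ℕ} {x : Fin n → K} {i0 : Fin n} (h0 : (i0 : ℕ) = 0) (hd : 0 < d)
    (hdn : d ≤ n) (hx : x i0 ≠ 0) : jac b x = (x i0) ^ (d - 1) * jac b (blow d x i0) := by
  have hz0 : blow d x i0 i0 = x i0 := by
    unfold blow
    rw [if_pos rfl]
  have h1 := jac_eq_det b (blow d x i0) x (Matrix.of fun j i =>
    if i = j then (if j = i0 then 1 else if (j : ℕ) < d then x i0 else 1) else
      if i = i0 then (if (j : ℕ) < d then blow d x i0 j else 0) else 0) ?_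
  · rw [h1]
    congr 1
    rw [Matrix.det_of_isLowerTriangular]
    · have h2 : ∀ i : Fin n, Matrix.of (fun j i : Fin n =>
          if i = j then (if j = i0 then 1 else if (j : ℕ) < d then x i0 else 1) else
          if i = i0 then (if (j : ℕ) < d then blow d x i0 j else 0) else 0) i i =
          if i ∈ (low n d).erase i0 then x i0 else 1 := by
        intro i
        rw [Matrix.of_apply, if_pos rfl]
        by_cases hi : i = i0
        · rw [if_pos hi, if_neg]
          rw [Finset.mem_erase]
          exact fun h => h.1 hi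
        · rw [if_neg hi]
          by_cases hi' : (i : ℕ) < d
          · rw [if_pos hi', if_pos]
            exact Finset.mem_erase.2 ⟨hi, mem_low.2 hi'⟩
          · rw [if_neg hi', if_neg]
            exact fun h => hi' (mem_low.1 (Finset.mem_of_mem_erase h))
      rw [Finset.prod_congr rfl fun i _ => h2 i, Finset.prod_ite_mem, Finset.univ_inter,
        Finset.prod_const, Finset.card_erase_of_mem (mem_low.2 (by omega)), UniqA_card_low hdn]
    · intro i j hij
      have hij' : i < j := hij
      have h3 : j ≠ i0 := by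
        intro h
        rw [h] at hij'
        have := Fin.lt_def.1 hij'
        omega
      rw [Matrix.of_apply, if_neg hij'.ne', if_neg h3]
  · intro j
    by_cases hj : j = i0
    · subst hj
      rw [Finset.sum_eq_single_of_mem j (Finset.mem_univ _)]
      · rw [Matrix.of_apply, if_pos rfl, if_pos rfl, one_smul, hz0]
      · intro i _ hi
        rw [Matrix.of_apply, if_neg hi, if_neg hi, zero_smul]
    · by_cases hjd : (j : ℕ) < d
      · have hzj : x j = blow d x i0 j * blow d x i0 i0 := by
          rw [hz0]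
          unfold blow
          rw [if_neg hj, if_pos hjd, inv_mul_cancel_right₀ hx]
        have h2 : ∀ i ∈ (Finset.univ : Finset (Fin n)), i ≠ j ∧ i ≠ i0 →
            (Matrix.of fun j i : Fin n =>
              if i = j then (if j = i0 then 1 else if (j : ℕ) < d then x i0 else 1) else
              if i = i0 then (if (j : ℕ) < d then blow d x i0 j else 0) else 0) j i •
              KaehlerDifferential.D k K (blow d x i0 i) = 0 := by
          rintro i - ⟨hi1, hi2⟩
          rw [Matrix.of_apply, if_neg hi1, if_neg hi2, zero_smul]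
        rw [Finset.sum_eq_add_of_mem j i0 (Finset.mem_univ _) (Finset.mem_univ _) hj h2]
        rw [Matrix.of_apply, Matrix.of_apply, if_pos rfl, if_neg hj, if_pos hjd,
          if_neg (Ne.symm hj), if_pos rfl, if_pos hjd]
        conv_lhs => rw [hzj]
        rw [Derivation.leibniz, hz0, add_comm]
      · have hzj : x j = blow d x i0 j := by
          unfold blow
          rw [if_neg hj, if_neg hjd]
        rw [Finset.sum_eq_single_of_mem j (Finset.mem_univ _)]
        · rw [Matrix.of_apply, if_pos rfl, if_neg hj, if_neg hjd, one_smul, ← hzj]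
        · intro i _ hi
          rw [Matrix.of_apply, if_neg hi, if_neg hjd]
          split_ifs <;> rw [zero_smul]

/-- the chain rule -/
theorem UniqA_chain (z : Fin n → K) (F : MvPolynomial (Fin n) k) :
    KaehlerDifferential.D k K (MvPolynomial.aeval z F) =
      ∑ i, MvPolynomial.aeval z (MvPolynomial.pderiv i F) • KaehlerDifferential.D k K (z i) := by
  induction F using MvPolynomial.induction_on with
  | C c =>
    rw [MvPolynomial.aeval_C, Derivation.map_algebraMap]
    simp
  | add p q hp hq =>
    simp only [map_add, hp, hq, add_smul, Finset.sum_add_distrib]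
  | mul_X p j hp =>
    rw [map_mul, MvPolynomial.aeval_X, Derivation.leibniz, hp]
    simp only [MvPolynomial.pderiv_mul, MvPolynomial.pderiv_X, map_add, map_mul,
      MvPolynomial.aeval_X, add_smul, Finset.sum_add_distrib]
    rw [add_comm, Finset.smul_sum]
    congr 1
    · refine Finset.sum_congr rfl fun i _ => ?_
      rw [smul_smul, mul_comm]
    · rw [Finset.sum_eq_single_of_mem j (Finset.mem_univ _)]
      · simp
      · intro i _ hi
        rw [Pi.single_eq_of_ne (Ne.symm hi)]
        simp

theorem UniqA_exists_pderiv [CharZero k] (F : MvPolynomial (Fin n) k)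
    (h : ∀ c, F ≠ MvPolynomial.C c) : ∃ j ∈ F.vars, MvPolynomial.pderiv j F ≠ 0 := by
  classical
  have h1 : ∃ m ∈ F.support, m ≠ 0 := by
    by_contra hcon
    push Not at hcon
    apply h (F.coeff 0)
    ext m
    rw [MvPolynomial.coeff_C]
    split_ifs with hm
    · rw [hm]
    · by_contra h2
      exact hm (hcon m (MvPolynomial.mem_support_iff.2 h2)).symm
  obtain ⟨m, hm, hm0⟩ := h1
  obtain ⟨j, hj⟩ : ∃ j, m j ≠ 0 := by
    by_contra hcon
    push Not at hcon
    exact hm0 (Finsupp.ext hcon)
  refine ⟨j, (MvPolynomial.mem_vars_iff_mem_support j).2 ⟨m, hm, Finsupp.mem_support_iff.2 hj⟩, ?_⟩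
  intro h2
  have h3 := congrArg (MvPolynomial.coeff (m - Finsupp.single j 1)) h2
  have h4 : Finsupp.single j 1 ≤ m := by
    rw [Finsupp.single_le_iff]
    omega
  rw [MvPolynomial.coeff_pderiv, MvPolynomial.coeff_zero, tsub_add_cancel_of_le h4] at h3
  have h5 : (((m - Finsupp.single j 1 : Fin n →₀ ℕ) j : ℕ) : k) + 1 ≠ 0 := Nat.cast_add_one_ne_zero _
  exact MvPolynomial.mem_support_iff.1 hm ((mul_eq_zero.1 h3).resolve_right h5)

theorem UniqA_supp (F : MvPolynomial (Fin n) k) (j : Fin n) {s : Fin n →₀ ℕ}
    (hs : s ∈ (MvPolynomial.pderiv j F).support) : s + Finsupp.single j 1 ∈ F.support := by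
  rw [MvPolynomial.mem_support_iff, MvPolynomial.coeff_pderiv] at hs
  rw [MvPolynomial.mem_support_iff]
  intro h
  rw [h, zero_mul] at hs
  exact hs rfl

theorem UniqA_deg (F : MvPolynomial (Fin n) k) (j : Fin n)
    (h : MvPolynomial.pderiv j F ≠ 0) :
    (MvPolynomial.pderiv j F).totalDegree < F.totalDegree := by
  have h1 : (MvPolynomial.pderiv j F).support.Nonempty := MvPolynomial.support_nonempty.2 h
  obtain ⟨s, hs, hs'⟩ := Finset.exists_mem_eq_sup _ h1 (fun s => s.sum fun _ e => e)
  have h2 : (MvPolynomial.pderiv j F).totalDegree = s.sum fun _ e => e := hs'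
  have h3 := MvPolynomial.le_totalDegree (UniqA_supp F j hs)
  rw [Finsupp.sum_add_index' (fun _ => rfl) (fun _ _ _ => rfl),
    Finsupp.sum_single_index rfl] at h3
  omega

theorem UniqA_vars (F : MvPolynomial (Fin n) k) (j i : Fin n)
    (h : i ∉ F.vars) : i ∉ (MvPolynomial.pderiv j F).vars := by
  intro h1
  obtain ⟨s, hs, hs'⟩ := (MvPolynomial.mem_vars_iff_mem_support i).1 h1
  apply h
  refine (MvPolynomial.mem_vars_iff_mem_support i).2 ⟨_, UniqA_supp F j hs, ?_⟩
  rw [Finsupp.mem_support_iff] at hs' ⊢
  rw [Finsupp.add_apply]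
  omega

theorem UniqA_mem {E : Subalgebra k K} {z : Fin n → K} (hz : ∀ i, z i ∈ E)
    (F : MvPolynomial (Fin n) k) : MvPolynomial.aeval z F ∈ E := by
  induction F using MvPolynomial.induction_on with
  | C c =>
    rw [MvPolynomial.aeval_C]
    exact E.algebraMap_mem c
  | add p q hp hq =>
    rw [map_add]
    exact E.add_mem hp hq
  | mul_X p j hp =>
    rw [map_mul, MvPolynomial.aeval_X]
    exact E.mul_mem hp (hz j)

/-- Let `z` be a tuple of elements of `E` with `ord_E (jac z) = - cord E` and `z₀` a uniformizer.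
Then the residues of the `z_i`, `i ≠ 0`, are algebraically independent over `k`:
every non-zero polynomial `F` in these `z_i` takes a unit value.

Proof: take a counterexample `F(z) ∈ m_E` of smallest total degree; it is not constant, so some
partial derivative `F_j` is non-zero and of smaller degree (characteristic zero), so
`F_j(z)` is a unit.  Write `F(z) = z₀ u`.  Then `∑ F_i(z) dz_i = z₀ du + u dz₀`, hence
`F_j(z) jac z = z₀ jac (z with z_j replaced by u)`, of order at least `1 - cord E`. -/
theorem residues_independent [CharZero k] {E : Subalgebra k K} (hE : IsPrimeDiv E)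
    {z : Fin n → K} (hz : ∀ i, z i ∈ E) (hj : jac b z ≠ 0)
    (hc : cord b E = - ord E (jac b z)) {i0 : Fin n} (h0 : ord E (z i0) = 1)
    (F : MvPolynomial (Fin n) k) (hF : F ≠ 0) (hv : i0 ∉ F.vars) :
    (MvPolynomial.aeval z F)⁻¹ ∈ E ∧ MvPolynomial.aeval z F ≠ 0 := by
  have hz0 : z i0 ≠ 0 := by
    intro h
    rw [h, ord] at h0
    rw [dif_neg] at h0
    · exact absurd h0 (by norm_num)
    · rintro ⟨m, hm, -⟩
      exact hm rfl
  have hz0' : (z i0)⁻¹ ∉ E := (ord_pos_iff hE.1 hz0).1 (by omega)
  induction hN : F.totalDegree using Nat.strong_induction_on generalizing F with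
  | _ N ih =>
    by_cases hconst : ∃ c, F = MvPolynomial.C c
    · obtain ⟨c, rfl⟩ := hconst
      have hc0 : c ≠ 0 := by
        rintro rfl
        exact hF (map_zero _)
      rw [MvPolynomial.aeval_C]
      constructor
      · rw [← map_inv₀]
        exact E.algebraMap_mem c⁻¹
      · exact (map_ne_zero _).2 hc0
    · push Not at hconst
      obtain ⟨j, hjv, hjF⟩ := UniqA_exists_pderiv F hconst
      have hji : j ≠ i0 := fun h => hv (h ▸ hjv)
      have hU := ih _ (hN ▸ UniqA_deg F j hjF) (MvPolynomial.pderiv j F) hjF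
        (UniqA_vars F j i0 hv) rfl
      by_contra hcon
      -- `F(z) = z₀ u` with `u ∈ E`
      have hu : MvPolynomial.aeval z F * (z i0)⁻¹ ∈ E := by
        by_cases hFz : MvPolynomial.aeval z F = 0
        · rw [hFz, zero_mul]
          exact E.zero_mem
        · have h1 : (MvPolynomial.aeval z F)⁻¹ ∉ E := fun h => hcon ⟨h, hFz⟩
          have h2 := (ord_pos_iff hE.1 hFz).2 h1
          rw [mem_iff hE.1 (mul_ne_zero hFz (inv_ne_zero hz0)),
            ord_mul hE.1 hFz (inv_ne_zero hz0), ord_inv hE.1, h0]
          omega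
      obtain ⟨a, ha, ha'⟩ := span_of_cord_eq b hE hz hj hc _ hu
      have h1 := UniqA_chain z F
      have h2 : MvPolynomial.aeval z F = (MvPolynomial.aeval z F * (z i0)⁻¹) * z i0 :=
        (inv_mul_cancel_right₀ hz0 _).symm
      rw [h2, Derivation.leibniz, ha', Finset.smul_sum] at h1
      obtain ⟨c, -, hc'⟩ := exists_coeff b hj (MvPolynomial.aeval z F)
      have h3 := hc' (fun i => MvPolynomial.aeval z (MvPolynomial.pderiv i F)) (UniqA_chain z F)
      have h4 := hc' (fun i => z i0 * a i + if i = i0 then
        MvPolynomial.aeval z F * (z i0)⁻¹ else 0) (by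
          rw [UniqA_chain z F, ← h1]
          simp only [add_smul, Finset.sum_add_distrib, smul_smul, ite_smul, zero_smul,
            Finset.sum_ite_eq', Finset.mem_univ, if_true]
          rw [add_comm])
      have h5 := congrFun (h3.trans h4.symm) j
      simp only [if_neg hji, add_zero] at h5
      apply hz0'
      have h6 : (z i0)⁻¹ = a j * (MvPolynomial.aeval z (MvPolynomial.pderiv j F))⁻¹ := by
        have haj : a j ≠ 0 := by
          intro h
          rw [h, mul_zero] at h5
          exact hU.2 h5
        rw [h5]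
        field_simp
      rw [h6]
      exact E.mul_mem (ha j) hU.1

end Flip28
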