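import Pool.Agent.Flip_h28.BlowA
import Pool.Agent.Flip_h28.UniqA
import Pool.Agent.Flip_h28.Dim

/-! # The blow-up of a smooth point -/

open scoped KaehlerDifferential

namespace Flip28

variable {k K : Type*} [Field k] [Field K] [Algebra k K] {n : ℕ}
  (b : Module.Basis (Fin n) K Ω[K⁄k]) {X : Set (Subalgebra k K)}

/-- homogenization with respect to the variable `i0` -/
noncomputable def BlowB_hom (i0 : Fin n) (N : ℕ) (G : MvPolynomial (Fin n) K) :
    MvPolynomial (Fin n) K :=
  ∑ s ∈ G.support, MvPolynomial.monomial (s + Finsupp.single i0 (N - s.degree)) (G.coeff s)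

theorem BlowB_supp_zero {G : MvPolynomial (Fin n) K} {i : Fin n} (h : i ∉ G.vars)
    {s : Fin n →₀ ℕ} (hs : s ∈ G.support) : s i = 0 := by
  by_contra hne
  exact h (MvPolynomial.mem_vars_iff_mem_support i |>.2 ⟨s, hs, Finsupp.mem_support_iff.2 hne⟩)

theorem BlowB_inj {i0 : Fin n} {N : ℕ} {s t : Fin n →₀ ℕ} (hs : s i0 = 0) (ht : t i0 = 0)
    (h : s + Finsupp.single i0 (N - s.degree) = t + Finsupp.single i0 (N - t.degree)) : s = t := by
  ext i
  by_cases hi : i = i0
  · rw [hi, hs, ht]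
  · have := DFunLike.congr_fun h i
    simp only [Finsupp.add_apply, Finsupp.single_apply, if_neg (Ne.symm hi), add_zero] at this
    exact this

theorem BlowB_coeff {i0 : Fin n} {N : ℕ} {G : MvPolynomial (Fin n) K} (hG0 : i0 ∉ G.vars)
    {s : Fin n →₀ ℕ} (hs : s ∈ G.support) :
    (BlowB_hom i0 N G).coeff (s + Finsupp.single i0 (N - s.degree)) = G.coeff s := by
  classical
  unfold BlowB_hom
  rw [MvPolynomial.coeff_sum, Finset.sum_eq_single s]
  · rw [MvPolynomial.coeff_monomial, if_pos rfl]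
  · intro t ht hts
    rw [MvPolynomial.coeff_monomial, if_neg]
    intro h
    exact hts (BlowB_inj (BlowB_supp_zero hG0 ht) (BlowB_supp_zero hG0 hs) h)
  · intro h
    exact absurd hs h

theorem BlowB_polyOver {A : Subalgebra k K} {d : ℕ} {i0 : Fin n} (h0 : (i0 : ℕ) < d) (N : ℕ)
    {G : MvPolynomial (Fin n) K} (hG : PolyOver A d G) : PolyOver A d (BlowB_hom i0 N G) := by
  classical
  constructor
  · intro t
    unfold BlowB_hom
    rw [MvPolynomial.coeff_sum]
    refine Subalgebra.sum_mem _ fun s _ => ?_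
    rw [MvPolynomial.coeff_monomial]
    split_ifs
    · exact hG.1 s
    · exact A.zero_mem
  · intro i hi
    obtain ⟨t, ht, hit⟩ := (MvPolynomial.mem_vars_iff_mem_support i).1 hi
    unfold BlowB_hom at ht
    have h1 := MvPolynomial.support_sum ht
    rw [Finset.mem_biUnion] at h1
    obtain ⟨s, hs, hts⟩ := h1
    have h2 := MvPolynomial.support_monomial_subset hts
    rw [Finset.mem_singleton] at h2
    rw [h2, Finsupp.mem_support_iff, Finsupp.add_apply, Finsupp.single_apply] at hit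
    by_cases hii : i0 = i
    · rw [← hii]
      exact h0
    · rw [if_neg hii, add_zero] at hit
      exact hG.2 i ((MvPolynomial.mem_vars_iff_mem_support i).2 ⟨s, hs, Finsupp.mem_support_iff.2 hit⟩)

theorem BlowB_homog {i0 : Fin n} {N : ℕ} {G : MvPolynomial (Fin n) K}
    (hN : ∀ s ∈ G.support, s.degree ≤ N) : (BlowB_hom i0 N G).IsHomogeneous N := by
  unfold BlowB_hom
  refine MvPolynomial.IsHomogeneous.sum _ _ _ fun s hs => ?_
  apply MvPolynomial.isHomogeneous_monomial
  rw [map_add, Finsupp.degree_single]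
  have := hN s hs
  omega

theorem BlowB_aeval {A : Subalgebra k K} {d : ℕ} {x : Fin n → K} {i0 : Fin n}
    (hx0 : x i0 ≠ 0) {N : ℕ} {G : MvPolynomial (Fin n) K} (hG : PolyOver A d G)
    (hG0 : i0 ∉ G.vars) (hN : ∀ s ∈ G.support, s.degree ≤ N) :
    MvPolynomial.aeval x (BlowB_hom i0 N G) =
      x i0 ^ N * MvPolynomial.aeval (blow d x i0) G := by
  classical
  have h1 : MvPolynomial.aeval (blow d x i0) G =
      ∑ s ∈ G.support, G.coeff s * ∏ i, blow d x i0 i ^ s i := by
    conv_lhs => rw [G.as_sum]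
    rw [map_sum]
    refine Finset.sum_congr rfl fun s _ => ?_
    rw [MvPolynomial.aeval_monomial, Finsupp.prod_fintype _ _ (fun i => pow_zero _)]
    rfl
  rw [h1]
  unfold BlowB_hom
  rw [map_sum, Finset.mul_sum]
  refine Finset.sum_congr rfl fun s hs => ?_
  rw [MvPolynomial.aeval_monomial, Finsupp.prod_fintype _ _ (fun i => pow_zero _)]
  have h2 : ∏ i, x i ^ ((s + Finsupp.single i0 (N - s.degree)) i) =
      x i0 ^ (N - s.degree) * ∏ i, x i ^ s i := by
    have h3 : ∀ i, x i ^ ((s + Finsupp.single i0 (N - s.degree)) i) =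
        (if i = i0 then x i0 ^ (N - s.degree) else 1) * x i ^ s i := by
      intro i
      rw [Finsupp.add_apply, Finsupp.single_apply]
      by_cases hi : i = i0
      · rw [if_pos hi.symm, if_pos hi, pow_add, hi, mul_comm]
      · rw [if_neg (Ne.symm hi), if_neg hi, add_zero, one_mul]
    rw [Finset.prod_congr rfl fun i _ => h3 i, Finset.prod_mul_distrib, Finset.prod_ite_eq']
    simp
  have h4 : ∏ i, x i ^ s i = x i0 ^ s.degree * ∏ i, blow d x i0 i ^ s i := by
    have h5 : x i0 ^ s.degree = ∏ i, x i0 ^ s i := by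
      rw [Finset.prod_pow_eq_pow_sum, Finsupp.degree_eq_sum]
    rw [h5, ← Finset.prod_mul_distrib]
    refine Finset.prod_congr rfl fun i _ => ?_
    rw [← mul_pow]
    by_cases hi : s i = 0
    · rw [hi, pow_zero, pow_zero]
    · have h6 : i ∈ G.vars := (MvPolynomial.mem_vars_iff_mem_support i).2 ⟨s, hs, Finsupp.mem_support_iff.2 hi⟩
      have h7 : i ≠ i0 := fun h => hG0 (h ▸ h6)
      have h8 := hG.2 i h6
      unfold blow
      rw [if_neg h7, if_pos h8]
      congr 1
      field_simp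
  rw [h2, h4]
  have h9 : x i0 ^ N = x i0 ^ (N - s.degree) * x i0 ^ s.degree := by
    rw [← pow_add, Nat.sub_add_cancel (hN s hs)]
  rw [h9]
  show G.coeff s * _ = _
  ring

theorem IsCoord.BlowB_ne_zero {A : Subalgebra k K} {d : ℕ} {x : Fin n → K}
    (hx : IsCoord b A d x) (i : Fin n) : x i ≠ 0 := by
  intro h
  apply hx.ne
  unfold jac
  apply AlternatingMap.map_coord_zero _ i
  rw [h, map_zero]

/-- In `B = A[z_i, 0 < i < d]`, `z = blow x`: a polynomial in the `z_i` with coefficients in `A`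
whose value is divisible by `x₀` in `B` has all its coefficients in the maximal ideal.
(Multiply by `x₀^N` and use `quasi_regular`: `x₀^N G(z)` is a form of degree `N` in the `x_i`
with the same coefficients, and `x₀^(N+1) H(z)` is in `m^(N+1)` for `N` large.) -/
theorem IsCoord.coeff_of_dvd [CharZero k] {A : Subalgebra k K} {d : ℕ} {x : Fin n → K}
    (hx : IsCoord b A d x) (hloc : IsLocalRing A) {i0 : Fin n} (h0 : (i0 : ℕ) = 0) (hd : 0 < d)
    (G H : MvPolynomial (Fin n) K) (hG : PolyOver A d G) (hH : PolyOver A d H)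
    (hG0 : i0 ∉ G.vars) (hH0 : i0 ∉ H.vars)
    (h : MvPolynomial.aeval (blow d x i0) G = x i0 * MvPolynomial.aeval (blow d x i0) H) :
    ∀ s ∈ G.support, (G.coeff s)⁻¹ ∉ A := by
  classical
  have hx0 := hx.BlowB_ne_zero b i0
  have h0d : (i0 : ℕ) < d := by omega
  obtain ⟨N, hNG, hNH⟩ : ∃ N : ℕ, (∀ s ∈ G.support, s.degree ≤ N) ∧
      ∀ s ∈ H.support, s.degree ≤ N := by
    refine ⟨max (G.support.sup fun s => s.degree) (H.support.sup fun s => s.degree), ?_, ?_⟩
    · intro s hs
      exact le_trans (Finset.le_sup (f := fun s : Fin n →₀ ℕ => s.degree) hs) (le_max_left _ _)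
    · intro s hs
      exact le_trans (Finset.le_sup (f := fun s : Fin n →₀ ℕ => s.degree) hs) (le_max_right _ _)
  have hF := BlowB_polyOver (i0 := i0) h0d N hG
  have hFH := BlowB_polyOver (i0 := i0) h0d N hH
  have hmem : MvPolynomial.aeval x (BlowB_hom i0 N G) ∈ mpow A d x (N + 1) := by
    refine ⟨MvPolynomial.X i0 * BlowB_hom i0 N H, ⟨?_, ?_⟩, ?_, ?_⟩
    · intro s
      rw [MvPolynomial.coeff_X_mul']
      split_ifs
      · exact hFH.1 _
      · exact A.zero_mem
    · intro i hi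
      have h1 := MvPolynomial.vars_mul _ _ hi
      rw [Finset.mem_union, MvPolynomial.vars_X, Finset.mem_singleton] at h1
      rcases h1 with h1 | h1
      · rw [h1]
        exact h0d
      · exact hFH.2 i h1
    · intro s hs
      have h2 : (MvPolynomial.X i0 * BlowB_hom i0 N H).IsHomogeneous (1 + N) :=
        (MvPolynomial.isHomogeneous_X K i0).mul (BlowB_homog hNH)
      have h3 := h2 (MvPolynomial.mem_support_iff.1 hs)
      have h4 : s.degree = 1 + N := by
        rw [← h3, Finsupp.degree_eq_weight_one]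
        rfl
      omega
    · rw [map_mul, MvPolynomial.aeval_X, BlowB_aeval hx0 hG hG0 hNG,
        BlowB_aeval hx0 hH hH0 hNH, h]
      ring
  have hq := hx.quasi_regular b hloc (BlowB_hom i0 N G) hF (BlowB_homog hNG) hmem
  intro s hs
  have h5 := BlowB_coeff (N := N) hG0 hs
  have h6 := hq (s + Finsupp.single i0 (N - s.degree)) (by
    rw [MvPolynomial.mem_support_iff, h5]
    exact MvPolynomial.mem_support_iff.1 hs)
  rw [h5] at h6
  exact h6


/-- units of `A` -/
theorem BlowB_isUnit {A : Subalgebra k K} (a : A) : IsUnit a ↔ (a : K) ≠ 0 ∧ (a : K)⁻¹ ∈ A := by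
  constructor
  · intro h
    obtain ⟨c, hc⟩ := h.exists_right_inv
    have h1 : (a : K) * (c : K) = 1 := by
      have := congrArg (Subtype.val) hc
      simpa using this
    have h2 : (a : K) ≠ 0 := left_ne_zero_of_mul_eq_one h1
    refine ⟨h2, ?_⟩
    rw [inv_eq_of_mul_eq_one_right h1]
    exact c.2
  · rintro ⟨h1, h2⟩
    exact IsUnit.of_mul_eq_one ⟨(a : K)⁻¹, h2⟩ (Subtype.ext (mul_inv_cancel₀ h1))

/-- the index set of the variables `0 < i < d` -/
abbrev BlowB_idx (n d : ℕ) (i0 : Fin n) : Type := {i : Fin n // i ≠ i0 ∧ (i : ℕ) < d}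

/-- the evaluation of polynomials over `A` at the `z_i`, `0 < i < d` -/
noncomputable def BlowB_phi (A : Subalgebra k K) (d : ℕ) (x : Fin n → K) (i0 : Fin n) :
    MvPolynomial (BlowB_idx n d i0) A →ₐ[A] K :=
  MvPolynomial.aeval fun i => blow d x i0 i

/-- the ring `B` -/
def BlowB_B (A : Subalgebra k K) (d : ℕ) (x : Fin n → K) (i0 : Fin n) : Subalgebra k K :=
  Algebra.adjoin k ((A : Set K) ∪ Set.range (blow d x i0))

theorem BlowB_le (A : Subalgebra k K) (d : ℕ) (x : Fin n → K) (i0 : Fin n) :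
    A ≤ BlowB_B A d x i0 := fun _ hx => Algebra.subset_adjoin (Or.inl hx)

theorem BlowB_z_mem (A : Subalgebra k K) (d : ℕ) (x : Fin n → K) (i0 : Fin n) (i : Fin n) :
    blow d x i0 i ∈ BlowB_B A d x i0 := Algebra.subset_adjoin (Or.inr ⟨i, rfl⟩)

theorem BlowB_phi_mem (A : Subalgebra k K) (d : ℕ) (x : Fin n → K) (i0 : Fin n)
    (G : MvPolynomial (BlowB_idx n d i0) A) : BlowB_phi A d x i0 G ∈ BlowB_B A d x i0 := by
  induction G using MvPolynomial.induction_on with
  | C a =>
    have : BlowB_phi A d x i0 (MvPolynomial.C a) = (a : K) := by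
      unfold BlowB_phi
      rw [MvPolynomial.aeval_C]
      rfl
    rw [this]
    exact BlowB_le A d x i0 a.2
  | add p q hp hq =>
    rw [map_add]
    exact Subalgebra.add_mem _ hp hq
  | mul_X p i hp =>
    rw [map_mul]
    refine Subalgebra.mul_mem _ hp ?_
    unfold BlowB_phi
    rw [MvPolynomial.aeval_X]
    exact BlowB_z_mem A d x i0 i

theorem BlowB_phi_surj {A : Subalgebra k K} {d : ℕ} {x : Fin n → K} (hxA : ∀ i, x i ∈ A)
    (i0 : Fin n) {f : K} (hf : f ∈ BlowB_B A d x i0) : ∃ G, BlowB_phi A d x i0 G = f := by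
  have hC : ∀ a ∈ A, ∃ G, BlowB_phi A d x i0 G = a := by
    intro a ha
    refine ⟨MvPolynomial.C ⟨a, ha⟩, ?_⟩
    unfold BlowB_phi
    rw [MvPolynomial.aeval_C]
    rfl
  unfold BlowB_B at hf
  induction hf using Algebra.adjoin_induction with
  | mem y hy =>
    rcases hy with hy | ⟨i, rfl⟩
    · exact hC y hy
    · by_cases hi : i = i0
      · refine hC _ ?_
        unfold blow
        rw [if_pos hi]
        exact hxA i0
      · by_cases hid : (i : ℕ) < d
        · refine ⟨MvPolynomial.X ⟨i, hi, hid⟩, ?_⟩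
          unfold BlowB_phi
          rw [MvPolynomial.aeval_X]
        · refine hC _ ?_
          unfold blow
          rw [if_neg hi, if_neg hid]
          exact hxA i
  | algebraMap r => exact hC _ (A.algebraMap_mem r)
  | add f g _ _ ihf ihg =>
    obtain ⟨F, hF⟩ := ihf
    obtain ⟨G, hG⟩ := ihg
    exact ⟨F + G, by rw [map_add, hF, hG]⟩
  | mul f g _ _ ihf ihg =>
    obtain ⟨F, hF⟩ := ihf
    obtain ⟨G, hG⟩ := ihg
    exact ⟨F * G, by rw [map_mul, hF, hG]⟩

/-- a polynomial over `A` as a polynomial over `K` in all variables -/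
noncomputable def BlowB_big {A : Subalgebra k K} {d : ℕ} {i0 : Fin n}
    (G : MvPolynomial (BlowB_idx n d i0) A) : MvPolynomial (Fin n) K :=
  MvPolynomial.rename Subtype.val (MvPolynomial.map (algebraMap A K) G)

theorem BlowB_big_polyOver {A : Subalgebra k K} {d : ℕ} {i0 : Fin n}
    (G : MvPolynomial (BlowB_idx n d i0) A) : PolyOver A d (BlowB_big G) := by
  classical
  constructor
  · intro t
    by_cases h : (BlowB_big G).coeff t = 0
    · rw [h]
      exact A.zero_mem
    · obtain ⟨u, hu, -⟩ := MvPolynomial.coeff_rename_ne_zero _ _ _ h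
      unfold BlowB_big
      rw [← hu, MvPolynomial.coeff_rename_mapDomain _ Subtype.val_injective,
        MvPolynomial.coeff_map]
      exact (G.coeff u).2
  · intro i hi
    have h1 := MvPolynomial.vars_rename _ _ hi
    rw [Finset.mem_image] at h1
    obtain ⟨j, _, rfl⟩ := h1
    exact j.2.2

theorem BlowB_big_vars {A : Subalgebra k K} {d : ℕ} {i0 : Fin n}
    (G : MvPolynomial (BlowB_idx n d i0) A) : i0 ∉ (BlowB_big G).vars := by
  classical
  intro hi
  have h1 := MvPolynomial.vars_rename _ _ hi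
  rw [Finset.mem_image] at h1
  obtain ⟨j, _, hj⟩ := h1
  exact j.2.1 hj

theorem BlowB_big_aeval {A : Subalgebra k K} {d : ℕ} {x : Fin n → K} {i0 : Fin n}
    (G : MvPolynomial (BlowB_idx n d i0) A) :
    MvPolynomial.aeval (blow d x i0) (BlowB_big G) = BlowB_phi A d x i0 G := by
  unfold BlowB_big BlowB_phi
  rw [MvPolynomial.aeval_rename, MvPolynomial.aeval_map_algebraMap]
  rfl

/-- reduction modulo the maximal ideal -/
noncomputable def BlowB_red (A : Subalgebra k K) [IsLocalRing A] (d : ℕ) (i0 : Fin n) :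
    MvPolynomial (BlowB_idx n d i0) A →+*
      MvPolynomial (BlowB_idx n d i0) (IsLocalRing.ResidueField A) :=
  MvPolynomial.map (IsLocalRing.residue A)

theorem IsCoord.BlowB_dvd_iff [CharZero k] {A : Subalgebra k K} {d : ℕ} {x : Fin n → K}
    (hx : IsCoord b A d x) [hloc : IsLocalRing A] {i0 : Fin n} (h0 : (i0 : ℕ) = 0) (hd : 0 < d)
    (G : MvPolynomial (BlowB_idx n d i0) A) :
    (∃ H, BlowB_phi A d x i0 G = x i0 * BlowB_phi A d x i0 H) ↔ BlowB_red A d i0 G = 0 := by
  classical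
  have hx0 := hx.BlowB_ne_zero b i0
  constructor
  · rintro ⟨H, hH⟩
    have h1 := hx.coeff_of_dvd b hloc h0 hd (BlowB_big G) (BlowB_big H) (BlowB_big_polyOver G)
      (BlowB_big_polyOver H) (BlowB_big_vars G) (BlowB_big_vars H)
      (by rw [BlowB_big_aeval, BlowB_big_aeval, hH])
    unfold BlowB_red
    ext s
    rw [MvPolynomial.coeff_map, MvPolynomial.coeff_zero, IsLocalRing.residue_eq_zero_iff,
      IsLocalRing.mem_maximalIdeal, mem_nonunits_iff, BlowB_isUnit]
    rintro ⟨h2, h3⟩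
    have h4 : (BlowB_big G).coeff (s.mapDomain Subtype.val) = ((G.coeff s : A) : K) := by
      unfold BlowB_big
      rw [MvPolynomial.coeff_rename_mapDomain _ Subtype.val_injective, MvPolynomial.coeff_map]
      rfl
    have h5 := h1 (s.mapDomain Subtype.val) (by
      rw [MvPolynomial.mem_support_iff, h4]
      exact h2)
    rw [h4] at h5
    exact h5 h3
  · intro h
    have hc : ∀ c : A, IsLocalRing.residue A c = 0 → ∃ H, (c : K) = x i0 * BlowB_phi A d x i0 H := by
      intro c hc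
      rw [IsLocalRing.residue_eq_zero_iff, IsLocalRing.mem_maximalIdeal, mem_nonunits_iff,
        BlowB_isUnit] at hc
      by_cases hc0 : (c : K) = 0
      · exact ⟨0, by rw [map_zero, mul_zero, hc0]⟩
      · obtain ⟨a, ha, hsum⟩ := hx.gen c c.2 fun h => hc ⟨hc0, h⟩
        refine ⟨∑ i : Fin n, if h : i ≠ i0 ∧ (i : ℕ) < d then
          MvPolynomial.C ⟨a i, ha i⟩ * MvPolynomial.X ⟨i, h⟩ else
            if i = i0 then MvPolynomial.C ⟨a i, ha i⟩ else 0, ?_⟩
        rw [map_sum, Finset.mul_sum, hsum]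
        have h6 : ∑ i ∈ low n d, a i * x i = ∑ i : Fin n, if (i : ℕ) < d then a i * x i else 0 := by
          unfold low
          rw [Finset.sum_filter]
        rw [h6]
        refine Finset.sum_congr rfl fun i _ => ?_
        by_cases hi : i = i0
        · rw [if_pos (by rw [hi]; omega), dif_neg (by rw [hi]; exact fun h => h.1 rfl), if_pos hi]
          unfold BlowB_phi
          rw [MvPolynomial.aeval_C, hi]
          show _ = x i0 * a i0
          ring
        · by_cases hid : (i : ℕ) < d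
          · rw [if_pos hid, dif_pos ⟨hi, hid⟩, map_mul]
            unfold BlowB_phi
            rw [MvPolynomial.aeval_C, MvPolynomial.aeval_X]
            show _ = x i0 * (a i * blow d x i0 i)
            unfold blow
            rw [if_neg hi, if_pos hid]
            field_simp
          · rw [if_neg hid, dif_neg (fun h => hid h.2), if_neg hi, map_zero, mul_zero]
    choose! F hF using hc
    have hcoef : ∀ s, IsLocalRing.residue A (G.coeff s) = 0 := by
      intro s
      have h1 : (BlowB_red A d i0 G).coeff s = 0 := by rw [h, MvPolynomial.coeff_zero]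
      unfold BlowB_red at h1
      rw [MvPolynomial.coeff_map] at h1
      exact h1
    refine ⟨∑ s ∈ G.support, F (G.coeff s) * MvPolynomial.monomial s 1, ?_⟩
    have h7 : G = ∑ s ∈ G.support, MvPolynomial.C (G.coeff s) * MvPolynomial.monomial s 1 := by
      conv_lhs => rw [G.as_sum]
      refine Finset.sum_congr rfl fun s _ => ?_
      rw [MvPolynomial.C_mul_monomial, mul_one]
    conv_lhs => rw [h7]
    rw [map_sum, map_sum, Finset.mul_sum]
    refine Finset.sum_congr rfl fun s _ => ?_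
    rw [map_mul, map_mul]
    have h8 : BlowB_phi A d x i0 (MvPolynomial.C (G.coeff s)) = ((G.coeff s : A) : K) := by
      unfold BlowB_phi
      rw [MvPolynomial.aeval_C]
      rfl
    rw [h8, hF _ (hcoef s)]
    ring


/-- a common denominator in `R` -/
theorem BlowB_denom {R A : Subalgebra k K} (hA : IsLoc R A) {Z : Set K} {f : K}
    (hf : f ∈ Algebra.adjoin k ((A : Set K) ∪ Z)) :
    ∃ r ∈ R ⊔ Algebra.adjoin k Z, ∃ s ∈ R, s ≠ 0 ∧ s⁻¹ ∈ A ∧ f = r * s⁻¹ := by
  induction hf using Algebra.adjoin_induction with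
  | mem y hy =>
    rcases hy with hy | hy
    · obtain ⟨r, hr, s, hs, hsA, he⟩ := hA.2.2 y hy
      by_cases hs0 : s = 0
      · refine ⟨0, Subalgebra.zero_mem _, 1, R.one_mem, one_ne_zero, ?_, ?_⟩
        · rw [inv_one]
          exact A.one_mem
        · rw [he, hs0, inv_zero, mul_zero, zero_mul]
      · exact ⟨r, (le_sup_left : R ≤ R ⊔ _) hr, s, hs, hs0, hsA, he⟩
    · refine ⟨y, (le_sup_right : _ ≤ R ⊔ Algebra.adjoin k Z) (Algebra.subset_adjoin hy), 1,
        R.one_mem, one_ne_zero, ?_, ?_⟩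
      · rw [inv_one]
        exact A.one_mem
      · rw [inv_one, mul_one]
  | algebraMap c =>
    refine ⟨algebraMap k K c, Subalgebra.algebraMap_mem _ c, 1, R.one_mem, one_ne_zero, ?_, ?_⟩
    · rw [inv_one]
      exact A.one_mem
    · rw [inv_one, mul_one]
  | add f g _ _ ihf ihg =>
    obtain ⟨r, hr, s, hs, hs0, hsA, he⟩ := ihf
    obtain ⟨r', hr', s', hs', hs0', hsA', he'⟩ := ihg
    refine ⟨r * s' + r' * s, Subalgebra.add_mem _
      (Subalgebra.mul_mem _ hr ((le_sup_left : R ≤ R ⊔ _) hs'))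
      (Subalgebra.mul_mem _ hr' ((le_sup_left : R ≤ R ⊔ _) hs)), s * s', R.mul_mem hs hs',
      mul_ne_zero hs0 hs0', ?_, ?_⟩
    · rw [mul_inv]
      exact A.mul_mem hsA hsA'
    · rw [he, he']
      field_simp
  | mul f g _ _ ihf ihg =>
    obtain ⟨r, hr, s, hs, hs0, hsA, he⟩ := ihf
    obtain ⟨r', hr', s', hs', hs0', hsA', he'⟩ := ihg
    refine ⟨r * r', Subalgebra.mul_mem _ hr hr', s * s', R.mul_mem hs hs',
      mul_ne_zero hs0 hs0', ?_, ?_⟩
    · rw [mul_inv]
      exact A.mul_mem hsA hsA'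
    · rw [he, he']
      field_simp

/-- The exceptional divisor of the blow-up: the localization of `B` at `x₀ B`, which is prime by
`coeff_of_dvd` (`B / x₀ B = κ[T₁, ..., T_{d-1}]`).  It is a Noetherian local domain whose maximal
ideal is generated by `x₀`, hence a discrete valuation ring with uniformizer `x₀`. -/
theorem IsCoord.exists_blow_dvr [CharZero k] {R A : Subalgebra k K} (hR : R.FG)
    (hK : IsFractionRing R K) (hA : IsLoc R A) {d : ℕ} {x : Fin n → K} (hx : IsCoord b A d x)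
    {i0 : Fin n} (h0 : (i0 : ℕ) = 0) (hd : 0 < d) :
    ∃ E, IsPrimeDiv E ∧ Dom A E ∧ ord E (x i0) = 1 ∧
      IsLoc (Algebra.adjoin k ((A : Set K) ∪ Set.range (blow d x i0))) E := by
  classical
  have hloc : IsLocalRing A := hA.2.1
  have hx0 := hx.BlowB_ne_zero b i0
  have hxB : x i0 ∈ BlowB_B A d x i0 := BlowB_le A d x i0 (hx.mem i0)
  -- the ideal
  obtain ⟨p, hp⟩ : ∃ p : Ideal (BlowB_B A d x i0), p = Ideal.span {⟨x i0, hxB⟩} := ⟨_, rfl⟩
  have hmem : ∀ G : MvPolynomial (BlowB_idx n d i0) A, ∀ f : BlowB_B A d x i0,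
      (f : K) = BlowB_phi A d x i0 G → (f ∈ p ↔ BlowB_red A d i0 G = 0) := by
    intro G f hf
    rw [← hx.BlowB_dvd_iff b h0 hd, hp, Ideal.mem_span_singleton]
    constructor
    · rintro ⟨g, hg⟩
      obtain ⟨H, hH⟩ := BlowB_phi_surj hx.mem i0 g.2
      refine ⟨H, ?_⟩
      rw [hH, ← hf, hg]
      rfl
    · rintro ⟨H, hH⟩
      refine ⟨⟨BlowB_phi A d x i0 H, BlowB_phi_mem A d x i0 H⟩, Subtype.ext ?_⟩
      rw [hf, hH]
      rfl
  have hprime : p.IsPrime := by
    refine ⟨?_, ?_⟩
    · intro htop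
      have h1 : (1 : BlowB_B A d x i0) ∈ p := by
        rw [htop]
        trivial
      have h2 := (hmem 1 1 (by rw [map_one]; rfl)).1 h1
      rw [map_one] at h2
      exact one_ne_zero h2
    · intro f g hfg
      obtain ⟨F, hF⟩ := BlowB_phi_surj hx.mem i0 f.2
      obtain ⟨G, hG⟩ := BlowB_phi_surj hx.mem i0 g.2
      have h1 := (hmem (F * G) (f * g) (by rw [map_mul, hF, hG]; rfl)).1 hfg
      rw [map_mul, mul_eq_zero] at h1
      rcases h1 with h1 | h1
      · left
        exact (hmem F f hF.symm).2 h1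
      · right
        exact (hmem G g hG.symm).2 h1
  obtain ⟨E, hBE, hE1, hE2⟩ := exists_isLoc_of_prime (BlowB_B A d x i0) p
  have hAE : A ≤ E := (BlowB_le A d x i0).trans hBE.le
  have hxp : (⟨x i0, hxB⟩ : BlowB_B A d x i0) ∈ p := by
    rw [hp]
    exact Ideal.subset_span rfl
  have hxE : (x i0)⁻¹ ∉ E := by
    intro h
    exact hE1 ⟨x i0, hxB⟩ h (fun h' => hx0 (congrArg Subtype.val h')) hxp
  -- non-units of `E` are multiples of `x₀`
  have hdiv : ∀ e ∈ E, e⁻¹ ∉ E → ∃ c ∈ E, e = x i0 * c := by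
    intro e he hinv
    obtain ⟨β, hβ, γ, hγ, hγE, heq⟩ := hBE.2.2 e he
    have hβp : (⟨β, hβ⟩ : BlowB_B A d x i0) ∈ p := by
      by_contra hcon
      have h1 := hE2 ⟨β, hβ⟩ hcon
      apply hinv
      rw [heq, mul_inv, inv_inv]
      exact E.mul_mem h1 (hBE.le hγ)
    rw [hp, Ideal.mem_span_singleton] at hβp
    obtain ⟨g, hg⟩ := hβp
    have h2 : β = x i0 * (g : K) := congrArg Subtype.val hg
    refine ⟨g * γ⁻¹, E.mul_mem (hBE.le g.2) hγE, ?_⟩
    rw [heq, h2, mul_assoc]
  have hdom : Dom A E := by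
    refine ⟨hAE, fun f hf hfE => ?_⟩
    by_contra hcon
    have hf0 : f ≠ 0 := by
      rintro rfl
      rw [inv_zero] at hcon
      exact hcon A.zero_mem
    have hG : BlowB_phi A d x i0 (MvPolynomial.C ⟨f, hf⟩) = f := by
      unfold BlowB_phi
      rw [MvPolynomial.aeval_C]
      rfl
    have h1 := (hmem (MvPolynomial.C ⟨f, hf⟩) ⟨f, BlowB_le A d x i0 hf⟩ hG.symm).2 (by
      unfold BlowB_red
      rw [MvPolynomial.map_C]
      have h2 : IsLocalRing.residue A ⟨f, hf⟩ = 0 := by
        rw [IsLocalRing.residue_eq_zero_iff, IsLocalRing.mem_maximalIdeal, mem_nonunits_iff,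
          BlowB_isUnit]
        rintro ⟨-, h3⟩
        exact hcon h3
      rw [h2, MvPolynomial.C_0])
    exact hE1 ⟨f, BlowB_le A d x i0 hf⟩ hfE (fun h' => hf0 (congrArg Subtype.val h')) h1
  -- a finitely generated ring
  have hR' : (R ⊔ Algebra.adjoin k (Set.range (blow d x i0))).FG :=
    hR.sup (Subalgebra.fg_def.2 ⟨_, Set.finite_range _, rfl⟩)
  have hR'E : IsLoc (R ⊔ Algebra.adjoin k (Set.range (blow d x i0))) E := by
    have hle : R ⊔ Algebra.adjoin k (Set.range (blow d x i0)) ≤ E := by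
      refine sup_le (hA.le.trans hAE) ?_
      rw [Algebra.adjoin_le_iff]
      rintro _ ⟨i, rfl⟩
      exact hBE.le (BlowB_z_mem A d x i0 i)
    refine ⟨hle, hBE.2.1, fun e he => ?_⟩
    obtain ⟨β, hβ, γ, hγ, hγE, heq⟩ := hBE.2.2 e he
    obtain ⟨r, hr, s, hs, hs0, hsA, h1⟩ := BlowB_denom hA hβ
    obtain ⟨r', hr', s', hs', hs0', hsA', h2⟩ := BlowB_denom hA hγ
    refine ⟨r * s', Subalgebra.mul_mem _ hr ((le_sup_left : R ≤ R ⊔ _) hs'), s * r',
      Subalgebra.mul_mem _ ((le_sup_left : R ≤ R ⊔ _) hs) hr', ?_, ?_⟩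
    · have h3 : (s * r')⁻¹ = s⁻¹ * (γ⁻¹ * s'⁻¹) := by
        rw [h2]
        field_simp
      rw [h3]
      exact E.mul_mem (hAE hsA) (E.mul_mem hγE (hAE hsA'))
    · rw [heq, h1, h2]
      field_simp
  have hNoeth : IsNoetherianRing E := hR'E.isNoetherianRing hR'
  have hEloc : IsLocalRing E := hBE.2.1
  have hfrac : IsFractionRing E K := isFractionRing_of_le hK (hA.le.trans hAE)
  have hnf : ¬ IsField E := by
    intro hfld
    obtain ⟨c, hc⟩ := hfld.mul_inv_cancel (a := ⟨x i0, hAE (hx.mem i0)⟩)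
      (fun h' => hx0 (congrArg Subtype.val h'))
    apply hxE
    have h1 : x i0 * (c : K) = 1 := congrArg Subtype.val hc
    rw [inv_eq_of_mul_eq_one_right h1]
    exact c.2
  have hprinc : (IsLocalRing.maximalIdeal E).IsPrincipal := by
    refine ⟨⟨⟨x i0, hAE (hx.mem i0)⟩, ?_⟩⟩
    ext e
    rw [IsLocalRing.mem_maximalIdeal, mem_nonunits_iff, BlowB_isUnit,
      Submodule.mem_span_singleton]
    constructor
    · intro h
      by_cases he0 : (e : K) = 0
      · exact ⟨0, by rw [zero_smul]; exact (Subtype.ext he0).symm⟩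
      · obtain ⟨c, hc, hce⟩ := hdiv e e.2 fun h' => h ⟨he0, h'⟩
        refine ⟨⟨c, hc⟩, Subtype.ext ?_⟩
        rw [hce, smul_eq_mul]
        show c * x i0 = x i0 * c
        ring
    · rintro ⟨c, hc⟩ ⟨h1, h2⟩
      have h3 : (e : K) = (c : K) * x i0 := by
        rw [← hc, smul_eq_mul]
        rfl
      apply hxE
      have h4 : (x i0)⁻¹ = (e : K)⁻¹ * c := by
        rw [h3]
        have hc0 : (c : K) ≠ 0 := fun h => h1 (by rw [h3, h, zero_mul])
        field_simp
      rw [h4]
      exact E.mul_mem h2 c.2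
  have hdvr : IsDVR E := by
    rw [isDVR_iff]
    exact ⟨((IsDiscreteValuationRing.TFAE E hnf).out 0 4).2 hprinc, hfrac⟩
  refine ⟨E, ⟨hdvr, _, hR', hR'E⟩, hdom, ?_, hBE⟩
  have h1 : 0 < ord E (x i0) := (ord_pos_iff hdvr hx0).2 hxE
  obtain ⟨t, ht0, ht1⟩ := exists_ord_one hdvr
  have htE : t ∈ E := (mem_iff hdvr ht0).2 (by omega)
  have htE' : t⁻¹ ∉ E := (ord_pos_iff hdvr ht0).1 (by omega)
  obtain ⟨c, hc, hct⟩ := hdiv t htE htE'
  have hc0 : c ≠ 0 := fun h => ht0 (by rw [hct, h, mul_zero])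
  have h2 := ord_mul hdvr hx0 hc0
  rw [← hct, ht1] at h2
  have h3 := (mem_iff hdvr hc0).1 hc
  omega

/-- The differentials of `z = blow x` generate the differentials of `E` (`coeff_of_isLoc`), so
`cord E = - ord_E (jac z)`, and `jac x = x₀^(d-1) jac z`: the discrepancy is `d - 1`. -/
theorem IsCoord.exists_blow [CharZero k]
    (hX : IsCompleteNormal X) {A : Subalgebra k K} (hA : A ∈ X) {d : ℕ} {x : Fin n → K}
    (hx : IsCoord b A d x) (hd : 0 < d) :
    ∃ E, IsPrimeDiv E ∧ Dom A E ∧ disc b X E = (d : ℚ) - 1 := by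
  classical
  obtain ⟨R, hR, hK, hRA, -⟩ := hX.exists_chart hA
  obtain ⟨i0, h0⟩ : ∃ i0 : Fin n, (i0 : ℕ) = 0 := ⟨⟨0, lt_of_lt_of_le hd hx.le⟩, rfl⟩
  have hx0 := hx.BlowB_ne_zero b i0
  obtain ⟨E, hE, hdom, hord, hloc⟩ := hx.exists_blow_dvr b hR hK hRA h0 hd
  refine ⟨E, hE, hdom, ?_⟩
  have hAE : A ≤ E := hdom.1
  have hzE : ∀ i, blow d x i0 i ∈ E := fun i => hloc.le (BlowB_z_mem A d x i0 i)
  have hjac := jac_blow b h0 hd hx.le hx0
  have hjz : jac b (blow d x i0) ≠ 0 := by
    intro h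
    rw [h, mul_zero] at hjac
    exact hx.ne hjac
  have hsingle : ∀ j : Fin n, ∃ a : Fin n → K, (∀ i, a i ∈ E) ∧
      KaehlerDifferential.D k K (blow d x i0 j) =
        ∑ i, a i • KaehlerDifferential.D k K (blow d x i0 i) := by
    intro j
    refine ⟨fun i => if i = j then 1 else 0, fun i => ?_, ?_⟩
    · beta_reduce
      split_ifs
      · exact E.one_mem
      · exact E.zero_mem
    · simp only [ite_smul, one_smul, zero_smul, Finset.sum_ite_eq', Finset.mem_univ, if_true]
  have hxi : ∀ j : Fin n, ∃ a : Fin n → K, (∀ i, a i ∈ E) ∧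
      KaehlerDifferential.D k K (x j) =
        ∑ i, a i • KaehlerDifferential.D k K (blow d x i0 i) := by
    intro j
    by_cases hj : j = i0
    · obtain ⟨a, ha, ha'⟩ := hsingle i0
      refine ⟨a, ha, ?_⟩
      rw [← ha', hj]
      unfold blow
      rw [if_pos rfl]
    · by_cases hjd : (j : ℕ) < d
      · obtain ⟨a, ha, ha'⟩ := hsingle j
        obtain ⟨c, hc, hc'⟩ := hsingle i0
        have h1 : x j = blow d x i0 j * blow d x i0 i0 := by
          unfold blow
          rw [if_neg hj, if_pos hjd, if_pos rfl]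
          field_simp
        refine ⟨fun i => blow d x i0 j * c i + blow d x i0 i0 * a i, fun i =>
          E.add_mem (E.mul_mem (hzE j) (hc i)) (E.mul_mem (hzE i0) (ha i)), ?_⟩
        rw [h1, Derivation.leibniz, ha', hc', Finset.smul_sum, Finset.smul_sum,
          ← Finset.sum_add_distrib]
        refine Finset.sum_congr rfl fun i _ => ?_
        rw [smul_smul, smul_smul, add_smul]
      · obtain ⟨a, ha, ha'⟩ := hsingle j
        refine ⟨a, ha, ?_⟩
        rw [← ha']
        unfold blow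
        rw [if_neg hj, if_neg hjd]
  have hspan := coeff_of_isLoc hloc _ rfl (blow d x i0) (fun r hr => by
    rcases hr with hr | ⟨j, rfl⟩
    · obtain ⟨a, ha, he⟩ := hx.span r hr
      choose c hc hc' using hxi
      refine ⟨fun i => ∑ j, a j * c j i, fun i => Subalgebra.sum_mem _ fun j _ =>
        E.mul_mem (hAE (ha j)) (hc j i), ?_⟩
      rw [he]
      simp only [hc', Finset.smul_sum, smul_smul, Finset.sum_smul]
      rw [Finset.sum_comm]
    · exact hsingle j)
  have hcord := cord_eq_of_span b hE hzE hjz hspan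
  rw [hx.disc_eq b hX hA hE hdom, hcord, hjac,
    ord_mul hE.1 (pow_ne_zero _ hx0) hjz, ord_pow hE.1 hx0, hord]
  have h2 : ((d - 1 : ℕ) : ℤ) = (d : ℤ) - 1 := by omega
  rw [h2]
  push_cast
  ring

end Flip28
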