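import Pool.Agent.Flip_h28.CoordDef
import Pool.Agent.Flip_h28.Dim
import Pool.Agent.Flip_h28.CordA

/-! # Existence of coordinates at smooth points -/

open scoped KaehlerDifferential TensorProduct

namespace Flip28

open IsLocalRing KaehlerDifferential

theorem CoordA_la {κ V U : Type*} [Field κ] [AddCommGroup V] [Module κ V] [Module.Finite κ V]
    [AddCommGroup U] [Module κ U] (φ : V →ₗ[κ] U) (hφ : Function.Surjective φ)
    {M S : Type*} (g : M → V) (hg : ∀ w ∈ LinearMap.ker φ, ∃ m, g m = w) (h : S → V)
    (hh : Submodule.span κ (Set.range (φ ∘ h)) = ⊤) :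
    ∃ (d : ℕ) (x : Fin d → M) (y : Fin (Module.finrank κ U) → S), (∀ i, g (x i) ≠ 0) ∧
      Submodule.span κ (Set.range (g ∘ x)) = LinearMap.ker φ ∧
      Submodule.span κ (Set.range (g ∘ x) ∪ Set.range (h ∘ y)) = ⊤ ∧
      Module.finrank κ V = d + Module.finrank κ U := by
  classical
  have : Module.Finite κ U := Module.Finite.of_surjective φ hφ
  let bW := Module.finBasis κ (LinearMap.ker φ)
  choose x hx using fun i => hg (bW i).1 (bW i).2
  obtain ⟨s, hs1, hs2⟩ := exists_linearIndependent κ (Set.range (φ ∘ h))
  obtain ⟨hs2, hs3⟩ := hs2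
  rw [hh] at hs2
  let bU : Module.Basis s κ U := Module.Basis.mk hs3 (by
    rw [Subtype.range_coe_subtype, Set.ofPred_mem_eq, hs2])
  let _ : Fintype s := FiniteDimensional.fintypeBasisIndex bU
  have hcard : Fintype.card s = Module.finrank κ U := (Module.finrank_eq_card_basis bU).symm
  let e : Fin (Module.finrank κ U) ≃ s := (Fintype.equivFinOfCardEq hcard).symm
  have hsel : ∀ u : s, ∃ y : S, φ (h y) = u.1 := fun u => hs1 u.2
  choose y' hy' using hsel
  have hxspan : Submodule.span κ (Set.range (g ∘ x)) = LinearMap.ker φ := by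
    have h1 : g ∘ x = fun i => (LinearMap.ker φ).subtype (bW i) := by
      funext i
      exact hx i
    rw [h1, Set.range_comp' , ← Submodule.map_span, bW.span_eq, Submodule.map_top,
      Submodule.range_subtype]
  refine ⟨Module.finrank κ (LinearMap.ker φ), x, fun j => y' (e j), ?_, hxspan, ?_, ?_⟩
  · intro i hi
    apply bW.ne_zero i
    rw [hx] at hi
    exact Subtype.ext hi
  · rw [eq_top_iff]
    intro v _
    have hv : φ v ∈ Submodule.span κ (Set.range (fun j => φ (h (y' (e j))))) := by
      have : Set.range (fun j => φ (h (y' (e j)))) = s := by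
        ext u
        constructor
        · rintro ⟨j, rfl⟩
          simp only [hy']
          exact (e j).2
        · intro hu
          refine ⟨e.symm ⟨u, hu⟩, ?_⟩
          simp only [hy', Equiv.apply_symm_apply]
      rw [this, hs2]
      trivial
    have h2 : Submodule.span κ (Set.range (fun j => φ (h (y' (e j))))) =
        (Submodule.span κ (Set.range (fun j => h (y' (e j))))).map φ := by
      rw [Submodule.map_span, ← Set.range_comp]
      rfl
    rw [h2] at hv
    obtain ⟨v', hv', hvv⟩ := hv
    have h3 : v - v' ∈ LinearMap.ker φ := by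
      rw [LinearMap.mem_ker, map_sub, hvv, sub_self]
    rw [← hxspan] at h3
    have h4 : v = (v - v') + v' := by abel
    rw [h4]
    exact Submodule.add_mem _ (Submodule.span_mono Set.subset_union_left h3)
      (Submodule.span_mono Set.subset_union_right hv')
  · have h5 := LinearMap.finrank_range_add_finrank_ker φ
    rw [LinearMap.range_eq_top.mpr hφ, finrank_top] at h5
    omega

theorem CoordA_local {k S : Type*} [Field k] [CharZero k] [CommRing S] [IsLocalRing S]
    [IsNoetherianRing S] [Algebra k S] [Algebra.EssFiniteType k S] [Algebra.FormallySmooth k S] :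
    ∃ (d : ℕ) (x : Fin d → S) (y : Fin (Module.finrank (ResidueField S) Ω[ResidueField S⁄k]) → S),
      (∀ i, x i ∈ maximalIdeal S) ∧
      (∀ i, x i ≠ 0) ∧
      maximalIdeal S = Ideal.span (Set.range x) ∧
      Submodule.span S (Set.range (fun i => D k S (x i)) ∪ Set.range (fun j => D k S (y j))) = ⊤ ∧
      Module.finrank (ResidueField S) (ResidueField S ⊗[S] Ω[S⁄k]) =
        d + Module.finrank (ResidueField S) Ω[ResidueField S⁄k] := by
  classical
  have hfin : Module.Finite S Ω[S⁄k] := inferInstance
  have hkf : Algebra.EssFiniteType k (ResidueField S) :=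
    inferInstanceAs (Algebra.EssFiniteType k (S ⧸ maximalIdeal S))
  have hsm : Algebra.FormallySmooth k (ResidueField S) := inferInstance
  have hsurj : Function.Surjective (algebraMap S (ResidueField S)) :=
    IsLocalRing.residue_surjective
  have hinj : Function.Injective (kerCotangentToTensor k S (ResidueField S)) :=
    (Algebra.FormallySmooth.kerCotangentToTensor_injective_iff hsurj).mpr inferInstance
  have hWmem : ∀ w ∈ LinearMap.ker (KaehlerDifferential.mapBaseChange k S (ResidueField S)),
      ∃ m : RingHom.ker (algebraMap S (ResidueField S)),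
      (1 : ResidueField S) ⊗ₜ[S] D k S m.1 = w := by
    intro w hw
    have h1 : w ∈ LinearMap.range (kerCotangentToTensor k S (ResidueField S)) := by
      rw [range_kerCotangentToTensor k S (ResidueField S) hsurj]
      exact hw
    obtain ⟨c, hc⟩ := h1
    obtain ⟨m, rfl⟩ := Ideal.toCotangent_surjective _ c
    exact ⟨m, hc⟩
  have hWfin : Module.Finite (ResidueField S) (ResidueField S ⊗[S] Ω[S⁄k]) := inferInstance
  have hspan : Submodule.span (ResidueField S)
      (Set.range ((KaehlerDifferential.mapBaseChange k S (ResidueField S)) ∘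
        (fun s : S => (1 : ResidueField S) ⊗ₜ[S] D k S s))) = ⊤ := by
    rw [← KaehlerDifferential.span_range_derivation k (ResidueField S)]
    congr 1
    ext u
    constructor
    · rintro ⟨s, rfl⟩
      exact ⟨algebraMap S (ResidueField S) s, by simp⟩
    · rintro ⟨c, rfl⟩
      obtain ⟨s, rfl⟩ := hsurj c
      exact ⟨s, by simp⟩
  obtain ⟨d, x, y, hx0, hx1, hxy, hd⟩ := CoordA_la
    (KaehlerDifferential.mapBaseChange k S (ResidueField S))
    (KaehlerDifferential.mapBaseChange_surjective k S (ResidueField S) hsurj)
    (fun m : RingHom.ker (algebraMap S (ResidueField S)) => (1 : ResidueField S) ⊗ₜ[S] D k S m.1)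
    hWmem (fun s : S => (1 : ResidueField S) ⊗ₜ[S] D k S s) hspan
  have hker : RingHom.ker (algebraMap S (ResidueField S)) = maximalIdeal S :=
    IsLocalRing.ker_residue
  refine ⟨d, fun i => (x i).1, y, ?_, ?_, ?_, ?_, hd⟩
  · intro i
    rw [← hker]
    exact (x i).2
  · intro i hi
    apply hx0 i
    simp only [hi, map_zero, TensorProduct.tmul_zero]
  · apply le_antisymm
    · have hNak : maximalIdeal S ≤ Ideal.span (Set.range fun i => (x i).1) ⊔
          maximalIdeal S • maximalIdeal S := by
        intro f hf
        have hf' : f ∈ RingHom.ker (algebraMap S (ResidueField S)) := by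
          rw [hker]
          exact hf
        have h1 : (1 : ResidueField S) ⊗ₜ[S] D k S f ∈
            LinearMap.ker (KaehlerDifferential.mapBaseChange k S (ResidueField S)) := by
          rw [LinearMap.mem_ker, KaehlerDifferential.mapBaseChange_tmul,
            KaehlerDifferential.map_D, RingHom.mem_ker.mp hf', map_zero, smul_zero]
        rw [← hx1] at h1
        obtain ⟨c, hc⟩ := (Submodule.mem_span_range_iff_exists_fun _).mp h1
        choose a ha using fun i => hsurj (c i)
        have h2 : kerCotangentToTensor k S (ResidueField S)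
            (Ideal.toCotangent _ (⟨f, hf'⟩ : RingHom.ker (algebraMap S (ResidueField S)))) =
            kerCotangentToTensor k S (ResidueField S)
              (Ideal.toCotangent _ (∑ i, a i • x i)) := by
          rw [map_sum, map_sum, kerCotangentToTensor_toCotangent]
          simp only [map_smul, kerCotangentToTensor_toCotangent]
          rw [← hc]
          apply Finset.sum_congr rfl
          intro i _
          simp only [Function.comp_apply]
          rw [← ha i]
          exact (IsScalarTower.algebraMap_smul (ResidueField S) (a i)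
            ((1 : ResidueField S) ⊗ₜ[S] D k S (x i).1))
        have h3 := hinj h2
        rw [Ideal.toCotangent_eq] at h3
        have h5 : f - ∑ i, a i * (x i).1 ∈
            RingHom.ker (algebraMap S (ResidueField S)) ^ 2 := by
          have hsum : ((∑ i, a i • x i : RingHom.ker (algebraMap S (ResidueField S))) : S) =
              ∑ i, a i * (x i).1 := by
            rw [AddSubmonoidClass.coe_finsetSum]
            rfl
          rw [← hsum]
          exact h3
        have h6 := Ideal.pow_right_mono hker.le 2 h5
        have h4 : f = (∑ i, a i * (x i).1) + (f - ∑ i, a i * (x i).1) := by ring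
        rw [h4]
        refine Submodule.add_mem_sup ?_ ?_
        · exact Ideal.sum_mem _ (fun i _ => Ideal.mul_mem_left _ _
            (Ideal.subset_span ⟨i, rfl⟩))
        · rw [smul_eq_mul, ← pow_two]
          exact h6
      exact Submodule.le_of_le_smul_of_le_jacobson_bot (IsNoetherian.noetherian _)
        (by rw [jacobson_eq_maximalIdeal]; exact bot_ne_top) hNak
    · rw [Ideal.span_le]
      rintro _ ⟨i, rfl⟩
      rw [← hker]
      exact (x i).2
  · rw [← map_tensorProduct_mk_eq_top, Submodule.map_span,
      ← Submodule.restrictScalars_span S (ResidueField S) Ideal.Quotient.mk_surjective,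
      Submodule.restrictScalars_eq_top_iff, ← hxy, Set.image_union, ← Set.range_comp,
      ← Set.range_comp]
    rfl

variable {k K : Type*} [Field k] [Field K] [Algebra k K] {n : ℕ}
  (b : Module.Basis (Fin n) K Ω[K⁄k]) {X : Set (Subalgebra k K)}

/-- A smooth local ring has coordinates: `Ω_A` is free of rank `n`, and `m/m² → Ω_A ⊗ κ` is
injective because `κ` is formally smooth over the perfect field `k`; so generators of `m` (a
basis of `m/m²`) can be completed by elements of `A` so that the differentials are a basis of
`Ω_A ⊗ κ`, hence of `Ω_A` (Nakayama).  The number of generators is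
`n - dim Ω_κ = n - trdeg κ = dim A`. -/
theorem exists_coord [CharZero k] [Algebra.EssFiniteType k K] {R A : Subalgebra k K}
    (hR : R.FG) (hK : IsFractionRing R K) (h : IsLoc R A) (hs : Algebra.FormallySmooth k A) :
    ∃ (d : ℕ) (x : Fin n → K), IsCoord b A d x := by
  classical
  have hloc : IsLocalRing A := h.2.1
  have hnoe : IsNoetherianRing A := h.isNoetherianRing hR
  have hess : Algebra.EssFiniteType k A := h.essFiniteType hR
  have hfr : IsFractionRing A K := isFractionRing_of_le hK h.1
  obtain ⟨d, x, y, hx0, hx1, hm, hsp, hdim⟩ := CoordA_local (k := k) (S := A)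
  have hkf : Algebra.EssFiniteType k (ResidueField A) :=
    inferInstanceAs (Algebra.EssFiniteType k (A ⧸ maximalIdeal A))
  have hfin : Module.Finite A Ω[A⁄k] := inferInstance
  have hfree : Module.Free A Ω[A⁄k] := Module.free_of_flat_of_isLocalRing
  have het : Algebra.FormallyEtale A K :=
    Algebra.FormallyEtale.of_isLocalization (nonZeroDivisors A)
  have hnK : Module.finrank K Ω[K⁄k] = n := by
    rw [Module.finrank_eq_card_basis b, Fintype.card_fin]
  have hn1 : Module.finrank A Ω[A⁄k] = n := by
    rw [← hnK, ← (tensorKaehlerEquivOfFormallyEtale k A K).finrank_eq,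
      Module.finrank_baseChange]
  have hn2 : n = d + Module.finrank (ResidueField A) Ω[ResidueField A⁄k] := by
    rw [← hdim, Module.finrank_baseChange, hn1]
  obtain ⟨d', e', hd', he', hde⟩ := dim_formula hR hK h
  have htrκ : Algebra.trdeg k (ResidueField A) =
      Module.finrank (ResidueField A) Ω[ResidueField A⁄k] := trdeg_eq_finrank
  have htrK : Algebra.trdeg k K = Module.finrank K Ω[K⁄k] := trdeg_eq_finrank
  have he2 : e' = Module.finrank (ResidueField A) Ω[ResidueField A⁄k] := by
    have := he'.symm.trans htrκ
    exact_mod_cast this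
  have hd2 : d' + e' = n := by
    have := hde.symm.trans htrK
    rw [hnK] at this
    exact_mod_cast this
  have hdd : d' = d := by omega
  generalize hE : Module.finrank (ResidueField A) Ω[ResidueField A⁄k] = e at *
  subst hn2
  set Z : Fin (d + e) → A := Fin.append x y with hZ
  have hZl : ∀ i : Fin d, Z (Fin.castAdd e i) = x i := fun i => Fin.append_left _ _ _
  have hspan : Submodule.span A (Set.range (fun i => D k A (Z i))) = ⊤ := by
    rw [← hsp]
    congr 1
    ext u
    constructor
    · rintro ⟨i, rfl⟩
      refine Fin.addCases (fun i => ?_) (fun j => ?_) i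
      · left
        exact ⟨i, by simp [Z]⟩
      · right
        exact ⟨j, by simp [Z]⟩
    · rintro (⟨i, rfl⟩ | ⟨j, rfl⟩)
      · exact ⟨Fin.castAdd e i, by simp [Z]⟩
      · exact ⟨Fin.natAdd d j, by simp [Z]⟩
  have hspanK : ∀ f : A, ∃ a : Fin (d + e) → A, D k K (f : K) =
      ∑ i, (a i : K) • D k K (Z i : K) := by
    intro f
    have h1 : D k A f ∈ Submodule.span A (Set.range (fun i => D k A (Z i))) := by
      rw [hspan]
      trivial
    obtain ⟨a, ha⟩ := (Submodule.mem_span_range_iff_exists_fun _).mp h1
    refine ⟨a, ?_⟩
    have h2 := congrArg (KaehlerDifferential.map k k A K) ha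
    rw [map_sum, KaehlerDifferential.map_D] at h2
    simp only [map_smul, KaehlerDifferential.map_D] at h2
    exact h2.symm
  have htop : ⊤ ≤ Submodule.span K (Set.range (fun i => D k K (Z i : K))) := by
    rw [← KaehlerDifferential.span_range_map_derivation_of_isLocalization k A K
      (nonZeroDivisors A), Submodule.span_le]
    rintro _ ⟨f, rfl⟩
    simp only [Function.comp_apply, KaehlerDifferential.map_D]
    obtain ⟨a, ha⟩ := hspanK f
    change D k K (f : K) ∈ _
    rw [ha]
    exact Submodule.sum_mem _ (fun i _ => Submodule.smul_mem _ _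
      (Submodule.subset_span ⟨i, rfl⟩))
  have hinvA : ∀ f : A, f ∈ maximalIdeal A → f ≠ 0 → (f : K)⁻¹ ∉ A := by
    intro f hf hf0 hinv
    apply (IsLocalRing.mem_maximalIdeal _).mp hf
    refine IsUnit.of_mul_eq_one ⟨(f : K)⁻¹, hinv⟩ (Subtype.ext ?_)
    change (f : K) * (f : K)⁻¹ = 1
    exact mul_inv_cancel₀ (fun h => hf0 (Subtype.ext h))
  refine ⟨d, fun i => (Z i : K), ?_⟩
  refine ⟨fun i => (Z i).2, ?_, ?_, ?_, ?_, ?_, ?_⟩
  · have hli : LinearIndependent K (fun i => D k K (Z i : K)) :=
      linearIndependent_of_top_le_span_of_card_eq_finrank htop (by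
        rw [Fintype.card_fin, hnK])
    exact ((Module.Basis.is_basis_iff_det b).mp ⟨hli, top_le_iff.mp htop⟩).ne_zero
  · intro f hf
    obtain ⟨a, ha⟩ := hspanK ⟨f, hf⟩
    exact ⟨fun i => (a i : K), fun i => (a i).2, ha⟩
  · intro i hi
    have hi2 : i = Fin.castAdd e ⟨i, hi⟩ := rfl
    rw [hi2, hZl]
    exact hinvA _ (hx0 _) (hx1 _)
  · intro f hf hf'
    have hfm : (⟨f, hf⟩ : A) ∈ maximalIdeal A := by
      rw [IsLocalRing.mem_maximalIdeal]
      intro hu
      obtain ⟨g, hg⟩ := hu.exists_right_inv
      apply hf'
      have h1 : f * (g : K) = 1 := congrArg Subtype.val hg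
      have h2 : f⁻¹ = g := by
        have hf0 : f ≠ 0 := by
          rintro rfl
          rw [zero_mul] at h1
          exact zero_ne_one h1
        field_simp
        rw [mul_comm] at h1
        first | exact h1.symm | (rw [mul_comm]; exact h1.symm)
      rw [h2]
      exact g.2
    rw [hm] at hfm
    obtain ⟨c, hc⟩ := (Ideal.mem_span_range_iff_exists_fun).mp hfm
    refine ⟨Fin.append (fun i => (c i : K)) (fun _ => 0), ?_, ?_⟩
    · intro i
      refine Fin.addCases (fun i => ?_) (fun j => ?_) i
      · rw [Fin.append_left]
        exact (c i).2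
      · rw [Fin.append_right]
        exact A.zero_mem
    · rw [low, Finset.sum_filter, Fin.sum_univ_add]
      simp only [Fin.append_left, Fin.append_right, Fin.val_castAdd, Fin.is_lt, if_true, zero_mul,
        ite_self, Finset.sum_const_zero, add_zero, hZl]
      have h3 := congrArg Subtype.val hc
      have h4 : ((∑ i, c i * x i : A) : K) = ∑ i, (c i : K) * (x i : K) := by
        rw [AddSubmonoidClass.coe_finsetSum]
        rfl
      exact h3.symm.trans h4
  · rw [hd', hdd]
  · omega

end Flip28
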