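import Pool.Agent.Flip_h28.CoordDef
import Pool.Agent.Flip_h28.Disc

/-! # Coordinates and the canonical sheaf -/

open scoped KaehlerDifferential

namespace Flip28

variable {k K : Type*} [Field k] [Field K] [Algebra k K] {n : ℕ}
  (b : Module.Basis (Fin n) K Ω[K⁄k]) {X : Set (Subalgebra k K)}

/-- `jac x` generates the canonical sheaf at `A` -/
theorem IsCoord.isGen (hX : IsCompleteNormal X) {A : Subalgebra k K} (hA : A ∈ X) {d : ℕ}
    {x : Fin n → K} (hx : IsCoord b A d x) : IsGen b X 1 A (jac b x) := by
  refine ⟨hx.ne, fun P hP hd hAP => ?_⟩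
  have hE := hX.isPrimeDiv hP hd
  have hloc := hX.isLoc_of_le hA hP hAP
  have hspan := coeff_of_isLoc hloc (A : Set K) (Algebra.adjoin_eq A).symm x (fun r hr => by
    obtain ⟨a, ha, e⟩ := hx.span r hr
    exact ⟨a, fun i => hAP (ha i), e⟩)
  have := cord_eq_of_span b hE (fun i => hAP (hx.mem i)) hx.ne hspan
  unfold kord
  rw [this]
  ring

/-- the discrepancy of `E` over the smooth point `A` -/
theorem IsCoord.disc_eq (hX : IsCompleteNormal X) {A E : Subalgebra k K} (hA : A ∈ X) {d : ℕ}
    {x : Fin n → K} (hx : IsCoord b A d x) (hE : IsPrimeDiv E) (hd : Dom A E) :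
    disc b X E = (ord E (jac b x) + cord b E : ℤ) := by
  have h := Flip28.disc_eq b hX hE hA hd one_pos (hx.isGen b hX hA)
  rw [h, kord]
  simp

/-- derivations dual to the coordinates -/
theorem IsCoord.exists_deriv {A : Subalgebra k K} {d : ℕ} {x : Fin n → K}
    (hx : IsCoord b A d x) : ∃ D : Fin n → Derivation k K K, (∀ i, ∀ f ∈ A, D i f ∈ A) ∧
      ∀ i j, D i (x j) = if i = j then 1 else 0 := by
  classical
  have hu : IsUnit (b.det (fun i => KaehlerDifferential.D k K (x i))) := IsUnit.mk0 _ hx.ne
  have hb := (Module.Basis.is_basis_iff_det b).2 hu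
  let B : Module.Basis (Fin n) K Ω[K⁄k] := Module.Basis.mk hb.1 hb.2.ge
  have hB : ∀ j, B j = KaehlerDifferential.D k K (x j) := fun j => by
    simp [B]
  have key : ∀ i j, B.coord i (KaehlerDifferential.D k K (x j)) = if i = j then 1 else 0 := by
    intro i j
    rw [← hB j, Module.Basis.coord_apply, Module.Basis.repr_self, Finsupp.single_apply]
    simp [eq_comm]
  refine ⟨fun i => (B.coord i).compDer (KaehlerDifferential.D k K), ?_, ?_⟩
  · intro i f hf
    obtain ⟨a, ha, e⟩ := hx.span f hf
    have : ((B.coord i).compDer (KaehlerDifferential.D k K)) f = a i := by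
      change B.coord i (KaehlerDifferential.D k K f) = a i
      rw [e, map_sum]
      simp only [map_smul, key, smul_eq_mul, mul_ite, mul_one, mul_zero]
      simp
    rw [this]
    exact ha i
  · intro i j
    exact key i j

end Flip28
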