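import Mathlib

/-!
# Complete normal varieties in the language of Zariski, canonical divisors, flips

`k` is a field, `K` a finitely generated field extension of `k`.  A complete normal variety over
`k` with function field `K` is given by the set `X` of the local rings of its points, which are
local subrings of `K` (subalgebras over `k`).
-/

open scoped KaehlerDifferential

namespace Flip28

variable {k K : Type*} [Field k] [Field K] [Algebra k K]

/-- `A` is the localization of `R` at a prime ideal: `A` is a local ring and every element of `A`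
is a quotient of two elements of `R` the denominator being invertible in `A`. -/
def IsLoc (R A : Subalgebra k K) : Prop :=
  R ≤ A ∧ IsLocalRing A ∧ ∀ x ∈ A, ∃ r ∈ R, ∃ s ∈ R, s⁻¹ ∈ A ∧ x = r * s⁻¹

/-- `B` dominates `A`: `A ⊆ B` and the elements of `A` invertible in `B` are invertible in `A`. -/
def Dom (A B : Subalgebra k K) : Prop := A ≤ B ∧ ∀ x ∈ A, x⁻¹ ∈ B → x⁻¹ ∈ A

/-- `V` is a valuation ring of `K/k` (possibly `K` itself). -/
def IsVal (V : Subalgebra k K) : Prop := ∀ x : K, x ∈ V ∨ x⁻¹ ∈ V

/-- `X` is the set of local rings of a complete normal variety over `k` with function field `K`: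
a finite union of affine models such that every valuation ring of `K/k` has exactly one centre
on `X`, and all local rings are integrally closed. -/
structure IsCompleteNormal (X : Set (Subalgebra k K)) : Prop where
  charts : ∃ C : Set (Subalgebra k K), C.Finite ∧
    (∀ R ∈ C, R.FG ∧ IsFractionRing R K) ∧ ∀ A, A ∈ X ↔ ∃ R ∈ C, IsLoc R A
  centre : ∀ V : Subalgebra k K, IsVal V → ∃! A, A ∈ X ∧ Dom A V
  normal : ∀ A ∈ X, IsIntegrallyClosed A

/-- `P` is a discrete valuation ring with quotient field `K` and `t` is a uniformizer of it. -/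
def IsUnif (P : Subalgebra k K) (t : K) : Prop :=
  t ∈ P ∧ t⁻¹ ∉ P ∧ ∀ x : K, x ≠ 0 → ∃ n : ℤ, x * t ^ (-n) ∈ P ∧ (x * t ^ (-n))⁻¹ ∈ P

/-- `P` is a discrete valuation ring with quotient field `K`. -/
def IsDVR (P : Subalgebra k K) : Prop := ∃ t, IsUnif P t

open Classical in
/-- The order of `x ≠ 0` with respect to the discrete valuation ring `P`. -/
noncomputable def ord (P : Subalgebra k K) (x : K) : ℤ :=
  if h : ∃ n : ℤ, x ≠ 0 ∧ ∃ t, IsUnif P t ∧ x * t ^ (-n) ∈ P ∧ (x * t ^ (-n))⁻¹ ∈ P
  then h.choose else 0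

/-- A prime divisor over `K/k`: a discrete valuation ring of `K/k` which is a localization of a
finitely generated algebra. -/
def IsPrimeDiv (E : Subalgebra k K) : Prop :=
  IsDVR E ∧ ∃ R : Subalgebra k K, R.FG ∧ IsLoc R E

variable {n : ℕ} (b : Module.Basis (Fin n) K Ω[K⁄k])

/-- `df₁ ∧ ... ∧ dfₙ = jac b f • ω`, where `ω` is the rational `n`-form `b₁ ∧ ... ∧ bₙ`. -/
noncomputable def jac (f : Fin n → K) : K := b.det (fun i => KaehlerDifferential.D k K (f i))

/-- The order of the rational `n`-form `ω = b₁ ∧ ... ∧ bₙ` along the discrete valuation ring `P`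
(the generators of `ω_P` are the forms `df₁ ∧ ... ∧ dfₙ` with `fᵢ ∈ P` of smallest order). -/
noncomputable def cord (P : Subalgebra k K) : ℤ :=
  sSup {z : ℤ | ∃ f : Fin n → K, (∀ i, f i ∈ P) ∧ jac b f ≠ 0 ∧ z = - ord P (jac b f)}

/-- The order along `P` of the rational section `g ω^m` of the `m`-th power of the canonical
sheaf. -/
noncomputable def kord (m : ℤ) (P : Subalgebra k K) (g : K) : ℤ := ord P g + m * cord b P

/-- `g ω^m` generates `O_X(m K_X)` at the point `A` of `X`. -/
def IsGen (X : Set (Subalgebra k K)) (m : ℤ) (A : Subalgebra k K) (g : K) : Prop :=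
  g ≠ 0 ∧ ∀ P ∈ X, IsDVR P → A ≤ P → kord b m P g = 0

/-- The sections of `O_X(m K_X)` on the inverse image of `Spec y`, where `y` is a local ring of
a variety below `X` (for `y = ⊥ = k`: the global sections). -/
def Sec (X : Set (Subalgebra k K)) (m : ℤ) (y : Subalgebra k K) : Set K :=
  {g | g ≠ 0 → ∀ P ∈ X, IsDVR P → y ≤ P → 0 ≤ kord b m P g}

/-- `m K_X` is relatively very ample for the morphism `X → Y`. -/
def VeryAmple (X Y : Set (Subalgebra k K)) (m : ℤ) : Prop :=
  ∀ A ∈ X, ∀ y ∈ Y, Dom y A → ∃ h ∈ Sec b X m y, IsGen b X m A h ∧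
    IsLoc (Algebra.adjoin k ((y : Set K) ∪ {x | ∃ g ∈ Sec b X m y, x = g * h⁻¹})) A

/-- `X'` is the flip of `X → Y`: `Y` and `X'` are complete normal varieties, `X → Y` and
`X' → Y` are birational morphisms, the second one is small, some negative multiple of `K_X` and
some positive multiple of `K_X'` are relatively very ample over `Y`, and `Y` is not
`ℚ`-Gorenstein. -/
structure IsFlip (X Y X' : Set (Subalgebra k K)) : Prop where
  mY : IsCompleteNormal Y
  mX' : IsCompleteNormal X'
  down : ∀ A ∈ X, ∃ y ∈ Y, Dom y A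
  down' : ∀ A ∈ X', ∃ y ∈ Y, Dom y A
  small' : ∀ P ∈ X', IsDVR P → P ∈ Y
  neg : ∃ m : ℤ, 0 < m ∧ VeryAmple b X Y (-m)
  pos : ∃ m : ℤ, 0 < m ∧ VeryAmple b X' Y m
  notQG : ∃ y ∈ Y, ∀ m : ℤ, 0 < m → ∀ g, ¬ IsGen b Y m y g

open Classical in
/-- The discrepancy `a(E, X)` of the prime divisor `E` over the `ℚ`-Gorenstein variety `X`: if
`g ω^m` generates `O_X(m K_X)` at the centre of `E` then it is the order of `g ω^m` along `E`
divided by `m`. -/
noncomputable def disc (X : Set (Subalgebra k K)) (E : Subalgebra k K) : ℚ :=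
  if h : ∃ a : ℚ, ∃ A ∈ X, Dom A E ∧ ∃ m : ℤ, 0 < m ∧ ∃ g, IsGen b X m A g ∧
    a = (kord b m E g : ℚ) / m
  then h.choose else 0

end Flip28
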