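import Pool.Agent.Flip_h28.DegA
import Pool.Agent.Flip_h28.DimB

/-! # Gauss valuations -/

namespace Flip28

/-- the values of the non-zero polynomials with coefficients in `k` in the elements `s_i` are
units of `v`; i.e. the residues of the `s_i` are algebraically independent over `k` -/
def ResIndep {k F : Type*} [Field k] [Field F] [Algebra k F] {d : ℕ} (v : Subalgebra k F)
    (s : Fin d → F) : Prop :=
  (∀ i, s i ∈ v) ∧ ∀ P : MvPolynomial (Fin d) k, P ≠ 0 →
    MvPolynomial.aeval s P ≠ 0 ∧ (MvPolynomial.aeval s P)⁻¹ ∈ v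

/-- `t` is a localization of a finitely generated algebra with quotient field `T` -/
theorem DegB_isLoc {k T : Type*} [Field k] [CharZero k] [Field T] [Algebra k T]
    [Algebra.EssFiniteType k T] (hT : Algebra.trdeg k T = 1) (t : Subalgebra k T)
    (ht : IsDVR t) : ∃ S : Subalgebra k T, S.FG ∧ IsFractionRing S T ∧ IsLoc S t := by
  obtain ⟨τ, hτ⟩ := id ht
  have hτ0 := hτ.ne_zero
  have htr : Transcendental k τ := by
    intro halg
    apply hτ.2.1
    have h1 : τ ∈ Algebra.adjoin k {τ} := Algebra.self_mem_adjoin_singleton k τ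
    have h2 := Subalgebra.inv_mem_of_algebraic (Algebra.adjoin k {τ}) (x := ⟨τ, h1⟩) halg
    exact (Algebra.adjoin_le (by simpa using hτ.1)) h2
  let : Algebra (Polynomial k) T := (Polynomial.aeval τ).toRingHom.toAlgebra
  have hmap : ∀ p : Polynomial k, algebraMap (Polynomial k) T p = Polynomial.aeval τ p :=
    fun p => rfl
  have : IsScalarTower k (Polynomial k) T :=
    IsScalarTower.of_algebraMap_eq fun x => ((Polynomial.aeval τ).commutes x).symm
  have hinj : Function.Injective (algebraMap (Polynomial k) T) :=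
    transcendental_iff_injective.1 htr
  have : FaithfulSMul (Polynomial k) T := (faithfulSMul_iff_algebraMap_injective _ _).2 hinj
  have halg : Algebra.IsAlgebraic (Polynomial k) T := by
    have h1 := lift_trdeg_add_eq k (Polynomial k) T
    rw [Polynomial.trdeg_of_isDomain, hT, Cardinal.lift_one, Cardinal.lift_one] at h1
    have h2 : Algebra.trdeg (Polynomial k) T = 0 := by
      rw [← Cardinal.lift_eq_zero]
      generalize Cardinal.lift (Algebra.trdeg (Polynomial k) T) = c at h1
      have hc : c < Cardinal.aleph0 := by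
        refine lt_of_le_of_lt ?_ Cardinal.one_lt_aleph0
        rw [← h1]
        exact le_add_self
      obtain ⟨m, rfl⟩ := Cardinal.lt_aleph0.1 hc
      have h3 : 1 + m = 1 := by exact_mod_cast h1
      have h4 : m = 0 := by omega
      rw [h4]
      simp
    exact trdeg_eq_zero_iff.1 h2
  -- the field of fractions of `k[τ]`
  let : Algebra (FractionRing (Polynomial k)) T := FractionRing.liftAlgebra (Polynomial k) T
  have : IsScalarTower (Polynomial k) (FractionRing (Polynomial k)) T :=
    FractionRing.isScalarTower_liftAlgebra (Polynomial k) T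
  have : IsScalarTower k (FractionRing (Polynomial k)) T := by
    refine IsScalarTower.of_algebraMap_eq fun x => ?_
    rw [IsScalarTower.algebraMap_apply k (Polynomial k) T,
      IsScalarTower.algebraMap_apply k (Polynomial k) (FractionRing (Polynomial k)),
      ← IsScalarTower.algebraMap_apply (Polynomial k) (FractionRing (Polynomial k)) T]
  have : Algebra.IsAlgebraic (FractionRing (Polynomial k)) T :=
    (IsFractionRing.comap_isAlgebraic_iff (A := Polynomial k) (K := FractionRing (Polynomial k))).1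
      halg
  have : Algebra.EssFiniteType (FractionRing (Polynomial k)) T :=
    Algebra.EssFiniteType.of_comp k (FractionRing (Polynomial k)) T
  have : FiniteDimensional (FractionRing (Polynomial k)) T :=
    Algebra.finite_of_essFiniteType_of_isAlgebraic
  have : CharZero (FractionRing (Polynomial k)) :=
    charZero_of_injective_algebraMap
      (IsFractionRing.injective (Polynomial k) (FractionRing (Polynomial k)))
  have hsep : Algebra.IsSeparable (FractionRing (Polynomial k)) T := inferInstance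
  -- the integral closure
  have hD : IsDedekindDomain (integralClosure (Polynomial k) T) :=
    integralClosure.isDedekindDomain_fractionRing (Polynomial k) T
  have hfin : Module.Finite (Polynomial k) (integralClosure (Polynomial k) T) :=
    IsIntegralClosure.finite (Polynomial k) (FractionRing (Polynomial k)) T _
  have hfr : IsFractionRing (integralClosure (Polynomial k) T) T :=
    integralClosure.isFractionRing_of_finite_extension (FractionRing (Polynomial k)) T
  set S : Subalgebra k T := (integralClosure (Polynomial k) T).restrictScalars k with hS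
  have hSFG : S.FG := by
    rw [Subalgebra.fg_iff_finiteType]
    have h1 : Algebra.FiniteType (Polynomial k) (integralClosure (Polynomial k) T) :=
      inferInstance
    exact Algebra.FiniteType.trans (R := k) (S := Polynomial k)
      (A := integralClosure (Polynomial k) T) inferInstance h1
  have hSF : IsFractionRing S T := hfr
  have hSD : IsDedekindDomain S := hD
  have hloct : IsLocalRing t := ht.isVal.isLocalRing
  obtain ⟨hdvr, hfrt⟩ := isDVR_iff.1 ht
  have hSt : S ≤ t := by
    intro x hx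
    have h1 : IsIntegral (Polynomial k) x := hx
    have h2 : IsIntegral t x := by
      obtain ⟨p, hp, hpx⟩ := h1
      refine ⟨p.map (Polynomial.aeval (⟨τ, hτ.1⟩ : t)).toRingHom, hp.map _, ?_⟩
      rw [Polynomial.eval₂_map]
      have h3 : (algebraMap t T).comp (Polynomial.aeval (⟨τ, hτ.1⟩ : t)).toRingHom =
          algebraMap (Polynomial k) T := by
        ext z
        · simp only [RingHom.comp_apply, AlgHom.toRingHom_eq_coe, RingHom.coe_coe,
            Polynomial.aeval_C, hmap]
          rfl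
        · simp only [RingHom.comp_apply, AlgHom.toRingHom_eq_coe, RingHom.coe_coe,
            Polynomial.aeval_X, hmap]
          rfl
      rw [h3]
      exact hpx
    obtain ⟨y, hy⟩ := (IsIntegrallyClosed.isIntegral_iff (R := t) (K := T)).1 h2
    rw [← hy]
    exact y.2
  refine ⟨S, hSFG, hSF, ?_⟩
  obtain ⟨A, hA, hAt⟩ := exists_cen S t hSt hloct
  have hτS : τ ∈ S := by
    have h1 : IsIntegral (Polynomial k) (algebraMap (Polynomial k) T Polynomial.X) :=
      isIntegral_algebraMap
    rw [hmap, Polynomial.aeval_X] at h1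
    exact h1
  have hAloc := hA.2.1
  have hAD : IsDVR A := by
    let := (Subalgebra.inclusion hA.1).toRingHom.toAlgebra
    obtain ⟨p, hp, hpm, hAP⟩ := hA.isLocalization
    have hp0 : p ≠ ⊥ := by
      intro h0
      have h1 : (⟨τ, hτS⟩ : S) ∈ p := by
        rw [hpm]
        right
        intro h
        exact hτ.2.1 (hAt.1 h)
      rw [h0, Ideal.mem_bot] at h1
      exact hτ0 (congrArg Subtype.val h1)
    have h2 : IsDiscreteValuationRing A :=
      IsLocalization.AtPrime.isDiscreteValuationRing_of_dedekind_domain S hp0 A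
    exact isDVR_iff.2 ⟨h2, isFractionRing_of_le hSF hA.1⟩
  have hAe := hAD.eq_of_le hAt.1 ht.ne_top
  rw [hAe]
  exact hA

/-- the residue field is finite over `k` -/
theorem DegB_fin {k T : Type*} [Field k] [CharZero k] [Field T] [Algebra k T]
    [Algebra.EssFiniteType k T] (hT : Algebra.trdeg k T = 1) (t : Subalgebra k T)
    (ht : IsDVR t) [IsLocalRing t] : FiniteDimensional k (IsLocalRing.ResidueField t) := by
  obtain ⟨S, hS, hSF, hl⟩ := DegB_isLoc hT t ht
  obtain ⟨d, e, h1, h2, h3⟩ := dim_formula hS hSF hl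
  obtain ⟨hdvr, hfrt⟩ := isDVR_iff.1 ht
  rw [IsDiscreteValuationRing.ringKrullDim_eq_one] at h1
  have hd : d = 1 := by exact_mod_cast h1.symm
  rw [hT, hd] at h3
  have he : e = 0 := by
    have : 1 = 1 + e := by exact_mod_cast h3
    omega
  rw [he, Nat.cast_zero] at h2
  have h4 : Algebra.IsAlgebraic k (IsLocalRing.ResidueField t) := trdeg_eq_zero_iff.1 h2
  have h5 : Algebra.EssFiniteType k t := hl.essFiniteType hS
  have h6 : Algebra.EssFiniteType t (IsLocalRing.ResidueField t) := inferInstance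
  have h7 : Algebra.EssFiniteType k (IsLocalRing.ResidueField t) :=
    Algebra.EssFiniteType.comp k t _
  exact Algebra.finite_of_essFiniteType_of_isAlgebraic

/-- every discrete valuation ring of a function field of one variable is a prime divisor with
residue field finite over `k` -/
theorem isPrimeDiv_of_trdeg_one {k T : Type*} [Field k] [CharZero k] [Field T] [Algebra k T]
    [Algebra.EssFiniteType k T] (hT : Algebra.trdeg k T = 1) (t : Subalgebra k T)
    (ht : IsDVR t) : IsPrimeDiv t ∧ 0 < resDeg t ∅ := by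
  obtain ⟨S, hS, hSF, hl⟩ := DegB_isLoc hT t ht
  refine ⟨⟨ht, S, hS, hl⟩, ?_⟩
  have hloc := hl.2.1
  unfold resDeg
  rw [dif_pos hloc]
  have := DegB_fin hT t ht
  have : Module.Finite (IntermediateField.adjoin k {y : IsLocalRing.ResidueField t |
      ∃ a : t, (a : T) ∈ (∅ : Set T) ∧ y = IsLocalRing.residue t a})
      (IsLocalRing.ResidueField t) := Module.Finite.of_restrictScalars_finite k _ _
  exact Module.finrank_pos

/-- the map of residue fields -/
theorem DegB_map {k T F : Type*} [Field k] [Field T] [Field F] [Algebra k T]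
    [Algebra k F] [Algebra T F] [IsScalarTower k T F] {t : Subalgebra k T} {v : Subalgebra k F}
    [IsLocalRing t] [IsLocalRing v] (hvt : ∀ x : T, x ∈ t ↔ algebraMap T F x ∈ v) :
    ∃ f : IsLocalRing.ResidueField t →ₐ[k] IsLocalRing.ResidueField v,
      ∀ x : t, f (IsLocalRing.residue t x) =
        IsLocalRing.residue v ⟨algebraMap T F x, (hvt x).1 x.2⟩ := by
  let g : t →ₐ[k] v := ((IsScalarTower.toAlgHom k T F).comp t.val).codRestrict v
    fun x => (hvt x).1 x.2
  have hg : ∀ x : t, g x = ⟨algebraMap T F x, (hvt x).1 x.2⟩ := fun x => rfl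
  have : IsLocalHom g.toRingHom := by
    refine ⟨fun a ha => ?_⟩
    have h1 : IsUnit (g a) := ha
    rw [LocAlg_unit] at h1 ⊢
    obtain ⟨h2, h3⟩ := h1
    have h4 : ((g a : v) : F) = algebraMap T F a := rfl
    rw [h4] at h2 h3
    refine ⟨fun h0 => h2 (by rw [h0, map_zero]), ?_⟩
    rw [← map_inv₀] at h3
    exact (hvt _).2 h3
  refine ⟨{ IsLocalRing.ResidueField.map g.toRingHom with
    commutes' := fun c => by
      change IsLocalRing.residue v (g (algebraMap k t c)) = _
      rw [g.commutes]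
      rfl }, fun x => rfl⟩

/-- degrees over purely transcendental fields -/
theorem DegB_finrank {k E L : Type*} [Field k] [Field E] [Field L] [Algebra k E] [Algebra k L]
    [Algebra E L] [IsScalarTower k E L] [Algebra.IsAlgebraic k E] {d : ℕ} {s : Fin d → L}
    (hs : AlgebraicIndependent E s)
    (htop : ∀ x : L, ∃ P Q : MvPolynomial (Fin d) E,
      x = MvPolynomial.aeval s P / MvPolynomial.aeval s Q) :
    Module.finrank (IntermediateField.adjoin k (Set.range s)) L = Module.finrank k E := by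
  have hsk : AlgebraicIndependent k s := hs.restrictScalars (algebraMap k E).injective
  set M := IntermediateField.adjoin k (Set.range s) with hM
  let s' : Fin d → M := fun i => ⟨s i, IntermediateField.subset_adjoin k _ ⟨i, rfl⟩⟩
  have hs' : ∀ P : MvPolynomial (Fin d) k,
      ((MvPolynomial.aeval s' P : M) : L) = MvPolynomial.aeval s P := by
    intro P
    have h1 := MvPolynomial.aeval_algebraMap_apply (R := k) L s' P
    exact h1.symm
  let i1 : Algebra (MvPolynomial (Fin d) E) L := (MvPolynomial.aeval s).toRingHom.toAlgebra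
  let i2 : Algebra (MvPolynomial (Fin d) k) M := (MvPolynomial.aeval s').toRingHom.toAlgebra
  let i3 : Algebra (MvPolynomial (Fin d) k) L :=
    (MvPolynomial.aeval (R := k) s).toRingHom.toAlgebra
  let i4 : Algebra (MvPolynomial (Fin d) k) (MvPolynomial (Fin d) E) :=
    MvPolynomial.algebraMvPolynomial
  have e1 : ∀ P : MvPolynomial (Fin d) E, algebraMap (MvPolynomial (Fin d) E) L P =
    MvPolynomial.aeval s P := fun P => rfl
  have e2 : ∀ P : MvPolynomial (Fin d) k, algebraMap (MvPolynomial (Fin d) k) M P =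
    MvPolynomial.aeval s' P := fun P => rfl
  have e3 : ∀ P : MvPolynomial (Fin d) k, algebraMap (MvPolynomial (Fin d) k) L P =
    MvPolynomial.aeval s P := fun P => rfl
  have e4 : ∀ P : MvPolynomial (Fin d) k,
    algebraMap (MvPolynomial (Fin d) k) (MvPolynomial (Fin d) E) P =
      MvPolynomial.map (algebraMap k E) P := fun P => rfl
  have t1 : IsScalarTower (MvPolynomial (Fin d) k) M L :=
    IsScalarTower.of_algebraMap_eq fun P => by
      rw [e3, e2]
      exact (hs' P).symm
  have t2 : IsScalarTower (MvPolynomial (Fin d) k) (MvPolynomial (Fin d) E) L :=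
    IsScalarTower.of_algebraMap_eq fun P => by
      rw [e3, e4, e1, MvPolynomial.aeval_map_algebraMap]
  have f1 : FaithfulSMul (MvPolynomial (Fin d) E) L :=
    (faithfulSMul_iff_algebraMap_injective _ _).2 hs
  have hinj : Function.Injective (algebraMap (MvPolynomial (Fin d) k) M) := by
    intro P Q h
    rw [e2, e2] at h
    apply hsk
    rw [← hs', ← hs', h]
  have f2 : FaithfulSMul (MvPolynomial (Fin d) k) M :=
    (faithfulSMul_iff_algebraMap_injective _ _).2 hinj
  have f3 : FaithfulSMul (MvPolynomial (Fin d) k) (MvPolynomial (Fin d) E) :=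
    (faithfulSMul_iff_algebraMap_injective _ _).2
      (MvPolynomial.map_injective _ (algebraMap k E).injective)
  have q1 : IsFractionRing (MvPolynomial (Fin d) E) L := IsFractionRing.of_field _ _ htop
  have q2 : IsFractionRing (MvPolynomial (Fin d) k) M := by
    refine IsFractionRing.of_field _ _ fun z => ?_
    obtain ⟨P, Q, h⟩ := (IntermediateField.mem_adjoin_range_iff k s (z : L)).1 z.2
    refine ⟨P, Q, ?_⟩
    apply Subtype.ext
    rw [h, e2, e2, IntermediateField.coe_div, hs', hs']
  have h1 := IsFractionRing.finrank_eq (MvPolynomial (Fin d) k) M (MvPolynomial (Fin d) E) L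
  rw [h1]
  have h2 := rank_mvPolynomial_mvPolynomial k E (Fin d)
  have h3 := congrArg Cardinal.toNat h2
  rw [Cardinal.toNat_lift] at h3
  exact h3

/-- scaling to a primitive polynomial -/
theorem DegB_prim {k T : Type*} [Field k] [Field T] [Algebra k T] {t : Subalgebra k T} {τ : T}
    (hτ : IsUnif t τ) {d : ℕ} {P : MvPolynomial (Fin d) T} (hP : P ≠ 0) :
    ∃ n : ℤ, (∀ m, (MvPolynomial.C (τ ^ n) * P).coeff m ∈ t) ∧
      ∃ m, (MvPolynomial.C (τ ^ n) * P).coeff m ≠ 0 ∧
        ((MvPolynomial.C (τ ^ n) * P).coeff m)⁻¹ ∈ t := by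
  have ht : IsDVR t := ⟨τ, hτ⟩
  have hτ1 := (isUnif_iff ht).1 hτ
  have hne : P.support.Nonempty := MvPolynomial.support_nonempty.2 hP
  obtain ⟨m0, hm0, hmin⟩ := P.support.exists_min_image (fun m => ord t (P.coeff m)) hne
  rw [MvPolynomial.mem_support_iff] at hm0
  have hz : ∀ n : ℤ, τ ^ n ≠ 0 := fun n => zpow_ne_zero _ hτ1.1
  have hord : ∀ (n : ℤ) (c : T), c ≠ 0 → ord t (τ ^ n * c) = n + ord t c := by
    intro n c hc
    rw [ord_mul ht (hz n) hc, ord_zpow ht hτ1.1, hτ1.2, mul_one]
  refine ⟨- ord t (P.coeff m0), fun m => ?_, m0, ?_, ?_⟩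
  · rw [MvPolynomial.coeff_C_mul]
    by_cases hc : P.coeff m = 0
    · rw [hc, mul_zero]
      exact t.zero_mem
    · rw [mem_iff ht (mul_ne_zero (hz _) hc), hord _ _ hc]
      have := hmin m (MvPolynomial.mem_support_iff.2 hc)
      omega
  · rw [MvPolynomial.coeff_C_mul]
    exact mul_ne_zero (hz _) hm0
  · rw [MvPolynomial.coeff_C_mul]
    have h1 : ord t (τ ^ (- ord t (P.coeff m0)) * P.coeff m0) = 0 := by
      rw [hord _ _ hm0]
      omega
    exact ((ord_eq_zero_iff ht (mul_ne_zero (hz _) hm0)).1 h1).2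

/-- lifting polynomials with coefficients in `t` -/
theorem DegB_lift {k T : Type*} [Field k] [Field T] [Algebra k T] (t : Subalgebra k T) {d : ℕ}
    (P : MvPolynomial (Fin d) T) (hP : ∀ m, P.coeff m ∈ t) :
    ∃ P₁ : MvPolynomial (Fin d) t, MvPolynomial.map (algebraMap t T) P₁ = P := by
  have h := (MvPolynomial.mem_range_map_iff_coeffs_subset (f := algebraMap t T) (x := P)).2 ?_
  · exact h
  · intro c hc
    rw [Finset.mem_coe, MvPolynomial.mem_coeffs_iff] at hc
    obtain ⟨m, -, rfl⟩ := hc
    exact ⟨⟨_, hP m⟩, rfl⟩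

theorem DegB_unit {k T : Type*} [Field k] [Field T] [Algebra k T] {v : Subalgebra k T}
    [IsLocalRing v] {x : T} (hx : x ∈ v) :
    IsLocalRing.residue v ⟨x, hx⟩ ≠ 0 ↔ x ≠ 0 ∧ x⁻¹ ∈ v := by
  rw [IsLocalRing.residue_ne_zero_iff_isUnit, LocAlg_unit]

/-- residues of values of polynomials -/
theorem DegB_res {k T F : Type*} [Field k] [Field T] [Field F] [Algebra k T]
    [Algebra k F] [Algebra T F] [IsScalarTower k T F] {t : Subalgebra k T} {v : Subalgebra k F}
    [IsLocalRing t] [IsLocalRing v] (hvt : ∀ x : T, x ∈ t ↔ algebraMap T F x ∈ v)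
    (f : IsLocalRing.ResidueField t →ₐ[k] IsLocalRing.ResidueField v)
    (hf : ∀ x : t, f (IsLocalRing.residue t x) =
        IsLocalRing.residue v ⟨algebraMap T F x, (hvt x).1 x.2⟩) {d : ℕ} {s : Fin d → F}
    (hsv : ∀ i, s i ∈ v) (P : MvPolynomial (Fin d) t) :
    ∃ z : v, (z : F) = MvPolynomial.aeval s (MvPolynomial.map (algebraMap t T) P) ∧
      IsLocalRing.residue v z =
        MvPolynomial.eval₂ (f : IsLocalRing.ResidueField t →+* IsLocalRing.ResidueField v)
          (fun i => IsLocalRing.residue v ⟨s i, hsv i⟩)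
          (MvPolynomial.map (IsLocalRing.residue t) P) := by
  induction P using MvPolynomial.induction_on with
  | C a =>
    refine ⟨⟨algebraMap T F a, (hvt a).1 a.2⟩, ?_, ?_⟩
    · rw [MvPolynomial.map_C, MvPolynomial.aeval_C]
      rfl
    · rw [MvPolynomial.map_C, MvPolynomial.eval₂_C]
      exact (hf a).symm
  | add p q hp hq =>
    obtain ⟨z1, h1, h2⟩ := hp
    obtain ⟨z2, h3, h4⟩ := hq
    refine ⟨z1 + z2, ?_, ?_⟩
    · rw [map_add, map_add, ← h1, ← h3]
      rfl
    · rw [map_add, map_add, MvPolynomial.eval₂_add, h2, h4]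
  | mul_X p i hp =>
    obtain ⟨z1, h1, h2⟩ := hp
    refine ⟨z1 * ⟨s i, hsv i⟩, ?_, ?_⟩
    · rw [map_mul, map_mul, MvPolynomial.map_X, MvPolynomial.aeval_X, ← h1]
      rfl
    · rw [map_mul, map_mul, MvPolynomial.eval₂_mul, ← h2, MvPolynomial.map_X,
        MvPolynomial.eval₂_X]

/-- the residues of `s` are algebraically independent -/
theorem DegB_ind {k F : Type*} [Field k] [Field F] [Algebra k F] {v : Subalgebra k F}
    [IsLocalRing v] {d : ℕ} {s : Fin d → F} (hs : ResIndep v s) :
    AlgebraicIndependent k fun i => IsLocalRing.residue v ⟨s i, hs.1 i⟩ := by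
  rw [algebraicIndependent_iff]
  intro Q hQ
  by_contra hQ0
  obtain ⟨h1, h2⟩ := hs.2 Q hQ0
  have h3 : ((MvPolynomial.aeval (fun i => (⟨s i, hs.1 i⟩ : v)) Q : v) : F) =
      MvPolynomial.aeval s Q := by
    have h1 := MvPolynomial.aeval_algebraMap_apply (R := k) F
      (fun i => (⟨s i, hs.1 i⟩ : v)) Q
    exact h1.symm
  have h4 : MvPolynomial.aeval s Q ∈ v := by
    rw [← h3]
    exact Subtype.mem _
  have h5 := (DegB_unit h4).2 ⟨h1, h2⟩
  apply h5
  rw [← hQ]
  have h6 := MvPolynomial.aeval_algebraMap_apply (R := k) (IsLocalRing.ResidueField v)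
      (fun i => (⟨s i, hs.1 i⟩ : v)) Q
  have h7 : (MvPolynomial.aeval fun i => IsLocalRing.residue v ⟨s i, hs.1 i⟩) Q =
    algebraMap v (IsLocalRing.ResidueField v)
      (MvPolynomial.aeval (fun i => (⟨s i, hs.1 i⟩ : v)) Q) := h6
  rw [h7]
  change IsLocalRing.residue v _ = IsLocalRing.residue v _
  congr 1
  exact Subtype.ext h3.symm

/-- a non-zero reduction from a unit coefficient -/
theorem DegB_red {k T : Type*} [Field k] [Field T] [Algebra k T] {t : Subalgebra k T}
    [IsLocalRing t] {d : ℕ} (P : MvPolynomial (Fin d) t) :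
    MvPolynomial.map (IsLocalRing.residue t) P ≠ 0 ↔
    ∃ m, (MvPolynomial.map (algebraMap t T) P).coeff m ≠ 0 ∧
      ((MvPolynomial.map (algebraMap t T) P).coeff m)⁻¹ ∈ t := by
  have h1 : ∀ m, ((MvPolynomial.map (algebraMap t T) P).coeff m ≠ 0 ∧
      ((MvPolynomial.map (algebraMap t T) P).coeff m)⁻¹ ∈ t) ↔
      (MvPolynomial.map (IsLocalRing.residue t) P).coeff m ≠ 0 := by
    intro m
    rw [MvPolynomial.coeff_map, MvPolynomial.coeff_map]
    exact (DegB_unit (P.coeff m).2).symm
  simp only [h1]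
  exact MvPolynomial.ne_zero_iff

/-- If the residues of the `s_i` in `v`, over `t`, are algebraically independent over `k`, they
are so over the residue field of `t` (finite over `k`): polynomials with coefficients in `t`, not
all in the maximal ideal, take unit values in `v`; in particular the `s_i` are algebraically
independent over `T`. -/
theorem resIndep_over {k T F : Type*} [Field k] [CharZero k] [Field T] [Field F] [Algebra k T]
    [Algebra k F] [Algebra T F] [IsScalarTower k T F] [Algebra.EssFiniteType k T]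
    (hT : Algebra.trdeg k T = 1) {t : Subalgebra k T} (ht : IsDVR t) {v : Subalgebra k F}
    (hv : IsDVR v) (hvt : ∀ x : T, x ∈ t ↔ algebraMap T F x ∈ v) {d : ℕ} {s : Fin d → F}
    (hs : ResIndep v s) :
    (∀ P : MvPolynomial (Fin d) T, (∀ m, P.coeff m ∈ t) → (∃ m, P.coeff m ≠ 0 ∧
      (P.coeff m)⁻¹ ∈ t) → MvPolynomial.aeval s P ≠ 0 ∧ (MvPolynomial.aeval s P)⁻¹ ∈ v) ∧
    AlgebraicIndependent T s := by
  have htl : IsLocalRing t := ht.isVal.isLocalRing
  have hvl : IsLocalRing v := hv.isVal.isLocalRing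
  obtain ⟨f, hf⟩ := DegB_map hvt
  have hfin := DegB_fin hT t ht
  have hind := DegB_ind hs
  let _ : Algebra (IsLocalRing.ResidueField t) (IsLocalRing.ResidueField v) :=
    f.toRingHom.toAlgebra
  have : IsScalarTower k (IsLocalRing.ResidueField t) (IsLocalRing.ResidueField v) :=
    IsScalarTower.of_algebraMap_eq fun x => (f.commutes x).symm
  have hind' := hind.extendScalars (IsLocalRing.ResidueField t)
  have key : ∀ P : MvPolynomial (Fin d) T, (∀ m, P.coeff m ∈ t) → (∃ m, P.coeff m ≠ 0 ∧
      (P.coeff m)⁻¹ ∈ t) → MvPolynomial.aeval s P ≠ 0 ∧ (MvPolynomial.aeval s P)⁻¹ ∈ v := by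
    intro P hP hu
    obtain ⟨P₁, rfl⟩ := DegB_lift t P hP
    rw [← DegB_red] at hu
    obtain ⟨z, hz1, hz2⟩ := DegB_res hvt f hf hs.1 P₁
    have h3 : IsLocalRing.residue v z ≠ 0 := by
      rw [hz2]
      intro h0
      exact hu (hind' (by rw [map_zero]; exact h0))
    rw [← hz1]
    exact (DegB_unit z.2).1 h3
  refine ⟨key, ?_⟩
  rw [algebraicIndependent_iff]
  intro P hP0
  by_contra hP
  obtain ⟨τ, hτ⟩ := id ht
  obtain ⟨n, h1, h2⟩ := DegB_prim hτ hP
  apply (key _ h1 h2).1
  rw [map_mul, hP0, mul_zero]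

section Gauss

variable {k T F' : Type*} [Field k] [Field T] [Field F'] [Algebra k T] [Algebra k F']
  [Algebra T F'] [IsScalarTower k T F'] (t : Subalgebra k T) [IsLocalRing t] {d : ℕ}
  (s : Fin d → F')

/-- evaluation of polynomials with coefficients in `t` -/
noncomputable def DegB_ev : MvPolynomial (Fin d) t →+* F' :=
  (MvPolynomial.aeval (R := T) s).toRingHom.comp (MvPolynomial.map (algebraMap t T))

omit [IsLocalRing t] in
theorem DegB_ev_apply (P : MvPolynomial (Fin d) t) :
    DegB_ev t s P = MvPolynomial.aeval s (MvPolynomial.map (algebraMap t T) P) := rfl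

omit [IsLocalRing t] in
theorem DegB_ev_C (a : t) : DegB_ev t s (MvPolynomial.C a) = algebraMap T F' a := by
  rw [DegB_ev_apply, MvPolynomial.map_C, MvPolynomial.aeval_C]
  rfl

omit [IsLocalRing t] in
theorem DegB_ev_X (i : Fin d) : DegB_ev t s (MvPolynomial.X i) = s i := by
  rw [DegB_ev_apply, MvPolynomial.map_X, MvPolynomial.aeval_X]

omit [IsLocalRing t] in
theorem DegB_ev_inj (hs : AlgebraicIndependent T s) : Function.Injective (DegB_ev t s) := by
  intro P Q h
  rw [DegB_ev_apply, DegB_ev_apply] at h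
  exact MvPolynomial.map_injective _ Subtype.val_injective (hs h)

theorem DegB_ev_ne (hs : AlgebraicIndependent T s) {Q : MvPolynomial (Fin d) t}
    (hQ : MvPolynomial.map (IsLocalRing.residue t) Q ≠ 0) : DegB_ev t s Q ≠ 0 := by
  intro h
  have h1 : Q = 0 := DegB_ev_inj t s hs (by rw [h, map_zero])
  exact hQ (by rw [h1, map_zero])

/-- the Gauss valuation ring -/
noncomputable def DegB_g (hs : AlgebraicIndependent T s) : Subalgebra k F' where
  carrier := {x | ∃ P Q : MvPolynomial (Fin d) t,
    MvPolynomial.map (IsLocalRing.residue t) Q ≠ 0 ∧ x = DegB_ev t s P * (DegB_ev t s Q)⁻¹}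
  mul_mem' := by
    rintro _ _ ⟨P, Q, hQ, rfl⟩ ⟨P', Q', hQ', rfl⟩
    refine ⟨P * P', Q * Q', ?_, ?_⟩
    · rw [map_mul]
      exact mul_ne_zero hQ hQ'
    · rw [map_mul, map_mul, mul_inv]
      ring
  add_mem' := by
    rintro _ _ ⟨P, Q, hQ, rfl⟩ ⟨P', Q', hQ', rfl⟩
    have h1 := DegB_ev_ne t s hs hQ
    have h2 := DegB_ev_ne t s hs hQ'
    refine ⟨P * Q' + P' * Q, Q * Q', ?_, ?_⟩
    · rw [map_mul]
      exact mul_ne_zero hQ hQ'
    · rw [map_mul, map_add, map_mul, map_mul]
      field_simp
  algebraMap_mem' c := by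
    refine ⟨MvPolynomial.C (algebraMap k t c), 1, ?_, ?_⟩
    · rw [map_one]
      exact one_ne_zero
    · rw [map_one, inv_one, mul_one, DegB_ev_C]
      exact IsScalarTower.algebraMap_apply k T F' c

theorem DegB_mem_g {hs : AlgebraicIndependent T s} {x : F'} : x ∈ DegB_g t s hs ↔
    ∃ P Q : MvPolynomial (Fin d) t, MvPolynomial.map (IsLocalRing.residue t) Q ≠ 0 ∧
      x = DegB_ev t s P * (DegB_ev t s Q)⁻¹ := Iff.rfl

theorem DegB_g_ev (hs : AlgebraicIndependent T s) (P : MvPolynomial (Fin d) t) :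
    DegB_ev t s P ∈ DegB_g t s hs :=
  ⟨P, 1, by rw [map_one]; exact one_ne_zero, by rw [map_one, inv_one, mul_one]⟩

theorem DegB_g_inv (hs : AlgebraicIndependent T s) {Q : MvPolynomial (Fin d) t}
    (hQ : MvPolynomial.map (IsLocalRing.residue t) Q ≠ 0) :
    (DegB_ev t s Q)⁻¹ ∈ DegB_g t s hs :=
  ⟨1, Q, hQ, by rw [map_one, one_mul]⟩

theorem DegB_g_unif (hs : AlgebraicIndependent T s)
    (htop : IntermediateField.adjoin T (Set.range s) = ⊤) {τ : T} (hτ : IsUnif t τ) :
    IsUnif (DegB_g t s hs) (algebraMap T F' τ) := by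
  refine ⟨?_, ?_, ?_⟩
  · have h1 := DegB_g_ev t s hs (MvPolynomial.C ⟨τ, hτ.1⟩)
    rw [DegB_ev_C] at h1
    exact h1
  · rintro ⟨P, Q, hQ, h⟩
    have h1 := DegB_ev_ne t s hs hQ
    have hτ0 : algebraMap T F' τ ≠ 0 := by
      rw [Ne, map_eq_zero]
      exact hτ.ne_zero
    have h2 : DegB_ev t s Q = DegB_ev t s (MvPolynomial.C ⟨τ, hτ.1⟩ * P) := by
      rw [map_mul, DegB_ev_C]
      field_simp at h
      change _ = algebraMap T F' τ * _
      exact h
    have h3 := DegB_ev_inj t s hs h2
    apply hQ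
    rw [h3, map_mul, MvPolynomial.map_C]
    have h4 : IsLocalRing.residue t ⟨τ, hτ.1⟩ = 0 := by
      by_contra h0
      exact hτ.2.1 ((DegB_unit hτ.1).1 h0).2
    rw [h4, map_zero, zero_mul]
  · intro x hx
    have hτ0 : algebraMap T F' τ ≠ 0 := by
      rw [Ne, map_eq_zero]
      exact hτ.ne_zero
    have hx1 : x ∈ IntermediateField.adjoin T (Set.range s) := by
      rw [htop]
      exact IntermediateField.mem_top
    obtain ⟨P, Q, hPQ⟩ := (IntermediateField.mem_adjoin_range_iff T s x).1 hx1
    have hP : P ≠ 0 := by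
      rintro rfl
      rw [map_zero, zero_div] at hPQ
      exact hx hPQ
    have hQ : Q ≠ 0 := by
      rintro rfl
      rw [map_zero, div_zero] at hPQ
      exact hx hPQ
    have key : ∀ P : MvPolynomial (Fin d) T, P ≠ 0 → ∃ (n : ℤ) (P₁ : MvPolynomial (Fin d) t),
        MvPolynomial.map (IsLocalRing.residue t) P₁ ≠ 0 ∧
        DegB_ev t s P₁ = algebraMap T F' τ ^ n * MvPolynomial.aeval s P := by
      intro P hP
      obtain ⟨n, h1, h2⟩ := DegB_prim hτ hP
      obtain ⟨P₁, hP₁⟩ := DegB_lift t _ h1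
      refine ⟨n, P₁, ?_, ?_⟩
      · rw [DegB_red, hP₁]
        exact h2
      · rw [DegB_ev_apply, hP₁, map_mul, MvPolynomial.aeval_C, map_zpow₀]
    obtain ⟨a, P₁, hP₁, hP₁'⟩ := key P hP
    obtain ⟨b, Q₁, hQ₁, hQ₁'⟩ := key Q hQ
    have hQ0 : MvPolynomial.aeval s Q ≠ 0 := by
      intro h
      exact hQ (hs (by rw [h, map_zero]))
    have hP0 : MvPolynomial.aeval s P ≠ 0 := by
      intro h
      exact hP (hs (by rw [h, map_zero]))
    have hz : ∀ n : ℤ, algebraMap T F' τ ^ n ≠ 0 := fun n => zpow_ne_zero _ hτ0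
    have e1 : x * algebraMap T F' τ ^ (-(b - a)) = DegB_ev t s P₁ * (DegB_ev t s Q₁)⁻¹ := by
      rw [hP₁', hQ₁', hPQ, neg_sub, zpow_sub₀ hτ0]
      have := hz a
      have := hz b
      field_simp
    refine ⟨b - a, ?_, ?_⟩
    · rw [e1]
      exact (DegB_g t s hs).mul_mem (DegB_g_ev t s hs _) (DegB_g_inv t s hs hQ₁)
    · rw [e1, mul_inv, inv_inv, mul_comm]
      exact (DegB_g t s hs).mul_mem (DegB_g_ev t s hs _) (DegB_g_inv t s hs hP₁)

theorem DegB_g_res (hs : AlgebraicIndependent T s) : ResIndep (DegB_g t s hs) s := by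
  refine ⟨fun i => ?_, fun P hP => ?_⟩
  · have h1 := DegB_g_ev t s hs (MvPolynomial.X i)
    rw [DegB_ev_X] at h1
    exact h1
  · have e1 : MvPolynomial.aeval s P =
        DegB_ev t s (MvPolynomial.map (algebraMap k t) P) := by
      rw [DegB_ev_apply, MvPolynomial.map_map]
      have e2 : (algebraMap t T).comp (algebraMap k t) = algebraMap k T := rfl
      rw [e2, MvPolynomial.aeval_map_algebraMap]
    have hg : MvPolynomial.map (IsLocalRing.residue t)
        (MvPolynomial.map (algebraMap k t) P) ≠ 0 := by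
      rw [MvPolynomial.map_map]
      have e2 : (IsLocalRing.residue t).comp (algebraMap k t) =
        algebraMap k (IsLocalRing.ResidueField t) := rfl
      rw [e2]
      intro h0
      exact hP (MvPolynomial.map_injective _
        (algebraMap k (IsLocalRing.ResidueField t)).injective (by rw [h0, map_zero]))
    rw [e1]
    exact ⟨DegB_ev_ne t s hs hg, DegB_g_inv t s hs hg⟩

theorem DegB_g_over (hs : AlgebraicIndependent T s)
    (htop : IntermediateField.adjoin T (Set.range s) = ⊤) (ht : IsDVR t) (x : T) :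
    x ∈ t ↔ algebraMap T F' x ∈ DegB_g t s hs := by
  constructor
  · intro hx
    have h1 := DegB_g_ev t s hs (MvPolynomial.C ⟨x, hx⟩)
    rw [DegB_ev_C] at h1
    exact h1
  · intro hx
    by_contra hxt
    obtain ⟨τ, hτ⟩ := id ht
    have hx0 : x ≠ 0 := by
      rintro rfl
      exact hxt t.zero_mem
    have hτ1 := (isUnif_iff ht).1 hτ
    rw [mem_iff ht hx0] at hxt
    have h1 : x⁻¹ * τ⁻¹ ∈ t := by
      rw [mem_iff ht (mul_ne_zero (inv_ne_zero hx0) (inv_ne_zero hτ1.1)),
        ord_mul ht (inv_ne_zero hx0) (inv_ne_zero hτ1.1), ord_inv ht, ord_inv ht, hτ1.2]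
      omega
    have h2 := DegB_g_ev t s hs (MvPolynomial.C ⟨_, h1⟩)
    rw [DegB_ev_C] at h2
    have h3 := (DegB_g t s hs).mul_mem hx h2
    apply (DegB_g_unif t s hs htop hτ).2.1
    have h4 : (algebraMap T F' τ)⁻¹ = algebraMap T F' x * algebraMap T F' (x⁻¹ * τ⁻¹) := by
      rw [← map_mul, mul_inv_cancel_left₀ hx0, map_inv₀]
    rw [h4]
    exact h3

theorem DegB_g_loc (hs : AlgebraicIndependent T s)
    (hl : IsLocalRing (DegB_g t s hs)) (hx : ∀ x ∈ t, algebraMap T F' x ∈ DegB_g t s hs)
    {S : Subalgebra k T} (hS : S.FG) (hSt : IsLoc S t) :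
    ∃ R : Subalgebra k F', R.FG ∧ IsLoc R (DegB_g t s hs) := by
  set φ := IsScalarTower.toAlgHom k T F' with hφ
  set R : Subalgebra k F' := S.map φ ⊔ Algebra.adjoin k (Set.range s) with hR
  have hφR : ∀ x ∈ S, algebraMap T F' x ∈ R := fun x hx =>
    (le_sup_left : S.map φ ≤ R) ⟨x, hx, rfl⟩
  have hsR : ∀ i, s i ∈ R := fun i =>
    (le_sup_right : Algebra.adjoin k (Set.range s) ≤ R) (Algebra.subset_adjoin ⟨i, rfl⟩)
  have key : ∀ P : MvPolynomial (Fin d) t, ∃ c ∈ R, c ≠ 0 ∧ c⁻¹ ∈ DegB_g t s hs ∧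
      c * DegB_ev t s P ∈ R := by
    intro P
    induction P using MvPolynomial.induction_on with
    | C a =>
      obtain ⟨r, hr, s₀, hs₀, hs₀t, h⟩ := hSt.2.2 a a.2
      by_cases h0 : s₀ = 0
      · refine ⟨1, R.one_mem, one_ne_zero, by rw [inv_one]; exact Subalgebra.one_mem _, ?_⟩
        rw [DegB_ev_C, h, h0, inv_zero, mul_zero, map_zero, mul_zero]
        exact R.zero_mem
      · refine ⟨algebraMap T F' s₀, hφR _ hs₀, by rwa [Ne, map_eq_zero], ?_, ?_⟩
        · rw [← map_inv₀]
          exact hx _ hs₀t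
        · rw [DegB_ev_C, h, ← map_mul, mul_comm, inv_mul_cancel_right₀ h0]
          exact hφR _ hr
    | add p q hp hq =>
      obtain ⟨c, h1, h2, h3, h4⟩ := hp
      obtain ⟨c', h1', h2', h3', h4'⟩ := hq
      refine ⟨c * c', R.mul_mem h1 h1', mul_ne_zero h2 h2', ?_, ?_⟩
      · rw [mul_inv]
        exact Subalgebra.mul_mem _ h3 h3'
      · have e : c * c' * DegB_ev t s (p + q) =
            c' * (c * DegB_ev t s p) + c * (c' * DegB_ev t s q) := by
          rw [map_add]
          ring
        rw [e]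
        exact R.add_mem (R.mul_mem h1' h4) (R.mul_mem h1 h4')
    | mul_X p i hp =>
      obtain ⟨c, h1, h2, h3, h4⟩ := hp
      refine ⟨c, h1, h2, h3, ?_⟩
      rw [map_mul, DegB_ev_X, ← mul_assoc]
      exact R.mul_mem h4 (hsR i)
  refine ⟨R, ?_, ?_, hl, ?_⟩
  · exact (hS.map φ).sup (Subalgebra.fg_def.2 ⟨Set.range s, Set.finite_range s, rfl⟩)
  · rw [hR, sup_le_iff]
    constructor
    · rintro _ ⟨x, hxS, rfl⟩
      exact hx x (hSt.1 hxS)
    · refine Algebra.adjoin_le ?_
      rintro _ ⟨i, rfl⟩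
      exact (DegB_g_res t s hs).1 i
  · rintro x ⟨P, Q, hQ, rfl⟩
    have hQ0 := DegB_ev_ne t s hs hQ
    obtain ⟨c, h1, h2, h3, h4⟩ := key P
    obtain ⟨c', h1', h2', h3', h4'⟩ := key Q
    refine ⟨c' * (c * DegB_ev t s P), R.mul_mem h1' h4, c * (c' * DegB_ev t s Q),
      R.mul_mem h1 h4', ?_, ?_⟩
    · rw [mul_inv, mul_inv]
      exact Subalgebra.mul_mem _ h3 (Subalgebra.mul_mem _ h3' (DegB_g_inv t s hs hQ))
    · field_simp

end Gauss

/-- The Gauss valuation: for a discrete valuation ring `t` of `T` and `s : Fin d → F'` a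
transcendence basis generating the field `F'` over `T` there is a discrete valuation ring `t'` of
`F'` whose elements are the quotients `P(s) / Q(s)` of polynomials with coefficients in `t`, `Q`
not all coefficients in the maximal ideal. It lies over `t`, a uniformizer of `t` is a uniformizer
of `t'`, and the degree of its residue field over `k(s̄)` is the degree of the residue field of
`t`. -/
theorem exists_gauss {k T F' : Type*} [Field k] [CharZero k] [Field T] [Field F']
    [Algebra k T] [Algebra k F'] [Algebra T F'] [IsScalarTower k T F']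
    [Algebra.EssFiniteType k T] (hT : Algebra.trdeg k T = 1) {t : Subalgebra k T}
    (ht : IsDVR t) {d : ℕ} {s : Fin d → F'} (hs : AlgebraicIndependent T s)
    (htop : IntermediateField.adjoin T (Set.range s) = ⊤) :
    ∃ t' : Subalgebra k F', IsPrimeDiv t' ∧ ResIndep t' s ∧
      (∀ x : T, x ∈ t ↔ algebraMap T F' x ∈ t') ∧
      (∀ τ : T, IsUnif t τ → IsUnif t' (algebraMap T F' τ)) ∧
      (∀ x ∈ t', ∃ P Q : MvPolynomial (Fin d) T, (∀ m, P.coeff m ∈ t) ∧ (∀ m, Q.coeff m ∈ t) ∧
        (∃ m, Q.coeff m ≠ 0 ∧ (Q.coeff m)⁻¹ ∈ t) ∧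
        x = MvPolynomial.aeval s P * (MvPolynomial.aeval s Q)⁻¹) ∧
      resDeg t' (Set.range s) = resDeg t ∅ := by
  have htl : IsLocalRing t := ht.isVal.isLocalRing
  obtain ⟨τ, hτ⟩ := id ht
  have hD : IsDVR (DegB_g t s hs) := ⟨_, DegB_g_unif t s hs htop hτ⟩
  have hl : IsLocalRing (DegB_g t s hs) := hD.isVal.isLocalRing
  have hov := DegB_g_over t s hs htop ht
  have hri := DegB_g_res t s hs
  obtain ⟨S, hS, hSF, hSt⟩ := DegB_isLoc hT t ht
  obtain ⟨R, hR, hRl⟩ := DegB_g_loc t s hs hl (fun x hx => (hov x).1 hx) hS hSt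
  refine ⟨DegB_g t s hs, ⟨hD, R, hR, hRl⟩, hri, hov,
    fun τ hτ => DegB_g_unif t s hs htop hτ, ?_, ?_⟩
  · rintro x ⟨P, Q, hQ, rfl⟩
    refine ⟨MvPolynomial.map (algebraMap t T) P, MvPolynomial.map (algebraMap t T) Q, ?_, ?_,
      DegB_red Q |>.1 hQ, rfl⟩
    · intro m
      rw [MvPolynomial.coeff_map]
      exact (P.coeff m).2
    · intro m
      rw [MvPolynomial.coeff_map]
      exact (Q.coeff m).2
  · obtain ⟨f, hf⟩ := DegB_map hov
    have hfin := DegB_fin hT t ht
    have hind := DegB_ind hri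
    let _ : Algebra (IsLocalRing.ResidueField t) (IsLocalRing.ResidueField (DegB_g t s hs)) :=
      f.toRingHom.toAlgebra
    have : IsScalarTower k (IsLocalRing.ResidueField t)
        (IsLocalRing.ResidueField (DegB_g t s hs)) :=
      IsScalarTower.of_algebraMap_eq fun x => (f.commutes x).symm
    have hind' := hind.extendScalars (IsLocalRing.ResidueField t)
    have h1 := DegB_finrank (k := k) hind' ?_
    · unfold resDeg
      rw [dif_pos htl, dif_pos hl]
      have e1 : {y : IsLocalRing.ResidueField (DegB_g t s hs) |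
          ∃ a : DegB_g t s hs, (a : F') ∈ Set.range s ∧ y = IsLocalRing.residue _ a} =
          Set.range fun i => IsLocalRing.residue (DegB_g t s hs) ⟨s i, hri.1 i⟩ := by
        ext y
        constructor
        · rintro ⟨a, ⟨i, hi⟩, rfl⟩
          exact ⟨i, congrArg (IsLocalRing.residue (DegB_g t s hs)) (Subtype.ext hi)⟩
        · rintro ⟨i, rfl⟩
          exact ⟨_, ⟨i, rfl⟩, rfl⟩
      have e2 : {y : IsLocalRing.ResidueField t |
          ∃ a : t, (a : T) ∈ (∅ : Set T) ∧ y = IsLocalRing.residue t a} = ∅ := by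
        ext y
        simp
      rw [e1, h1, e2, IntermediateField.adjoin_empty, IntermediateField.finrank_bot']
    · intro x
      obtain ⟨z, rfl⟩ := IsLocalRing.residue_surjective x
      obtain ⟨P, Q, hQ, hz⟩ := z.2
      obtain ⟨p, hp1, hp2⟩ := DegB_res hov f hf hri.1 P
      obtain ⟨q, hq1, hq2⟩ := DegB_res hov f hf hri.1 Q
      have hQ0 := DegB_ev_ne t s hs hQ
      refine ⟨MvPolynomial.map (IsLocalRing.residue t) P,
        MvPolynomial.map (IsLocalRing.residue t) Q, ?_⟩
      have e3 : MvPolynomial.aeval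
          (fun i => IsLocalRing.residue (DegB_g t s hs) ⟨s i, hri.1 i⟩)
          (MvPolynomial.map (IsLocalRing.residue t) P) = IsLocalRing.residue _ p := hp2.symm
      have e4 : MvPolynomial.aeval
          (fun i => IsLocalRing.residue (DegB_g t s hs) ⟨s i, hri.1 i⟩)
          (MvPolynomial.map (IsLocalRing.residue t) Q) = IsLocalRing.residue _ q := hq2.symm
      rw [e3, e4]
      have hq0 : IsLocalRing.residue (DegB_g t s hs) q ≠ 0 := by
        have h5 := (DegB_unit q.2).2 (⟨by rw [hq1]; exact hQ0, by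
          rw [hq1]; exact DegB_g_inv t s hs hQ⟩)
        exact h5
      rw [eq_div_iff hq0, ← map_mul]
      congr 1
      apply Subtype.ext
      change (z : F') * (q : F') = p
      rw [hz, hp1, hq1]
      exact inv_mul_cancel_right₀ hQ0 _

end Flip28
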