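import Pool.Agent.Flip_h28.DegB

/-! # The degree formula -/

namespace Flip28

/-- the prime divisors of `F` over `t` for which the residues of the `s_i` are algebraically
independent over `k` -/
def GoodOver {k T F : Type*} [Field k] [Field T] [Field F] [Algebra k T] [Algebra k F]
    [Algebra T F] (t : Subalgebra k T) {d : ℕ} (s : Fin d → F) : Set (Subalgebra k F) :=
  {v | IsPrimeDiv v ∧ (∀ x : T, x ∈ t ↔ algebraMap T F x ∈ v) ∧ ResIndep v s}

theorem DegC_general {k F₁ F₂ : Type*} [Field k] [Field F₁] [Field F₂] [Algebra k F₁]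
    [Algebra k F₂] {w : Subalgebra k F₁} {v : Subalgebra k F₂} (hw : IsLocalRing w)
    (hv : IsLocalRing v) (g : w →ₐ[k] v) (hg : ∀ a : w, IsUnit (g a) → IsUnit a) (S₁ : Set F₁)
    (S₂ : Set F₂) (h1 : ∀ a : w, (a : F₁) ∈ S₁ → ((g a : v) : F₂) ∈ S₂)
    (h2 : ∀ b : v, (b : F₂) ∈ S₂ → ∃ a : w, (a : F₁) ∈ S₁ ∧ g a = b) :
    resDeg v S₂ = resDeg v (Set.range fun a : w => ((g a : v) : F₂)) * resDeg w S₁ := by
  haveI := hw
  haveI := hv
  haveI : IsLocalHom g := ⟨hg⟩
  unfold resDeg
  rw [dif_pos hv, dif_pos hv, dif_pos hw]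
  set φ : IsLocalRing.ResidueField w →ₐ[k] IsLocalRing.ResidueField v :=
    IsLocalRing.ResidueField.mapAlgHom g with hφ
  have hφr : ∀ a : w, φ (IsLocalRing.residue w a) = IsLocalRing.residue v (g a) := fun a => rfl
  have e1 : IntermediateField.adjoin k {y : IsLocalRing.ResidueField v |
      ∃ a : v, (a : F₂) ∈ S₂ ∧ y = IsLocalRing.residue v a} =
      (IntermediateField.adjoin k {y : IsLocalRing.ResidueField w |
      ∃ a : w, (a : F₁) ∈ S₁ ∧ y = IsLocalRing.residue w a}).map φ := by
    rw [IntermediateField.adjoin_map]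
    congr 1
    ext y
    constructor
    · rintro ⟨b, hb, rfl⟩
      obtain ⟨a, ha, rfl⟩ := h2 b hb
      exact ⟨_, ⟨a, ha, rfl⟩, hφr a⟩
    · rintro ⟨_, ⟨a, ha, rfl⟩, rfl⟩
      exact ⟨g a, h1 a ha, hφr a⟩
  have e2 : IntermediateField.adjoin k {y : IsLocalRing.ResidueField v |
      ∃ a : v, (a : F₂) ∈ (Set.range fun a : w => ((g a : v) : F₂)) ∧
        y = IsLocalRing.residue v a} = (⊤ : IntermediateField k _).map φ := by
    rw [← AlgHom.fieldRange_eq_map]
    apply le_antisymm
    · rw [IntermediateField.adjoin_le_iff]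
      rintro _ ⟨b, ⟨a, hab⟩, rfl⟩
      have hab' : g a = b := Subtype.ext hab
      rw [← hab', ← hφr]
      exact ⟨_, rfl⟩
    · rintro _ ⟨z, rfl⟩
      obtain ⟨a, rfl⟩ := IsLocalRing.residue_surjective z
      exact IntermediateField.subset_adjoin k _ ⟨g a, ⟨a, rfl⟩, hφr a⟩
  have e3 := IntermediateField.relfinrank_mul_finrank_top
    (IntermediateField.map_mono φ (le_top : IntermediateField.adjoin k
      {y : IsLocalRing.ResidueField w |
      ∃ a : w, (a : F₁) ∈ S₁ ∧ y = IsLocalRing.residue w a} ≤ ⊤))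
  rw [IntermediateField.relfinrank_map_map, IntermediateField.relfinrank_top_right] at e3
  rw [e1, e2, ← e3, mul_comm]

/-- multiplicativity of degrees in towers: `S ⊆ S'` are subsets of `v`, the residues of the
elements of `S'` form a field (`S'` is the image of a local ring dominated by `v`) -/
theorem resDeg_tower {k F : Type*} [Field k] [Field F] [Algebra k F] {v : Subalgebra k F}
    (hv : IsLocalRing v) (w : Subalgebra k F) (hw : Dom w v) (hwl : IsLocalRing w) (S : Set F)
    (hS : S ⊆ w) : resDeg v S = resDeg v (w : Set F) * resDeg w S := by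
  have h := DegC_general hwl hv (Subalgebra.inclusion hw.1) (fun a ha => ?_) S S
    (fun a ha => ha) (fun b hb => ⟨⟨b, hS hb⟩, hb, rfl⟩)
  · have e : (Set.range fun a : w => ((Subalgebra.inclusion hw.1 a : v) : F)) = (w : Set F) := by
      ext x
      constructor
      · rintro ⟨a, rfl⟩
        exact a.2
      · intro hx
        exact ⟨⟨x, hx⟩, rfl⟩
    rw [e] at h
    exact h
  · rw [LocAlg_unit] at ha ⊢
    exact ⟨ha.1, hw.2 _ a.2 ha.2⟩

/-- The degree formula.  Proof: if the `s_i` are algebraically dependent over `T` all sets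
`GoodOver t s` are empty by `resIndep_over`, and `D = 0`.  Otherwise let `F' = T(s) ⊆ F`, `F/F'` is
finite; `D = [F : F']`; `GoodOver t s` is the set of the discrete valuation rings of `F` over the
Gauss valuation `t'`: if `v ∈ GoodOver t s` then `t' ⊆ v` by `resIndep_over`, hence
`v ∩ F' = t'`; the converse is clear by `isPrimeDiv_ext`.  Use `sum_ext` for `F/F'`,
`ram t v = ram t' v`, and `resDeg v (range s) = resDeg v (image of t') * resDeg t' (range s)`
`= resDeg v (image of t') * resDeg t ∅`. -/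
theorem degree_formula {k T F : Type*} [Field k] [CharZero k] [Field T] [Field F] [Algebra k T]
    [Algebra k F] [Algebra T F] [IsScalarTower k T F] [Algebra.EssFiniteType k T]
    [Algebra.EssFiniteType k F] {d : ℕ} (hT : Algebra.trdeg k T = 1)
    (hF : Algebra.trdeg k F = (d + 1 : ℕ)) (s : Fin d → F) :
    ∃ D : ℕ, ∀ t : Subalgebra k T, IsDVR t → (GoodOver t s).Finite ∧
      ∑ᶠ v ∈ GoodOver t s, (ram t v : ℚ) * resDeg v (Set.range s) = D * resDeg t ∅ := by
  by_cases hind : AlgebraicIndependent T s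
  swap
  · refine ⟨0, fun t ht => ?_⟩
    have he : GoodOver t s = ∅ := by
      ext v
      rw [Set.mem_empty_iff_false, iff_false]
      rintro ⟨hv, hvt, hvs⟩
      exact hind (resIndep_over hT ht hv.1 hvt hvs).2
    rw [he]
    refine ⟨Set.finite_empty, ?_⟩
    rw [finsum_mem_empty]
    simp
  set F' := IntermediateField.adjoin T (Set.range s) with hF'
  haveI : IsScalarTower k T F' := inferInstance
  haveI : IsScalarTower k F' F := IsScalarTower.of_algebraMap_eq fun _ => rfl
  have htr : Algebra.trdeg T F ≤ (d : ℕ) := by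
    have h1 := _root_.lift_trdeg_add_eq k T F
    rw [hT, hF] at h1
    have h2 : Cardinal.lift (Algebra.trdeg T F) + 1 = (d : Cardinal) + 1 := by
      rw [add_comm]
      simpa using h1
    have h3 := Cardinal.add_one_inj.1 h2
    have h4 := Cardinal.lift_eq_nat_iff.1 h3
    exact h4.le
  have htb : IsTranscendenceBasis T s := by
    refine hind.isTranscendenceBasis_of_lift_trdeg_le_of_finite ?_
    rw [Cardinal.mk_fin, Cardinal.lift_natCast]
    exact (Cardinal.lift_le_nat_iff).2 htr
  haveI : Algebra.IsAlgebraic F' F := htb.isAlgebraic_field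
  haveI : Algebra.EssFiniteType F' F := Algebra.EssFiniteType.of_comp k F' F
  haveI : Module.Finite F' F := Algebra.finite_of_essFiniteType_of_isAlgebraic
  set s' : Fin d → F' := fun i => ⟨s i, IntermediateField.subset_adjoin T _ ⟨i, rfl⟩⟩ with hs'
  have hss : ∀ i, algebraMap F' F (s' i) = s i := fun i => rfl
  have hind' : AlgebraicIndependent T s' := by
    rw [← AlgHom.algebraicIndependent_iff F'.val F'.val.injective]
    exact hind
  have htop : IntermediateField.adjoin T (Set.range s') = ⊤ := by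
    apply IntermediateField.map_injective F'.val
    rw [IntermediateField.adjoin_map, ← AlgHom.fieldRange_eq_map,
      IntermediateField.fieldRange_val, ← Set.range_comp]
    rfl
  have haev : ∀ P : MvPolynomial (Fin d) T, algebraMap F' F (MvPolynomial.aeval s' P) =
      MvPolynomial.aeval s P := by
    intro P
    have := MvPolynomial.comp_aeval_apply (f := s') (φ := F'.val) P
    exact this
  have haevk : ∀ P : MvPolynomial (Fin d) k, algebraMap F' F (MvPolynomial.aeval s' P) =
      MvPolynomial.aeval s P := by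
    intro P
    have := MvPolynomial.comp_aeval_apply (f := s') (φ := IsScalarTower.toAlgHom k F' F) P
    exact this
  refine ⟨Module.finrank F' F, fun t ht => ?_⟩
  obtain ⟨t', hp, hri, hx, hu, hq, hdeg⟩ := exists_gauss hT ht hind' htop
  have htl : IsLocalRing t' := hp.2.choose_spec.2.2.1
  have hTF : ∀ x : T, algebraMap F' F (algebraMap T F' x) = algebraMap T F x := fun x => rfl
  have hset : GoodOver t s = Ext (F := F) t' := by
    ext v
    constructor
    · rintro ⟨hv, hvt, hvs⟩
      have hro := (resIndep_over hT ht hv.1 hvt hvs).1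
      have hmem : ∀ P : MvPolynomial (Fin d) T, (∀ m, P.coeff m ∈ t) →
          MvPolynomial.aeval s P ∈ v := by
        intro P hP
        rw [MvPolynomial.aeval_def, MvPolynomial.eval₂_eq']
        refine v.sum_mem fun m _ => v.mul_mem ((hvt _).1 (hP m)) ?_
        exact v.prod_mem fun i _ => v.pow_mem (hvs.1 i) _
      have hsub : ∀ x ∈ t', algebraMap F' F x ∈ v := by
        intro x hx'
        obtain ⟨P, Q, hP, hQ, hQ1, rfl⟩ := hq x hx'
        rw [map_mul, map_inv₀, haev, haev]
        exact v.mul_mem (hmem P hP) (hro Q hQ hQ1).2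
      refine ⟨hv.1, fun x => ⟨hsub x, fun hxv => ?_⟩⟩
      by_contra hxt
      obtain ⟨τ, hτ⟩ := ht
      have hτ' := hu τ hτ
      have hx0 : x ≠ 0 := by
        rintro rfl
        exact hxt t'.zero_mem
      have h5 : ord t' x < 0 := by
        rw [mem_iff hp.1 hx0] at hxt
        omega
      obtain ⟨h6, h7⟩ := (isUnif_iff hp.1).1 hτ'
      have h8 : (algebraMap T F' τ)⁻¹ * x⁻¹ ∈ t' := by
        rw [mem_iff hp.1 (mul_ne_zero (inv_ne_zero h6) (inv_ne_zero hx0)),
          ord_mul hp.1 (inv_ne_zero h6) (inv_ne_zero hx0), ord_inv hp.1, ord_inv hp.1, h7]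
        omega
      have h9 := v.mul_mem (hsub _ h8) hxv
      rw [← map_mul, inv_mul_cancel_right₀ hx0, ← map_inv₀, hTF, ← hvt] at h9
      exact hτ.2.1 h9
    · rintro ⟨hv, hvt⟩
      refine ⟨isPrimeDiv_ext t' hp v ⟨hv, hvt⟩, fun x => ?_, fun i => ?_, fun P hP => ?_⟩
      · rw [hx x, hvt, hTF]
      · exact (hvt (s' i)).1 (hri.1 i)
      · obtain ⟨h5, h6⟩ := hri.2 P hP
        rw [← haevk P]
        refine ⟨fun h => h5 ((algebraMap F' F).injective (by rw [h, map_zero])), ?_⟩
        rw [← map_inv₀]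
        exact (hvt _).1 h6
  obtain ⟨hfin, hsum⟩ := sum_ext (F := F) t' hp.1
  rw [hset]
  refine ⟨hfin, ?_⟩
  rw [← hsum, finsum_mem_mul]
  refine finsum_mem_congr rfl fun v hv => ?_
  obtain ⟨hvd, hvt⟩ := id hv
  have hvl : IsLocalRing v := (isPrimeDiv_ext t' hp v hv).2.choose_spec.2.2.1
  have hram : ram t v = ram t' v := by
    unfold ram
    have ht1 : ∃ τ, IsUnif t τ := ht
    have ht2 : ∃ τ, IsUnif t' τ := hp.1
    rw [dif_pos ht1, dif_pos ht2]
    have h1 := hu _ ht1.choose_spec
    have h2 := ht2.choose_spec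
    rw [← hTF ht1.choose]
    generalize algebraMap T F' ht1.choose = a at h1 ⊢
    generalize ht2.choose = b at h2 ⊢
    obtain ⟨ha0, ha1⟩ := (isUnif_iff hp.1).1 h1
    obtain ⟨hb0, hb1⟩ := (isUnif_iff hp.1).1 h2
    have h3 : ord t' (a * b⁻¹) = 0 := by
      rw [ord_mul hp.1 ha0 (inv_ne_zero hb0), ord_inv hp.1, ha1, hb1]
      omega
    have h4 := (ord_eq_zero_iff hp.1 (mul_ne_zero ha0 (inv_ne_zero hb0))).1 h3
    have h5 : ∀ z : F', z ≠ 0 → algebraMap F' F z ≠ 0 := fun z hz h =>
      hz ((algebraMap F' F).injective (by rw [h, map_zero]))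
    have h6 : ord v (algebraMap F' F (a * b⁻¹)) = 0 := by
      rw [ord_eq_zero_iff hvd (h5 _ (mul_ne_zero ha0 (inv_ne_zero hb0)))]
      refine ⟨(hvt _).1 h4.1, ?_⟩
      rw [← map_inv₀]
      exact (hvt _).1 h4.2
    rw [map_mul, ord_mul hvd (h5 _ ha0) (h5 _ (inv_ne_zero hb0)), map_inv₀, ord_inv hvd] at h6
    omega
  have hres : resDeg v (Set.range s) =
      resDeg v (algebraMap F' F '' (t' : Set F')) * resDeg t ∅ := by
    set g : t' →ₐ[k] v := ((IsScalarTower.toAlgHom k F' F).comp t'.val).codRestrict v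
      (fun x => (hvt _).1 x.2) with hg
    have hgv : ∀ a : t', ((g a : v) : F) = algebraMap F' F (a : F') := fun a => rfl
    have h := DegC_general htl hvl g (fun a ha => ?_) (Set.range s') (Set.range s) ?_ ?_
    · have e : (Set.range fun a : t' => ((g a : v) : F)) = algebraMap F' F '' (t' : Set F') := by
        ext x
        constructor
        · rintro ⟨a, rfl⟩
          exact ⟨a, a.2, rfl⟩
        · rintro ⟨a, ha, rfl⟩
          exact ⟨⟨a, ha⟩, rfl⟩
      rw [e, hdeg] at h
      exact h
    · rw [LocAlg_unit] at ha ⊢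
      refine ⟨fun h0 => ha.1 ?_, ?_⟩
      · rw [hgv, h0, map_zero]
      · rw [hvt, map_inv₀]
        exact ha.2
    · rintro a ⟨i, hi⟩
      refine ⟨i, ?_⟩
      rw [hgv, ← hi]
      rfl
    · rintro b ⟨i, hi⟩
      refine ⟨⟨s' i, hri.1 i⟩, ⟨i, rfl⟩, ?_⟩
      apply Subtype.ext
      rw [hgv, ← hi]
      rfl
  rw [hram, hres]
  push_cast
  ring

end Flip28
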