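import Pool.Agent.Flip_h28.DegD

/-! # The degree of the direct image of a fibre -/

universe u

namespace Flip28

variable {k K : Type u} [Field k] [Field K] [Algebra k K]

/-- the local ring composed of `w` and `v` -/
def DegE_O {w : Subalgebra k K} {F : Type u} [Field F] [Algebra k F] (π : w →ₐ[k] F)
    (v : Subalgebra k F) : Subalgebra k K := (v.comap π).map w.val

theorem DegE_mem {w : Subalgebra k K} {F : Type u} [Field F] [Algebra k F] {π : w →ₐ[k] F}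
    {v : Subalgebra k F} {x : K} : x ∈ DegE_O π v ↔ ∃ h : x ∈ w, π ⟨x, h⟩ ∈ v := by
  constructor
  · rintro ⟨a, ha, rfl⟩
    exact ⟨a.2, ha⟩
  · rintro ⟨h, h'⟩
    exact ⟨⟨x, h⟩, h', rfl⟩

theorem DegE_inv_mul {w : Subalgebra k K} {F : Type u} [Field F] [Algebra k F] (π : w →ₐ[k] F)
    {x : K} (hx : x ∈ w) (hx' : x⁻¹ ∈ w) (h0 : x ≠ 0) :
    π ⟨x, hx⟩ ≠ 0 ∧ π ⟨x⁻¹, hx'⟩ = (π ⟨x, hx⟩)⁻¹ := by
  have h1 : π ⟨x, hx⟩ * π ⟨x⁻¹, hx'⟩ = 1 := by
    rw [← map_mul, ← map_one π]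
    congr 1
    exact Subtype.ext (mul_inv_cancel₀ h0)
  have h2 : π ⟨x, hx⟩ ≠ 0 := by
    intro h
    rw [h, zero_mul] at h1
    exact zero_ne_one h1
  exact ⟨h2, (inv_eq_of_mul_eq_one_right h1).symm⟩

theorem DegE_inv {w : Subalgebra k K} {F : Type u} [Field F] [Algebra k F] {π : w →ₐ[k] F}
    (hker : ∀ a : w, (a : K)⁻¹ ∉ w → π a = 0) {x : K} (hx : x ∈ w) (h : π ⟨x, hx⟩ ≠ 0) :
    x ≠ 0 ∧ ∃ h' : x⁻¹ ∈ w, π ⟨x⁻¹, h'⟩ = (π ⟨x, hx⟩)⁻¹ := by
  have h0 : x ≠ 0 := by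
    rintro rfl
    apply h
    have : (⟨0, hx⟩ : w) = 0 := rfl
    rw [this, map_zero]
  have h' : x⁻¹ ∈ w := by
    by_contra hc
    exact h (hker ⟨x, hx⟩ hc)
  exact ⟨h0, h', (DegE_inv_mul π hx h' h0).2⟩

theorem DegE_local {w : Subalgebra k K} {F : Type u} [Field F] [Algebra k F] {π : w →ₐ[k] F}
    (hker : ∀ a : w, (a : K)⁻¹ ∉ w → π a = 0) {v : Subalgebra k F} (hv : IsLocalRing v) :
    IsLocalRing (DegE_O π v) := by
  apply Loc_aux_local
  intro x hx
  obtain ⟨h, h'⟩ := DegE_mem.1 hx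
  rcases Loc_aux_unit hv h' with ⟨h1, h2⟩ | ⟨h1, h2⟩
  · left
    obtain ⟨h3, h4, h5⟩ := DegE_inv hker h h1
    refine ⟨h3, DegE_mem.2 ⟨h4, ?_⟩⟩
    rw [h5]
    exact h2
  · right
    have h6 : (1 : K) - x ∈ w := w.sub_mem w.one_mem h
    have h7 : π ⟨1 - x, h6⟩ = 1 - π ⟨x, h⟩ := by
      rw [← map_one π, ← map_sub]
      rfl
    obtain ⟨h3, h4, h5⟩ := DegE_inv hker h6 (by rw [h7]; exact h1)
    refine ⟨h3, DegE_mem.2 ⟨h4, ?_⟩⟩
    rw [h5, h7]
    exact h2

theorem DegE_primeDiv_local {F : Type u} [Field F] [Algebra k F] {v : Subalgebra k F}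
    (hv : IsPrimeDiv v) : IsLocalRing v := by
  obtain ⟨_, R, _, h⟩ := hv
  exact h.2.1

/-- the condition on the centre in `FibDiv` -/
theorem DegE_fibDiv_iff {w : Subalgebra k K} {T F : Type u} [Field T] [Field F] [Algebra k T]
    [Algebra k F] [Algebra T F] {π : w →ₐ[k] F} (hker : ∀ a : w, (a : K)⁻¹ ∉ w → π a = 0)
    {t : Subalgebra k T} {Z : Subalgebra k K} {v : Subalgebra k F} :
    v ∈ FibDiv π t Z ↔ IsPrimeDiv v ∧ (∀ x : T, x ∈ t ↔ algebraMap T F x ∈ v) ∧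
      Dom Z (DegE_O π v) := by
  constructor
  · rintro ⟨h1, h2, h, h3⟩
    refine ⟨h1, h2, fun x hx => DegE_mem.2 ⟨h hx, (h3 ⟨x, hx⟩).1⟩, fun x hx hx' => ?_⟩
    by_cases h0 : x = 0
    · rw [h0, inv_zero]
      exact Z.zero_mem
    · obtain ⟨h4, h5⟩ := DegE_mem.1 hx'
      obtain ⟨h6, h7⟩ := DegE_inv_mul π (h hx) h4 h0
      exact (h3 ⟨x, hx⟩).2 h6 (by rw [h7] at h5; exact h5)
  · rintro ⟨h1, h2, h3⟩
    have hZw : Z ≤ w := fun x hx => (DegE_mem.1 (h3.1 hx)).1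
    refine ⟨h1, h2, hZw, fun a => ⟨(DegE_mem.1 (h3.1 a.2)).2, fun h4 h5 => ?_⟩⟩
    obtain ⟨h6, h7, h8⟩ := DegE_inv hker (hZw a.2) h4
    refine h3.2 a a.2 (DegE_mem.2 ⟨h7, ?_⟩)
    rw [h8]
    exact h5

theorem DegE_aeval {w : Subalgebra k K} {F : Type u} [Field F] [Algebra k F] (π : w →ₐ[k] F)
    {d : ℕ} {r : Fin d → K} {s : Fin d → F} (h : ∀ i, ∃ h : r i ∈ w, π ⟨r i, h⟩ = s i)
    (P : MvPolynomial (Fin d) k) :
    ∃ h' : MvPolynomial.aeval r P ∈ w, π ⟨MvPolynomial.aeval r P, h'⟩ =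
      MvPolynomial.aeval s P := by
  choose h1 h2 using h
  have h3 : w.val (MvPolynomial.aeval (fun i => (⟨r i, h1 i⟩ : w)) P) =
      MvPolynomial.aeval r P := by
    rw [MvPolynomial.comp_aeval_apply]
    rfl
  have h4 : π (MvPolynomial.aeval (fun i => (⟨r i, h1 i⟩ : w)) P) =
      MvPolynomial.aeval s P := by
    rw [MvPolynomial.comp_aeval_apply]
    congr 1
    congr 1
    funext i
    exact h2 i
  refine ⟨by rw [← h3]; exact Subtype.mem _, ?_⟩
  rw [← h4]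
  congr 1
  exact Subtype.ext h3.symm

/-- change of the generator at `w` -/
theorem DegE_gen {V : Submodule k K} {w : Subalgebra k K} {u : K} (hu : GenAt V w u)
    {F : Type u} [Field F] [Algebra k F] {π : w →ₐ[k] F}
    (hker : ∀ a : w, (a : K)⁻¹ ∉ w → π a = 0) {l₀ : V} (h0 : psi V hu π l₀ ≠ 0) :
    (l₀ : K) ≠ 0 ∧ ∀ x : V, ∃ h : (x : K) * (l₀ : K)⁻¹ ∈ w,
      π ⟨(x : K) * (l₀ : K)⁻¹, h⟩ = psi V hu π x * (psi V hu π l₀)⁻¹ := by
  have h1 : (l₀ : K) * u⁻¹ ∈ w := hu.2.2 l₀ l₀.2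
  have h2 : π ⟨(l₀ : K) * u⁻¹, h1⟩ ≠ 0 := h0
  obtain ⟨h3, h4, h5⟩ := DegE_inv hker h1 h2
  have h6 : (l₀ : K) ≠ 0 := fun h => h3 (by rw [h, zero_mul])
  refine ⟨h6, fun x => ?_⟩
  have h7 : (x : K) * u⁻¹ ∈ w := hu.2.2 x x.2
  have h8 : (x : K) * (l₀ : K)⁻¹ = (x : K) * u⁻¹ * ((l₀ : K) * u⁻¹)⁻¹ := by
    have := hu.2.1
    field_simp
  refine ⟨by rw [h8]; exact w.mul_mem h7 h4, ?_⟩
  have h9 : psi V hu π x * (psi V hu π l₀)⁻¹ =
      π (⟨(x : K) * u⁻¹, h7⟩ * ⟨((l₀ : K) * u⁻¹)⁻¹, h4⟩) := by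
    rw [map_mul, h5]
    rfl
  rw [h9]
  congr 1
  exact Subtype.ext h8

theorem DegE_psi_ne {V : Submodule k K} {w : Subalgebra k K} {u : K} (hu : GenAt V w u)
    {F : Type u} [Field F] [Algebra k F] (π : w →ₐ[k] F) {Z : Subalgebra k K} (hZw : Z ≤ w)
    {l₀ : V} (h : GenAt V Z l₀) : psi V hu π l₀ ≠ 0 := by
  have h1 : (l₀ : K) * u⁻¹ ∈ w := hu.2.2 l₀ l₀.2
  have h2 : ((l₀ : K) * u⁻¹)⁻¹ ∈ w := by
    rw [mul_inv, inv_inv, mul_comm]
    exact hZw (h.2.2 u hu.1)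
  exact (DegE_inv_mul π h1 h2 (mul_ne_zero h.2.1 (inv_ne_zero hu.2.1))).1

theorem DegE_trdeg_le {Z : Subalgebra k K} {w : Subalgebra k K} {F : Type u} [Field F]
    [Algebra k F] {π : w →ₐ[k] F} {v : Subalgebra k F} [IsLocalRing Z] [IsLocalRing v]
    (hker : ∀ a : w, (a : K)⁻¹ ∉ w → π a = 0) (hd : Dom Z (DegE_O π v)) :
    Algebra.trdeg k (IsLocalRing.ResidueField Z) ≤
      Algebra.trdeg k (IsLocalRing.ResidueField v) := by
  have hZw : Z ≤ w := fun x hx => (DegE_mem.1 (hd.1 hx)).1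
  let φ : Z →ₐ[k] v := (π.comp (Subalgebra.inclusion hZw)).codRestrict v
    fun a => (DegE_mem.1 (hd.1 a.2)).2
  have hφ : ∀ a : Z, ((φ a : v) : F) = π ⟨a, hZw a.2⟩ := fun a => rfl
  have : IsLocalHom φ.toRingHom := by
    refine ⟨fun a ha => ?_⟩
    have h1 := (LocAlg_unit _).1 ha
    have h2 : π ⟨a, hZw a.2⟩ ≠ 0 := h1.1
    have h3 : (π ⟨a, hZw a.2⟩)⁻¹ ∈ v := h1.2
    obtain ⟨h4, h5, h6⟩ := DegE_inv hker (hZw a.2) h2
    refine (LocAlg_unit _).2 ⟨h4, hd.2 a a.2 (DegE_mem.2 ⟨h5, ?_⟩)⟩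
    rw [h6]
    exact h3
  let f : IsLocalRing.ResidueField Z →ₐ[k] IsLocalRing.ResidueField v :=
    { IsLocalRing.ResidueField.map φ.toRingHom with
      commutes' := fun c => by
        change IsLocalRing.ResidueField.map φ.toRingHom
          (IsLocalRing.residue Z (algebraMap k Z c)) = IsLocalRing.residue v (algebraMap k v c)
        rw [IsLocalRing.ResidueField.map_residue]
        congr 1
        exact φ.commutes c }
  exact trdeg_le_of_injective f f.toRingHom.injective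

theorem DegE_le_trdeg {Z : Subalgebra k K} [IsLocalRing Z] {d : ℕ} {r : Fin d → K}
    (hr : ResIndep Z r) : (d : Cardinal) ≤ Algebra.trdeg k (IsLocalRing.ResidueField Z) := by
  have h1 : AlgebraicIndependent k
      (fun i => IsLocalRing.residue Z (⟨r i, hr.1 i⟩ : Z)) := by
    rw [algebraicIndependent_iff]
    intro P hP
    by_contra h0
    have h2 := hr.2 P h0
    let φ : Z →ₐ[k] IsLocalRing.ResidueField Z := IsScalarTower.toAlgHom k Z _
    have h3 : φ (MvPolynomial.aeval (fun i => (⟨r i, hr.1 i⟩ : Z)) P) = 0 := by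
      rw [MvPolynomial.comp_aeval_apply]
      exact hP
    have h4 : (MvPolynomial.aeval (fun i => (⟨r i, hr.1 i⟩ : Z)) P : Z) =
        MvPolynomial.aeval r P := by
      change Z.val _ = _
      rw [MvPolynomial.comp_aeval_apply]
      rfl
    have h5 : IsUnit (MvPolynomial.aeval (fun i => (⟨r i, hr.1 i⟩ : Z)) P) := by
      rw [LocAlg_unit, h4]
      exact h2
    exact (h5.map φ).ne_zero h3
  have h2 := h1.lift_cardinalMk_le_trdeg
  simpa using h2

/-- a prime divisor `v` in `GoodOver t s`, `s_i = ψ(l_{i+1}) / ψ(l_0)`, has a centre `Z` on `X`,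
which is a good point of codimension `p`.

Proof: take a valuation ring of `K` composed of a valuation ring dominating `w` and an extension
of `v`; its centre `Z` on `X` is `≤ w` (`isLoc_centre`) and is the centre of `v`.  (Alternatively:
some `ψ(l_i)` has the minimal value on `V` with respect to `v`, by genericity; as the
`ψ(l_{i+1}) / ψ(l_0)` are units of `v` (their residues are algebraically independent), `ψ(l_0)`
has it.  So `π` maps the elements `v / l₀`, `v ∈ V`, of `w` to `v`; let `Z` be the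
localization of `k[V / l₀]` at the prime of the elements whose image is not a unit of `v`; it is a
point of `X` by `Defines`.)  The residue field of `Z` is contained in the one of `v`, of
transcendence degree `d`, and contains the algebraically independent residues of
`l_{i+1} / l₀`; so its transcendence degree is `d` and the codimension is `p` (`dim_formula`). -/
theorem exists_centre_good [CharZero k] [Algebra.EssFiniteType k K]
    {X : Set (Subalgebra k K)} (hX : IsCompleteNormal X) {V : Submodule k K}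
    (hV : Defines X V) {p d : ℕ} (hn : Algebra.trdeg k K = (p + d : ℕ))
    {w : Subalgebra k K} {T F : Type u} [Field T] [Field F] [Algebra k T] [Algebra k F]
    [Algebra T F] {π : w →ₐ[k] F} (hfam : IsFam X p T π) {u : K} (hu : GenAt V w u)
    {t : Subalgebra k T} (ht : IsDVR t) {l : Fin (d + 1) → V} {D : Subalgebra k F} {τ : T}
    (hτ : IsUnif t τ) (hD : ∀ x ∈ D, ∃ y ∈ t, x = algebraMap T F y)
    (hg : GenForms (psi V hu π) D (algebraMap T F τ) l) {v : Subalgebra k F}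
    (hv : v ∈ GoodOver t (fun i : Fin d => psi V hu π (l i.succ) * (psi V hu π (l 0))⁻¹)) :
    ∃ Z ∈ Pt X p, GoodPt V l Z ∧ v ∈ FibDiv π t Z := by
  obtain ⟨hpd, hover, hind, hunit⟩ := hv
  have hker := hfam.ker
  have hvl : IsLocalRing v := DegE_primeDiv_local hpd
  -- the values of the forms
  obtain ⟨i, hi0, hi⟩ := hg v hpd.1.isVal
    (fun x hx => by
      obtain ⟨y, hy, rfl⟩ := hD x hx
      exact (hover y).1 hy)
    (Or.inl fun h => hτ.2.1 ((hover _).2 (by rw [map_inv₀]; exact h)))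
  have h0 : psi V hu π (l 0) ≠ 0 ∧ ∀ x, psi V hu π x * (psi V hu π (l 0))⁻¹ ∈ v := by
    refine Fin.cases ?_ (fun j => ?_) i (motive := fun i => psi V hu π (l i) ≠ 0 →
      (∀ x, psi V hu π x * (psi V hu π (l i))⁻¹ ∈ v) →
      psi V hu π (l 0) ≠ 0 ∧ ∀ x, psi V hu π x * (psi V hu π (l 0))⁻¹ ∈ v) hi0 hi
    · exact fun a b => ⟨a, b⟩
    · intro a b
      have h1 := (hunit (MvPolynomial.X j) (MvPolynomial.X_ne_zero j)).1
      rw [MvPolynomial.aeval_X] at h1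
      have h2 : psi V hu π (l 0) ≠ 0 := fun h => h1 (by rw [h, inv_zero, mul_zero])
      refine ⟨h2, fun x => ?_⟩
      have h3 : psi V hu π x * (psi V hu π (l 0))⁻¹ =
          psi V hu π x * (psi V hu π (l j.succ))⁻¹ *
            (psi V hu π (l j.succ) * (psi V hu π (l 0))⁻¹) := by
        field_simp
      rw [h3]
      exact v.mul_mem (b x) (hind j)
  obtain ⟨hl0, hl⟩ := DegE_gen hu hker h0.1
  set R := Algebra.adjoin k {x | ∃ y ∈ V, x = y * (l 0 : K)⁻¹} with hR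
  have hRO : R ≤ DegE_O π v := by
    rw [hR, Algebra.adjoin_le_iff]
    rintro _ ⟨y, hy, rfl⟩
    obtain ⟨h1, h2⟩ := hl ⟨y, hy⟩
    refine DegE_mem.2 ⟨h1, ?_⟩
    rw [h2]
    exact h0.2 _
  obtain ⟨Z, hZR, hZO⟩ := exists_cen R _ hRO (DegE_local hker hvl)
  have hZX : Z ∈ X := (hV.2 Z).2 ⟨l 0, (l 0).2, hl0, hZR⟩
  have hZw : Z ≤ w := fun x hx => (DegE_mem.1 (hZO.1 hx)).1
  have hgen : ∀ y ∈ V, y * (l 0 : K)⁻¹ ∈ Z := fun y hy =>
    hZR.1 (Algebra.subset_adjoin ⟨y, hy, rfl⟩)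
  have hgood : GoodPt V l Z := by
    refine ⟨⟨(l 0).2, hl0, hgen⟩, fun j => hgen _ (l j.succ).2, fun P hP => ?_⟩
    obtain ⟨h1, h2⟩ := hunit P hP
    obtain ⟨h3, h4⟩ := DegE_aeval π (r := aff l)
      (s := fun i : Fin d => psi V hu π (l i.succ) * (psi V hu π (l 0))⁻¹)
      (fun j => hl (l j.succ)) P
    rw [← h4] at h1 h2
    obtain ⟨h5, h6, h7⟩ := DegE_inv hker h3 h1
    refine ⟨h5, hZO.2 _ ?_ (DegE_mem.2 ⟨h6, ?_⟩)⟩
    · have h8 : MvPolynomial.aeval (fun j => (⟨aff l j, hgen _ (l j.succ).2⟩ : Z)) P =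
          MvPolynomial.aeval (aff l) P := by
        change Z.val _ = _
        rw [MvPolynomial.comp_aeval_apply]
        rfl
      rw [← h8]
      exact Subtype.mem _
    · rw [h7]
      exact h2
  refine ⟨Z, ⟨hZX, ?_⟩, hgood, (DegE_fibDiv_iff hker).2 ⟨hpd, hover, hZO⟩⟩
  -- the codimension
  obtain ⟨S, hS, hSK, hSZ, _⟩ := hX.exists_chart hZX
  have hZl : IsLocalRing Z := hX.isLocalRing hZX
  obtain ⟨a, e, h1, h2, h3⟩ := dim_formula hS hSK hSZ
  obtain ⟨hdv, S', hS', hSv⟩ := hpd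
  obtain ⟨hdvr, hfrac⟩ := isDVR_iff.1 hdv
  obtain ⟨a', e', h1', h2', h3'⟩ := dim_formula hS' (hSv.isFractionRing_left hfrac) hSv
  have h4 : ringKrullDim v = 1 := IsDiscreteValuationRing.ringKrullDim_eq_one v
  rw [h1'] at h4
  have h5 : a' = 1 := by exact_mod_cast h4
  have h6 := hfam.trF
  rw [h3', hn] at h6
  have h7 : a' + e' + p = p + d + 1 := by exact_mod_cast h6
  have h8 := DegE_trdeg_le hker hZO
  rw [h2, h2'] at h8
  have h9 : e ≤ e' := by exact_mod_cast h8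
  have h10 := DegE_le_trdeg hgood.2
  rw [h2] at h10
  have h11 : d ≤ e := by exact_mod_cast h10
  rw [hn] at h3
  have h12 : p + d = a + e := by exact_mod_cast h3
  rw [h1]
  have h13 : a = p := by omega
  rw [h13]

/-- conversely the prime divisors over `t` with centre a good point are in `GoodOver` -/
theorem goodOver_of_fibDiv {X : Set (Subalgebra k K)} (hX : IsCompleteNormal X)
    {V : Submodule k K} {p d : ℕ} {w : Subalgebra k K} {T F : Type u} [Field T] [Field F]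
    [Algebra k T] [Algebra k F] [Algebra T F] {π : w →ₐ[k] F} (hfam : IsFam X p T π) {u : K}
    (hu : GenAt V w u) {t : Subalgebra k T} {l : Fin (d + 1) → V} {Z : Subalgebra k K}
    (hZ : Z ∈ X) (hgood : GoodPt V l Z) {v : Subalgebra k F} (hv : v ∈ FibDiv π t Z) :
    v ∈ GoodOver t (fun i : Fin d => psi V hu π (l i.succ) * (psi V hu π (l 0))⁻¹) := by
  have hker := hfam.ker
  obtain ⟨h1, h2, h3⟩ := (DegE_fibDiv_iff hker).1 hv
  have hZw : Z ≤ w := fun x hx => (DegE_mem.1 (h3.1 hx)).1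
  have hne := DegE_psi_ne hu π hZw hgood.1
  obtain ⟨hl0, hl⟩ := DegE_gen hu hker hne
  refine ⟨h1, h2, fun i => ?_, fun P hP => ?_⟩
  · obtain ⟨h4, h5⟩ := hl (l i.succ)
    obtain ⟨h6, h7⟩ := DegE_mem.1 (h3.1 (hgood.2.1 i))
    change psi V hu π (l i.succ) * (psi V hu π (l 0))⁻¹ ∈ v
    rw [← h5]
    exact h7
  · obtain ⟨h4, h5⟩ := hgood.2.2 P hP
    obtain ⟨h6, h7⟩ := DegE_aeval π (r := aff l)
      (s := fun i : Fin d => psi V hu π (l i.succ) * (psi V hu π (l 0))⁻¹)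
      (fun j => hl (l j.succ)) P
    obtain ⟨h8, h9⟩ := DegE_inv_mul π h6 (hZw h5) h4
    rw [← h7]
    refine ⟨h8, ?_⟩
    rw [← h9]
    exact (DegE_mem.1 (h3.1 h5)).2

/-- the centre is unique -/
theorem fibDiv_unique {X : Set (Subalgebra k K)} (hX : IsCompleteNormal X) {p : ℕ}
    {w : Subalgebra k K} {T F : Type u} [Field T] [Field F] [Algebra k T] [Algebra k F]
    [Algebra T F] {π : w →ₐ[k] F} (hfam : IsFam X p T π) {t : Subalgebra k T}
    {Z Z' : Subalgebra k K} (hZ : Z ∈ X) (hZ' : Z' ∈ X) {v : Subalgebra k F}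
    (hv : v ∈ FibDiv π t Z) (hv' : v ∈ FibDiv π t Z') : Z = Z' := by
  obtain ⟨h1, _, h3⟩ := (DegE_fibDiv_iff hfam.ker).1 hv
  obtain ⟨_, _, h3'⟩ := (DegE_fibDiv_iff hfam.ker).1 hv'
  exact hX.unique hZ hZ' (DegE_local hfam.ker (DegE_primeDiv_local h1)) h3 h3'

theorem DegE_resDeg_eq {F : Type u} [Field F] [Algebra k F] (v : Subalgebra k F)
    [IsLocalRing v] (S : Set F) : resDeg v S = Module.finrank (IntermediateField.adjoin k
      {y : IsLocalRing.ResidueField v | ∃ a : v, (a : F) ∈ S ∧ y = IsLocalRing.residue v a})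
      (IsLocalRing.ResidueField v) := by
  unfold resDeg
  rw [dif_pos ‹IsLocalRing v›]

theorem DegE_finrank {E E' : Type u} [Field E] [Field E'] [Algebra k E] [Algebra k E']
    (e : E ≃ₐ[k] E') (S : Set E) (S' : Set E') (h : e '' S = S') :
    Module.finrank (IntermediateField.adjoin k S) E =
      Module.finrank (IntermediateField.adjoin k S') E' := by
  subst h
  have h1 : (IntermediateField.adjoin k S).map e.toAlgHom =
      IntermediateField.adjoin k (e '' S) := IntermediateField.adjoin_map k S e.toAlgHom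
  rw [← h1]
  exact Algebra.finrank_eq_of_equiv_equiv
    (IntermediateField.intermediateFieldMap e (IntermediateField.adjoin k S)).toRingEquiv
    e.toRingEquiv (by ext x; rfl)

/-- multiplicativity of the degrees: `[κ(v) : κ(Z)] [κ(Z) : k(l̄)] = [κ(v) : k(s̄)]` -/
theorem resDeg_mul_degPt {X : Set (Subalgebra k K)} (hX : IsCompleteNormal X)
    {V : Submodule k K} {p d : ℕ} {w : Subalgebra k K} {T F : Type u} [Field T] [Field F]
    [Algebra k T] [Algebra k F] [Algebra T F] {π : w →ₐ[k] F} (hfam : IsFam X p T π) {u : K}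
    (hu : GenAt V w u) {t : Subalgebra k T} {l : Fin (d + 1) → V} {Z : Subalgebra k K}
    (hZ : Z ∈ X) (hgood : GoodPt V l Z) {v : Subalgebra k F} (hv : v ∈ FibDiv π t Z) :
    resDeg v {x : F | ∃ a : w, (a : K) ∈ Z ∧ x = π a} * degPt V l Z =
      resDeg v (Set.range
        (fun i : Fin d => psi V hu π (l i.succ) * (psi V hu π (l 0))⁻¹)) := by
  have hker := hfam.ker
  obtain ⟨h1, h2, h3⟩ := (DegE_fibDiv_iff hker).1 hv
  have hZw : Z ≤ w := fun x hx => (DegE_mem.1 (h3.1 hx)).1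
  have hne := DegE_psi_ne hu π hZw hgood.1
  obtain ⟨hl0, hl⟩ := DegE_gen hu hker hne
  have hvl : IsLocalRing v := DegE_primeDiv_local h1
  have hZl : IsLocalRing Z := hX.isLocalRing hZ
  -- the image of `Z`
  let f : Z →ₐ[k] F := π.comp (Subalgebra.inclusion hZw)
  have hf : ∀ a : Z, f a = π ⟨a, hZw a.2⟩ := fun a => rfl
  have hset : {x : F | ∃ a : w, (a : K) ∈ Z ∧ x = π a} = (f.range : Set F) := by
    ext x
    constructor
    · rintro ⟨a, ha, rfl⟩
      exact ⟨⟨a, ha⟩, rfl⟩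
    · rintro ⟨a, rfl⟩
      exact ⟨⟨a, hZw a.2⟩, a.2, rfl⟩
  have hdom : Dom f.range v := by
    constructor
    · rintro _ ⟨a, rfl⟩
      exact (DegE_mem.1 (h3.1 a.2)).2
    · rintro _ ⟨a, rfl⟩ ha
      by_cases h0 : f a = 0
      · change (f a)⁻¹ ∈ f.range
        rw [h0, inv_zero]
        exact f.range.zero_mem
      · obtain ⟨h4, h5, h6⟩ := DegE_inv hker (hZw a.2) h0
        have h7 : (a : K)⁻¹ ∈ Z := h3.2 a a.2 (DegE_mem.2 ⟨h5, by rw [h6]; exact ha⟩)
        refine ⟨⟨(a : K)⁻¹, h7⟩, ?_⟩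
        change π ⟨(a : K)⁻¹, _⟩ = (f a)⁻¹
        rw [h6]
        rfl
  let g : Z →ₐ[k] f.range := f.rangeRestrict
  have hgs : Function.Surjective g := f.rangeRestrict_surjective
  have hloc : IsLocalRing f.range := by
    have : Nontrivial f.range := inferInstance
    exact IsLocalRing.of_surjective' g.toRingHom hgs
  have hgl : IsLocalHom g.toRingHom := by
    refine ⟨fun a ha => ?_⟩
    have h4 := (LocAlg_unit _).1 ha
    have h5 : f a ≠ 0 := h4.1
    obtain ⟨h6, h7, h8⟩ := DegE_inv hker (hZw a.2) h5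
    refine (LocAlg_unit _).2 ⟨h6, h3.2 a a.2 (DegE_mem.2 ⟨h7, ?_⟩)⟩
    rw [h8]
    exact hdom.1 h4.2
  have hS : Set.range (fun i : Fin d => psi V hu π (l i.succ) * (psi V hu π (l 0))⁻¹) ⊆
      (f.range : Set F) := by
    rintro _ ⟨i, rfl⟩
    obtain ⟨h4, h5⟩ := hl (l i.succ)
    exact ⟨⟨aff l i, hgood.2.1 i⟩, h5⟩
  rw [hset, resDeg_tower hvl f.range hdom hloc _ hS]
  congr 1
  unfold degPt
  rw [if_pos hgood, DegE_resDeg_eq, DegE_resDeg_eq]
  let m : IsLocalRing.ResidueField Z →+* IsLocalRing.ResidueField f.range :=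
    IsLocalRing.ResidueField.map g.toRingHom
  have hm : ∀ a : Z, m (IsLocalRing.residue Z a) = IsLocalRing.residue f.range (g a) :=
    fun a => IsLocalRing.ResidueField.map_residue _ a
  have hmb : Function.Bijective m := by
    refine ⟨m.injective, fun y => ?_⟩
    obtain ⟨b, rfl⟩ := IsLocalRing.residue_surjective y
    obtain ⟨a, rfl⟩ := hgs b
    exact ⟨IsLocalRing.residue Z a, hm a⟩
  let m' : IsLocalRing.ResidueField Z →ₐ[k] IsLocalRing.ResidueField f.range :=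
    { m with
      commutes' := fun c => by
        change m (IsLocalRing.residue Z (algebraMap k Z c)) =
          IsLocalRing.residue f.range (algebraMap k f.range c)
        rw [hm, g.commutes] }
  refine DegE_finrank (AlgEquiv.ofBijective m' hmb) _ _ ?_
  ext y
  constructor
  · rintro ⟨_, ⟨a, ⟨i, hi⟩, rfl⟩, rfl⟩
    refine ⟨g a, ⟨i, ?_⟩, hm a⟩
    obtain ⟨h4, h5⟩ := hl (l i.succ)
    change psi V hu π (l i.succ) * (psi V hu π (l 0))⁻¹ = π ⟨a, hZw a.2⟩
    rw [← h5]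
    congr 1
    exact Subtype.ext hi
  · rintro ⟨b, ⟨i, hi⟩, rfl⟩
    refine ⟨IsLocalRing.residue Z ⟨aff l i, hgood.2.1 i⟩,
      ⟨⟨aff l i, hgood.2.1 i⟩, ⟨i, rfl⟩, rfl⟩, ?_⟩
    refine (hm ⟨aff l i, hgood.2.1 i⟩).trans ?_
    congr 1
    apply Subtype.ext
    rw [← hi]
    obtain ⟨h4, h5⟩ := hl (l i.succ)
    exact h5

end Flip28
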