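import Pool.Agent.Flip_h28.LocAlg

/-! # Differentials and transcendence degree -/

open scoped KaehlerDifferential

namespace Flip28

variable {k K : Type*} [Field k] [Field K] [Algebra k K]

/-- In characteristic zero the dimension of `Ω[K⁄k]` is the transcendence degree (a transcendence
basis `x`; `K` is algebraic and separable, hence formally étale, over `k(x)`, and `Ω` of
`k(x)` is the localization of `Ω` of the polynomial ring). -/
theorem trdeg_eq_finrank [CharZero k] {F : Type*} [Field F] [Algebra k F]
    [Algebra.EssFiniteType k F] : Algebra.trdeg k F = Module.finrank F Ω[F⁄k] := by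
  obtain ⟨s, hs⟩ := exists_finset_isTranscendenceBasis k F
  let A := MvPolynomial s k
  let _ : Algebra A F := (MvPolynomial.aeval ((↑) : s → F)).toAlgebra
  have _ : IsScalarTower k A F := IsScalarTower.of_algebraMap_eq' (by
    ext x
    change algebraMap k F x = (MvPolynomial.aeval ((↑) : s → F)) (algebraMap k A x)
    rw [AlgHom.commutes])
  have hinj : Function.Injective (algebraMap A F) := hs.1
  have _ : FaithfulSMul A F := (faithfulSMul_iff_algebraMap_injective A F).mpr hinj
  let E := FractionRing A
  let _ : Algebra E F := FractionRing.liftAlgebra A F
  have _ : IsScalarTower A E F := inferInstance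
  have hA : Algebra.IsAlgebraic A F := by
    have h := hs.isAlgebraic
    refine Algebra.IsAlgebraic.of_ringHom_of_comp_eq hs.1.aevalEquiv.toRingEquiv
      (RingHom.id F) hs.1.aevalEquiv.surjective Function.injective_id ?_
    ext x
    · simp
      rfl
    · simp
      rfl
  have _ : Algebra.IsAlgebraic E F := IsFractionRing.comap_isAlgebraic_iff.mp hA
  have _ : CharZero A := inferInstance
  have _ : CharZero E := inferInstance
  have _ : Algebra.IsSeparable E F := inferInstance
  have _ : Algebra.FormallyEtale E F := Algebra.FormallyEtale.of_isSeparable E F
  have _ : Algebra.FormallyEtale A E := Algebra.FormallyEtale.of_isLocalization (nonZeroDivisors A)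
  have _ : Algebra.FormallyEtale A F := Algebra.FormallyEtale.comp A E F
  let e := KaehlerDifferential.tensorKaehlerEquivOfFormallyEtale k A F
  let b := ((KaehlerDifferential.mvPolynomialBasis k s).baseChange F).map e
  rw [Module.finrank_eq_card_basis b, ← hs.cardinalMk_eq_trdeg]
  simp

end Flip28
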