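import Pool.Agent.Flip_h28.Disc

/-! # Discrepancies increase under a flip

Let `y` be a point of `Y`, `A`, `A'` points of `X`, `X'` above `y`, `θ` a section of
`-m' K_X` above `y` which generates at `A`, and `η` a section of `m K_X'` above `y` which
generates at `A'`.  Then `g = θ^m η^m'` lies in `y`, and if it is a unit of `y` then
`A = y = A'`. -/

open scoped KaehlerDifferential

namespace Flip28

variable {k K : Type*} [Field k] [Field K] [Algebra k K] {n : ℕ}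
  (b : Module.Basis (Fin n) K Ω[K⁄k]) {X Y X' : Set (Subalgebra k K)}

/-- the data given by relative very ampleness at the point `A` above `y` -/
def VA (X : Set (Subalgebra k K)) (m : ℤ) (y A : Subalgebra k K) (h : K) : Prop :=
  h ∈ Sec b X m y ∧ IsGen b X m A h ∧
    IsLoc (Algebra.adjoin k ((y : Set K) ∪ {x | ∃ g ∈ Sec b X m y, x = g * h⁻¹})) A

/-- If the quotients of sections by `h` have a power (times a unit) in the normal local ring `y`,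
then `A = y`. -/
theorem VA.eq (hY : IsCompleteNormal Y) {m : ℤ} {y A : Subalgebra k K} {h : K} (hy : y ∈ Y)
    (hd : Dom y A) (hva : VA b X m y A h)
    (hq : ∀ g ∈ Sec b X m y, ∃ j : ℕ, 0 < j ∧ (g * h⁻¹) ^ j ∈ y) : A = y := by
  obtain ⟨R, -, hR, hRy, -⟩ := hY.exists_chart hy
  have hfr : IsFractionRing y K := isFractionRing_of_le hR hRy.1
  have hn : IsIntegrallyClosed y := hY.normal y hy
  have h1 : Algebra.adjoin k ((y : Set K) ∪ {x | ∃ g ∈ Sec b X m y, x = g * h⁻¹}) = y := by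
    refine le_antisymm (Algebra.adjoin_le ?_) fun x hx => Algebra.subset_adjoin (Or.inl hx)
    rintro x (hx | ⟨g, hg, rfl⟩)
    · exact hx
    · obtain ⟨j, hj, hj'⟩ := hq g hg
      have h2 : IsIntegral y ((g * h⁻¹) ^ j) := isIntegral_algebraMap (x := (⟨_, hj'⟩ : y))
      obtain ⟨z, hz⟩ := IsIntegrallyClosed.exists_algebraMap_eq_of_isIntegral_pow hj h2
      rw [← hz]
      exact z.2
  have h2 := hva.2.2
  rw [h1] at h2
  exact IsLoc.eq_of_dom h2 hd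

theorem F1_ord_pow {P : Subalgebra k K} (hP : IsDVR P) {x : K} {m : ℕ} (h : x ^ m ≠ 0) :
    ord P (x ^ m) = m * ord P x := by
  by_cases hx : x = 0
  · have hm : m = 0 := by
      by_contra hm
      exact h (by rw [hx, zero_pow hm])
    rw [hm, pow_zero, ord_one hP, Nat.cast_zero, zero_mul]
  · exact ord_pow hP hx m

theorem F1_sec_nonneg {m' : ℤ} {x : K} {Z : Set (Subalgebra k K)} {w P : Subalgebra k K}
    (hP : P ∈ Z) (hd : IsDVR P) (hw : w ≤ P) (hx : x ∈ Sec b Z m' w) {m : ℕ} (h : x ^ m ≠ 0) :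
    0 ≤ (m : ℤ) * kord b m' P x := by
  by_cases hx0 : x = 0
  · have hm : m = 0 := by
      by_contra hm
      exact h (by rw [hx0, zero_pow hm])
    rw [hm, Nat.cast_zero, zero_mul]
  · exact mul_nonneg (Int.natCast_nonneg m) (hx hx0 P hP hd hw)

theorem flip_g_mem (hX : IsCompleteNormal X) (hf : IsFlip b X Y X') {y : Subalgebra k K}
    (hy : y ∈ Y) {m m' : ℕ} {θ η : K} (hθ : θ ∈ Sec b X (-(m' : ℤ)) y)
    (hη : η ∈ Sec b X' (m : ℤ) y) : θ ^ m * η ^ m' ∈ y := by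
  by_cases hg : θ ^ m * η ^ m' = 0
  · rw [hg]
    exact y.zero_mem
  have h1 : θ ^ m ≠ 0 := left_ne_zero_of_mul hg
  have h2 : η ^ m' ≠ 0 := right_ne_zero_of_mul hg
  refine hf.mY.mem_of_ord hy hg fun P hP hd hyP => ?_
  have hPX : P ∈ X := dvr_up hX hf.mY hf.down hP hd
  have hPX' : P ∈ X' := dvr_up hf.mX' hf.mY hf.down' hP hd
  have h3 := F1_sec_nonneg b hPX hd hyP hθ h1
  have h4 := F1_sec_nonneg b hPX' hd hyP hη h2
  rw [ord_mul hd h1 h2, F1_ord_pow hd h1, F1_ord_pow hd h2]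
  unfold kord at h3 h4
  have h5 : (m : ℤ) * ord P θ + m' * ord P η = (m : ℤ) * (ord P θ + -(m' : ℤ) * cord b P) +
      m' * (ord P η + m * cord b P) := by ring
  rw [h5]
  exact add_nonneg h3 h4

/-- `g = θ^m η^m'` is not a unit of `y` unless `A = y = A'` -/
theorem flip_g_unit (hX : IsCompleteNormal X) (hf : IsFlip b X Y X')
    {y A A' : Subalgebra k K} (hy : y ∈ Y) (hA : A ∈ X) (hA' : A' ∈ X') (hd : Dom y A)
    (hd' : Dom y A') {m m' : ℕ} (hm : 0 < m) (hm' : 0 < m') {θ η : K}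
    (hθ : VA b X (-(m' : ℤ)) y A θ) (hη : VA b X' (m : ℤ) y A' η)
    (hg : (θ ^ m * η ^ m')⁻¹ ∈ y) : A = y ∧ A' = y := by
  have hθ0 : θ ≠ 0 := hθ.2.1.1
  have hη0 : η ≠ 0 := hη.2.1.1
  constructor
  · refine VA.eq b hf.mY hy hd hθ fun γ hγ => ⟨m, hm, ?_⟩
    have h1 : (γ * θ⁻¹) ^ m = (γ ^ m * η ^ m') * (θ ^ m * η ^ m')⁻¹ := by
      rw [mul_pow, inv_pow]
      have h2 := pow_ne_zero m hθ0
      have h3 := pow_ne_zero m' hη0
      field_simp
    rw [h1]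
    exact y.mul_mem (flip_g_mem b hX hf hy hγ hη.1) hg
  · refine VA.eq b hf.mY hy hd' hη fun γ hγ => ⟨m', hm', ?_⟩
    have h1 : (γ * η⁻¹) ^ m' = (θ ^ m * γ ^ m') * (θ ^ m * η ^ m')⁻¹ := by
      rw [mul_pow, inv_pow]
      have h2 := pow_ne_zero m hθ0
      have h3 := pow_ne_zero m' hη0
      field_simp
    rw [h1]
    exact y.mul_mem (flip_g_mem b hX hf hy hθ.1 hγ) hg

/-- the data exist above every point of `Y` -/
theorem exists_VA (hf : IsFlip b X Y X') {y A A' : Subalgebra k K} (hy : y ∈ Y)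
    (hA : A ∈ X) (hA' : A' ∈ X') (hd : Dom y A) (hd' : Dom y A') :
    ∃ m m' : ℕ, 0 < m ∧ 0 < m' ∧ ∃ θ η, VA b X (-(m' : ℤ)) y A θ ∧ VA b X' (m : ℤ) y A' η := by
  obtain ⟨m', hm', h1⟩ := hf.neg
  obtain ⟨m, hm, h2⟩ := hf.pos
  obtain ⟨m', rfl⟩ := Int.eq_ofNat_of_zero_le hm'.le
  obtain ⟨m, rfl⟩ := Int.eq_ofNat_of_zero_le hm.le
  obtain ⟨θ, hθ⟩ := h1 A hA y hy hd
  obtain ⟨η, hη⟩ := h2 A' hA' y hy hd'
  exact ⟨m, m', by exact_mod_cast hm, by exact_mod_cast hm', θ, η, hθ, hη⟩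

/-- the relation between the discrepancies: `m m' (a(E, X') - a(E, X)) = ord_E g` -/
theorem disc_sub (hX : IsCompleteNormal X) (hf : IsFlip b X Y X') {E A A' : Subalgebra k K}
    (hE : IsPrimeDiv E) (hA : A ∈ X) (hA' : A' ∈ X') (hdA : Dom A E) (hdA' : Dom A' E)
    {m m' : ℕ} (hm : 0 < m) (hm' : 0 < m') {θ η : K}
    (hθ : IsGen b X (-(m' : ℤ)) A θ) (hη : IsGen b X' (m : ℤ) A' η) :
    (m : ℚ) * m' * (disc b X' E - disc b X E) = (ord E (θ ^ m * η ^ m') : ℚ) := by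
  have hθ0 : θ ≠ 0 := hθ.1
  have hη0 : η ≠ 0 := hη.1
  have hd : IsDVR E := hE.1
  have h1 := hθ.inv
  rw [neg_neg] at h1
  have h2 := disc_eq b hX hE hA hdA (by exact_mod_cast hm' : (0 : ℤ) < (m' : ℤ)) h1
  have h3 := disc_eq b hf.mX' hE hA' hdA' (by exact_mod_cast hm : (0 : ℤ) < (m : ℤ)) hη
  rw [h2, h3, ord_mul hd (pow_ne_zero m hθ0) (pow_ne_zero m' hη0), ord_pow hd hθ0,
    ord_pow hd hη0]
  unfold kord
  rw [ord_inv hd]
  have h4 : (m : ℚ) ≠ 0 := Nat.cast_ne_zero.2 hm.ne'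
  have h5 : (m' : ℚ) ≠ 0 := Nat.cast_ne_zero.2 hm'.ne'
  push_cast
  field_simp
  ring

theorem F1_data (hX : IsCompleteNormal X) (hf : IsFlip b X Y X') {E A A' : Subalgebra k K}
    (hE : IsPrimeDiv E) (hA : A ∈ X) (hA' : A' ∈ X') (hdA : Dom A E) (hdA' : Dom A' E) :
    ∃ m m' : ℕ, 0 < m ∧ 0 < m' ∧ ∃ g y, y ∈ Y ∧ Dom y E ∧ g ∈ y ∧ g ≠ 0 ∧
      (m : ℚ) * m' * (disc b X' E - disc b X E) = (ord E g : ℚ) ∧ (g⁻¹ ∈ y → A = A') := by
  have hV : IsVal E := hE.1.isVal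
  obtain ⟨y, hy, hdy⟩ := hf.mY.exists_centre hV
  have h1 : Dom y A := down_eq hX hf.mY hf.down hA hy hV.isLocalRing hdA hdy
  have h2 : Dom y A' := down_eq hf.mX' hf.mY hf.down' hA' hy hV.isLocalRing hdA' hdy
  obtain ⟨m, m', hm, hm', θ, η, hθ, hη⟩ := exists_VA b hf hy hA hA' h1 h2
  refine ⟨m, m', hm, hm', θ ^ m * η ^ m', y, hy, hdy, flip_g_mem b hX hf hy hθ.1 hη.1,
    mul_ne_zero (pow_ne_zero m hθ.2.1.1) (pow_ne_zero m' hη.2.1.1),
    disc_sub b hX hf hE hA hA' hdA hdA' hm hm' hθ.2.1 hη.2.1, fun hg => ?_⟩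
  obtain ⟨h3, h4⟩ := flip_g_unit b hX hf hy hA hA' h1 h2 hm hm' hθ hη hg
  rw [h3, h4]

theorem disc_le (hX : IsCompleteNormal X) (hf : IsFlip b X Y X') {E : Subalgebra k K}
    (hE : IsPrimeDiv E) : disc b X E ≤ disc b X' E := by
  obtain ⟨A, hA, hdA⟩ := hX.exists_centre hE.1.isVal
  obtain ⟨A', hA', hdA'⟩ := hf.mX'.exists_centre hE.1.isVal
  obtain ⟨m, m', hm, hm', g, y, hy, hdy, hg, hg0, h1, -⟩ := F1_data b hX hf hE hA hA' hdA hdA'
  have h2 : (0 : ℚ) ≤ (ord E g : ℚ) := by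
    exact_mod_cast (mem_iff hE.1 hg0).1 (hdy.1 hg)
  rw [← h1] at h2
  have h3 : (0 : ℚ) < (m : ℚ) * m' := mul_pos (Nat.cast_pos.2 hm) (Nat.cast_pos.2 hm')
  exact sub_nonneg.1 (nonneg_of_mul_nonneg_right h2 h3)

/-- strict inequality unless the centres on `X` and `X'` coincide -/
theorem disc_lt (hX : IsCompleteNormal X) (hf : IsFlip b X Y X') {E A A' : Subalgebra k K}
    (hE : IsPrimeDiv E) (hA : A ∈ X) (hA' : A' ∈ X') (hdA : Dom A E) (hdA' : Dom A' E)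
    (hne : A ≠ A') : disc b X E < disc b X' E := by
  obtain ⟨m, m', hm, hm', g, y, hy, hdy, hg, hg0, h1, h4⟩ := F1_data b hX hf hE hA hA' hdA hdA'
  have h2 : (0 : ℚ) < (ord E g : ℚ) := by
    have h5 : 0 < ord E g := by
      rw [ord_pos_iff hE.1 hg0]
      intro h6
      exact hne (h4 (hdy.2 g hg h6))
    exact_mod_cast h5
  rw [← h1] at h2
  have h3 : (0 : ℚ) < (m : ℚ) * m' := mul_pos (Nat.cast_pos.2 hm) (Nat.cast_pos.2 hm')
  exact sub_pos.1 (pos_of_mul_pos_right h2 h3.le)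

end Flip28
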