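import Pool.Agent.Flip_h28.F1
import Pool.Agent.Flip_h28.Dim

/-! # The dimensions of the exceptional loci of a flip -/

open scoped KaehlerDifferential

namespace Flip28

variable {k K : Type*} [Field k] [Field K] [Algebra k K] {n : ℕ}
  (b : Module.Basis (Fin n) K Ω[K⁄k]) {X Y X' : Set (Subalgebra k K)}

/-- There is a point of `Y` which is not a point of `X` (a point where `Y` is not
`ℚ`-Gorenstein). -/
theorem exists_not_mem (hX : IsCompleteNormal X) (hf : IsFlip b X Y X') :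
    ∃ y ∈ Y, y ∉ X := by
  obtain ⟨y, hy, hno⟩ := hf.notQG
  refine ⟨y, hy, fun hyX => ?_⟩
  obtain ⟨m, hm, hva⟩ := hf.neg
  obtain ⟨h, -, hg, -⟩ := hva y hyX y hy (Dom.refl y)
  have h1 := hg.inv
  rw [neg_neg] at h1
  exact hno m hm h⁻¹ ⟨h1.1, fun P hP hd hyP => h1.2 P (dvr_up hX hf.mY hf.down hP hd) hd hyP⟩

/-- If a generator `θ` of `-m' K_X` and a generator `η` of `m K_X'` at the common point `A` are
given then `θ^m η^m'` is a unit of `A`. -/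
theorem F2_unit (hX : IsCompleteNormal X) (hf : IsFlip b X Y X')
    (hsmall : ∀ P ∈ X, IsDVR P → P ∈ Y) {A : Subalgebra k K} (hA : A ∈ X) {m m' : ℕ}
    {θ η : K} (hθ : IsGen b X (-(m' : ℤ)) A θ) (hη : IsGen b X' (m : ℤ) A η) :
    (θ ^ m * η ^ m')⁻¹ ∈ A := by
  have hη' : IsGen b X (m : ℤ) A η :=
    ⟨hη.1, fun P hP hd hAP => hη.2 P (dvr_up hf.mX' hf.mY hf.down' (hsmall P hP hd) hd) hd hAP⟩
  have h1 := (hθ.pow (b := b) m).mul (b := b) (hη'.pow (b := b) m')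
  have h2 : (m : ℤ) * (-(m' : ℤ)) + (m' : ℤ) * (m : ℤ) = 0 := by ring
  rw [h2] at h1
  exact (h1.unit (b := b) hX hA).2

/-- `dim A + dim A' ≤ n + 1` for suitable points of the exceptional loci; i.e. the dimensions of
the exceptional loci add up to at least `n - 1`.

Proof: let `y ∈ Y`, `y ∉ X`, `V` a valuation ring dominating `y`, `A`, `A'` its centres on `X`,
`X'`; `θ`, `η` as in `exists_VA`, `g = θ^m η^m' ∈ y`, not a unit of `y` by `flip_g_unit`.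
Let `R`, `R'` be charts of `A`, `A'`, `B = R ⊔ R'`.  `exists_height_one` gives a localization `P`
of `B` of dimension one with `g` a non-unit of `P`, whose centres `A₁ ≥ A`, `A₁' ≥ A'` on
`X`, `X'` are localizations of `R`, `R'`.  Let `y₁` be the centre on `Y`; `y ≤ y₁`.
If `A₁ ∈ X'` or `A₁' ∈ X` then `A₁ = A₁'`, and `θ`, `η` generate `-m' K`, `m K` at `A₁` on `X`
and on `X'`, which have the same discrete valuation rings; so `g` is a unit of `A₁`, hence of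
`y₁`: a contradiction to `g⁻¹ ∉ P`.  Finally use `dim_add_dim_le`. -/
theorem exists_big (hX : IsCompleteNormal X) (hf : IsFlip b X Y X')
    (hsmall : ∀ P ∈ X, IsDVR P → P ∈ Y) (hn : Algebra.trdeg k K = n) :
    ∃ A ∈ X, ∃ A' ∈ X', A ∉ X' ∧ A' ∉ X ∧
      ringKrullDim A + ringKrullDim A' ≤ (n : WithBot ℕ∞) + 1 := by
  obtain ⟨y, hy, hyX⟩ := exists_not_mem b hX hf
  obtain ⟨V, hV, hyV⟩ := exists_val_dom y (hf.mY.isLocalRing hy)
  have hVl : IsLocalRing V := hV.isLocalRing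
  obtain ⟨A, hA, hAV⟩ := hX.exists_centre hV
  obtain ⟨A', hA', hAV'⟩ := hf.mX'.exists_centre hV
  have hyA : Dom y A := down_eq hX hf.mY hf.down hA hy hVl hAV hyV
  have hyA' : Dom y A' := down_eq hf.mX' hf.mY hf.down' hA' hy hVl hAV' hyV
  obtain ⟨m, m', hm, hm', θ, η, hθ, hη⟩ := exists_VA b hf hy hA hA' hyA hyA'
  have hgy : θ ^ m * η ^ m' ∈ y := flip_g_mem b hX hf hy hθ.1 hη.1
  have hgu : (θ ^ m * η ^ m')⁻¹ ∉ y := fun h =>
    hyX ((flip_g_unit b hX hf hy hA hA' hyA hyA' hm hm' hθ hη h).1 ▸ hA)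
  have hg0 : θ ^ m * η ^ m' ≠ 0 :=
    mul_ne_zero (pow_ne_zero _ hθ.2.1.1) (pow_ne_zero _ hη.2.1.1)
  have hgV : (θ ^ m * η ^ m')⁻¹ ∉ V := fun h => hgu (hyV.2 _ hgy h)
  obtain ⟨R, hRf, hRK, hRA, hRX⟩ := hX.exists_chart hA
  obtain ⟨R', hRf', hRK', hRA', hRX'⟩ := hf.mX'.exists_chart hA'
  have hBV : R ⊔ R' ≤ V := sup_le (hRA.le.trans hAV.1) (hRA'.le.trans hAV'.1)
  obtain ⟨r, hr, s, hs, hsA, hgrs⟩ := hRA.2.2 _ (hyA.1 hgy)
  obtain ⟨P, hBP, hP1, hgP, hgP', hPV⟩ := exists_height_one (hRf.sup hRf')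
    (isFractionRing_of_le hRK le_sup_left) hVl hBV ((le_sup_left : R ≤ R ⊔ R') hr)
    ((le_sup_left : R ≤ R ⊔ R') hs) (hAV.1 hsA) hgrs hg0 hgV
  have hPl : IsLocalRing P := hBP.2.1
  obtain ⟨A₁, hRA₁, hd₁⟩ := exists_cen R P (le_sup_left.trans hBP.le) hPl
  obtain ⟨A₁', hRA₁', hd₁'⟩ := exists_cen R' P (le_sup_right.trans hBP.le) hPl
  have hA₁ : A₁ ∈ X := hRX A₁ hRA₁
  have hA₁' : A₁' ∈ X' := hRX' A₁' hRA₁'
  have hle : A ≤ A₁ := cen_le hRA hRA₁ hAV hd₁ fun x hx hxV =>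
    hPV x ((le_sup_left : R ≤ R ⊔ R') hx) hxV
  have hle' : A' ≤ A₁' := cen_le hRA' hRA₁' hAV' hd₁' fun x hx hxV =>
    hPV x ((le_sup_right : R' ≤ R ⊔ R') hx) hxV
  have hne : A₁ ≠ A₁' := by
    intro h
    apply hgP'
    apply hd₁.1
    apply F2_unit b hX hf hsmall hA₁ (hθ.2.1.mono b hle)
    rw [h]
    exact hη.2.1.mono b hle'
  refine ⟨A₁, hA₁, A₁', hA₁', fun h => hne ?_, fun h => hne ?_, ?_⟩
  · exact hf.mX'.unique h hA₁' hPl hd₁ hd₁'
  · exact hX.unique hA₁ h hPl hd₁ hd₁'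
  · exact dim_add_dim_le hRf hRf' hRK hRK' hBP hP1 hRA₁ hRA₁' hd₁ hd₁' hn

end Flip28
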