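import Mathlib

/-! # Generic linear forms have no common zeros -/

namespace Flip28

theorem Gen1_step {k : Type*} [Field k] [Infinite k] {V : Type*} [AddCommGroup V]
    [Module k V] {J : Type*} [Finite J] (B : J → Type*) [∀ j, CommRing (B j)]
    [∀ j, Algebra k (B j)] [∀ j, IsNoetherianRing (B j)] (φ : ∀ j, V →ₗ[k] B j)
    (h1 : ∀ j, ∃ v, φ j v = 1) (I : ∀ j, Ideal (B j)) :
    ∃ v : V, ∀ j, ∀ q ∈ (I j).minimalPrimes, φ j v ∉ q := by
  classical
  by_contra hcon
  push Not at hcon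
  have hfin : ∀ j, Finite (I j).minimalPrimes := fun j =>
    (Ideal.finite_minimalPrimes_of_isNoetherianRing (B j) (I j)).to_subtype
  let p : (Σ j, (I j).minimalPrimes) → Subspace k V := fun x =>
    ((x.2 : Ideal (B x.1)).restrictScalars k).comap (φ x.1)
  have hcov : ⋃ i, (p i : Set V) = Set.univ := by
    refine Set.eq_univ_of_forall fun v => ?_
    obtain ⟨j, q, hq, hv⟩ := hcon v
    refine Set.mem_iUnion.2 ⟨⟨j, ⟨q, hq⟩⟩, ?_⟩
    exact hv
  obtain ⟨⟨j, ⟨q, hq⟩⟩, hp⟩ := Subspace.exists_eq_top_of_iUnion_eq_univ hcov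
  obtain ⟨v, hv⟩ := h1 j
  have h2 : v ∈ p ⟨j, ⟨q, hq⟩⟩ := by
    rw [hp]
    exact Submodule.mem_top
  have h3 : φ j v ∈ q := h2
  rw [hv] at h3
  exact hq.1.1.ne_top ((Ideal.eq_top_iff_one q).2 h3)

theorem Gen1_aux {k : Type*} [Field k] [Infinite k] {V : Type*} [AddCommGroup V]
    [Module k V] {J : Type*} [Finite J] (B : J → Type*) [∀ j, CommRing (B j)]
    [∀ j, Algebra k (B j)] [∀ j, IsNoetherianRing (B j)] (φ : ∀ j, V →ₗ[k] B j)
    (h1 : ∀ j, ∃ v, φ j v = 1) (m : ℕ) :
    ∃ l : Fin m → V, ∀ j, ∀ q : Ideal (B j), q.IsPrime →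
      Ideal.span (Set.range (fun i => φ j (l i))) ≤ q → (m : ℕ∞) ≤ q.height := by
  induction m with
  | zero => exact ⟨Fin.elim0, fun j q _ _ => by simp⟩
  | succ m ih =>
    obtain ⟨l, hl⟩ := ih
    obtain ⟨v, hv⟩ := Gen1_step B φ h1 fun j => Ideal.span (Set.range (fun i => φ j (l i)))
    refine ⟨Fin.snoc l v, fun j q hq hle => ?_⟩
    have h2 : Ideal.span (Set.range (fun i => φ j (l i))) ≤ q := by
      rw [Ideal.span_le]
      rintro _ ⟨i, rfl⟩
      refine hle (Ideal.subset_span ⟨i.castSucc, ?_⟩)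
      simp
    have h3 : φ j v ∈ q := hle (Ideal.subset_span ⟨Fin.last m, by simp⟩)
    obtain ⟨p, hp, hpq⟩ := Ideal.exists_minimalPrimes_le h2
    have hpp : p.IsPrime := hp.1.1
    have h4 : φ j v ∉ p := hv j p hp
    have h5 : p < q := lt_of_le_of_ne hpq fun h => h4 (h ▸ h3)
    have h6 := hl j p hpp hp.1.2
    have h7 := Ideal.height_add_one_le_of_lt_of_isPrime h5
    push_cast
    exact (add_le_add_left h6 1).trans h7

/-- Generic elements of a vector space of functions: let `k` be infinite, `V` a vector space,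
`φ_j : V → B_j` finitely many linear maps to Noetherian rings of dimension at most `d` with `1`
in the image.  Then there are `l₀, ..., l_d ∈ V` whose images generate the unit ideal of every
`B_j`.

Proof: choose `l₀, l₁, ...` one after the other so that `l_m` is not in `φ_j⁻¹(q)` for the finitely
many minimal primes `q` of the ideals generated by `φ_j(l₀), ..., φ_j(l_{m-1})`; the
`φ_j⁻¹(q)` are proper subspaces because `1` is in the image, and a vector space over an
infinite field is not a finite union of proper subspaces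
(`Subspace.exists_eq_top_of_iUnion_eq_univ`).  A prime `q` containing `φ_j(l₀), ..., φ_j(l_d)`
would be the end of a chain `p₀ < p₁ < ... < p_d < q` of primes, `p_m` minimal over
`φ_j(l₀), ..., φ_j(l_{m-1})` and contained in `q`. -/
theorem exists_generic {k : Type*} [Field k] [Infinite k] {V : Type*} [AddCommGroup V]
    [Module k V] {J : Type*} [Finite J] (B : J → Type*) [∀ j, CommRing (B j)]
    [∀ j, Algebra k (B j)] [∀ j, IsNoetherianRing (B j)] (φ : ∀ j, V →ₗ[k] B j)
    (h1 : ∀ j, ∃ v, φ j v = 1) (d : ℕ) (hd : ∀ j, ringKrullDim (B j) ≤ d) :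
    ∃ l : Fin (d + 1) → V, ∀ j, Ideal.span (Set.range (fun i => φ j (l i))) = ⊤ := by
  obtain ⟨l, hl⟩ := Gen1_aux B φ h1 (d + 1)
  refine ⟨l, fun j => ?_⟩
  by_contra hne
  obtain ⟨q, hq, hle⟩ := Ideal.exists_le_maximal _ hne
  have hqp : q.IsPrime := hq.isPrime
  have h2 := hl j q hqp hle
  have h3 : (q.height : WithBot ℕ∞) ≤ (d : WithBot ℕ∞) :=
    (Ideal.height_le_ringKrullDim_of_isPrime).trans (hd j)
  have h4 : ((d + 1 : ℕ) : ℕ∞) ≤ (d : ℕ∞) := by
    have h5 : q.height ≤ (d : ℕ∞) := by exact_mod_cast h3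
    exact h2.trans h5
  have h6 : d + 1 ≤ d := by exact_mod_cast h4
  omega

end Flip28
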