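import Pool.Agent.Flip_h28.Defs

/-! # Localizations and domination inside the field `K` -/

namespace Flip28

variable {k K : Type*} [Field k] [Field K] [Algebra k K]

theorem Dom.refl (A : Subalgebra k K) : Dom A A := ⟨le_rfl, fun _ _ h => h⟩

theorem Dom.trans {A B C : Subalgebra k K} (h : Dom A B) (h' : Dom B C) : Dom A C :=
  ⟨h.1.trans h'.1, fun x hx hx' => h.2 x hx (h'.2 x (h.1 hx) hx')⟩

theorem IsLoc.le {R A : Subalgebra k K} (h : IsLoc R A) : R ≤ A := h.1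

/-- `A` local: it is a localization of itself -/
theorem IsLoc.refl {A : Subalgebra k K} (h : IsLocalRing A) : IsLoc A A :=
  ⟨le_rfl, h, fun x hx => ⟨x, hx, 1, A.one_mem, by rw [inv_one]; exact A.one_mem, by simp⟩⟩

theorem IsLoc.trans {R A B : Subalgebra k K} (h : IsLoc R A) (h' : IsLoc A B) : IsLoc R B := by
  refine ⟨h.1.trans h'.1, h'.2.1, fun x hx => ?_⟩
  obtain ⟨a, ha, c, hc, hcB, rfl⟩ := h'.2.2 x hx
  obtain ⟨r, hr, s, hs, hsA, rfl⟩ := h.2.2 a ha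
  obtain ⟨u, hu, v, hv, hvA, rfl⟩ := h.2.2 c hc
  by_cases hv0 : v = 0
  · exact ⟨0, R.zero_mem, 1, R.one_mem, by rw [inv_one]; exact B.one_mem, by simp [hv0]⟩
  · refine ⟨r * v, R.mul_mem hr hv, s * u, R.mul_mem hs hu, ?_, ?_⟩
    · have e : (s * u)⁻¹ = s⁻¹ * (v⁻¹ * (u * v⁻¹)⁻¹) := by
        rw [mul_inv, mul_inv, inv_inv, mul_comm u⁻¹ v, ← mul_assoc v⁻¹, inv_mul_cancel₀ hv0,
          one_mul]
      rw [e]
      exact B.mul_mem (h'.1 hsA) (B.mul_mem (h'.1 hvA) hcB)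
    · rw [mul_inv, mul_inv, inv_inv]
      ring

theorem IsLoc.of_le {R A B : Subalgebra k K} (hA : IsLoc R A) (hB : IsLoc R B) (h : A ≤ B) :
    IsLoc A B := by
  refine ⟨h, hB.2.1, fun x hx => ?_⟩
  obtain ⟨r, hr, s, hs, hsB, e⟩ := hB.2.2 x hx
  exact ⟨r, hA.1 hr, s, hA.1 hs, hsB, e⟩

/-- more generally: if `R ≤ S ≤ B` and `B` is a localization of `R` then it is one of `S` -/
theorem IsLoc.mid {R S B : Subalgebra k K} (hB : IsLoc R B) (h : R ≤ S) (h' : S ≤ B) :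
    IsLoc S B := by
  refine ⟨h', hB.2.1, fun x hx => ?_⟩
  obtain ⟨r, hr, s, hs, hsB, e⟩ := hB.2.2 x hx
  exact ⟨r, h hr, s, h hs, hsB, e⟩

theorem IsLoc.eq_of_dom {y A : Subalgebra k K} (h : IsLoc y A) (hd : Dom y A) : A = y := by
  refine le_antisymm (fun x hx => ?_) h.1
  obtain ⟨r, hr, s, hs, hsA, rfl⟩ := h.2.2 x hx
  exact y.mul_mem hr (hd.2 s hs hsA)

theorem Loc_aux_local (A : Subalgebra k K)
    (h : ∀ x ∈ A, (x ≠ 0 ∧ x⁻¹ ∈ A) ∨ (1 - x ≠ 0 ∧ (1 - x)⁻¹ ∈ A)) : IsLocalRing A := by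
  refine IsLocalRing.of_isUnit_or_isUnit_one_sub_self fun a => ?_
  rcases h a a.2 with ⟨h0, h1⟩ | ⟨h0, h1⟩
  · left
    refine IsUnit.of_mul_eq_one ⟨(a : K)⁻¹, h1⟩ ?_
    ext
    simp [h0]
  · right
    refine IsUnit.of_mul_eq_one ⟨(1 - (a : K))⁻¹, h1⟩ ?_
    ext
    simp [h0]

theorem Loc_aux_unit {V : Subalgebra k K} (hV : IsLocalRing V) {x : K} (hx : x ∈ V) :
    (x ≠ 0 ∧ x⁻¹ ∈ V) ∨ (1 - x ≠ 0 ∧ (1 - x)⁻¹ ∈ V) := by
  have key : ∀ z : V, IsUnit z → (z : K) ≠ 0 ∧ (z : K)⁻¹ ∈ V := by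
    rintro z ⟨u, rfl⟩
    have hu : ((u : V) : K) * ((u⁻¹ : Vˣ) : V) = 1 := by
      exact congrArg (Subtype.val) (u.mul_inv)
    have h0 : ((u : V) : K) ≠ 0 := by
      intro h
      rw [h, zero_mul] at hu
      exact zero_ne_one hu
    refine ⟨h0, ?_⟩
    have : ((u : V) : K)⁻¹ = ((u⁻¹ : Vˣ) : V) := inv_eq_of_mul_eq_one_right hu
    rw [this]
    exact Subtype.mem _
  rcases IsLocalRing.isUnit_or_isUnit_one_sub_self (⟨x, hx⟩ : V) with h | h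
  · left; exact key _ h
  · right
    have := key _ h
    simpa using this

/-- The localization of `R` at a multiplicative set `S`, inside `K`. -/
def Loc_aux_alg (R : Subalgebra k K) (S : K → Prop) (h1 : S 1) (h0 : ∀ s, S s → s ≠ 0)
    (hm : ∀ s t, S s → S t → S (s * t)) : Subalgebra k K where
  carrier := {x | ∃ r ∈ R, ∃ s ∈ R, S s ∧ x = r * s⁻¹}
  mul_mem' := by
    rintro _ _ ⟨r, hr, s, hs, hS, rfl⟩ ⟨r', hr', s', hs', hS', rfl⟩
    exact ⟨r * r', R.mul_mem hr hr', s * s', R.mul_mem hs hs', hm _ _ hS hS', by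
      rw [mul_inv]; ring⟩
  add_mem' := by
    rintro _ _ ⟨r, hr, s, hs, hS, rfl⟩ ⟨r', hr', s', hs', hS', rfl⟩
    refine ⟨r * s' + r' * s, R.add_mem (R.mul_mem hr hs') (R.mul_mem hr' hs), s * s',
      R.mul_mem hs hs', hm _ _ hS hS', ?_⟩
    have := h0 _ hS
    have := h0 _ hS'
    field_simp
  algebraMap_mem' := fun c => ⟨algebraMap k K c, R.algebraMap_mem c, 1, R.one_mem, h1, by simp⟩

theorem Loc_aux_mem {R : Subalgebra k K} {S : K → Prop} {h1 : S 1} {h0 : ∀ s, S s → s ≠ 0}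
    {hm : ∀ s t, S s → S t → S (s * t)} {x : K} :
    x ∈ Loc_aux_alg R S h1 h0 hm ↔ ∃ r ∈ R, ∃ s ∈ R, S s ∧ x = r * s⁻¹ := Iff.rfl

/-- If `V` is a local ring containing `R`, the localization of `R` at the prime ideal of the
elements of `R` not invertible in `V`. -/
theorem exists_cen (R V : Subalgebra k K) (h : R ≤ V) (hV : IsLocalRing V) :
    ∃ A, IsLoc R A ∧ Dom A V := by
  set A := Loc_aux_alg R (fun s => s ≠ 0 ∧ s⁻¹ ∈ V) ⟨one_ne_zero, by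
    rw [inv_one]; exact V.one_mem⟩ (fun s hs => hs.1)
    (fun s t hs ht => ⟨mul_ne_zero hs.1 ht.1, by
      rw [mul_inv]; exact V.mul_mem hs.2 ht.2⟩) with hA
  have hmem : ∀ x, x ∈ A ↔ ∃ r ∈ R, ∃ s ∈ R, (s ≠ 0 ∧ s⁻¹ ∈ V) ∧ x = r * s⁻¹ := fun x =>
    Loc_aux_mem
  have hRA : R ≤ A := fun x hx => (hmem x).2 ⟨x, hx, 1, R.one_mem, ⟨one_ne_zero, by
    rw [inv_one]; exact V.one_mem⟩, by simp⟩
  have hAV : A ≤ V := by
    intro x hx
    obtain ⟨r, hr, s, hs, ⟨hs0, hsV⟩, rfl⟩ := (hmem x).1 hx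
    exact V.mul_mem (h hr) hsV
  have hinv : ∀ x ∈ A, x⁻¹ ∈ V → x⁻¹ ∈ A := by
    intro x hx hxV
    by_cases hx0 : x = 0
    · rw [hx0, inv_zero]; exact A.zero_mem
    obtain ⟨r, hr, s, hs, ⟨hs0, hsV⟩, rfl⟩ := (hmem x).1 hx
    have hr0 : r ≠ 0 := by
      rintro rfl
      exact hx0 (by simp)
    have e : (r * s⁻¹)⁻¹ = s * r⁻¹ := by rw [mul_inv, inv_inv]; ring
    refine (hmem _).2 ⟨s, hs, r, hr, ⟨hr0, ?_⟩, e⟩
    have e2 : r⁻¹ = s⁻¹ * (r * s⁻¹)⁻¹ := by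
      rw [e]
      field_simp
    rw [e2]
    exact V.mul_mem hsV hxV
  refine ⟨A, ⟨hRA, ?_, ?_⟩, hAV, hinv⟩
  · refine Loc_aux_local A fun x hx => ?_
    rcases Loc_aux_unit hV (hAV hx) with h1 | h1
    · exact Or.inl ⟨h1.1, hinv x hx h1.2⟩
    · exact Or.inr ⟨h1.1, hinv _ (A.sub_mem A.one_mem hx) h1.2⟩
  · intro x hx
    obtain ⟨r, hr, s, hs, ⟨hs0, hsV⟩, rfl⟩ := (hmem x).1 hx
    exact ⟨r, hr, s, hs, (hmem _).2 ⟨1, R.one_mem, s, hs, ⟨hs0, hsV⟩, by simp⟩, rfl⟩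

theorem cen_unique {R V A A' : Subalgebra k K} (hA : IsLoc R A) (hA' : IsLoc R A')
    (h : Dom A V) (h' : Dom A' V) : A = A' := by
  have key : ∀ A A' : Subalgebra k K, IsLoc R A → IsLoc R A' → Dom A V → Dom A' V → A ≤ A' := by
    intro A A' hA hA' h h' x hx
    obtain ⟨r, hr, s, hs, hsA, rfl⟩ := hA.2.2 x hx
    exact A'.mul_mem (hA'.1 hr) (h'.2 s (hA'.1 hs) (h.1 hsA))
  exact le_antisymm (key A A' hA hA' h h') (key A' A hA' hA h' h)

/-- monotonicity of centres: `B`, `B'` local rings containing `R`, and the elements of `R`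
invertible in `B` are invertible in `B'` -/
theorem cen_le {R B B' A A' : Subalgebra k K} (hA : IsLoc R A) (hA' : IsLoc R A')
    (h : Dom A B) (h' : Dom A' B') (hBB : ∀ x ∈ R, x⁻¹ ∈ B → x⁻¹ ∈ B') : A ≤ A' := by
  intro x hx
  obtain ⟨r, hr, s, hs, hsA, rfl⟩ := hA.2.2 x hx
  exact A'.mul_mem (hA'.1 hr) (h'.2 s (hA'.1 hs) (hBB s hs (h.1 hsA)))

/-- the localization of `R` at the prime ideal `p`, as a subalgebra of `K` -/
theorem exists_isLoc_of_prime (R : Subalgebra k K) (p : Ideal R) [p.IsPrime] :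
    ∃ A, IsLoc R A ∧ (∀ x : R, (x : K)⁻¹ ∈ A → x ≠ 0 → x ∉ p) ∧
      (∀ x : R, x ∉ p → (x : K)⁻¹ ∈ A) := by
  have hone : (1 : R) ∉ p := (Ideal.ne_top_iff_one p).1 ‹p.IsPrime›.ne_top
  set A := Loc_aux_alg R (fun s => ∃ t : R, t ∉ p ∧ (t : K) = s) ⟨1, hone, by simp⟩
    (by
      rintro _ ⟨t, ht, rfl⟩ h0
      exact ht (by
        have : t = 0 := Subtype.ext h0
        rw [this]; exact p.zero_mem))
    (by
      rintro _ _ ⟨t, ht, rfl⟩ ⟨u, hu, rfl⟩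
      exact ⟨t * u, fun h => (‹p.IsPrime›.mem_or_mem h).elim ht hu, by simp⟩) with hA
  have hmem : ∀ x, x ∈ A ↔ ∃ r : R, ∃ s : R, s ∉ p ∧ x = r * (s : K)⁻¹ := by
    intro x
    rw [hA, Loc_aux_mem]
    constructor
    · rintro ⟨r, hr, s, hs, ⟨t, ht, rfl⟩, e⟩
      exact ⟨⟨r, hr⟩, t, ht, e⟩
    · rintro ⟨r, s, hs, e⟩
      exact ⟨r, r.2, s, s.2, ⟨s, hs, rfl⟩, e⟩
  have hne : ∀ s : R, s ∉ p → (s : K) ≠ 0 := by
    intro s hs h0
    exact hs (by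
      have : s = 0 := Subtype.ext h0
      rw [this]; exact p.zero_mem)
  refine ⟨A, ⟨?_, ?_, ?_⟩, ?_, ?_⟩
  · intro x hx
    exact (hmem x).2 ⟨⟨x, hx⟩, 1, hone, by simp⟩
  · refine Loc_aux_local A fun x hx => ?_
    obtain ⟨r, s, hs, rfl⟩ := (hmem x).1 hx
    have hs0 := hne s hs
    by_cases hr : r ∈ p
    · right
      have hsr : s - r ∉ p := fun h => hs (by
        have := p.add_mem h hr
        simpa using this)
      have hsr0 := hne _ hsr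
      have e : (1 : K) - (r : K) * (s : K)⁻¹ = ((s - r : R) : K) * (s : K)⁻¹ := by
        push_cast
        field_simp
      rw [e]
      refine ⟨mul_ne_zero hsr0 (inv_ne_zero hs0), (hmem _).2 ⟨s, s - r, hsr, ?_⟩⟩
      rw [mul_inv, inv_inv, mul_comm]
    · left
      have hr0 := hne r hr
      refine ⟨mul_ne_zero hr0 (inv_ne_zero hs0), (hmem _).2 ⟨s, r, hr, ?_⟩⟩
      rw [mul_inv, inv_inv, mul_comm]
  · intro x hx
    obtain ⟨r, s, hs, rfl⟩ := (hmem x).1 hx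
    exact ⟨r, r.2, s, s.2, (hmem _).2 ⟨1, s, hs, by simp⟩, rfl⟩
  · intro x hx hx0 hxp
    obtain ⟨r, s, hs, e⟩ := (hmem _).1 hx
    have hx0' : (x : K) ≠ 0 := fun h => hx0 (Subtype.ext h)
    have hs0 := hne s hs
    apply hs
    have : s = r * x := by
      apply Subtype.ext
      push_cast
      field_simp at e
      rw [e, mul_comm]
    rw [this]
    exact p.mul_mem_left r hxp
  · intro x hx
    exact (hmem _).2 ⟨1, x, hx, by simp⟩

end Flip28
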