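import Pool.Agent.Flip_h28.F1

/-! # Points where pluricanonical sections generate are not touched by flips -/

open scoped KaehlerDifferential

namespace Flip28

variable {k K : Type*} [Field k] [Field K] [Algebra k K] {n : ℕ}
  (b : Module.Basis (Fin n) K Ω[K⁄k]) {X Y X' : Set (Subalgebra k K)}

/-- global sections of `m K_X` are global sections of `m K_X'` (`X → Y` small is not needed) -/
theorem Persist_sec (hX : IsCompleteNormal X) (hf : IsFlip b X Y X') (m : ℤ) :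
    Sec b X m ⊥ ⊆ Sec b X' m ⊥ :=
  Sec.of_dvr b (fun _ hP hd _ => dvr_up hX hf.mY hf.down (hf.small' _ hP hd) hd)

/-- If `|m K_X|` has no fixed component, `X → Y` contracts no divisor.

Proof: let `P ∈ X` be a discrete valuation ring, `y`, `A'` its centres on `Y`, `X'`; `P` is its own
centre on `X`. If `P ∉ Y` then `P ≠ y`; by `disc_lt` (if `P ≠ A'`; if `P = A' ∈ X'` then `P ∈ Y`
by `small'`) `a(P, X') > a(P, X) = 0`.  A section `s ∈ S` generating at `P` is a section of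
`m K_X'` (the discrete valuation rings of `X'` are in `Y`, hence in `X`), so `s^m₁ / η^m` is
regular at `A'`, where `η` generates `m₁ K_X'` at `A'`; hence
`0 = kord m P s ≥ m a(P, X') > 0`. -/
theorem small_of_sections (hX : IsCompleteNormal X) (hf : IsFlip b X Y X') {m : ℤ}
    (hm : 0 < m) {S : Set K} (hS : S ⊆ Sec b X m ⊥)
    (hfix : ∀ P ∈ X, IsDVR P → ∃ s ∈ S, IsGen b X m P s) : ∀ P ∈ X, IsDVR P → P ∈ Y := by
  intro P hP hd
  by_contra hPY
  obtain ⟨s, hsS, hs⟩ := hfix P hP hd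
  have hE : IsPrimeDiv P := hX.isPrimeDiv hP hd
  obtain ⟨A', hA', hdA'⟩ := hf.mX'.exists_centre hd.isVal
  have hne : P ≠ A' := by
    rintro rfl
    exact hPY (hf.small' _ hA' hd)
  have hlt := disc_lt b hX hf hE hP hA' (Dom.refl P) hdA' hne
  have h0 : kord b m P s = 0 := hs.2 P hP hd le_rfl
  have hdisc0 : disc b X P = 0 := by
    rw [disc_eq b hX hE hP (Dom.refl P) hm hs, h0]
    simp
  obtain ⟨m₁, hm₁, hva⟩ := hf.pos
  obtain ⟨y, hy, hyA'⟩ := hf.down' A' hA'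
  obtain ⟨η, -, hη, -⟩ := hva A' hA' y hy hyA'
  rw [hdisc0, disc_eq b hf.mX' hE hA' hdA' hm₁ hη] at hlt
  have hm₁q : (0 : ℚ) < m₁ := by exact_mod_cast hm₁
  have hkη : 0 < kord b m₁ P η := by
    have h1 := (div_pos_iff_of_pos_right hm₁q).mp hlt
    exact_mod_cast h1
  lift m to ℕ using hm.le
  lift m₁ to ℕ using hm₁.le
  have hm' : 0 < m := by exact_mod_cast hm
  have hs' : s ∈ Sec b X' (m : ℤ) ⊥ := Persist_sec b hX hf m (hS hsS)
  have h2 : s ^ m₁ ∈ Sec b X' ((m₁ : ℤ) * m) ⊥ := Sec.pow b hs' m₁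
  have h3 : IsGen b X' ((m₁ : ℤ) * m) A' (η ^ m) := by
    have h4 := IsGen.pow b hη m
    rwa [mul_comm] at h4
  have h5 : s ^ m₁ * (η ^ m)⁻¹ ∈ A' := Sec.mul_inv_mem b hf.mX' hA' bot_le h2 h3
  have h6 : s ^ m₁ * (η ^ m)⁻¹ ∈ P := hdA'.1 h5
  have hsne : s ≠ 0 := hs.1
  have hηne : η ≠ 0 := hη.1
  have hxne : s ^ m₁ * (η ^ m)⁻¹ ≠ 0 :=
    mul_ne_zero (pow_ne_zero _ hsne) (inv_ne_zero (pow_ne_zero _ hηne))
  have h7 := (mem_iff hd hxne).mp h6
  rw [ord_mul hd (pow_ne_zero _ hsne) (inv_ne_zero (pow_ne_zero _ hηne)), ord_inv hd,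
    ord_pow hd hsne, ord_pow hd hηne] at h7
  unfold kord at h0 hkη
  have h8 : (0 : ℤ) < m := hm
  have h9 : (m₁ : ℤ) * ord P s = - ((m₁ : ℤ) * m * cord b P) := by
    have : ord P s = - ((m : ℤ) * cord b P) := by linarith
    rw [this]; ring
  have h10 : 0 < (m : ℤ) * (ord P η + (m₁ : ℤ) * cord b P) := mul_pos h8 hkη
  nlinarith

/-- A point `A` of `X` where a global section of `m K_X` generates is a point of `X'`, and the
section generates `m K_X'` there.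

Proof: let `y ∈ Y` be below `A`, `θ` as in `VA` for `-m'`; `g = θ^m s^m'` is in `y` (section of
`0 K_Y`), a unit of `A`, hence of `y`; `(γ/θ)^m = γ^m s^m' / g ∈ y` for all sections `γ`, so
`A = y` by `VA.eq`.  Now let `A' ∈ X'` be above `y = A` (centre of a valuation ring dominating
`y`), `η` as in `VA` for `m₁`; for sections `γ` of `m₁ K_X'` above `y` the quotients
`γ^m / s^m₁`, `η^m / s^m₁` are in `y`, the latter is a unit of `A'`, hence of `y`, and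
`(γ/η)^m ∈ y`; so `A' = y` by `VA.eq`. -/
theorem persist (hX : IsCompleteNormal X) (hf : IsFlip b X Y X')
    (hsmall : ∀ P ∈ X, IsDVR P → P ∈ Y) {m : ℤ} (hm : 0 < m) {A : Subalgebra k K}
    (hA : A ∈ X) {s : K} (hs : s ∈ Sec b X m ⊥) (hg : IsGen b X m A s) :
    A ∈ X' ∧ IsGen b X' m A s := by
  -- the discrete valuation rings above `y` are the same for the sections considered
  have hYX : ∀ P ∈ Y, IsDVR P → P ∈ X := fun P hP hd => dvr_up hX hf.mY hf.down hP hd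
  have hYX' : ∀ P ∈ Y, IsDVR P → P ∈ X' := fun P hP hd => dvr_up hf.mX' hf.mY hf.down' hP hd
  have hX'X : ∀ P ∈ X', IsDVR P → P ∈ X := fun P hP hd => hYX P (hf.small' P hP hd) hd
  obtain ⟨y, hy, hyA⟩ := hf.down A hA
  obtain ⟨m', hm', hva⟩ := hf.neg
  obtain ⟨θ, hθ⟩ := hva A hA y hy hyA
  lift m to ℕ using hm.le
  lift m' to ℕ using hm'.le
  have hmn : 0 < m := by exact_mod_cast hm
  have hsy : s ∈ Sec b X (m : ℤ) y := Sec.mono b bot_le hs
  have hmemY : ∀ x ∈ Sec b X 0 y, x ∈ y := fun x hx =>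
    mem_of_sec_zero b hf.mY hy (Sec.of_dvr b (fun P hP hd _ => hYX P hP hd) hx)
  have hwt : (m : ℤ) * (-(m' : ℤ)) + (m' : ℤ) * (m : ℤ) = 0 := by ring
  have hmul : ∀ γ ∈ Sec b X (-(m' : ℤ)) y, γ ^ m * s ^ m' ∈ y := by
    intro γ hγ
    apply hmemY
    have h1 := Sec.mul b (Sec.pow b hγ m) (Sec.pow b hsy m')
    rwa [hwt] at h1
  have hgy : θ ^ m * s ^ m' ∈ y := hmul θ hθ.1
  have hgen : IsGen b X 0 A (θ ^ m * s ^ m') := by
    have h1 := IsGen.mul b (IsGen.pow b hθ.2.1 m) (IsGen.pow b hg m')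
    rwa [hwt] at h1
  have hginv : (θ ^ m * s ^ m')⁻¹ ∈ y := hyA.2 _ hgy (IsGen.unit b hX hA hgen).2
  have hsne : s ≠ 0 := hg.1
  have hθne : θ ≠ 0 := hθ.2.1.1
  have hAy : A = y := by
    apply VA.eq b hf.mY hy hyA (show VA b X (-(m' : ℤ)) y A θ from hθ)
    intro γ hγ
    refine ⟨m, hmn, ?_⟩
    have h1 := y.mul_mem (hmul γ hγ) hginv
    have h2 : (γ * θ⁻¹) ^ m = γ ^ m * s ^ m' * (θ ^ m * s ^ m')⁻¹ := by
      rw [mul_pow, inv_pow]; field_simp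
    rw [h2]
    exact h1
  subst hAy
  -- the point `A'` of `X'` above `A`
  obtain ⟨V, hV, hAV⟩ := exists_val_dom A (hf.mY.isLocalRing hy)
  obtain ⟨A', hA', hA'V⟩ := hf.mX'.exists_centre hV
  have hAA' : Dom A A' := down_eq hf.mX' hf.mY hf.down' hA' hy hV.isLocalRing hA'V hAV
  obtain ⟨m₁, hm₁, hva'⟩ := hf.pos
  obtain ⟨η, hη⟩ := hva' A' hA' A hy hAA'
  lift m₁ to ℕ using hm₁.le
  have hgX' : IsGen b X' (m : ℤ) A s :=
    ⟨hsne, fun P hP hd hAP => hg.2 P (hX'X P hP hd) hd hAP⟩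
  have hmemY' : ∀ x ∈ Sec b X' 0 A, x ∈ A := fun x hx =>
    mem_of_sec_zero b hf.mY hy (Sec.of_dvr b (fun P hP hd _ => hYX' P hP hd) hx)
  have hsinv : (s ^ m₁)⁻¹ ∈ Sec b X' (-((m₁ : ℤ) * m)) A := by
    have h1 : IsGen b X' (-((m₁ : ℤ) * m)) A (s ^ m₁)⁻¹ := IsGen.inv b (IsGen.pow b hgX' m₁)
    intro _ P hP hd hAP
    exact (h1.2 P hP hd hAP).ge
  have hwt' : (m : ℤ) * (m₁ : ℤ) + -((m₁ : ℤ) * (m : ℤ)) = 0 := by ring
  have hmul' : ∀ γ ∈ Sec b X' (m₁ : ℤ) A, γ ^ m * (s ^ m₁)⁻¹ ∈ A := by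
    intro γ hγ
    apply hmemY'
    have h1 := Sec.mul b (Sec.pow b hγ m) hsinv
    rwa [hwt'] at h1
  have hgen' : IsGen b X' 0 A' (η ^ m * (s ^ m₁)⁻¹) := by
    have h1 := IsGen.mul b (IsGen.pow b hη.2.1 m)
      (IsGen.inv b (IsGen.pow b (IsGen.mono b hgX' hAA'.1) m₁))
    rwa [hwt'] at h1
  have huinv : (η ^ m * (s ^ m₁)⁻¹)⁻¹ ∈ A :=
    hAA'.2 _ (hmul' η hη.1) (IsGen.unit b hf.mX' hA' hgen').2
  have hηne : η ≠ 0 := hη.2.1.1
  have hA'A : A' = A := by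
    apply VA.eq b hf.mY hy hAA' (show VA b X' (m₁ : ℤ) A A' η from hη)
    intro γ hγ
    refine ⟨m, hmn, ?_⟩
    have h1 := A.mul_mem (hmul' γ hγ) huinv
    have h2 : (γ * η⁻¹) ^ m = γ ^ m * (s ^ m₁)⁻¹ * (η ^ m * (s ^ m₁)⁻¹)⁻¹ := by
      rw [mul_pow, inv_pow]; field_simp
    rw [h2]
    exact h1
  exact ⟨hA'A ▸ hA', hgX'⟩

/-- global sections of `m K_X` are global sections of `m K_X'` (`X → Y` small is not needed) -/
theorem sec_flip (hX : IsCompleteNormal X) (hf : IsFlip b X Y X') (m : ℤ) :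
    Sec b X m ⊥ ⊆ Sec b X' m ⊥ :=
  Persist_sec b hX hf m

end Flip28
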