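import Pool.Agent.Flip_h28.UniqB

/-! # The divisor of smallest discrepancy over a smooth point is unique -/

open scoped KaehlerDifferential

namespace Flip28

variable {k K : Type*} [Field k] [Field K] [Algebra k K] {n : ℕ}
  (b : Module.Basis (Fin n) K Ω[K⁄k]) {X : Set (Subalgebra k K)}

/-- If all coefficients of `G` lie in the maximal ideal of `A` then `G(z)` is divisible by
`x₀`. -/
theorem Uniq_step {A : Subalgebra k K} {d : ℕ} {x : Fin n → K} (hx : IsCoord b A d x)
    {i0 : Fin n} (h0 : x i0 ≠ 0) (G : MvPolynomial (Fin n) K) (hG : ∀ s, G.coeff s ∈ A)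
    (hG1 : ∀ s, G.coeff s ≠ 0 → (G.coeff s)⁻¹ ∉ A)
    (hv : ∀ i ∈ G.vars, i ≠ i0 ∧ (i : ℕ) < d) :
    ∃ G' : MvPolynomial (Fin n) K, (∀ s, G'.coeff s ∈ A) ∧
      (∀ i ∈ G'.vars, i ≠ i0 ∧ (i : ℕ) < d) ∧
      MvPolynomial.aeval (blow d x i0) G = x i0 * MvPolynomial.aeval (blow d x i0) G' := by
  classical
  have key : ∀ s, ∃ a : Fin n → K, (∀ i, a i ∈ A) ∧ G.coeff s = ∑ i ∈ low n d, a i * x i := by
    intro s
    by_cases hs : G.coeff s = 0
    · exact ⟨0, fun _ => A.zero_mem, by simp [hs]⟩
    · exact hx.gen _ (hG s) (hG1 s hs)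
  choose a haA ha using key
  refine ⟨∑ s ∈ G.support, ∑ i ∈ low n d, MvPolynomial.monomial s (a s i) *
    (if i = i0 then 1 else MvPolynomial.X i), ?_, ?_, ?_⟩
  · intro t
    rw [MvPolynomial.coeff_sum]
    refine A.sum_mem fun s _ => ?_
    rw [MvPolynomial.coeff_sum]
    refine A.sum_mem fun i _ => ?_
    split_ifs with h
    · rw [mul_one, MvPolynomial.coeff_monomial]
      split_ifs
      · exact haA s i
      · exact A.zero_mem
    · rw [MvPolynomial.coeff_mul_X']
      split_ifs
      · rw [MvPolynomial.coeff_monomial]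
        split_ifs
        · exact haA s i
        · exact A.zero_mem
      · exact A.zero_mem
  · have hmem : (∑ s ∈ G.support, ∑ i ∈ low n d, MvPolynomial.monomial s (a s i) *
        (if i = i0 then 1 else MvPolynomial.X i)) ∈
        MvPolynomial.supported K {i : Fin n | i ≠ i0 ∧ (i : ℕ) < d} := by
      refine Subalgebra.sum_mem _ fun s hs => Subalgebra.sum_mem _ fun i hi => ?_
      refine Subalgebra.mul_mem _ ?_ ?_
      · rw [MvPolynomial.mem_supported]
        intro j hj
        have hj' : j ∈ s.support := by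
          by_cases h0 : a s i = 0
          · simp [h0] at hj
          · rw [MvPolynomial.vars_monomial h0] at hj
            exact hj
        exact hv j (by
          rw [MvPolynomial.mem_vars_iff_mem_support]
          exact ⟨s, hs, hj'⟩)
      · split_ifs with h
        · exact Subalgebra.one_mem _
        · rw [MvPolynomial.X_mem_supported]
          exact ⟨h, by simpa using hi⟩
    rw [MvPolynomial.mem_supported] at hmem
    intro i hi
    exact hmem hi
  · conv_lhs => rw [← MvPolynomial.support_sum_monomial_coeff G]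
    rw [map_sum, map_sum, Finset.mul_sum]
    refine Finset.sum_congr rfl fun s _ => ?_
    rw [map_sum, MvPolynomial.aeval_monomial, ha s, map_sum, Finset.sum_mul, Finset.mul_sum]
    refine Finset.sum_congr rfl fun i hi => ?_
    rw [map_mul (MvPolynomial.aeval (blow d x i0)), MvPolynomial.aeval_monomial]
    have hxi : x i = x i0 * MvPolynomial.aeval (blow d x i0)
        (if i = i0 then (1 : MvPolynomial (Fin n) K) else MvPolynomial.X i) := by
      split_ifs with h
      · rw [map_one, mul_one, h]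
      · rw [MvPolynomial.aeval_X]
        have hi' : (i : ℕ) < d := by simpa using hi
        simp only [blow, h, hi', if_false, if_true]
        field_simp
    simp only [Algebra.algebraMap_self, RingHom.id_apply]
    conv_lhs => rw [hxi]
    ring

/-- Uniqueness.  Proof: let `z = blow x`, `B = A[z_i, 0 < i < d]`.  Every `f ∈ B`, `f ≠ 0`, is
`z₀^N G(z)` with `G` as in `unit_of_coeff`: if all coefficients of `G₁`, `f = G₁(z)`, are in the
maximal ideal then `f ∈ z₀ B` since `x_i = z₀ z_i`; this stops because `ord_E f` is finite.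
So `ord_E f = N = ord_E' f`; conclude by `IsDVR.ext_ord`. -/
theorem IsCoord.unique [CharZero k] [Algebra.EssFiniteType k K]
    (hX : IsCompleteNormal X) {A E E' : Subalgebra k K} (hA : A ∈ X) {d : ℕ} {x : Fin n → K}
    (hx : IsCoord b A d x) (hE : IsPrimeDiv E) (hd : Dom A E) (hlt : disc b X E < d)
    (hE' : IsPrimeDiv E') (hd' : Dom A E') (hlt' : disc b X E' < d) : E = E' := by
  classical
  obtain ⟨C, -, hC, hXC⟩ := hX.charts
  obtain ⟨R, hRC, hRA⟩ := (hXC A).1 hA
  have hfrac : ∀ y : K, ∃ r ∈ A, ∃ s ∈ A, s ≠ 0 ∧ y = r * s⁻¹ := by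
    intro y
    have := (hC R hRC).2
    obtain ⟨r, s, hs, rfl⟩ := IsFractionRing.div_surjective (A := R) y
    refine ⟨r, hRA.1 r.2, s, hRA.1 s.2, ?_, ?_⟩
    · have := nonZeroDivisors.ne_zero hs
      intro h
      exact this (Subtype.ext h)
    · rw [div_eq_mul_inv]; rfl
  rcases Nat.eq_zero_or_pos d with hd0 | hd0
  · exfalso
    have htop : A = ⊤ := by
      rw [eq_top_iff]
      intro y _
      obtain ⟨r, hr, s, hs, hs0, rfl⟩ := hfrac y
      refine A.mul_mem hr ?_
      by_contra hcon
      obtain ⟨a, -, ha⟩ := hx.gen s hs hcon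
      apply hs0
      rw [ha]
      refine Finset.sum_eq_zero fun i hi => ?_
      have : (i : ℕ) < d := by simpa using hi
      omega
    apply hE.1.ne_top
    rw [eq_top_iff, ← htop]
    exact hd.1
  · have hn : 0 < n := lt_of_lt_of_le hd0 hx.le
    set i0 : Fin n := ⟨0, hn⟩ with hi0
    have hi0' : (i0 : ℕ) = 0 := rfl
    have ho := hx.ord_eq_one b hX hA hE hd hlt
    have ho' := hx.ord_eq_one b hX hA hE' hd' hlt'
    have hx0 : x i0 ≠ 0 := by
      intro h
      have h1 := ho i0 (by omega)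
      have h2 := hx.nonunit i0 (by omega)
      rw [h, inv_zero] at h2
      exact h2 A.zero_mem
    have hne : ∀ i : Fin n, (i : ℕ) < d → x i ≠ 0 := by
      intro i hi h
      have h2 := hx.nonunit i hi
      rw [h, inv_zero] at h2
      exact h2 A.zero_mem
    -- membership of values
    have hval : ∀ F : Subalgebra k K, IsPrimeDiv F → Dom A F →
        (∀ i : Fin n, (i : ℕ) < d → ord F (x i) = 1) →
        ∀ G : MvPolynomial (Fin n) K, (∀ s, G.coeff s ∈ A) →
        (∀ i ∈ G.vars, i ≠ i0 ∧ (i : ℕ) < d) →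
        MvPolynomial.aeval (blow d x i0) G ∈ F := by
      intro F hF hdF hoF G hG hv
      rw [← MvPolynomial.support_sum_monomial_coeff G, map_sum]
      refine F.sum_mem fun s hs => ?_
      rw [MvPolynomial.aeval_monomial]
      refine F.mul_mem (hdF.1 (hG s)) ?_
      rw [Finsupp.prod]
      refine F.prod_mem fun i hi => F.pow_mem ?_ _
      obtain ⟨h1, h2⟩ := hv i ((MvPolynomial.mem_vars_iff_mem_support i).2 ⟨s, hs, hi⟩)
      simp only [blow, h1, h2, if_false, if_true]
      rw [mem_iff hF.1 (mul_ne_zero (hne i h2) (inv_ne_zero hx0)),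
        ord_mul hF.1 (hne i h2) (inv_ne_zero hx0), ord_inv hF.1, hoF i h2, hoF i0 (by omega)]
      norm_num
    -- orders
    have hord : ∀ F : Subalgebra k K, IsPrimeDiv F → Dom A F → disc b X F < d →
        ∀ G : MvPolynomial (Fin n) K, (∀ s, G.coeff s ∈ A) →
        (∀ i ∈ G.vars, i ≠ i0 ∧ (i : ℕ) < d) → (∃ s, G.coeff s ≠ 0 ∧ (G.coeff s)⁻¹ ∈ A) →
        MvPolynomial.aeval (blow d x i0) G ≠ 0 ∧
          ord F (MvPolynomial.aeval (blow d x i0) G) = 0 := by
      intro F hF hdF hltF G hG hv hG1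
      have h := hx.unit_of_coeff b hX hA hF hdF hltF hi0' hd0 G hG hG1 hv
      refine ⟨h.1, (ord_eq_zero_iff hF.1 h.1).2 ⟨?_, h.2⟩⟩
      exact hval F hF hdF (hx.ord_eq_one b hX hA hF hdF hltF) G hG hv
    have main : ∀ (N : ℕ) (G : MvPolynomial (Fin n) K), (∀ s, G.coeff s ∈ A) →
        (∀ i ∈ G.vars, i ≠ i0 ∧ (i : ℕ) < d) → MvPolynomial.aeval (blow d x i0) G ≠ 0 →
        ord E (MvPolynomial.aeval (blow d x i0) G) ≤ N →
        ord E (MvPolynomial.aeval (blow d x i0) G) =
          ord E' (MvPolynomial.aeval (blow d x i0) G) := by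
      intro N
      induction N with
      | zero =>
        intro G hG hv hG0 hN
        by_cases hG1 : ∃ s, G.coeff s ≠ 0 ∧ (G.coeff s)⁻¹ ∈ A
        · rw [(hord E hE hd hlt G hG hv hG1).2, (hord E' hE' hd' hlt' G hG hv hG1).2]
        · push Not at hG1
          obtain ⟨G', hG', hv', he⟩ := Uniq_step b hx hx0 G hG hG1 hv
          rw [he] at hG0 hN
          have h2 : MvPolynomial.aeval (blow d x i0) G' ≠ 0 := right_ne_zero_of_mul hG0
          rw [ord_mul hE.1 hx0 h2, ho i0 (by omega)] at hN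
          have h3 := (mem_iff hE.1 h2).1 (hval E hE hd ho G' hG' hv')
          push_cast at hN
          omega
      | succ N ih =>
        intro G hG hv hG0 hN
        by_cases hG1 : ∃ s, G.coeff s ≠ 0 ∧ (G.coeff s)⁻¹ ∈ A
        · rw [(hord E hE hd hlt G hG hv hG1).2, (hord E' hE' hd' hlt' G hG hv hG1).2]
        · push Not at hG1
          obtain ⟨G', hG', hv', he⟩ := Uniq_step b hx hx0 G hG hG1 hv
          rw [he] at hG0 hN ⊢
          have h2 : MvPolynomial.aeval (blow d x i0) G' ≠ 0 := right_ne_zero_of_mul hG0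
          rw [ord_mul hE.1 hx0 h2, ho i0 (by omega)] at hN ⊢
          rw [ord_mul hE'.1 hx0 h2, ho' i0 (by omega)]
          rw [ih G' hG' hv' h2 (by push_cast at hN; omega)]
    refine IsDVR.ext_ord hE.1 hE'.1
      {f | ∃ G : MvPolynomial (Fin n) K, (∀ s, G.coeff s ∈ A) ∧
        (∀ i ∈ G.vars, i ≠ i0 ∧ (i : ℕ) < d) ∧ f = MvPolynomial.aeval (blow d x i0) G} ?_ ?_
    · have hc : ∀ r ∈ A, ∃ G : MvPolynomial (Fin n) K, (∀ s, G.coeff s ∈ A) ∧
          (∀ i ∈ G.vars, i ≠ i0 ∧ (i : ℕ) < d) ∧ r = MvPolynomial.aeval (blow d x i0) G := by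
        intro r hr
        refine ⟨MvPolynomial.C r, fun s => ?_, fun i hi => ?_, ?_⟩
        · rw [MvPolynomial.coeff_C]
          split_ifs
          · exact hr
          · exact A.zero_mem
        · rw [MvPolynomial.vars_C] at hi
          simp at hi
        · rw [MvPolynomial.aeval_C]; rfl
      intro y
      obtain ⟨r, hr, s, hs, hs0, rfl⟩ := hfrac y
      exact ⟨r, hc r hr, s, hc s hs, hs0, rfl⟩
    · rintro f ⟨G, hG, hv, rfl⟩ hf
      exact main _ G hG hv hf (Int.self_le_toNat _)

end Flip28
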