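import Pool.Agent.Flip_h28.Finite
import Pool.Agent.Flip_h28.Persist
import Pool.Agent.Flip_h28.F2
import Pool.Agent.Flip_h28.BlowB
import Pool.Agent.Flip_h28.Coord
import Pool.Agent.Flip_h28.Uniq

/-! # Termination of flips when the base locus of `|m K|` is small -/

open scoped KaehlerDifferential

set_option linter.unusedSectionVars false

namespace Flip28

variable {k K : Type*} [Field k] [Field K] [Algebra k K] [CharZero k]
  [Algebra.EssFiniteType k K] {n : ℕ} (b : Module.Basis (Fin n) K Ω[K⁄k])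

/-- the standing assumptions -/
structure Setup (c N : ℕ) (X Y : ℕ → Set (Subalgebra k K)) (m : ℤ) (S : Set K) : Prop where
  hc : 2 ≤ c
  hn : n ≤ 2 * c + 1
  hX : IsCompleteNormal (X 0)
  hf : ∀ i < N, IsFlip b (X i) (Y i) (X (i + 1))
  hm : 0 < m
  hS : S.Finite
  hsec : S ⊆ Sec b (X 0) m ⊥
  hBs : ∀ A ∈ Bs b (X 0) m S, (c : WithBot ℕ∞) ≤ ringKrullDim A
  h3 : ∀ i < N, ∀ F ∈ X (i + 1), F ∉ X i →
    ringKrullDim F ≤ ((max c (n - c) : ℕ) : WithBot ℕ∞) → Algebra.FormallySmooth k F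

variable {b}
variable {c N : ℕ} {X Y : ℕ → Set (Subalgebra k K)} {m : ℤ} {S : Set K}

theorem Setup.cn (h : Setup b c N X Y m S) : ∀ i ≤ N, IsCompleteNormal (X i) := by
  intro i hi
  rcases i with _ | i
  · exact h.hX
  · exact (h.hf i hi).mX'

theorem Setup.dim_nat (h : Setup b c N X Y m S) {i : ℕ} (hi : i ≤ N) {A : Subalgebra k K}
    (hA : A ∈ X i) : ∃ d : ℕ, ringKrullDim A = d := by
  obtain ⟨R, hR, hK, hRA, -⟩ := (h.cn i hi).exists_chart hA
  obtain ⟨d, e, hd, -, -⟩ := dim_formula hR hK hRA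
  exact ⟨d, hd⟩

theorem Setup.hfix (h : Setup b c N X Y m S) : ∀ P ∈ X 0, IsDVR P →
    ∃ s ∈ S, IsGen b (X 0) m P s := by
  intro P hP hd
  by_contra hcon
  push Not at hcon
  have h1 := h.hBs P ⟨hP, hcon⟩
  rw [(h.hX.isDVR_iff hP).1 hd] at h1
  have h2 : (c : WithBot ℕ∞) ≤ ((1 : ℕ) : WithBot ℕ∞) := by simpa using h1
  have h3 : c ≤ 1 := by exact_mod_cast h2
  have := h.hc
  omega

theorem isGen_congr {X X' : Set (Subalgebra k K)} (hXX : ∀ P, IsDVR P → (P ∈ X ↔ P ∈ X'))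
    {m : ℤ} {A : Subalgebra k K} {g : K} : IsGen b X m A g ↔ IsGen b X' m A g := by
  unfold IsGen
  constructor
  · rintro ⟨h0, h1⟩
    exact ⟨h0, fun P hP hd hA => h1 P ((hXX P hd).2 hP) hd hA⟩
  · rintro ⟨h0, h1⟩
    exact ⟨h0, fun P hP hd hA => h1 P ((hXX P hd).1 hP) hd hA⟩

theorem sec_congr {X X' : Set (Subalgebra k K)} (hXX : ∀ P, IsDVR P → (P ∈ X ↔ P ∈ X'))
    {m : ℤ} {y : Subalgebra k K} : Sec b X m y = Sec b X' m y := by
  ext g
  unfold Sec
  constructor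
  · intro h1 h0 P hP hd hA
    exact h1 h0 P ((hXX P hd).2 hP) hd hA
  · intro h1 h0 P hP hd hA
    exact h1 h0 P ((hXX P hd).1 hP) hd hA

theorem Setup.small_of (h : Setup b c N X Y m S) {i : ℕ} (hi : i < N)
    (hXX : ∀ P, IsDVR P → (P ∈ X i ↔ P ∈ X 0)) : ∀ P ∈ X i, IsDVR P → P ∈ Y i := by
  refine small_of_sections b (h.cn i hi.le) (h.hf i hi) h.hm (S := S) ?_ ?_
  · rw [sec_congr hXX]
    exact h.hsec
  · intro P hP hd
    obtain ⟨s, hs, hg⟩ := h.hfix P ((hXX P hd).1 hP) hd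
    exact ⟨s, hs, (isGen_congr hXX).2 hg⟩

theorem Setup.dvr (h : Setup b c N X Y m S) : ∀ i ≤ N, ∀ P, IsDVR P → (P ∈ X i ↔ P ∈ X 0) := by
  intro i
  induction i with
  | zero => intro _ P _; exact Iff.rfl
  | succ i ih =>
    intro hi P hd
    have hi' : i < N := hi
    have ih' := ih hi'.le
    have hfl := h.hf i hi'
    rw [← ih' P hd]
    constructor
    · intro hP
      exact dvr_up (h.cn i hi'.le) hfl.mY hfl.down (hfl.small' P hP hd) hd
    · intro hP
      exact dvr_up hfl.mX' hfl.mY hfl.down' (h.small_of hi' ih' P hP hd) hd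

theorem Setup.small (h : Setup b c N X Y m S) {i : ℕ} (hi : i < N) :
    ∀ P ∈ X i, IsDVR P → P ∈ Y i := h.small_of hi (h.dvr i hi.le)

/-- points where a section generates persist -/
theorem Setup.good_step (h : Setup b c N X Y m S) {i : ℕ} (hi : i < N) {A : Subalgebra k K}
    (hA : A ∈ X i) (hg : ∃ s ∈ S, IsGen b (X 0) m A s) : A ∈ X (i + 1) := by
  obtain ⟨s, hs, hg⟩ := hg
  have hXX := h.dvr i hi.le
  refine (persist b (h.cn i hi.le) (h.hf i hi) (h.small hi) h.hm hA (s := s) ?_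
    ((isGen_congr hXX).2 hg)).1
  rw [sec_congr hXX]
  exact h.hsec hs

theorem Setup.good (h : Setup b c N X Y m S) {A : Subalgebra k K}
    (hg : ∃ s ∈ S, IsGen b (X 0) m A s) {i : ℕ} (hA : A ∈ X i) :
    ∀ j, i ≤ j → j ≤ N → A ∈ X j := by
  intro j hij
  induction j, hij using Nat.le_induction with
  | base => intro _; exact hA
  | succ j hij ih =>
    intro hj
    exact h.good_step hj (ih (by omega)) hg

theorem Setup.disc_mono (h : Setup b c N X Y m S) {E : Subalgebra k K} (hE : IsPrimeDiv E)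
    {i : ℕ} : ∀ j, i ≤ j → j ≤ N → disc b (X i) E ≤ disc b (X j) E := by
  intro j hij
  induction j, hij using Nat.le_induction with
  | base => intro _; exact le_rfl
  | succ j hij ih =>
    intro hj
    exact (ih (by omega)).trans (disc_le b (h.cn j (by omega)) (h.hf j hj) hE)

/-- A flipped point is dominated by a prime divisor of discrepancy `d - 1` whose centre on `X 0`
lies in the base locus and whose discrepancy was smaller before the flip. -/
theorem Setup.blow (h : Setup b c N X Y m S) {i : ℕ} (hi : i < N) {F : Subalgebra k K}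
    (hF : F ∈ X (i + 1)) (hF' : F ∉ X i) {d : ℕ} (hd : ringKrullDim F = d) (hdc : d ≤ max c (n - c)) :
    ∃ E, IsPrimeDiv E ∧ (∃ A ∈ Bs b (X 0) m S, Dom A E) ∧
      disc b (X (i + 1)) E = (d : ℚ) - 1 ∧ disc b (X i) E < (d : ℚ) - 1 := by
  have hcn' := h.cn (i + 1) hi
  have hcn := h.cn i hi.le
  have hsm : Algebra.FormallySmooth k F := by
    apply h.h3 i hi F hF hF'
    rw [hd]
    exact_mod_cast hdc
  obtain ⟨R, hR, hK, hRF, -⟩ := hcn'.exists_chart hF
  obtain ⟨d', x, hx⟩ := exists_coord b hR hK hRF hsm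
  have hdd : d' = d := by
    have h1 := hx.dim
    rw [hd] at h1
    exact_mod_cast h1.symm
  subst hdd
  have hd0 : 0 < d' := by
    rcases Nat.eq_zero_or_pos d' with h0 | h0
    · exfalso
      subst h0
      have h1 : F = ⊤ := (hcn'.eq_top_iff hF).2 (by simpa using hd)
      exact hF' (h1 ▸ hcn.top_mem)
    · exact h0
  obtain ⟨E, hE, hFE, hdisc⟩ := hx.exists_blow b hcn' hF hd0
  have hEval : IsVal E := hE.1.isVal
  have hEloc := hEval.isLocalRing
  obtain ⟨A1, hA1, hA1E⟩ := hcn.exists_centre hEval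
  have hlt : disc b (X i) E < disc b (X (i + 1)) E :=
    disc_lt b hcn (h.hf i hi) hE hA1 hF hA1E hFE (fun he => hF' (he ▸ hA1))
  obtain ⟨A0, hA0, hA0E⟩ := h.hX.exists_centre hEval
  refine ⟨E, hE, ⟨A0, ⟨hA0, ?_⟩, hA0E⟩, hdisc, by rw [← hdisc]; exact hlt⟩
  intro s hs hg
  have hgood : ∃ s ∈ S, IsGen b (X 0) m A0 s := ⟨s, hs, hg⟩
  have h1 := h.good hgood hA0 (i + 1) (by omega) hi
  have h2 := h.good hgood hA0 i (by omega) hi.le
  have h3 : A0 = F := hcn'.unique h1 hF hEloc hA0E hFE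
  exact hF' (h3 ▸ h2)

/-- flipped points have codimension at least `c + 1` -/
theorem Setup.flipped_dim (h : Setup b c N X Y m S)
    (h1 : ∀ E, IsPrimeDiv E → ∀ A ∈ Bs b (X 0) m S, Dom A E → (c : ℚ) - 1 ≤ disc b (X 0) E)
    {i : ℕ} (hi : i < N) {F : Subalgebra k K}
    (hF : F ∈ X (i + 1)) (hF' : F ∉ X i) {d : ℕ} (hd : ringKrullDim F = d) : c + 1 ≤ d := by
  by_contra hcon
  push Not at hcon
  obtain ⟨E, hE, ⟨A, hA, hAE⟩, h2, h3⟩ := h.blow hi hF hF' hd
    (le_max_of_le_left (by omega))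
  have h4 := h1 E hE A hA hAE
  have h5 := h.disc_mono hE (i := 0) i (Nat.zero_le _) hi.le
  have h6 : (d : ℚ) ≤ c := by exact_mod_cast (by omega : d ≤ c)
  linarith

/-- points of codimension at most `c` never come back -/
theorem Setup.mem_of_le (h : Setup b c N X Y m S)
    (h1 : ∀ E, IsPrimeDiv E → ∀ A ∈ Bs b (X 0) m S, Dom A E → (c : ℚ) - 1 ≤ disc b (X 0) E)
    {L : Subalgebra k K} {d : ℕ} (hd : ringKrullDim L = d) (hdc : d ≤ c) {i : ℕ} :
    ∀ j, i ≤ j → j ≤ N → L ∈ X j → L ∈ X i := by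
  intro j hij
  induction j, hij using Nat.le_induction with
  | base => intro _ hL; exact hL
  | succ j hij ih =>
    intro hj hL
    apply ih (by omega)
    by_contra hcon
    have := h.flipped_dim h1 hj hL hcon hd
    omega

theorem Setup.removed (h : Setup b c N X Y m S)
    (h1 : ∀ E, IsPrimeDiv E → ∀ A ∈ Bs b (X 0) m S, Dom A E → (c : ℚ) - 1 ≤ disc b (X 0) E)
    {L : Subalgebra k K} {d : ℕ} (hd : ringKrullDim L = d) (hdc : d ≤ c) {i : ℕ} (hi : i < N)
    (hL : L ∈ X i) (hL' : L ∉ X (i + 1)) : L ∈ Bs b (X 0) m S ∧ d = c := by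
  have hL0 := h.mem_of_le h1 hd hdc (i := 0) i (Nat.zero_le _) hi.le hL
  have hB : L ∈ Bs b (X 0) m S := by
    refine ⟨hL0, fun s hs hg => hL' ?_⟩
    exact h.good_step hi hL ⟨s, hs, hg⟩
  refine ⟨hB, ?_⟩
  have h2 := h.hBs L hB
  rw [hd] at h2
  have h3 : c ≤ d := by exact_mod_cast h2
  omega

theorem Setup.bound (h : Setup b c N X Y m S)
    (h1 : ∀ E, IsPrimeDiv E → ∀ A ∈ Bs b (X 0) m S, Dom A E → (c : ℚ) - 1 ≤ disc b (X 0) E)
    (h2 : {E | IsPrimeDiv E ∧ (∃ A ∈ Bs b (X 0) m S, Dom A E) ∧ disc b (X 0) E < c}.Finite) :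
    N ≤ {A | A ∈ Bs b (X 0) m S ∧ ringKrullDim A = c}.ncard +
      {E | IsPrimeDiv E ∧ (∃ A ∈ Bs b (X 0) m S, Dom A E) ∧ disc b (X 0) E < c}.ncard := by
  classical
  set BB := {A | A ∈ Bs b (X 0) m S ∧ ringKrullDim A = c} with hBB
  set SS := {E | IsPrimeDiv E ∧ (∃ A ∈ Bs b (X 0) m S, Dom A E) ∧ disc b (X 0) E < c} with hSS
  have hBBfin : BB.Finite := finite_Bs b h.hX h.hS h.hsec h.hc h.hBs
  let T1 : Finset ℕ := (Finset.range N).filter
    (fun i => ∃ L ∈ X i, L ∉ X (i + 1) ∧ L ∈ BB)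
  let T2 : Finset ℕ := (Finset.range N).filter
    (fun i => ∃ E ∈ SS, disc b (X i) E < c ∧ disc b (X (i + 1)) E = c)
  have hcov : Finset.range N ⊆ T1 ∪ T2 := by
    intro i hi
    have hiN : i < N := Finset.mem_range.1 hi
    rw [Finset.mem_union]
    by_cases hT : ∃ L ∈ X i, L ∉ X (i + 1) ∧ L ∈ BB
    · left
      exact Finset.mem_filter.2 ⟨hi, hT⟩
    · right
      refine Finset.mem_filter.2 ⟨hi, ?_⟩
      have htr : Algebra.trdeg k K = n := by
        rw [trdeg_eq_finrank, Module.finrank_eq_card_basis b, Fintype.card_fin]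
      obtain ⟨A, hA, A', hA', hAX, hAX', hdim⟩ :=
        exists_big b (h.cn i hiN.le) (h.hf i hiN) (h.small hiN) htr
      obtain ⟨d, hd⟩ := h.dim_nat hiN.le hA
      obtain ⟨d', hd'⟩ := h.dim_nat hiN hA'
      have hdge : c + 1 ≤ d := by
        by_contra hcon
        push Not at hcon
        obtain ⟨h3, h4⟩ := h.removed h1 hd (by omega) hiN hA hAX
        exact hT ⟨A, hA, hAX, h3, by rw [hd, h4]⟩
      have hd'ge : c + 1 ≤ d' := h.flipped_dim h1 hiN hA' hAX' hd'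
      rw [hd, hd'] at hdim
      have hsum : d + d' ≤ n + 1 := by exact_mod_cast hdim
      have hn := h.hn
      have hd'eq : d' = c + 1 := by omega
      obtain ⟨E, hE, hEB, h3, h4⟩ := h.blow hiN hA' hAX' hd' (le_max_of_le_right (by omega))
      have h5 : ((d' : ℕ) : ℚ) - 1 = c := by
        rw [hd'eq]
        push_cast
        ring
      rw [h5] at h3 h4
      refine ⟨E, ⟨hE, hEB, ?_⟩, h4, h3⟩
      exact lt_of_le_of_lt (h.disc_mono hE (i := 0) i (Nat.zero_le _) hiN.le) h4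
  have hcard1 : T1.card ≤ BB.ncard := by
    rw [Set.ncard_eq_toFinset_card BB hBBfin]
    have hch : ∀ i ∈ T1, ∃ L ∈ X i, L ∉ X (i + 1) ∧ L ∈ BB := fun i hi =>
      (Finset.mem_filter.1 hi).2
    choose! f hf1 hf2 hf3 using hch
    refine Finset.card_le_card_of_injOn f (fun i hi => by
      simpa using hf3 i hi) ?_
    have key : ∀ i ∈ T1, ∀ j ∈ T1, i < j → f i ≠ f j := by
      intro i hi j hj hij he
      have hjN : j < N := Finset.mem_range.1 (Finset.mem_filter.1 hj).1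
      have h3 : f i ∈ X j := by rw [he]; exact hf1 j hj
      exact hf2 i hi (h.mem_of_le h1 (hf3 i hi).2 le_rfl (i := i + 1) j (by omega) hjN.le h3)
    intro i hi j hj he
    rcases lt_trichotomy i j with hlt | heq | hgt
    · exact absurd he (key i hi j hj hlt)
    · exact heq
    · exact absurd he.symm (key j hj i hi hgt)
  have hcard2 : T2.card ≤ SS.ncard := by
    rw [Set.ncard_eq_toFinset_card SS h2]
    have hch : ∀ i ∈ T2, ∃ E ∈ SS, disc b (X i) E < c ∧ disc b (X (i + 1)) E = c := fun i hi =>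
      (Finset.mem_filter.1 hi).2
    choose! f hf1 hf2 hf3 using hch
    refine Finset.card_le_card_of_injOn f (fun i hi => by
      simpa using hf1 i hi) ?_
    have key : ∀ i ∈ T2, ∀ j ∈ T2, i < j → f i ≠ f j := by
      intro i hi j hj hij he
      have hjN : j < N := Finset.mem_range.1 (Finset.mem_filter.1 hj).1
      have h3 := h.disc_mono (hf1 i hi).1 (i := i + 1) j (by omega) hjN.le
      rw [hf3 i hi, he] at h3
      exact absurd (hf2 j hj) (not_lt.2 h3)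
    intro i hi j hj he
    rcases lt_trichotomy i j with hlt | heq | hgt
    · exact absurd he (key i hi j hj hlt)
    · exact heq
    · exact absurd he.symm (key j hj i hi hgt)
  calc N = (Finset.range N).card := (Finset.card_range N).symm
    _ ≤ (T1 ∪ T2).card := Finset.card_le_card hcov
    _ ≤ T1.card + T2.card := Finset.card_union_le _ _
    _ ≤ _ := Nat.add_le_add hcard1 hcard2

/-- At the smooth points of the base locus the discrepancies are at least `c - 1`, and there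
is at most one prime divisor of discrepancy `< c` over each smooth point of codimension `c`. -/
theorem Setup.smooth (h : Setup b c N X Y m S)
    (h1 : ∀ E, IsPrimeDiv E → ∀ A ∈ Bs b (X 0) m S, Dom A E → ¬ Algebra.FormallySmooth k A →
      (c : ℚ) - 1 ≤ disc b (X 0) E)
    (h2 : {E | IsPrimeDiv E ∧ (∃ A ∈ Bs b (X 0) m S, Dom A E ∧ ¬ Algebra.FormallySmooth k A) ∧
      disc b (X 0) E < c}.Finite) :
    (∀ E, IsPrimeDiv E → ∀ A ∈ Bs b (X 0) m S, Dom A E → (c : ℚ) - 1 ≤ disc b (X 0) E) ∧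
    {E | IsPrimeDiv E ∧ (∃ A ∈ Bs b (X 0) m S, Dom A E) ∧ disc b (X 0) E < c}.Finite ∧
    {E | IsPrimeDiv E ∧ (∃ A ∈ Bs b (X 0) m S, Dom A E) ∧ disc b (X 0) E < c}.ncard ≤
      {A | A ∈ Bs b (X 0) m S ∧ ringKrullDim A = c}.ncard +
      {E | IsPrimeDiv E ∧ (∃ A ∈ Bs b (X 0) m S, Dom A E ∧ ¬ Algebra.FormallySmooth k A) ∧
      disc b (X 0) E < c}.ncard := by
  classical
  have hcoord : ∀ A ∈ Bs b (X 0) m S, Algebra.FormallySmooth k A →
      ∃ (d : ℕ) (x : Fin n → K), IsCoord b A d x := by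
    intro A hA hs
    obtain ⟨R, hR, hK, hRA, -⟩ := h.hX.exists_chart hA.1
    exact exists_coord b hR hK hRA hs
  have hcd : ∀ A ∈ Bs b (X 0) m S, ∀ (d : ℕ) (x : Fin n → K), IsCoord b A d x → c ≤ d := by
    intro A hA d x hx
    have h1 := h.hBs A hA
    rw [hx.dim] at h1
    exact_mod_cast h1
  set BB := {A | A ∈ Bs b (X 0) m S ∧ ringKrullDim A = c} with hBB
  set SS := {E | IsPrimeDiv E ∧ (∃ A ∈ Bs b (X 0) m S, Dom A E) ∧ disc b (X 0) E < c} with hSS
  set SN := {E | IsPrimeDiv E ∧ (∃ A ∈ Bs b (X 0) m S, Dom A E ∧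
    ¬ Algebra.FormallySmooth k A) ∧ disc b (X 0) E < c} with hSN
  let SM : Set (Subalgebra k K) := {E | IsPrimeDiv E ∧ (∃ A ∈ Bs b (X 0) m S, Dom A E ∧
    Algebra.FormallySmooth k A) ∧ disc b (X 0) E < c}
  have hBBfin : BB.Finite := finite_Bs b h.hX h.hS h.hsec h.hc h.hBs
  have hcover : SS ⊆ SM ∪ SN := by
    rintro E ⟨hE, ⟨A, hA, hAE⟩, hlt⟩
    by_cases hs : Algebra.FormallySmooth k A
    · exact Or.inl ⟨hE, ⟨A, hA, hAE, hs⟩, hlt⟩
    · exact Or.inr ⟨hE, ⟨A, hA, hAE, hs⟩, hlt⟩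
  have hdimc : ∀ E, IsPrimeDiv E → ∀ A ∈ Bs b (X 0) m S, Dom A E →
      Algebra.FormallySmooth k A → disc b (X 0) E < c →
      ∃ x : Fin n → K, IsCoord b A c x := by
    intro E hE A hA hAE hs hlt
    obtain ⟨d, x, hx⟩ := hcoord A hA hs
    have h1 := hcd A hA d x hx
    have h2 := hx.disc_ge_dim b h.hX hA.1 hE hAE
    have h3 : (d : ℚ) < c + 1 := by linarith
    have h4 : d < c + 1 := by exact_mod_cast h3
    have h5 : d = c := by omega
    exact ⟨x, h5 ▸ hx⟩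
  have hch : ∀ E ∈ SM, ∃ A ∈ Bs b (X 0) m S, Dom A E ∧ Algebra.FormallySmooth k A :=
    fun E hE => hE.2.1
  choose! f hf1 hf2 hf3 using hch
  have hmaps : ∀ E ∈ SM, f E ∈ BB := by
    intro E hE
    obtain ⟨x, hx⟩ := hdimc E hE.1 (f E) (hf1 E hE) (hf2 E hE) (hf3 E hE) hE.2.2
    exact ⟨hf1 E hE, hx.dim⟩
  have hinj : Set.InjOn f SM := by
    intro E hE E' hE' he
    obtain ⟨x, hx⟩ := hdimc E hE.1 (f E) (hf1 E hE) (hf2 E hE) (hf3 E hE) hE.2.2
    exact hx.unique b h.hX (hf1 E hE).1 hE.1 (hf2 E hE) hE.2.2 hE'.1 (he ▸ hf2 E' hE') hE'.2.2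
  have hSMfin : SM.Finite := Set.Finite.of_injOn hmaps hinj hBBfin
  refine ⟨?_, (hSMfin.union h2).subset hcover, ?_⟩
  · intro E hE A hA hAE
    by_cases hs : Algebra.FormallySmooth k A
    · obtain ⟨d, x, hx⟩ := hcoord A hA hs
      have h1 := hcd A hA d x hx
      have h2 := hx.disc_ge_dim b h.hX hA.1 hE hAE
      have h3 : (c : ℚ) ≤ d := by exact_mod_cast h1
      linarith
    · exact h1 E hE A hA hAE hs
  · calc SS.ncard ≤ (SM ∪ SN).ncard := Set.ncard_le_ncard hcover (hSMfin.union h2)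
      _ ≤ SM.ncard + SN.ncard := Set.ncard_union_le _ _
      _ ≤ BB.ncard + SN.ncard :=
        Nat.add_le_add_right (Set.ncard_le_ncard_of_injOn f hmaps hinj hBBfin) _

variable (b)

/-- The main theorem. -/
theorem main {c N : ℕ} (hc : 2 ≤ c) (hn : n ≤ 2 * c + 1)
    (X Y : ℕ → Set (Subalgebra k K)) (hX : IsCompleteNormal (X 0))
    (hf : ∀ i < N, IsFlip b (X i) (Y i) (X (i + 1)))
    {m : ℤ} (hm : 0 < m) {S : Set K} (hS : S.Finite) (hsec : S ⊆ Sec b (X 0) m ⊥)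
    (hBs : ∀ A ∈ Bs b (X 0) m S, (c : WithBot ℕ∞) ≤ ringKrullDim A)
    (h1 : ∀ E, IsPrimeDiv E → ∀ A ∈ Bs b (X 0) m S, Dom A E → ¬ Algebra.FormallySmooth k A →
      (c : ℚ) - 1 ≤ disc b (X 0) E)
    (h2 : {E | IsPrimeDiv E ∧ (∃ A ∈ Bs b (X 0) m S, Dom A E ∧ ¬ Algebra.FormallySmooth k A) ∧
      disc b (X 0) E < c}.Finite)
    (h3 : ∀ i < N, ∀ F ∈ X (i + 1), F ∉ X i →
      ringKrullDim F ≤ ((max c (n - c) : ℕ) : WithBot ℕ∞) → Algebra.FormallySmooth k F) :
    {A | A ∈ Bs b (X 0) m S ∧ ringKrullDim A = c}.Finite ∧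
    N ≤ 2 * {A | A ∈ Bs b (X 0) m S ∧ ringKrullDim A = c}.ncard +
      {E | IsPrimeDiv E ∧ (∃ A ∈ Bs b (X 0) m S, Dom A E ∧ ¬ Algebra.FormallySmooth k A) ∧
      disc b (X 0) E < c}.ncard := by
  have h : Setup b c N X Y m S := ⟨hc, hn, hX, hf, hm, hS, hsec, hBs, h3⟩
  obtain ⟨h4, h5, h6⟩ := h.smooth h1 h2
  refine ⟨finite_Bs b hX hS hsec hc hBs, ?_⟩
  have h7 := h.bound h4 h5
  omega

end Flip28
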