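import Pool.Agent.Flip_h28.UniqA
import Pool.Agent.Flip_h28.Dim

/-! # The divisor of smallest discrepancy over a smooth point is unique -/

open scoped KaehlerDifferential

namespace Flip28

variable {k K : Type*} [Field k] [Field K] [Algebra k K] {n : ℕ}
  (b : Module.Basis (Fin n) K Ω[K⁄k]) {X : Set (Subalgebra k K)}

/-- algebraic independence over the small residue field -/
theorem UniqB_indep.{u, v} {k : Type v} {F1 F : Type u} [Field k] [Field F1] [Field F]
    [Algebra k F1] [Algebra k F] (f : F1 →ₐ[k] F) {n d e : ℕ} (hn : n = d + e)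
    (he : Algebra.trdeg k F1 = e) (i0 : Fin n) (h0 : (i0 : ℕ) < d)
    (y : Fin n → F1) (z : Fin n → F) (hyz : ∀ i : Fin n, d ≤ (i : ℕ) → f (y i) = z i)
    (hz : AlgebraicIndependent k (fun i : {i : Fin n // i ≠ i0} => z i))
    (H : MvPolynomial (Fin n) F1) (hH : H ≠ 0) (hv : ∀ i ∈ H.vars, i ≠ i0 ∧ (i : ℕ) < d) :
    MvPolynomial.eval₂ (f : F1 →+* F) z H ≠ 0 := by
  let _ : Algebra F1 F := f.toRingHom.toAlgebra
  have htow : IsScalarTower k F1 F := IsScalarTower.of_algebraMap_eq fun c => (f.commutes c).symm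
  obtain ⟨g, hg1, hg2⟩ : ∃ g : {i : Fin n // i ≠ i0 ∧ (i : ℕ) < d} ⊕ {i : Fin n // d ≤ (i : ℕ)} →
      {i : Fin n // i ≠ i0}, Function.Injective g ∧ (fun i => z (g i)) =
        Sum.elim (fun i : {i : Fin n // i ≠ i0 ∧ (i : ℕ) < d} => z i)
          (fun i : {i : Fin n // d ≤ (i : ℕ)} => z i) := by
    refine ⟨Sum.elim (fun i => ⟨i.1, i.2.1⟩) (fun i => ⟨i.1, fun h => by
      have := i.2
      rw [h] at this
      omega⟩), ?_, ?_⟩
    · rintro (⟨i, hi⟩ | ⟨i, hi⟩) (⟨j, hj⟩ | ⟨j, hj⟩) h
      · have h1 : i = j := congrArg Subtype.val h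
        subst h1
        rfl
      · have h1 : i = j := congrArg Subtype.val h
        subst h1
        have := hi.2
        omega
      · have h1 : i = j := congrArg Subtype.val h
        subst h1
        have := hj.2
        omega
      · have h1 : i = j := congrArg Subtype.val h
        subst h1
        rfl
    · funext i
      rcases i with i | i <;> rfl
  have ha := hz.comp g hg1
  have ha2 : ((fun i : {i : Fin n // i ≠ i0} => z i) ∘ g) = fun i => z (g i) := rfl
  rw [ha2, hg2, AlgebraicIndependent.sumElim_iff] at ha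
  obtain ⟨hb, hc⟩ := ha
  have hy : AlgebraicIndependent k (fun i : {i : Fin n // d ≤ (i : ℕ)} => y i) := by
    apply AlgebraicIndependent.of_comp f
    have h1 : (f ∘ fun i : {i : Fin n // d ≤ (i : ℕ)} => y i) =
        fun i : {i : Fin n // d ≤ (i : ℕ)} => z i := by
      funext i
      exact hyz i.1 i.2
    rw [h1]
    exact hb
  have hcard : Fintype.card {i : Fin n // d ≤ (i : ℕ)} = e := by
    have h1 := Fintype.card_subtype_compl (fun i : Fin n => (i : ℕ) < d)
    have h2 : Fintype.card {i : Fin n // (i : ℕ) < d} = d := by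
      have h3 : Fintype.card {i : Fin n // (i : ℕ) < d} = Fintype.card (Fin d) :=
        Fintype.card_congr
          { toFun := fun i => ⟨i.1, i.2⟩
            invFun := fun i => ⟨⟨i, lt_of_lt_of_le i.2 (by omega)⟩, i.2⟩
            left_inv := fun i => rfl
            right_inv := fun i => rfl }
      rw [h3, Fintype.card_fin]
    have h4 : Fintype.card {i : Fin n // d ≤ (i : ℕ)} =
        Fintype.card {i : Fin n // ¬ (i : ℕ) < d} :=
      Fintype.card_congr (Equiv.subtypeEquivRight fun i => not_lt.symm)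
    rw [h4, h1, h2, Fintype.card_fin]
    omega
  have htb : IsTranscendenceBasis k (fun i : {i : Fin n // d ≤ (i : ℕ)} => y i) := by
    refine hy.isTranscendenceBasis_of_lift_trdeg_le_of_finite ?_
    rw [he, Cardinal.mk_fintype, hcard]
    simp
  have halg := htb.isAlgebraic
  obtain ⟨R1, hR1⟩ : ∃ R1 : Subalgebra k F1, R1 =
    Algebra.adjoin k (Set.range fun i : {i : Fin n // d ≤ (i : ℕ)} => y i) := ⟨_, rfl⟩
  obtain ⟨R2, hR2⟩ : ∃ R2 : Subalgebra k F, R2 =
    Algebra.adjoin k (Set.range fun i : {i : Fin n // d ≤ (i : ℕ)} => z i) := ⟨_, rfl⟩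
  rw [← hR1] at halg
  rw [← hR2] at hc
  have hmap : R1.map f = R2 := by
    have h2 : (f ∘ fun i : {i : Fin n // d ≤ (i : ℕ)} => y i) =
        fun i : {i : Fin n // d ≤ (i : ℕ)} => z i := by
      funext i
      exact hyz i.1 i.2
    rw [hR1, AlgHom.map_adjoin, ← Set.range_comp, h2, hR2]
  have hle : ∀ r : R1, f (r : F1) ∈ R2 := by
    intro r
    have h1 : f (r : F1) ∈ R1.map f := ⟨r, r.2, rfl⟩
    rw [hmap] at h1
    exact h1
  let alg12 : Algebra R1 R2 := ((f.comp R1.val).codRestrict R2 hle).toRingHom.toAlgebra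
  have htow2 : IsScalarTower R1 R2 F := IsScalarTower.of_algebraMap_eq fun r => rfl
  have hinj : Function.Injective (algebraMap R1 R2) := by
    intro a b hab
    have h4 := congrArg (fun z : R2 => (z : F)) hab
    exact Subtype.ext (f.injective h4)
  have hd1 : AlgebraicIndependent R1 (fun i : {i : Fin n // i ≠ i0 ∧ (i : ℕ) < d} => z i) :=
    hc.restrictScalars hinj
  have hd2 : AlgebraicIndependent F1 (fun i : {i : Fin n // i ≠ i0 ∧ (i : ℕ) < d} => z i) :=
    hd1.extendScalars F1
  obtain ⟨q, hq⟩ := MvPolynomial.exists_rename_eq_of_vars_subset_range H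
    (Subtype.val : {i : Fin n // i ≠ i0 ∧ (i : ℕ) < d} → Fin n) Subtype.val_injective
    (fun i hi => ⟨⟨i, hv i hi⟩, rfl⟩)
  intro h1
  rw [← hq, MvPolynomial.eval₂_rename] at h1
  have h2 : q = 0 := by
    apply (injective_iff_map_eq_zero _).1 hd2 q
    exact h1
  rw [h2, map_zero] at hq
  exact hH hq.symm

/-- lifting a polynomial with coefficients in a subalgebra -/
theorem UniqB_lift {σ : Type*} (A : Subalgebra k K) (G : MvPolynomial σ K)
    (hG : ∀ s, G.coeff s ∈ A) : ∃ G' : MvPolynomial σ A,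
      MvPolynomial.map (A.val : A →+* K) G' = G ∧ ∀ s, ((G'.coeff s : A) : K) = G.coeff s := by
  classical
  have h1 : MvPolynomial.map (A.val : A →+* K)
      (∑ s ∈ G.support, MvPolynomial.monomial s (⟨G.coeff s, hG s⟩ : A)) = G := by
    rw [map_sum]
    simp only [MvPolynomial.map_monomial]
    exact G.support_sum_monomial_coeff
  refine ⟨_, h1, fun s => ?_⟩
  have h2 := congrArg (MvPolynomial.coeff s) h1
  rw [MvPolynomial.coeff_map] at h2
  exact h2

theorem UniqB_vars {σ B : Type*} [CommRing B] (A : Subalgebra k K) (G : MvPolynomial σ K)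
    (G' : MvPolynomial σ A) (h : MvPolynomial.map (A.val : A →+* K) G' = G) (r : A →+* B)
    (i : σ) (hi : i ∈ (MvPolynomial.map r G').vars) : i ∈ G.vars := by
  classical
  rw [MvPolynomial.mem_vars_iff_mem_support] at hi ⊢
  obtain ⟨s, hs, hsi⟩ := hi
  refine ⟨s, ?_, hsi⟩
  rw [MvPolynomial.mem_support_iff, MvPolynomial.coeff_map] at hs
  rw [MvPolynomial.mem_support_iff, ← h, MvPolynomial.coeff_map]
  intro h1
  apply hs
  have h2 : G'.coeff s = 0 := Subtype.ext h1
  rw [h2, map_zero]

/-- units of `E` and the residue field -/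
theorem UniqB_unit {E : Subalgebra k K} [IsLocalRing E] (g : E)
    (hg : IsLocalRing.residue E g ≠ 0) : (g : K) ≠ 0 ∧ (g : K)⁻¹ ∈ E := by
  rw [IsLocalRing.residue_ne_zero_iff_isUnit] at hg
  obtain ⟨c, hc⟩ := hg.exists_right_inv
  have h1 : (g : K) * (c : K) = 1 := congrArg (fun z : E => (z : K)) hc
  refine ⟨left_ne_zero_of_mul_eq_one h1, ?_⟩
  rw [inv_eq_of_mul_eq_one_right h1]
  exact c.2

theorem UniqB_unit' {E : Subalgebra k K} [IsLocalRing E] (g : E) (h0 : (g : K) ≠ 0)
    (hg : (g : K)⁻¹ ∈ E) : IsLocalRing.residue E g ≠ 0 := by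
  rw [IsLocalRing.residue_ne_zero_iff_isUnit]
  refine IsUnit.of_mul_eq_one ⟨(g : K)⁻¹, hg⟩ ?_
  apply Subtype.ext
  exact mul_inv_cancel₀ h0

/-- If in addition `E` dominates `A` and has discrepancy `< d`: a polynomial in the
`x_i / x₀`, `0 < i < d`, with coefficients in `A` not all in the maximal ideal takes a unit value
in `E`.  (The residue field of `A` is algebraic over `k(x̄_i, i ≥ d)`, by the dimension formula,
so the residues of the `x_i / x₀` are algebraically independent over it.) -/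
theorem IsCoord.unit_of_coeff [CharZero k] [Algebra.EssFiniteType k K]
    (hX : IsCompleteNormal X) {A E : Subalgebra k K} (hA : A ∈ X) {d : ℕ} {x : Fin n → K}
    (hx : IsCoord b A d x) (hE : IsPrimeDiv E) (hd : Dom A E) (hlt : disc b X E < d)
    {i0 : Fin n} (h0 : (i0 : ℕ) = 0) (hd0 : 0 < d)
    (G : MvPolynomial (Fin n) K) (hG : ∀ s, G.coeff s ∈ A) (hG1 : ∃ s, G.coeff s ≠ 0 ∧
      (G.coeff s)⁻¹ ∈ A)
    (hv : ∀ i ∈ G.vars, i ≠ i0 ∧ (i : ℕ) < d) :
    MvPolynomial.aeval (blow d x i0) G ≠ 0 ∧ (MvPolynomial.aeval (blow d x i0) G)⁻¹ ∈ E := by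
  have iA : IsLocalRing A := hX.isLocalRing hA
  have iE : IsLocalRing E := hE.1.isVal.isLocalRing
  have hid : (i0 : ℕ) < d := by omega
  -- the dimension formula
  obtain ⟨R, hR, hRK, hRA, -⟩ := hX.exists_chart hA
  obtain ⟨d', e, g1, g2, g3⟩ := dim_formula hR hRK hRA
  have g4 : d' = d := by
    have h1 := g1.symm.trans hx.dim
    exact_mod_cast h1
  have g5 : Algebra.trdeg k K = n := by
    rw [trdeg_eq_finrank, Module.finrank_eq_card_basis b, Fintype.card_fin]
  have hn : n = d + e := by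
    rw [g5, g4] at g3
    exact_mod_cast g3
  -- the functions `z`
  have hxne : ∀ i : Fin n, (i : ℕ) < d → x i ≠ 0 := by
    intro i hi h1
    apply hx.nonunit i hi
    rw [h1, inv_zero]
    exact A.zero_mem
  have hord := hx.ord_eq_one b hX hA hE hd hlt
  obtain ⟨z, hz⟩ : ∃ z : Fin n → K, z = blow d x i0 := ⟨_, rfl⟩
  have hz0 : z i0 = x i0 := by
    rw [hz]
    unfold blow
    rw [if_pos rfl]
  have hz1 : ∀ i : Fin n, i ≠ i0 → (i : ℕ) < d → z i = x i * (x i0)⁻¹ := by
    intro i hi hi2
    rw [hz]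
    unfold blow
    rw [if_neg hi, if_pos hi2]
  have hz2 : ∀ i : Fin n, d ≤ (i : ℕ) → z i = x i := by
    intro i hi
    have hi0 : i ≠ i0 := by
      intro h1
      rw [h1] at hi
      omega
    rw [hz]
    unfold blow
    rw [if_neg hi0, if_neg (not_lt.2 hi)]
  have hzE : ∀ i, z i ∈ E := by
    intro i
    by_cases h1 : i = i0
    · rw [h1, hz0]
      exact hd.1 (hx.mem i0)
    · by_cases h2 : (i : ℕ) < d
      · rw [hz1 i h1 h2, mem_iff hE.1 (mul_ne_zero (hxne i h2) (inv_ne_zero (hxne i0 hid))),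
          ord_mul hE.1 (hxne i h2) (inv_ne_zero (hxne i0 hid)), ord_inv hE.1, hord i h2,
          hord i0 hid]
        omega
      · rw [hz2 i (not_lt.1 h2)]
        exact hd.1 (hx.mem i)
  have hjb := jac_blow b h0 hd0 hx.le (hxne i0 hid)
  rw [← hz] at hjb
  have hjz : jac b z ≠ 0 := by
    intro h1
    rw [h1, mul_zero] at hjb
    exact hx.ne hjb
  have hcz : cord b E = - ord E (jac b z) := by
    have h1 := hx.disc_eq b hX hA hE hd
    have h2 := hx.disc_ge_dim b hX hA hE hd
    rw [h1] at h2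
    rw [h1] at hlt
    have h3 : (d : ℤ) - 1 ≤ ord E (jac b x) + cord b E := by exact_mod_cast h2
    have h4 : ord E (jac b x) + cord b E < d := by exact_mod_cast hlt
    rw [hjb, ord_mul hE.1 (pow_ne_zero _ (hxne i0 hid)) hjz, ord_pow hE.1 (hxne i0 hid),
      hord i0 hid] at h3 h4
    have h5 : ((d - 1 : ℕ) : ℤ) = (d : ℤ) - 1 := by omega
    rw [h5] at h3 h4
    omega
  have hoz : ord E (z i0) = 1 := by
    rw [hz0]
    exact hord i0 hid
  -- residues
  obtain ⟨f, hf⟩ := DimC_map hd
  obtain ⟨zE, hzE'⟩ : ∃ zE : Fin n → E, ∀ i, (zE i : K) = z i := ⟨fun i => ⟨z i, hzE i⟩, fun _ => rfl⟩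
  have hres : ∀ (F : MvPolynomial (Fin n) k), IsLocalRing.residue E (MvPolynomial.aeval zE F) =
      MvPolynomial.aeval (fun i => IsLocalRing.residue E (zE i)) F := by
    intro F
    exact MvPolynomial.comp_aeval_apply zE (IsScalarTower.toAlgHom k E (IsLocalRing.ResidueField E)) F
  have hval : ∀ (F : MvPolynomial (Fin n) k), ((MvPolynomial.aeval zE F : E) : K) =
      MvPolynomial.aeval z F := by
    intro F
    have h1 := MvPolynomial.comp_aeval_apply zE E.val F
    have h2 : (fun i => E.val (zE i)) = z := funext hzE'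
    rw [h2] at h1
    exact h1
  have hind : AlgebraicIndependent k (fun i : {i : Fin n // i ≠ i0} =>
      IsLocalRing.residue E (zE i)) := by
    rw [algebraicIndependent_iff]
    intro p hp
    by_contra hp0
    have hF : MvPolynomial.rename (Subtype.val : {i : Fin n // i ≠ i0} → Fin n) p ≠ 0 := by
      intro h1
      apply hp0
      apply MvPolynomial.rename_injective _ Subtype.val_injective
      rw [h1, map_zero]
    have hv' : i0 ∉ (MvPolynomial.rename (Subtype.val : {i : Fin n // i ≠ i0} → Fin n) p).vars := by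
      classical
      intro h1
      obtain ⟨j, _, hj⟩ := Finset.mem_image.1 (MvPolynomial.vars_rename _ p h1)
      exact j.2 hj
    obtain ⟨h1, h2⟩ := residues_independent b hE hzE hjz hcz hoz _ hF hv'
    rw [← hval] at h1 h2
    apply UniqB_unit' _ h2 h1
    rw [hres, MvPolynomial.aeval_rename]
    exact hp
  -- the polynomial `G`
  obtain ⟨G', hG', hG'c⟩ := UniqB_lift A G hG
  have hH : MvPolynomial.map (IsLocalRing.residue A) G' ≠ 0 := by
    obtain ⟨s, hs1, hs2⟩ := hG1
    intro h1
    have h2 := congrArg (MvPolynomial.coeff s) h1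
    rw [MvPolynomial.coeff_map, MvPolynomial.coeff_zero] at h2
    rw [← hG'c] at hs1 hs2
    exact UniqB_unit' _ hs1 hs2 h2
  have hHv : ∀ i ∈ (MvPolynomial.map (IsLocalRing.residue A) G').vars,
      i ≠ i0 ∧ (i : ℕ) < d := by
    intro i hi
    exact hv i (UniqB_vars A G G' hG' (IsLocalRing.residue A) i hi)
  have key := UniqB_indep f hn g2 i0 hid (fun i => IsLocalRing.residue A ⟨x i, hx.mem i⟩)
    (fun i => IsLocalRing.residue E (zE i)) (fun i hi => by
      rw [hf]
      congr 1
      apply Subtype.ext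
      change x i = zE i
      rw [hzE', hz2 i hi]) hind _ hH hHv
  rw [MvPolynomial.eval₂_map] at key
  have hcomp : ((f : IsLocalRing.ResidueField A →+* IsLocalRing.ResidueField E)).comp
      (IsLocalRing.residue A) = (IsLocalRing.residue E).comp
        (Subalgebra.inclusion hd.1 : A →+* E) := by
    ext a
    exact hf a
  rw [hcomp] at key
  have h6 : IsLocalRing.residue E (MvPolynomial.eval₂ (Subalgebra.inclusion hd.1 : A →+* E) zE G') =
      MvPolynomial.eval₂ ((IsLocalRing.residue E).comp (Subalgebra.inclusion hd.1 : A →+* E))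
        (fun i => IsLocalRing.residue E (zE i)) G' :=
    MvPolynomial.eval₂_comp_left (IsLocalRing.residue E) _ _ _
  rw [← h6] at key
  have h7 := UniqB_unit _ key
  have h8 : ((MvPolynomial.eval₂ (Subalgebra.inclusion hd.1 : A →+* E) zE G' : E) : K) =
      MvPolynomial.aeval z G := by
    have h9 : E.val (MvPolynomial.eval₂ (Subalgebra.inclusion hd.1 : A →+* E) zE G') =
        MvPolynomial.eval₂ ((E.val : E →+* K).comp (Subalgebra.inclusion hd.1 : A →+* E))
          ((E.val : E →+* K) ∘ zE) G' :=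
      MvPolynomial.eval₂_comp_left (E.val : E →+* K) _ _ _
    have h10 : ((E.val : E →+* K) ∘ zE) = z := funext hzE'
    rw [h10] at h9
    have h11 : MvPolynomial.aeval z G = MvPolynomial.eval₂ (A.val : A →+* K) z G' := by
      rw [← hG', MvPolynomial.aeval_def, MvPolynomial.eval₂_map]
      rfl
    rw [h11]
    exact h9
  rw [h8, hz] at h7
  exact h7

end Flip28
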